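import Pool.Agent.MP_67227b_nt.Al.AlDefs

set_option autoImplicit false

open Filter Topology Set MeasureTheory Complex
open scoped Real ArithmeticFunction ContDiff

namespace Pool.Agent.MP_67227b_nt.Al

open Pool.Agent.Lib.ZetaCount_helper33 Pool.Agent.MP_67227b_nt Pool.Agent.MP_67227b_nt.Mo
open Pool.Agent.MP_67227b_nt.Sg Pool.Agent.MP_67227b_nt.Pp

private theorem M3_mem {T : ℝ} {k n : ℕ} {p : Fin k → ℕ} (hp : p ∈ PT' T k n) :
    (∀ j, (p j).Prime) ∧ ∏ j, p j = n := by
  classical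
  unfold PT' at hp
  obtain ⟨h1, h2⟩ := Finset.mem_filter.1 hp
  exact ⟨fun j => (Finset.mem_filter.1 (Fintype.mem_piFinset.1 h1 j)).2, h2⟩

private theorem M3_card {T : ℝ} {k n K : ℕ} (hk : k ≤ K) : ((PT' T k n).card : ℝ) ≤ (K : ℝ) ^ k := by
  classical
  rcases (PT' T k n).eq_empty_or_nonempty with h0 | ⟨p0, hp0⟩
  · rw [h0]; simp
  · obtain ⟨hpp0, hpn0⟩ := M3_mem hp0
    have h1 : n.primeFactors.card ≤ k := by
      have hsub : n.primeFactors ⊆ Finset.univ.image p0 := by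
        intro q hq
        have hq1 := Nat.prime_of_mem_primeFactors hq
        have hq2 := Nat.dvd_of_mem_primeFactors hq
        rw [← hpn0] at hq2
        obtain ⟨j, _, hj⟩ := (Prime.dvd_finsetProd_iff hq1.prime _).1 hq2
        exact Finset.mem_image.2 ⟨j, Finset.mem_univ j,
          ((Nat.prime_dvd_prime_iff_eq hq1 (hpp0 j)).1 hj).symm⟩
      calc n.primeFactors.card ≤ (Finset.univ.image p0).card := Finset.card_le_card hsub
        _ ≤ Finset.univ.card := Finset.card_image_le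
        _ = k := by rw [Finset.card_univ, Fintype.card_fin]
    have hn0 : n ≠ 0 := by
      rw [← hpn0]
      exact (Finset.prod_pos (fun j _ => (hpp0 j).pos)).ne'
    have h2 : PT' T k n ⊆ Fintype.piFinset (fun _ : Fin k => n.primeFactors) := by
      intro p hp
      obtain ⟨hpp, hpn⟩ := M3_mem hp
      rw [Fintype.mem_piFinset]
      intro j
      have hd : p j ∣ n := by
        rw [← hpn]
        exact Finset.dvd_prod_of_mem p (Finset.mem_univ j)
      exact Nat.mem_primeFactors.2 ⟨hpp j, hd, hn0⟩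
    have h3 : (PT' T k n).card ≤ K ^ k := by
      calc (PT' T k n).card ≤ (Fintype.piFinset (fun _ : Fin k => n.primeFactors)).card :=
            Finset.card_le_card h2
        _ = n.primeFactors.card ^ k := by
            rw [Fintype.card_piFinset, Finset.prod_const, Finset.card_univ, Fintype.card_fin]
        _ ≤ K ^ k := Nat.pow_le_pow_left (h1.trans hk) k
    exact_mod_cast h3

/-- MODULE M3. Copy of `Pp.ap_bound` (Pp/PpApB.lean): at most `K^k` tuples of primes,
`∑_J ∏_j |a| ph ≤ M^k`, and `∑_{k ≤ K} (K M)^k/k! ≤ e^{KM}`. -/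
theorem apa_bound {T η κ M : ℝ} {a : ℕ → ℝ} (hη : 0 < η) (hM : ∀ i, |a i| ≤ M)
    (i0 i1 K n : ℕ) : |apa a T η κ i0 i1 K n| ≤ Real.exp (K * M) := by
  classical
  have hM0 : 0 ≤ M := (abs_nonneg _).trans (hM 0)
  unfold apa
  have h1 : ∀ k ∈ Finset.range (K + 1), |(1 / (k.factorial : ℝ)) *
      ∑ J ∈ Tup η κ i0 i1 k, ∑ p ∈ PT' T k n,
        ∏ j, (a (J j) * ph η (J j) (Real.log (p j) / Real.log T))| ≤
      ((K : ℝ) * M) ^ k / (k.factorial : ℝ) := by
    intro k hk
    have hkK : k ≤ K := by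
      have := Finset.mem_range.1 hk
      omega
    have hnn : ∀ (J : Fin k → ℕ) (p : Fin k → ℕ),
        0 ≤ ∏ j, (M * ph η (J j) (Real.log (p j) / Real.log T)) := fun J p =>
      Finset.prod_nonneg (fun j _ => mul_nonneg hM0 (ph_nonneg hη _ _))
    have hp1 : ∀ p : Fin k → ℕ, ∑ J ∈ Tup η κ i0 i1 k,
        ∏ j, (M * ph η (J j) (Real.log (p j) / Real.log T)) ≤ M ^ k := by
      intro p
      calc ∑ J ∈ Tup η κ i0 i1 k, ∏ j, (M * ph η (J j) (Real.log (p j) / Real.log T))
          ≤ ∑ J ∈ Fintype.piFinset (fun _ : Fin k => Finset.Ico i0 i1),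
            ∏ j, (M * ph η (J j) (Real.log (p j) / Real.log T)) := by
            apply Finset.sum_le_sum_of_subset_of_nonneg
            · unfold Tup
              exact Finset.filter_subset _ _
            · exact fun J _ _ => hnn J p
        _ = ∏ j : Fin k, ∑ i ∈ Finset.Ico i0 i1,
              (M * ph η i (Real.log (p j) / Real.log T)) := by
            rw [Finset.prod_univ_sum]
        _ ≤ ∏ _j : Fin k, M := by
            refine Finset.prod_le_prod
              (fun j _ => Finset.sum_nonneg (fun i _ => mul_nonneg hM0 (ph_nonneg hη _ _)))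
              (fun j _ => ?_)
            rw [← Finset.mul_sum]
            exact mul_le_of_le_one_right hM0 (sum_ph_le η i0 i1 _)
        _ = M ^ k := by rw [Finset.prod_const, Finset.card_univ, Fintype.card_fin]
    have h2 : |∑ J ∈ Tup η κ i0 i1 k, ∑ p ∈ PT' T k n,
        ∏ j, (a (J j) * ph η (J j) (Real.log (p j) / Real.log T))| ≤
        ∑ J ∈ Tup η κ i0 i1 k, ∑ p ∈ PT' T k n,
          ∏ j, (M * ph η (J j) (Real.log (p j) / Real.log T)) := by
      refine (Finset.abs_sum_le_sum_abs _ _).trans (Finset.sum_le_sum (fun J _ => ?_))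
      refine (Finset.abs_sum_le_sum_abs _ _).trans (Finset.sum_le_sum (fun p _ => ?_))
      rw [Finset.abs_prod]
      refine Finset.prod_le_prod (fun j _ => abs_nonneg _) (fun j _ => ?_)
      rw [abs_mul, abs_of_nonneg (ph_nonneg hη _ _)]
      exact mul_le_mul_of_nonneg_right (hM _) (ph_nonneg hη _ _)
    have h3 : ∑ J ∈ Tup η κ i0 i1 k, ∑ p ∈ PT' T k n,
        ∏ j, (M * ph η (J j) (Real.log (p j) / Real.log T)) ≤ ((K : ℝ) * M) ^ k := by
      rw [Finset.sum_comm]
      calc ∑ p ∈ PT' T k n, ∑ J ∈ Tup η κ i0 i1 k,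
            ∏ j, (M * ph η (J j) (Real.log (p j) / Real.log T))
          ≤ ∑ p ∈ PT' T k n, M ^ k := Finset.sum_le_sum (fun p _ => hp1 p)
        _ = ((PT' T k n).card : ℝ) * M ^ k := by
            rw [Finset.sum_const, nsmul_eq_mul]
        _ ≤ (K : ℝ) ^ k * M ^ k :=
            mul_le_mul_of_nonneg_right (M3_card hkK) (pow_nonneg hM0 k)
        _ = ((K : ℝ) * M) ^ k := (mul_pow _ _ _).symm
    rw [abs_mul, abs_div, abs_one, Nat.abs_cast, one_div, inv_mul_eq_div]
    exact div_le_div_of_nonneg_right (h2.trans h3) (by positivity)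
  calc |∑ k ∈ Finset.range (K + 1), (1 / (k.factorial : ℝ)) *
      ∑ J ∈ Tup η κ i0 i1 k, ∑ p ∈ PT' T k n,
        ∏ j, (a (J j) * ph η (J j) (Real.log (p j) / Real.log T))|
      ≤ ∑ k ∈ Finset.range (K + 1), |(1 / (k.factorial : ℝ)) *
      ∑ J ∈ Tup η κ i0 i1 k, ∑ p ∈ PT' T k n,
        ∏ j, (a (J j) * ph η (J j) (Real.log (p j) / Real.log T))| :=
        Finset.abs_sum_le_sum_abs _ _
    _ ≤ ∑ k ∈ Finset.range (K + 1), ((K : ℝ) * M) ^ k / (k.factorial : ℝ) :=
        Finset.sum_le_sum h1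
    _ ≤ Real.exp (K * M) :=
        Real.sum_le_exp_of_nonneg (mul_nonneg (Nat.cast_nonneg K) hM0) _

/-- MODULE M4. Copy of `Pp.ap_rough` (Pp/PpApB.lean). -/
theorem apa_rough {T η κ : ℝ} {a : ℕ → ℝ} (hT : 1 < T) (hη : 0 < η) {i0 i1 K n : ℕ}
    (h : apa a T η κ i0 i1 K n ≠ 0) :
    n ≠ 0 ∧ ∀ p : ℕ, p.Prime → p ∣ n → (i0 : ℝ) * η * Real.log T ≤ Real.log p := by
  classical
  have hlT : 0 < Real.log T := Real.log_pos hT
  unfold apa at h
  obtain ⟨k, _, hk⟩ := Finset.exists_ne_zero_of_sum_ne_zero h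
  obtain ⟨J, hJ, hk2⟩ := Finset.exists_ne_zero_of_sum_ne_zero (right_ne_zero_of_mul hk)
  obtain ⟨p, hp, hk3⟩ := Finset.exists_ne_zero_of_sum_ne_zero hk2
  obtain ⟨hpp, hpn⟩ := M3_mem hp
  refine ⟨?_, ?_⟩
  · rw [← hpn]
    exact (Finset.prod_pos (fun j _ => (hpp j).pos)).ne'
  · intro q hq hqn
    rw [← hpn] at hqn
    obtain ⟨j, _, hj⟩ := (Prime.dvd_finsetProd_iff hq.prime _).1 hqn
    have hqj : q = p j := (Nat.prime_dvd_prime_iff_eq hq (hpp j)).1 hj
    have h2 : ph η (J j) (Real.log (p j) / Real.log T) ≠ 0 :=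
      right_ne_zero_of_mul (Finset.prod_ne_zero_iff.1 hk3 j (Finset.mem_univ j))
    have hJj : i0 ≤ J j := by
      unfold Tup at hJ
      exact (Finset.mem_Ico.1 (Fintype.mem_piFinset.1 (Finset.mem_filter.1 hJ).1 j)).1
    have hJj' : (i0 : ℝ) ≤ J j := by exact_mod_cast hJj
    rw [hqj]
    by_contra h3
    push Not at h3
    apply h2
    apply ph_zero_left hη
    rw [div_le_iff₀ hlT]
    have h4 : (i0 : ℝ) * η * Real.log T ≤ (J j : ℝ) * η * Real.log T := by gcongr
    linarith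

end Pool.Agent.MP_67227b_nt.Al
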