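import Pool.Agent.MP_67227b_nt.Al.AlDefs

set_option autoImplicit false

open Filter Topology Set MeasureTheory Complex
open scoped Real ArithmeticFunction ContDiff

namespace Pool.Agent.MP_67227b_nt.Al

open Pool.Agent.Lib.ZetaCount_helper33 Pool.Agent.MP_67227b_nt Pool.Agent.MP_67227b_nt.Mo
open Pool.Agent.MP_67227b_nt.Sg Pool.Agent.MP_67227b_nt.Pp

private theorem M1_cpow {k : ℕ} (p : Fin k → ℕ) (s : ℂ) (S : Finset (Fin k)) :
    ∏ j ∈ S, ((p j : ℕ) : ℂ) ^ (-s) = ((∏ j ∈ S, p j : ℕ) : ℂ) ^ (-s) := by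
  classical
  induction S using Finset.induction_on with
  | empty => simp
  | insert a S ha ih =>
    rw [Finset.prod_insert ha, Finset.prod_insert ha, ih, Nat.cast_mul,
      Complex.natCast_mul_natCast_cpow]

private theorem M1_mem {T η κ : ℝ} (hT : 1 < T) (hη : 0 < η) {i0 i1 k : ℕ}
    {J : Fin k → ℕ} (hJ : J ∈ Tup η κ i0 i1 k) {p : Fin k → ℕ}
    (hp : ∀ j, (p j).Prime)
    (hne : ∏ j, ph η (J j) (Real.log (p j) / Real.log T) ≠ 0) :
    ∏ j, p j ∈ Finset.Icc 1 ⌊T ^ κ⌋₊ := by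
  classical
  have hlT : 0 < Real.log T := Real.log_pos hT
  have h1 : ∀ j, Real.log (p j) ≤ ((J j : ℝ) + 2) * η * Real.log T := by
    intro j
    have h2 : ph η (J j) (Real.log (p j) / Real.log T) ≠ 0 :=
      Finset.prod_ne_zero_iff.1 hne j (Finset.mem_univ j)
    by_contra h3
    push Not at h3
    exact h2 (ph_zero_right hη (by rw [le_div_iff₀ hlT]; exact h3.le))
  have hJ2 : ∑ j, ((J j : ℝ) + 2) * η ≤ κ := by
    unfold Tup at hJ
    exact (Finset.mem_filter.1 hJ).2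
  have hpos : ∀ j, (0 : ℝ) < p j := fun j => by exact_mod_cast (hp j).pos
  have h4 : Real.log ((∏ j, p j : ℕ) : ℝ) ≤ κ * Real.log T := by
    rw [Nat.cast_prod, Real.log_prod (fun j _ => (hpos j).ne')]
    calc ∑ j, Real.log (p j) ≤ ∑ j, ((J j : ℝ) + 2) * η * Real.log T :=
          Finset.sum_le_sum (fun j _ => h1 j)
      _ = (∑ j, ((J j : ℝ) + 2) * η) * Real.log T := by rw [Finset.sum_mul]
      _ ≤ κ * Real.log T := mul_le_mul_of_nonneg_right hJ2 hlT.le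
  have h5 : 0 < ∏ j, p j := Finset.prod_pos (fun j _ => (hp j).pos)
  rw [Finset.mem_Icc]
  refine ⟨h5, Nat.le_floor ?_⟩
  have h6 : (0 : ℝ) < ((∏ j, p j : ℕ) : ℝ) := by exact_mod_cast h5
  rw [← Real.log_le_log_iff h6 (by positivity), Real.log_rpow (by linarith)]
  exact h4

private theorem M1_prod {T η κ : ℝ} (hT : 1 < T) (hη : 0 < η) (a : ℕ → ℝ) {i0 i1 k : ℕ}
    {J : Fin k → ℕ} (hJ : J ∈ Tup η κ i0 i1 k) (s : ℂ) :
    ∏ j, ((a (J j) : ℂ) * Qi T η (J j) s) = ∑ n ∈ Finset.Icc 1 ⌊T ^ κ⌋₊,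
      ((∑ p ∈ PT' T k n, ∏ j, (a (J j) * ph η (J j) (Real.log (p j) / Real.log T)) : ℝ) : ℂ) *
        (n : ℂ) ^ (-s) := by
  classical
  unfold Qi
  simp only [Finset.mul_sum]
  rw [Finset.prod_univ_sum]
  have hterm : ∀ p ∈ Fintype.piFinset (fun _ : Fin k => (Finset.Icc 1 ⌊T⌋₊).filter Nat.Prime),
      ∏ j, ((a (J j) : ℂ) * (((ph η (J j) (Real.log (p j) / Real.log T) : ℝ) : ℂ) *
        ((p j : ℕ) : ℂ) ^ (-s))) =
      ∑ n ∈ Finset.Icc 1 ⌊T ^ κ⌋₊, if ∏ j, p j = n then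
        ((∏ j, (a (J j) * ph η (J j) (Real.log (p j) / Real.log T)) : ℝ) : ℂ) *
          (n : ℂ) ^ (-s) else 0 := by
    intro p hp
    have hpp : ∀ j, (p j).Prime := fun j =>
      (Finset.mem_filter.1 (Fintype.mem_piFinset.1 hp j)).2
    have hre : ∏ j, ((a (J j) : ℂ) * (((ph η (J j) (Real.log (p j) / Real.log T) : ℝ) : ℂ) *
        ((p j : ℕ) : ℂ) ^ (-s))) =
        ((∏ j, (a (J j) * ph η (J j) (Real.log (p j) / Real.log T)) : ℝ) : ℂ) *
          ((∏ j, p j : ℕ) : ℂ) ^ (-s) := by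
      rw [← M1_cpow, Complex.ofReal_prod, ← Finset.prod_mul_distrib]
      refine Finset.prod_congr rfl (fun j _ => ?_)
      push_cast
      ring
    rw [Finset.sum_ite_eq, hre]
    by_cases hz : ∏ j, ph η (J j) (Real.log (p j) / Real.log T) = 0
    · rw [Finset.prod_mul_distrib, hz]
      simp
    · rw [if_pos (M1_mem hT hη hJ hpp hz)]
  rw [Finset.sum_congr rfl hterm, Finset.sum_comm]
  refine Finset.sum_congr rfl (fun n _ => ?_)
  rw [← Finset.sum_filter, ← Finset.sum_mul, Complex.ofReal_sum]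
  unfold PT'
  rfl

/-- MODULE M1. Copy of `Pp.Ap_eq` (Pp/PpPh.lean, copy the private lemmas): expand the products; the
constants `a (J j)` are carried along. -/
theorem Apa_eq {T η κ : ℝ} (hT : 1 < T) (hη : 0 < η) (hκ : 0 ≤ κ) (a : ℕ → ℝ) (i0 i1 K : ℕ)
    (s : ℂ) : Apa a T η κ i0 i1 K s = Aa (apa a T η κ i0 i1 K) ⌊T ^ κ⌋₊ s := by
  unfold Apa Aa apa
  have h1 : ∀ k ∈ Finset.range (K + 1), (1 / (k.factorial : ℂ)) *
      ∑ J ∈ Tup η κ i0 i1 k, ∏ j, ((a (J j) : ℂ) * Qi T η (J j) s) =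
      ∑ n ∈ Finset.Icc 1 ⌊T ^ κ⌋₊, (((1 / (k.factorial : ℝ)) *
        ∑ J ∈ Tup η κ i0 i1 k, ∑ p ∈ PT' T k n,
          ∏ j, (a (J j) * ph η (J j) (Real.log (p j) / Real.log T)) :
          ℝ) : ℂ) * (n : ℂ) ^ (-s) := by
    intro k _
    rw [Finset.sum_congr rfl (fun J hJ => M1_prod hT hη a hJ s), Finset.sum_comm, Finset.mul_sum]
    refine Finset.sum_congr rfl (fun n _ => ?_)
    rw [← Finset.sum_mul, Complex.ofReal_mul, Complex.ofReal_sum, ← mul_assoc]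
    push_cast
    rfl
  rw [Finset.sum_congr rfl h1, Finset.sum_comm]
  refine Finset.sum_congr rfl (fun n _ => ?_)
  rw [← Finset.sum_mul, Complex.ofReal_sum]

end Pool.Agent.MP_67227b_nt.Al
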