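import Pool.Agent.MP_67227b_nt.Al.AlDefs

set_option autoImplicit false

open Filter Topology Set MeasureTheory Complex
open scoped Real ArithmeticFunction ContDiff

namespace Pool.Agent.MP_67227b_nt.Al

open Pool.Agent.Lib.ZetaCount_helper33 Pool.Agent.MP_67227b_nt Pool.Agent.MP_67227b_nt.Mo
open Pool.Agent.MP_67227b_nt.Sg Pool.Agent.MP_67227b_nt.Pp

private theorem M6_mem {T : ℝ} {k n : ℕ} {p : Fin k → ℕ} (hp : p ∈ PT' T k n) :
    (∀ j, (p j).Prime) ∧ ∏ j, p j = n := by
  classical
  unfold PT' at hp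
  obtain ⟨h1, h2⟩ := Finset.mem_filter.1 hp
  exact ⟨fun j => (Finset.mem_filter.1 (Fintype.mem_piFinset.1 h1 j)).2, h2⟩

/-- The tuple of primes enumerates the prime factors. -/
private theorem M6_inj {T : ℝ} {k n : ℕ} (hn : Squarefree n) {p : Fin k → ℕ}
    (hp : p ∈ PT' T k n) : Function.Injective p ∧ n.primeFactors = Finset.univ.image p := by
  classical
  obtain ⟨hpp, hpn⟩ := M6_mem hp
  have hinj : Function.Injective p := by
    intro i j hij
    by_contra hne
    have h1 : p i * p i ∣ n := by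
      rw [← hpn, ← Finset.mul_prod_erase Finset.univ p (Finset.mem_univ i)]
      apply Nat.mul_dvd_mul_left
      conv_lhs => rw [hij]
      exact Finset.dvd_prod_of_mem p (Finset.mem_erase.2 ⟨fun h => hne h.symm, Finset.mem_univ j⟩)
    exact (hpp i).ne_one (Nat.isUnit_iff.1 (hn _ h1))
  refine ⟨hinj, ?_⟩
  ext q
  rw [Nat.mem_primeFactors, Finset.mem_image]
  constructor
  · rintro ⟨hq1, hq2, _⟩
    rw [← hpn] at hq2
    obtain ⟨j, _, hj⟩ := (Prime.dvd_finsetProd_iff hq1.prime _).1 hq2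
    exact ⟨j, Finset.mem_univ j, ((Nat.prime_dvd_prime_iff_eq hq1 (hpp j)).1 hj).symm⟩
  · rintro ⟨j, _, rfl⟩
    refine ⟨hpp j, ?_, hn.ne_zero⟩
    rw [← hpn]
    exact Finset.dvd_prod_of_mem p (Finset.mem_univ j)

private theorem M6_prod {T : ℝ} {k n : ℕ} (hn : Squarefree n) {p : Fin k → ℕ}
    (hp : p ∈ PT' T k n) (f : ℕ → ℝ) : ∏ q ∈ n.primeFactors, f q = ∏ j, f (p j) := by
  classical
  obtain ⟨hinj, himg⟩ := M6_inj hn hp
  rw [himg, Finset.prod_image (fun i _ j _ h => hinj h)]

private theorem M6_sum {T : ℝ} {k n : ℕ} (hn : Squarefree n) {p : Fin k → ℕ}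
    (hp : p ∈ PT' T k n) (f : ℕ → ℝ) : ∑ q ∈ n.primeFactors, f q = ∑ j, f (p j) := by
  classical
  obtain ⟨hinj, himg⟩ := M6_inj hn hp
  rw [himg, Finset.sum_image (fun i _ j _ h => hinj h)]

private theorem M6_len {T : ℝ} {k n : ℕ} (hn : Squarefree n) {p : Fin k → ℕ}
    (hp : p ∈ PT' T k n) : k = n.primeFactors.card := by
  classical
  obtain ⟨hinj, himg⟩ := M6_inj hn hp
  rw [himg, Finset.card_image_of_injective _ hinj, Finset.card_univ, Fintype.card_fin]

private theorem M6_empty {T : ℝ} {k n : ℕ} (hn : Squarefree n) (hk : k ≠ n.primeFactors.card) :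
    PT' T k n = ∅ := by
  by_contra hne
  obtain ⟨p, hpm⟩ := Finset.nonempty_iff_ne_empty.2 hne
  exact hk (M6_len hn hpm)

private theorem M6_surj {T : ℝ} {n : ℕ} (hn : Squarefree n) {p : Fin n.primeFactors.card → ℕ}
    (hp : p ∈ PT' T n.primeFactors.card n) :
    ∃ e : Fin n.primeFactors.card ≃ {x // x ∈ n.primeFactors},
      (fun j => ((e j : {x // x ∈ n.primeFactors}) : ℕ)) = p := by
  classical
  obtain ⟨hinj, himg⟩ := M6_inj hn hp
  have hmem : ∀ j, p j ∈ n.primeFactors := fun j => by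
    rw [himg]; exact Finset.mem_image_of_mem p (Finset.mem_univ j)
  have hbij := (Fintype.bijective_iff_injective_and_card
    (fun j => (⟨p j, hmem j⟩ : {x // x ∈ n.primeFactors}))).2
    ⟨fun i j h => hinj (congrArg Subtype.val h), by simp⟩
  exact ⟨Equiv.ofBijective _ hbij, rfl⟩

private theorem M6_cardEquiv (n : ℕ) :
    Fintype.card (Fin n.primeFactors.card ≃ {x // x ∈ n.primeFactors}) =
      n.primeFactors.card.factorial := by
  rw [Fintype.card_equiv n.primeFactors.equivFin.symm, Fintype.card_fin]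

private theorem M6_card_le {T : ℝ} {n : ℕ} (hn : Squarefree n) :
    (PT' T n.primeFactors.card n).card ≤ n.primeFactors.card.factorial := by
  classical
  rw [← M6_cardEquiv n, ← Finset.card_univ]
  refine Finset.card_le_card_of_surjOn
    (fun e => fun j => ((e j : {x // x ∈ n.primeFactors}) : ℕ)) ?_
  intro p hp
  obtain ⟨e, he⟩ := M6_surj hn (Finset.mem_coe.1 hp)
  exact ⟨e, Finset.mem_coe.2 (Finset.mem_univ e), he⟩

private theorem M6_card {T : ℝ} {n : ℕ} (hn : Squarefree n)
    (hT : ∀ p : ℕ, p.Prime → p ∣ n → p ≤ ⌊T⌋₊) :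
    (PT' T n.primeFactors.card n).card = n.primeFactors.card.factorial := by
  classical
  rw [← M6_cardEquiv n, ← Finset.card_univ]
  symm
  apply Finset.card_bij (fun e _ => fun j => ((e j : {x // x ∈ n.primeFactors}) : ℕ))
  · intro e _
    unfold PT'
    rw [Finset.mem_filter, Fintype.mem_piFinset]
    refine ⟨fun j => ?_, ?_⟩
    · have h2 := (e j).2
      have h3 := Nat.prime_of_mem_primeFactors h2
      rw [Finset.mem_filter, Finset.mem_Icc]
      exact ⟨⟨h3.one_lt.le, hT _ h3 (Nat.dvd_of_mem_primeFactors h2)⟩, h3⟩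
    · rw [Equiv.prod_comp e (fun x : {x // x ∈ n.primeFactors} => (x : ℕ)),
        Finset.prod_coe_sort n.primeFactors (fun x => x), Nat.prod_primeFactors_of_squarefree hn]
  · intro e _ e' _ h
    apply Equiv.ext
    intro j
    exact Subtype.ext (congrFun h j)
  · intro p hp
    obtain ⟨e, he⟩ := M6_surj hn hp
    exact ⟨e, Finset.mem_univ _, he⟩

/-- The sum over all tuples of indices. -/
private theorem M6_full {T η : ℝ} {a : ℕ → ℝ} {i0 i1 n k : ℕ} (hn : Squarefree n)
    {p : Fin k → ℕ} (hp : p ∈ PT' T k n) :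
    ∑ J ∈ Fintype.piFinset (fun _ : Fin k => Finset.Ico i0 i1),
      ∏ j, (a (J j) * ph η (J j) (Real.log (p j) / Real.log T)) =
      ∏ q ∈ n.primeFactors, hS a η i0 i1 (Real.log q / Real.log T) := by
  classical
  rw [M6_prod hn hp (fun q => hS a η i0 i1 (Real.log q / Real.log T))]
  unfold hS
  rw [Finset.prod_univ_sum]

/-- MODULE M6a. Let `n` be squarefree with `k` prime factors. The tuples of primes with product `n`
are the enumerations of the prime factors (length `k`, at most `k!` of them; exactly `k!` if all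
primes are `≤ T`); see the private lemmas `A3_*` of Pp/PpApG.lean. For nonnegative `a`:
`∑_{J ∈ Tup} ∏ a ph ≤ ∏_j ∑_{i ∈ Ico} a i ph = ∏ hS` (drop the condition on `J`). -/
theorem apa_le {T η κ : ℝ} {a : ℕ → ℝ} (hη : 0 < η) (ha : ∀ i, 0 ≤ a i) {i0 i1 K n : ℕ}
    (hn : Squarefree n) : apa a T η κ i0 i1 K n ≤
      ∏ p ∈ n.primeFactors, hS a η i0 i1 (Real.log p / Real.log T) := by
  classical
  set m := n.primeFactors.card with hm
  set P := ∏ p ∈ n.primeFactors, hS a η i0 i1 (Real.log p / Real.log T) with hP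
  have hP0 : 0 ≤ P := Finset.prod_nonneg (fun q _ => by
    unfold hS
    exact Finset.sum_nonneg (fun i _ => mul_nonneg (ha i) (ph_nonneg hη _ _)))
  unfold apa
  have hother : ∀ k : ℕ, k ≠ m → (1 / (k.factorial : ℝ)) *
      ∑ J ∈ Tup η κ i0 i1 k, ∑ p ∈ PT' T k n,
        ∏ j, (a (J j) * ph η (J j) (Real.log (p j) / Real.log T)) = 0 := by
    intro k hk
    rw [M6_empty hn hk]
    simp
  have hmain : (1 / (m.factorial : ℝ)) *
      ∑ J ∈ Tup η κ i0 i1 m, ∑ p ∈ PT' T m n,
        ∏ j, (a (J j) * ph η (J j) (Real.log (p j) / Real.log T)) ≤ P := by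
    rw [Finset.sum_comm]
    have h1 : ∑ p ∈ PT' T m n, ∑ J ∈ Tup η κ i0 i1 m,
        ∏ j, (a (J j) * ph η (J j) (Real.log (p j) / Real.log T)) ≤ ∑ p ∈ PT' T m n, P := by
      refine Finset.sum_le_sum (fun p hp => ?_)
      rw [hP, ← M6_full hn hp]
      apply Finset.sum_le_sum_of_subset_of_nonneg
      · unfold Tup
        exact Finset.filter_subset _ _
      · exact fun J _ _ => Finset.prod_nonneg
          (fun j _ => mul_nonneg (ha _) (ph_nonneg hη _ _))
    have h2 : ∑ p ∈ PT' T m n, P ≤ (m.factorial : ℝ) * P := by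
      rw [Finset.sum_const, nsmul_eq_mul]
      have h3 : ((PT' T m n).card : ℝ) ≤ (m.factorial : ℝ) := by
        exact_mod_cast M6_card_le hn
      exact mul_le_mul_of_nonneg_right h3 hP0
    rw [one_div, inv_mul_le_iff₀ (by positivity)]
    exact h1.trans h2
  by_cases hmK : m ∈ Finset.range (K + 1)
  · rw [Finset.sum_eq_single_of_mem m hmK (fun k _ hk => hother k hk)]
    exact hmain
  · rw [Finset.sum_eq_zero (fun k hk => hother k (fun h => hmK (h ▸ hk)))]
    exact hP0

/-- MODULE M6b. Equality if `log n ≤ (κ - 2Kη) log T` (copy of the proof of `Pp.ap_good`,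
Pp/PpApG.lean): then a term with `∏ ph ≠ 0` has `∑ (J j) η ≤ log n/log T`, so if `k ≤ K`,
`∑ (J j + 2) η ≤ κ`, i.e. `J ∈ Tup`. If `k > K`, the left side is `0` (no tuple of length `≤ K`), and
so is the right side: otherwise all `x_p > i0 η` and `(K+1) i0 η ≤ log n/log T ≤ κ`. -/
theorem apa_good {T η κ : ℝ} {a : ℕ → ℝ} (hT : 1 < T) (hη : 0 < η) (hκ : κ ≤ 1)
    {i0 i1 K n : ℕ} (hi0 : 1 ≤ i0) (hK : κ < ((K : ℝ) + 1) * ((i0 : ℝ) * η)) (hn : Squarefree n)
    (hlog : Real.log n ≤ (κ - 2 * K * η) * Real.log T) :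
    apa a T η κ i0 i1 K n =
      ∏ p ∈ n.primeFactors, hS a η i0 i1 (Real.log p / Real.log T) := by
  classical
  have hlT : 0 < Real.log T := Real.log_pos hT
  have hn0 : 0 < n := Nat.pos_of_ne_zero hn.ne_zero
  have hn0' : (0 : ℝ) < n := by exact_mod_cast hn0
  have hKη : 0 ≤ 2 * (K : ℝ) * η := by positivity
  have hi0' : (1 : ℝ) ≤ i0 := by exact_mod_cast hi0
  have hlogn : Real.log n = ∑ q ∈ n.primeFactors, Real.log q := by
    conv_lhs => rw [← Nat.prod_primeFactors_of_squarefree hn]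
    rw [Nat.cast_prod, Real.log_prod]
    intro q hq
    exact_mod_cast (Nat.prime_of_mem_primeFactors hq).ne_zero
  have hnT : Real.log n / Real.log T ≤ κ - 2 * K * η := by
    rw [div_le_iff₀ hlT]
    exact hlog
  have hle : ∀ p : ℕ, p.Prime → p ∣ n → p ≤ ⌊T⌋₊ := by
    intro p hpp hpn
    apply Nat.le_floor
    have h1 : Real.log p ≤ Real.log n := by
      apply Real.log_le_log (by exact_mod_cast hpp.pos)
      exact_mod_cast Nat.le_of_dvd hn0 hpn
    have h2 : Real.log n ≤ 1 * Real.log T :=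
      hlog.trans (mul_le_mul_of_nonneg_right (by linarith) hlT.le)
    rw [one_mul] at h2
    exact (Real.log_le_log_iff (by exact_mod_cast hpp.pos) (by linarith)).1 (h1.trans h2)
  set m := n.primeFactors.card with hm
  have hother : ∀ k : ℕ, k ≠ m → (1 / (k.factorial : ℝ)) *
      ∑ J ∈ Tup η κ i0 i1 k, ∑ p ∈ PT' T k n,
        ∏ j, (a (J j) * ph η (J j) (Real.log (p j) / Real.log T)) = 0 := by
    intro k hk
    rw [M6_empty hn hk]
    simp
  unfold apa
  by_cases hmK : m ∈ Finset.range (K + 1)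
  · rw [Finset.sum_eq_single_of_mem m hmK (fun k _ hk => hother k hk)]
    have hmK' : (m : ℝ) ≤ K := by
      have := Finset.mem_range.1 hmK
      exact_mod_cast (by omega : m ≤ K)
    have hJ : ∀ p ∈ PT' T m n, ∑ J ∈ Tup η κ i0 i1 m,
        ∏ j, (a (J j) * ph η (J j) (Real.log (p j) / Real.log T)) =
        ∏ q ∈ n.primeFactors, hS a η i0 i1 (Real.log q / Real.log T) := by
      intro p hpm
      rw [← M6_full hn hpm]
      unfold Tup
      rw [Finset.sum_filter_of_ne]
      intro J _ hne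
      have h1 : ∀ j, (J j : ℝ) * η ≤ Real.log (p j) / Real.log T := by
        intro j
        by_contra h3
        push Not at h3
        exact right_ne_zero_of_mul (Finset.prod_ne_zero_iff.1 hne j (Finset.mem_univ j))
          (ph_zero_left hη h3.le)
      have hsum : ∑ j, Real.log (p j) / Real.log T = Real.log n / Real.log T := by
        rw [← Finset.sum_div, hlogn, M6_sum hn hpm (fun q => Real.log q)]
      calc ∑ j, ((J j : ℝ) + 2) * η = ∑ j, (J j : ℝ) * η + ∑ _j : Fin m, 2 * η := by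
            rw [← Finset.sum_add_distrib]
            exact Finset.sum_congr rfl (fun j _ => by ring)
        _ ≤ ∑ j, Real.log (p j) / Real.log T + ∑ _j : Fin m, 2 * η := by
            gcongr with j _
            exact h1 j
        _ = Real.log n / Real.log T + (m : ℝ) * (2 * η) := by
            rw [hsum, Finset.sum_const, Finset.card_univ, Fintype.card_fin, nsmul_eq_mul]
        _ ≤ (κ - 2 * K * η) + (K : ℝ) * (2 * η) := by
            gcongr
        _ = κ := by ring
    rw [Finset.sum_comm, Finset.sum_congr rfl hJ, Finset.sum_const, M6_card hn hle,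
      nsmul_eq_mul, ← mul_assoc, one_div, inv_mul_cancel₀ (by positivity), one_mul]
  · rw [Finset.sum_eq_zero (fun k hk => hother k (fun h => hmK (h ▸ hk)))]
    by_contra hne
    have hne' : ∀ q ∈ n.primeFactors, hS a η i0 i1 (Real.log q / Real.log T) ≠ 0 := by
      intro q hq h0
      exact hne (Finset.prod_eq_zero hq h0).symm
    have h1 : ∀ q ∈ n.primeFactors, (i0 : ℝ) * η ≤ Real.log q / Real.log T := by
      intro q hq
      by_contra hlt
      push Not at hlt
      apply hne' q hq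
      unfold hS
      refine Finset.sum_eq_zero (fun i hi => ?_)
      rw [ph_zero_left hη, mul_zero]
      have h2 : (i0 : ℝ) ≤ i := by exact_mod_cast (Finset.mem_Ico.1 hi).1
      exact hlt.le.trans (mul_le_mul_of_nonneg_right h2 hη.le)
    have h2 : (m : ℝ) * ((i0 : ℝ) * η) ≤ Real.log n / Real.log T := by
      rw [hlogn, Finset.sum_div, ← nsmul_eq_mul]
      exact Finset.card_nsmul_le_sum _ _ _ h1
    have h3 : (K : ℝ) + 1 ≤ m := by
      have : ¬ m < K + 1 := fun h => hmK (Finset.mem_range.2 h)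
      exact_mod_cast (by omega : K + 1 ≤ m)
    have h4 : ((K : ℝ) + 1) * ((i0 : ℝ) * η) ≤ (m : ℝ) * ((i0 : ℝ) * η) :=
      mul_le_mul_of_nonneg_right h3 (by positivity)
    linarith

end Pool.Agent.MP_67227b_nt.Al
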