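import Pool.Agent.MP_67227b_nt.Al.AlDefs

set_option autoImplicit false

open Filter Topology Set MeasureTheory Complex
open scoped Real ArithmeticFunction ContDiff

namespace Pool.Agent.MP_67227b_nt.Al

open Pool.Agent.Lib.ZetaCount_helper33 Pool.Agent.MP_67227b_nt Pool.Agent.MP_67227b_nt.Mo
open Pool.Agent.MP_67227b_nt.Sg Pool.Agent.MP_67227b_nt.Pp

/-- MODULE M2. Copy of `Pp.norm_Ap_le` (Pp/PpPh.lean):
`‖Apa‖ ≤ ∑_k (1/k!) (M ∑_i ‖Qi‖)^k ≤ exp (M ∑_i ‖Qi‖)`. -/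
theorem norm_Apa_le {T η κ M : ℝ} {a : ℕ → ℝ} (hη : 0 < η) (hM : ∀ i, |a i| ≤ M)
    (i0 i1 K : ℕ) (s : ℂ) :
    ‖Apa a T η κ i0 i1 K s‖ ≤ Real.exp (M * ∑ i ∈ (Finset.Ico i0 i1).filter
      (fun i : ℕ => ((i : ℝ) + 2) * η ≤ κ), ‖Qi T η i s‖) := by
  classical
  have hM0 : 0 ≤ M := (abs_nonneg _).trans (hM 0)
  set S := (Finset.Ico i0 i1).filter (fun i : ℕ => ((i : ℝ) + 2) * η ≤ κ) with hS
  have hsub : ∀ k : ℕ, Tup η κ i0 i1 k ⊆ Fintype.piFinset (fun _ : Fin k => S) := by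
    intro k J hJ
    unfold Tup at hJ
    obtain ⟨hJ1, hJ2⟩ := Finset.mem_filter.1 hJ
    rw [Fintype.mem_piFinset]
    intro j
    rw [hS, Finset.mem_filter]
    refine ⟨Fintype.mem_piFinset.1 hJ1 j, le_trans ?_ hJ2⟩
    exact Finset.single_le_sum (f := fun j => ((J j : ℝ) + 2) * η)
      (fun i _ => by positivity) (Finset.mem_univ j)
  have h1 : ∀ k : ℕ, ‖∑ J ∈ Tup η κ i0 i1 k, ∏ j, ((a (J j) : ℂ) * Qi T η (J j) s)‖ ≤
      (M * ∑ i ∈ S, ‖Qi T η i s‖) ^ k := by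
    intro k
    calc ‖∑ J ∈ Tup η κ i0 i1 k, ∏ j, ((a (J j) : ℂ) * Qi T η (J j) s)‖
        ≤ ∑ J ∈ Tup η κ i0 i1 k, ‖∏ j, ((a (J j) : ℂ) * Qi T η (J j) s)‖ := norm_sum_le _ _
      _ ≤ ∑ J ∈ Tup η κ i0 i1 k, ∏ j, (M * ‖Qi T η (J j) s‖) := by
          refine Finset.sum_le_sum (fun J _ => ?_)
          rw [norm_prod]
          refine Finset.prod_le_prod (fun j _ => norm_nonneg _) (fun j _ => ?_)
          rw [norm_mul, Complex.norm_real, Real.norm_eq_abs]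
          exact mul_le_mul_of_nonneg_right (hM _) (norm_nonneg _)
      _ ≤ ∑ J ∈ Fintype.piFinset (fun _ : Fin k => S), ∏ j, (M * ‖Qi T η (J j) s‖) :=
          Finset.sum_le_sum_of_subset_of_nonneg (hsub k)
            (fun J _ _ => Finset.prod_nonneg (fun j _ => mul_nonneg hM0 (norm_nonneg _)))
      _ = ∏ _j : Fin k, ∑ i ∈ S, (M * ‖Qi T η i s‖) := by rw [Finset.prod_univ_sum]
      _ = (M * ∑ i ∈ S, ‖Qi T η i s‖) ^ k := by
          rw [Finset.prod_const, Finset.card_univ, Fintype.card_fin, Finset.mul_sum]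
  unfold Apa
  calc ‖∑ k ∈ Finset.range (K + 1), (1 / (k.factorial : ℂ)) *
        ∑ J ∈ Tup η κ i0 i1 k, ∏ j, ((a (J j) : ℂ) * Qi T η (J j) s)‖
      ≤ ∑ k ∈ Finset.range (K + 1), ‖(1 / (k.factorial : ℂ)) *
        ∑ J ∈ Tup η κ i0 i1 k, ∏ j, ((a (J j) : ℂ) * Qi T η (J j) s)‖ := norm_sum_le _ _
    _ ≤ ∑ k ∈ Finset.range (K + 1), (M * ∑ i ∈ S, ‖Qi T η i s‖) ^ k / (k.factorial : ℝ) := by
        refine Finset.sum_le_sum (fun k _ => ?_)
        rw [norm_mul, norm_div, norm_one, Complex.norm_natCast, one_div, inv_mul_eq_div]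
        exact div_le_div_of_nonneg_right (h1 k) (by positivity)
    _ ≤ Real.exp (M * ∑ i ∈ S, ‖Qi T η i s‖) :=
        Real.sum_le_exp_of_nonneg
          (mul_nonneg hM0 (Finset.sum_nonneg (fun i _ => norm_nonneg _))) _

private theorem M2_cont (T η : ℝ) (i : ℕ) : Continuous (Qi T η i) := by
  unfold Qi
  refine continuous_finset_sum _ (fun p hp => ?_)
  have hp0 : (p : ℂ) ≠ 0 := by
    exact_mod_cast (Finset.mem_filter.1 hp).2.ne_zero
  exact continuous_const.mul (Continuous.const_cpow continuous_neg (Or.inl hp0))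

theorem continuous_Apa (a : ℕ → ℝ) (T η κ : ℝ) (i0 i1 K : ℕ) :
    Continuous (Apa a T η κ i0 i1 K) := by
  unfold Apa
  refine continuous_finset_sum _ (fun k _ => continuous_const.mul ?_)
  refine continuous_finset_sum _ (fun J _ => ?_)
  exact continuous_finset_prod _ (fun j _ => continuous_const.mul (M2_cont T η (J j)))

end Pool.Agent.MP_67227b_nt.Al
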