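import Pool.Agent.MP_67227b_nt.Al.AlDefs

set_option autoImplicit false

open Filter Topology Set MeasureTheory Complex
open scoped Real ArithmeticFunction ContDiff

namespace Pool.Agent.MP_67227b_nt.Al

open Pool.Agent.Lib.ZetaCount_helper33 Pool.Agent.MP_67227b_nt Pool.Agent.MP_67227b_nt.Mo
open Pool.Agent.MP_67227b_nt.Sg Pool.Agent.MP_67227b_nt.Pp

private theorem M5_mem {T : ℝ} {k n : ℕ} {p : Fin k → ℕ} (hp : p ∈ PT' T k n) :
    (∀ j, (p j).Prime) ∧ ∏ j, p j = n := by
  classical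
  unfold PT' at hp
  obtain ⟨h1, h2⟩ := Finset.mem_filter.1 hp
  exact ⟨fun j => (Finset.mem_filter.1 (Fintype.mem_piFinset.1 h1 j)).2, h2⟩

/-- A product over the prime factors of a squarefree number is the product over the tuple. -/
private theorem M5_prod {T : ℝ} {k n : ℕ} (hn : Squarefree n) {p : Fin k → ℕ}
    (hp : p ∈ PT' T k n) (f : ℕ → ℝ) : ∏ q ∈ n.primeFactors, f q = ∏ j, f (p j) := by
  classical
  obtain ⟨hpp, hpn⟩ := M5_mem hp
  have hinj : Function.Injective p := by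
    intro i j hij
    by_contra hne
    have h1 : p i * p i ∣ n := by
      rw [← hpn, ← Finset.mul_prod_erase Finset.univ p (Finset.mem_univ i)]
      apply Nat.mul_dvd_mul_left
      conv_lhs => rw [hij]
      exact Finset.dvd_prod_of_mem p (Finset.mem_erase.2 ⟨fun h => hne h.symm, Finset.mem_univ j⟩)
    exact (hpp i).ne_one (Nat.isUnit_iff.1 (hn _ h1))
  have himg : n.primeFactors = Finset.univ.image p := by
    ext q
    rw [Nat.mem_primeFactors, Finset.mem_image]
    constructor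
    · rintro ⟨hq1, hq2, _⟩
      rw [← hpn] at hq2
      obtain ⟨j, _, hj⟩ := (Prime.dvd_finsetProd_iff hq1.prime _).1 hq2
      exact ⟨j, Finset.mem_univ j, ((Nat.prime_dvd_prime_iff_eq hq1 (hpp j)).1 hj).symm⟩
    · rintro ⟨j, _, rfl⟩
      refine ⟨hpp j, ?_, hn.ne_zero⟩
      rw [← hpn]
      exact Finset.dvd_prod_of_mem p (Finset.mem_univ j)
  rw [himg, Finset.prod_image (fun i _ j _ h => hinj h)]

/-- MODULE M5a. Nonnegative weights give nonnegative coefficients (`Pp.ph_nonneg`). -/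
theorem apa_nonneg {T η κ : ℝ} {a : ℕ → ℝ} (hη : 0 < η) (ha : ∀ i, 0 ≤ a i)
    (i0 i1 K n : ℕ) : 0 ≤ apa a T η κ i0 i1 K n := by
  unfold apa
  refine Finset.sum_nonneg (fun k _ => mul_nonneg (by positivity) ?_)
  refine Finset.sum_nonneg (fun J _ => Finset.sum_nonneg (fun p _ => ?_))
  exact Finset.prod_nonneg (fun j _ => mul_nonneg (ha _) (ph_nonneg hη _ _))

/-- MODULE M5b. The signs. In the sum defining `apa a n`, `n` squarefree, the `p j` are the prime
factors of `n`, each once (`∏ p j = n`, all `p j` prime), and a nonzero term has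
`ph η (J j) x_j ≠ 0`, `x_j = log (p j)/log T`, so `x_j ∈ [(J j) η, (J j + 2) η]` (`Pp.ph_zero_left`,
`Pp.ph_zero_right`) and `a (J j) = τ(x_j) |a (J j)|`. -/
theorem apa_sign {T η κ : ℝ} {a : ℕ → ℝ} {τ : ℝ → ℝ} (hT : 1 < T) (hη : 0 < η) {i0 i1 K n : ℕ}
    (ha : ∀ i ∈ Finset.Ico i0 i1, ∀ x ∈ Icc ((i : ℝ) * η) (((i : ℝ) + 2) * η),
      a i = τ x * |a i|) (hn : Squarefree n) :
    apa a T η κ i0 i1 K n = (∏ p ∈ n.primeFactors, τ (Real.log p / Real.log T)) *
      apa (fun i => |a i|) T η κ i0 i1 K n := by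
  classical
  have _ := hT
  unfold apa
  rw [Finset.mul_sum]
  refine Finset.sum_congr rfl (fun k _ => ?_)
  rw [mul_left_comm]
  congr 1
  rw [Finset.mul_sum]
  refine Finset.sum_congr rfl (fun J hJ => ?_)
  rw [Finset.mul_sum]
  refine Finset.sum_congr rfl (fun p hp => ?_)
  rw [M5_prod hn hp (fun q => τ (Real.log q / Real.log T)), ← Finset.prod_mul_distrib]
  refine Finset.prod_congr rfl (fun j _ => ?_)
  have hJj : J j ∈ Finset.Ico i0 i1 := by
    unfold Tup at hJ
    exact Fintype.mem_piFinset.1 (Finset.mem_filter.1 hJ).1 j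
  rcases le_or_gt (Real.log (p j) / Real.log T) ((J j : ℝ) * η) with h1 | h1
  · rw [ph_zero_left hη h1]; simp
  · rcases le_or_gt (((J j : ℝ) + 2) * η) (Real.log (p j) / Real.log T) with h2 | h2
    · rw [ph_zero_right hη h2]; simp
    · rw [← mul_assoc, ← ha (J j) hJj _ ⟨h1.le, h2.le⟩]

end Pool.Agent.MP_67227b_nt.Al
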