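import Pool.Agent.MP_67227b_nt.Al.AlLog

set_option autoImplicit false

open Filter Topology Set MeasureTheory Complex
open scoped Real ArithmeticFunction ContDiff

namespace Pool.Agent.MP_67227b_nt.Al

open Pool.Agent.Lib.ZetaCount_helper33 Pool.Agent.MP_67227b_nt Pool.Agent.MP_67227b_nt.Mo
open Pool.Agent.MP_67227b_nt.Sg Pool.Agent.MP_67227b_nt.Pp

private theorem arch_intble {b t α : ℝ} (hb : 0 < b) (ht : 0 < t) (hα : 0 ≤ α) :
    IntervalIntegrable (fun y : ℝ => (archF (pl (1 / 2 + b) (t + y))).re) volume 0 α := by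
  have h1 : ContinuousOn (fun y : ℝ => archF (pl (1 / 2 + b) (t + y))) (Icc 0 α) := by
    have h2 := continuousOn_archF (σ := 1 / 2 + b) (by linarith)
    refine h2.comp (f := fun y : ℝ => t + y) (by fun_prop) ?_
    intro y hy
    have : 0 < t + y := by linarith [hy.1]
    exact this
  have h3 : ContinuousOn (fun y : ℝ => (archF (pl (1 / 2 + b) (t + y))).re) (Icc 0 α) :=
    Complex.continuous_re.comp_continuousOn h1
  exact ContinuousOn.intervalIntegrable (by rwa [uIcc_of_le hα])

/-- MODULE L7d. The archimedean part: `Re archF(1/2+b+i(t+y)) = L/2 + O(1)` for `t ∈ [T/2, 3T]`,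
`0 ≤ y ≤ 1` (`Sg.archF_near`, `|log (t+y) - log T| ≤ 2`), and `α L/2 = πu`. -/
theorem arch_int {u β : ℝ} (hu : 0 < u) (hβ : 0 < β) : ∃ C : ℝ, 0 < C ∧ ∀ᶠ T : ℝ in atTop,
    ∀ t ∈ Icc (T / 2) (3 * T),
      |(∫ y in (0 : ℝ)..(2 * π * u / Real.log T),
        (archF (pl (1 / 2 + β / Real.log T) (t + y))).re) - π * u| ≤ C / Real.log T := by
  obtain ⟨C, hC, h⟩ := archF_near
  refine ⟨2 * π * u * (C + 1), by positivity, ?_⟩
  filter_upwards [Real.tendsto_log_atTop.eventually_ge_atTop β,
    Real.tendsto_log_atTop.eventually_ge_atTop (2 * π * u),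
    Real.tendsto_log_atTop.eventually_ge_atTop 1,
    eventually_ge_atTop (4 : ℝ)] with T hT1 hT2 hT3 hT4 t ht
  have hL0 : 0 < Real.log T := by linarith
  have hα0 : 0 ≤ 2 * π * u / Real.log T := by positivity
  have hα1 : 2 * π * u / Real.log T ≤ 1 := (div_le_one hL0).2 hT2
  have hb0 : 0 < β / Real.log T := by positivity
  have hb1 : β / Real.log T ≤ 1 := (div_le_one hL0).2 hT1
  have ht0 : 0 < t := by linarith [ht.1]
  have hi := arch_intble hb0 ht0 hα0
  have h1 : (∫ y in (0 : ℝ)..(2 * π * u / Real.log T),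
      (archF (pl (1 / 2 + β / Real.log T) (t + y))).re) - π * u =
      ∫ y in (0 : ℝ)..(2 * π * u / Real.log T),
        ((archF (pl (1 / 2 + β / Real.log T) (t + y))).re - Real.log T / 2) := by
    rw [intervalIntegral.integral_sub hi intervalIntegrable_const,
      intervalIntegral.integral_const, sub_zero, smul_eq_mul]
    congr 1
    field_simp
  rw [h1, ← Real.norm_eq_abs]
  have h2 : ∀ y ∈ uIoc (0 : ℝ) (2 * π * u / Real.log T),
      ‖(archF (pl (1 / 2 + β / Real.log T) (t + y))).re - Real.log T / 2‖ ≤ C + 1 := by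
    intro y hy
    rw [uIoc_of_le hα0] at hy
    have hty0 : T / 2 ≤ t + y := by linarith [ht.1, hy.1]
    have hty1 : t + y ≤ 4 * T := by linarith [ht.2, hy.2]
    have h3 := h (1 / 2 + β / Real.log T) (t + y) (by linarith) (by linarith) (by linarith)
    have h4 := (abs_re_le_norm _).trans h3
    rw [Complex.sub_re, Complex.ofReal_re] at h4
    have h5 : |Real.log (t + y) - Real.log T| ≤ 2 := by
      have h6 : Real.log (T / 2) ≤ Real.log (t + y) := Real.log_le_log (by linarith) hty0
      have h7 : Real.log (t + y) ≤ Real.log (4 * T) := Real.log_le_log (by linarith) hty1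
      rw [Real.log_div (by linarith) (by norm_num)] at h6
      rw [Real.log_mul (by norm_num) (by linarith)] at h7
      have h8 : Real.log 2 ≤ 1 := by have := Real.log_two_lt_d9; linarith
      have h9 : Real.log 4 ≤ 2 := by
        have : (4 : ℝ) = 2 ^ 2 := by norm_num
        rw [this, Real.log_pow]
        push_cast
        linarith
      rw [abs_le]
      constructor <;> linarith
    rw [Real.norm_eq_abs]
    rw [abs_le] at h4 h5 ⊢
    constructor
    · linarith [h4.1, h5.1]
    · linarith [h4.2, h5.2]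
  refine (intervalIntegral.norm_integral_le_of_norm_le_const h2).trans (le_of_eq ?_)
  rw [sub_zero, abs_of_nonneg hα0]
  ring

/-- The decomposition of `Th` (`logDeriv_xi_eq`; the integrands are continuous for `t + y > 0`). -/
theorem Th_split (hRH : RiemannHypothesis) {α b t : ℝ} (hα : 0 ≤ α) (hb : 0 < b) (ht : 0 < t) :
    Th α b t = (∫ y in (0 : ℝ)..α, (archF (pl (1 / 2 + b) (t + y))).re) +
      ∫ y in (0 : ℝ)..α, (logDeriv riemannZeta (pl (1 / 2 + b) (t + y))).re := by
  unfold Th
  have hi := arch_intble hb ht hα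
  have hx : IntervalIntegrable (fun y : ℝ => (logDeriv xi (pl (1 / 2 + b) (t + y))).re)
      volume 0 α := (SG5_cont hRH hb t).intervalIntegrable 0 α
  have h1 : (∫ y in (0 : ℝ)..α, (logDeriv riemannZeta (pl (1 / 2 + b) (t + y))).re) =
      ∫ y in (0 : ℝ)..α, ((logDeriv xi (pl (1 / 2 + b) (t + y))).re -
        (archF (pl (1 / 2 + b) (t + y))).re) := by
    refine intervalIntegral.integral_congr fun y hy => ?_
    rw [uIcc_of_le hα] at hy
    have h2 := logDeriv_xi_eq hRH (s := pl (1 / 2 + b) (t + y)) (by rw [pl_re]; linarith)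
      (by rw [pl_im]; linarith [hy.1])
    rw [h2, Complex.add_re]
    ring
  rw [h1, intervalIntegral.integral_sub hx hi]
  ring

end Pool.Agent.MP_67227b_nt.Al
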