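import Pool.Agent.MP_67227b_nt.Al.AlVar

set_option autoImplicit false

open Filter Topology Set MeasureTheory Complex
open scoped Real ArithmeticFunction ContDiff

namespace Pool.Agent.MP_67227b_nt.Al

open Pool.Agent.Lib.ZetaCount_helper33 Pool.Agent.MP_67227b_nt Pool.Agent.MP_67227b_nt.Mo
open Pool.Agent.MP_67227b_nt.Sg Pool.Agent.MP_67227b_nt.Pp

private theorem sqf_prod {s : Finset ℕ} (hs : ∀ p ∈ s, p.Prime) : Squarefree (∏ p ∈ s, p) := by
  induction s using Finset.induction_on with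
  | empty => simp
  | insert a s ha ih =>
    rw [Finset.prod_insert ha]
    have h1 : Nat.Coprime a (∏ p ∈ s, p) := by
      refine Nat.Coprime.prod_right fun p hp => ?_
      refine (Nat.coprime_primes (hs a (Finset.mem_insert_self a s))
        (hs p (Finset.mem_insert_of_mem hp))).mpr ?_
      rintro rfl
      exact ha hp
    rw [Nat.squarefree_mul h1]
    exact ⟨(hs a (Finset.mem_insert_self a s)).squarefree,
      ih (fun p hp => hs p (Finset.mem_insert_of_mem hp))⟩

private theorem FW_eq_powerset {v : ℕ → ℝ} {T κ y : ℝ} (hT : 1 < T) (hy : y ≤ κ) :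
    FW v T y = ∑ s ∈ ((Finset.Icc 1 ⌊T ^ κ⌋₊).filter Nat.Prime).powerset.filter
      (fun s => ∏ p ∈ s, p ≤ ⌊T ^ y⌋₊), ∏ p ∈ s, (v p / p) := by
  have hT0 : 0 < T := by linarith
  have hfl : ⌊T ^ y⌋₊ ≤ ⌊T ^ κ⌋₊ :=
    Nat.floor_le_floor (Real.rpow_le_rpow_of_exponent_le hT.le hy)
  rw [FW, ← Finset.sum_filter]
  refine Finset.sum_bij' (fun n _ => n.primeFactors) (fun s _ => ∏ p ∈ s, p) ?_ ?_ ?_ ?_ ?_
  · intro n hn
    rw [Finset.mem_filter, Finset.mem_Icc] at hn
    obtain ⟨⟨hn1, hn2⟩, hs⟩ := hn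
    rw [Finset.mem_filter, Finset.mem_powerset]
    refine ⟨?_, ?_⟩
    · intro p hp
      have hpp := Nat.prime_of_mem_primeFactors hp
      have hle := Nat.le_of_dvd (by omega) (Nat.dvd_of_mem_primeFactors hp)
      rw [Finset.mem_filter, Finset.mem_Icc]
      exact ⟨⟨hpp.one_lt.le, by omega⟩, hpp⟩
    · rw [Nat.prod_primeFactors_of_squarefree hs]
      exact hn2
  · intro s hs
    rw [Finset.mem_filter, Finset.mem_powerset] at hs
    obtain ⟨hs1, hs2⟩ := hs
    have hpr : ∀ p ∈ s, p.Prime := fun p hp => (Finset.mem_filter.mp (hs1 hp)).2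
    rw [Finset.mem_filter, Finset.mem_Icc]
    exact ⟨⟨Finset.prod_pos fun p hp => (hpr p hp).pos, hs2⟩, sqf_prod hpr⟩
  · intro n hn
    rw [Finset.mem_filter, Finset.mem_Icc] at hn
    exact Nat.prod_primeFactors_of_squarefree hn.2
  · intro s hs
    rw [Finset.mem_filter, Finset.mem_powerset] at hs
    exact Nat.primeFactors_prod fun p hp => (Finset.mem_filter.mp (hs.1 hp)).2
  · intro n hn
    rw [Finset.mem_filter, Finset.mem_Icc] at hn
    rw [Finset.prod_div_distrib, wt]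
    congr 1
    rw [← Nat.cast_prod, Nat.prod_primeFactors_of_squarefree hn.2]

/-- MODULE F6b. Chebyshev. Let `P` be the primes `≤ T^κ`, `Π = ∏_{p ∈ P} (1 + v p/p)`. The
squarefree `n` whose prime factors are in `P` correspond to the subsets of `P`, with weights `w(n)/n`,
total `Π`, and those with `n ≤ T^x` (`x ≤ κ`) contribute `FW v T x`. The others have
`log n - E L ≥ (x - E) L`, if `∑_p log p (v p/p) ≤ E L` and `E < x`, so by `var_powerset`
`Π - F(x) ≤ Π V/(x - E)²` if `∑_p (log p)² v p/p ≤ V L²`. Since `F(κ) ≤ Π`,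
`F(x) ≥ (1 - V/(x-E)²) Π`; if the factor is negative the claim is trivial. -/
theorem FW_cheb {v : ℕ → ℝ} {T κ x E V : ℝ} (hv : ∀ p, 0 ≤ v p) (hT : 1 < T) (hx : x ≤ κ)
    (hEx : E < x)
    (hE : ∑ p ∈ (Finset.Icc 1 ⌊T ^ κ⌋₊).filter Nat.Prime, Real.log p * (v p / p) ≤
      E * Real.log T)
    (hV : ∑ p ∈ (Finset.Icc 1 ⌊T ^ κ⌋₊).filter Nat.Prime, Real.log p ^ 2 * (v p / p) ≤
      V * Real.log T ^ 2) :
    (1 - V / (x - E) ^ 2) * FW v T κ ≤ FW v T x := by
  have hT0 : 0 < T := by linarith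
  have hL : 0 < Real.log T := Real.log_pos hT
  have hFx := FW_nonneg hv T x
  have hFk := FW_nonneg hv T κ
  set P := (Finset.Icc 1 ⌊T ^ κ⌋₊).filter Nat.Prime with hP
  have hPp : ∀ p ∈ P, p.Prime := fun p hp => (Finset.mem_filter.mp hp).2
  have hr : ∀ p ∈ P, 0 ≤ v p / p := fun p _ => div_nonneg (hv p) (Nat.cast_nonneg p)
  have hR : ∀ s ∈ P.powerset, 0 ≤ ∏ p ∈ s, (v p / p) := fun s hs =>
    Finset.prod_nonneg fun p hp => hr p (Finset.mem_powerset.mp hs hp)
  have hPi : ∑ s ∈ P.powerset, ∏ p ∈ s, (v p / p) = ∏ p ∈ P, (1 + v p / p) := by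
    rw [Finset.prod_one_add]
  have hPi0 : 0 ≤ ∏ p ∈ P, (1 + v p / p) :=
    Finset.prod_nonneg fun p hp => by have := hr p hp; linarith
  have hkPi : FW v T κ ≤ ∏ p ∈ P, (1 + v p / p) := by
    rw [FW_eq_powerset hT le_rfl, ← hPi]
    exact Finset.sum_le_sum_of_subset_of_nonneg (Finset.filter_subset _ _)
      (fun s hs _ => hR s hs)
  -- the mean
  have hM : ∑ p ∈ P, Real.log p * (v p / p / (1 + v p / p)) ≤ E * Real.log T := by
    refine le_trans (Finset.sum_le_sum fun p hp => ?_) hE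
    have h1 := hr p hp
    refine mul_le_mul_of_nonneg_left ?_ (Real.log_natCast_nonneg p)
    exact div_le_self h1 (by linarith)
  have hvar := var_powerset (P := P) (r := fun p => v p / p) (l := fun p => Real.log p) hr
  have hvar2 : ∑ p ∈ P, Real.log p ^ 2 * (v p / p / (1 + v p / p) ^ 2) ≤
      V * Real.log T ^ 2 := by
    refine le_trans (Finset.sum_le_sum fun p hp => ?_) hV
    have h1 := hr p hp
    refine mul_le_mul_of_nonneg_left ?_ (sq_nonneg _)
    exact div_le_self h1 (by nlinarith)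
  -- the complement
  have hcomp : (∏ p ∈ P, (1 + v p / p)) - FW v T x =
      ∑ s ∈ P.powerset.filter (fun s => ¬ ∏ p ∈ s, p ≤ ⌊T ^ x⌋₊), ∏ p ∈ s, (v p / p) := by
    rw [FW_eq_powerset hT hx, ← hPi, ← Finset.sum_filter_add_sum_filter_not P.powerset
      (fun s => ∏ p ∈ s, p ≤ ⌊T ^ x⌋₊)]
    ring
  have hbad : ((∏ p ∈ P, (1 + v p / p)) - FW v T x) * ((x - E) * Real.log T) ^ 2 ≤
      (∏ p ∈ P, (1 + v p / p)) * (V * Real.log T ^ 2) := by
    calc ((∏ p ∈ P, (1 + v p / p)) - FW v T x) * ((x - E) * Real.log T) ^ 2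
        = ∑ s ∈ P.powerset.filter (fun s => ¬ ∏ p ∈ s, p ≤ ⌊T ^ x⌋₊),
            (∏ p ∈ s, (v p / p)) * ((x - E) * Real.log T) ^ 2 := by
          rw [hcomp, Finset.sum_mul]
      _ ≤ ∑ s ∈ P.powerset.filter (fun s => ¬ ∏ p ∈ s, p ≤ ⌊T ^ x⌋₊),
            (∏ p ∈ s, (v p / p)) * ((∑ p ∈ s, Real.log p) -
              ∑ p ∈ P, Real.log p * (v p / p / (1 + v p / p))) ^ 2 := by
          refine Finset.sum_le_sum fun s hs => ?_
          rw [Finset.mem_filter] at hs
          obtain ⟨hs1, hs2⟩ := hs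
          have hsP := Finset.mem_powerset.mp hs1
          refine mul_le_mul_of_nonneg_left ?_ (hR s hs1)
          have h1 : T ^ x < ((∏ p ∈ s, p : ℕ) : ℝ) := Nat.lt_of_floor_lt (not_le.mp hs2)
          have h2 : x * Real.log T ≤ ∑ p ∈ s, Real.log p := by
            have h3 : ∑ p ∈ s, Real.log p = Real.log ((∏ p ∈ s, p : ℕ) : ℝ) := by
              rw [Nat.cast_prod, Real.log_prod]
              intro p hp
              have := (hPp p (hsP hp)).pos
              positivity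
            rw [h3, ← Real.log_rpow hT0]
            exact Real.log_le_log (Real.rpow_pos_of_pos hT0 x) h1.le
          have h4 : 0 ≤ (x - E) * Real.log T := mul_nonneg (by linarith) hL.le
          refine pow_le_pow_left₀ h4 ?_ 2
          linarith
      _ ≤ ∑ s ∈ P.powerset,
            (∏ p ∈ s, (v p / p)) * ((∑ p ∈ s, Real.log p) -
              ∑ p ∈ P, Real.log p * (v p / p / (1 + v p / p))) ^ 2 :=
          Finset.sum_le_sum_of_subset_of_nonneg (Finset.filter_subset _ _)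
            (fun s hs _ => mul_nonneg (hR s hs) (sq_nonneg _))
      _ = (∏ p ∈ P, (1 + v p / p)) *
            ∑ p ∈ P, Real.log p ^ 2 * (v p / p / (1 + v p / p) ^ 2) := hvar
      _ ≤ _ := mul_le_mul_of_nonneg_left hvar2 hPi0
  set Q := ∏ p ∈ P, (1 + v p / p) with hQ
  have hxE : 0 < x - E := by linarith
  have h5 : (Q - FW v T x) * (x - E) ^ 2 ≤ Q * V := by
    have h6 : ((Q - FW v T x) * (x - E) ^ 2) * Real.log T ^ 2 ≤ (Q * V) * Real.log T ^ 2 := by
      nlinarith
    exact le_of_mul_le_mul_right h6 (by positivity)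
  have h7 : (1 - V / (x - E) ^ 2) * Q ≤ FW v T x := by
    have h8 : Q - FW v T x ≤ Q * V / (x - E) ^ 2 := by
      rw [le_div_iff₀ (by positivity)]
      exact h5
    have h9 : (1 - V / (x - E) ^ 2) * Q = Q - Q * V / (x - E) ^ 2 := by ring
    linarith
  rcases le_total 0 (1 - V / (x - E) ^ 2) with h | h
  · exact (mul_le_mul_of_nonneg_left hkPi h).trans h7
  · exact (mul_nonpos_of_nonpos_of_nonneg h hFk).trans hFx

end Pool.Agent.MP_67227b_nt.Al
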