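import Pool.Agent.MP_67227b_nt.Al.AlDefs

set_option autoImplicit false

open Filter Topology Set MeasureTheory Complex
open scoped Real ArithmeticFunction ContDiff

namespace Pool.Agent.MP_67227b_nt.Al

open Pool.Agent.Lib.ZetaCount_helper33 Pool.Agent.MP_67227b_nt Pool.Agent.MP_67227b_nt.Mo
open Pool.Agent.MP_67227b_nt.Sg Pool.Agent.MP_67227b_nt.Pp

/-- Finiteness. -/
theorem windowTuples_finite (m : ℕ) (T H lam : ℝ) : (windowTuples m T H lam).Finite := by
  refine (Set.Finite.pi' (t := fun _ : Fin (m + 1) => {j : ZetaZeroIdx | zetaOrdinate j ≤ T})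
    fun _ => goodFamily_zeta.fin T).subset ?_
  rintro f ⟨-, h, -⟩ i
  exact (h i).2

/-- more than `m` elements of a finite set: an injective tuple with the smallest value last -/
private theorem cov_tuple {m : ℕ} {S : Set ZetaZeroIdx} (hfin : S.Finite) (hm : m < S.ncard) :
    ∃ f : Fin (m + 1) → ZetaZeroIdx, Function.Injective f ∧ (∀ i, f i ∈ S) ∧
      ∀ i, zetaOrdinate (f (Fin.last m)) ≤ zetaOrdinate (f i) := by
  classical
  rw [Set.ncard_eq_toFinset_card S hfin] at hm
  set F := hfin.toFinset with hF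
  have hne : F.Nonempty := Finset.card_pos.1 (by omega)
  obtain ⟨j0, hj0, hmin⟩ := Finset.exists_min_image F zetaOrdinate hne
  have hc : m ≤ (F.erase j0).card := by
    rw [Finset.card_erase_of_mem hj0]
    omega
  obtain ⟨G, hG, hGc⟩ := Finset.exists_subset_card_eq hc
  let e := G.equivFinOfCardEq hGc
  refine ⟨Fin.snoc (fun i => ((e.symm i : G) : ZetaZeroIdx)) j0, ?_, ?_, ?_⟩
  · intro i i' hii
    refine Fin.lastCases ?_ (fun i => ?_) i i' hii
    · intro i' hii
      refine Fin.lastCases (fun _ => rfl) (fun i' hii => ?_) i' hii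
      exfalso
      simp only [Fin.snoc_last, Fin.snoc_castSucc] at hii
      have := hG (e.symm i').2
      rw [← hii] at this
      exact absurd rfl (Finset.mem_erase.1 this).1
    · intro i' hii
      refine Fin.lastCases (fun hii => ?_) (fun i' hii => ?_) i' hii
      · exfalso
        simp only [Fin.snoc_last, Fin.snoc_castSucc] at hii
        have := hG (e.symm i).2
        rw [hii] at this
        exact absurd rfl (Finset.mem_erase.1 this).1
      · simp only [Fin.snoc_castSucc] at hii
        rw [e.symm.injective (Subtype.ext hii)]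
  · intro i
    refine Fin.lastCases ?_ (fun i => ?_) i
    · rw [Fin.snoc_last]
      exact (Set.Finite.mem_toFinset hfin).1 hj0
    · rw [Fin.snoc_castSucc]
      exact (Set.Finite.mem_toFinset hfin).1 (Finset.mem_of_mem_erase (hG (e.symm i).2))
  · intro i
    rw [Fin.snoc_last]
    refine Fin.lastCases ?_ (fun i => ?_) i
    · rw [Fin.snoc_last]
    · rw [Fin.snoc_castSucc]
      exact hmin _ (Finset.mem_of_mem_erase (hG (e.symm i).2))

/-- MODULE C1. Counting (compare `Pp.pairs_of_meas_w`, Ppw/PpwCov.lean). If `SepM` fails at `t`,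
there are `x` and a set of more than `m` indices with ordinates in
`[t - R/L, t + R/L] ∩ [x, x+a]`, `a = 2π lam/L`; choose `m+1` of them, the last one with the smallest
ordinate: this is an element of `windowTuples m T H₀ lam`, and `t` is in the interval of radius
`R/L ≤ 1` around the ordinate of its last entry. So the measure is at most
`(2R/L) #windowTuples`. -/
theorem tuples_of_meas_w {m : ℕ} {lam R c : ℝ} (hl : 0 < lam) (hR : 0 < R) (hc : 0 < c) :
    ∃ c' : ℝ, 0 < c' ∧ ∀ᶠ T : ℝ in atTop, ∀ H₀ A H : ℝ, T / 2 ≤ A → 0 ≤ H → T - H₀ + 1 ≤ A →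
      A + H ≤ T - 1 →
      c * H ≤ volume.real {t ∈ Icc A (A + H) | ¬ SepM m
        (Icc (t - R / Real.log T) (t + R / Real.log T)) (2 * π * lam / Real.log T)} →
      c' * H * Real.log T ≤ ((windowTuples m T H₀ lam).ncard : ℝ) := by
  classical
  refine ⟨c / (2 * R), by positivity, ?_⟩
  have e1 : ∀ᶠ T : ℝ in atTop, R + 1 ≤ Real.log T :=
    Real.tendsto_log_atTop.eventually_ge_atTop _
  filter_upwards [e1, eventually_gt_atTop 4] with T hT1 hT2 H₀ A H hA hH hH₀ hAH hmeas
  have hπ := Real.pi_pos
  have hT0 : 0 < T := by linarith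
  have hL : 0 < Real.log T := by linarith
  have hRL : R / Real.log T ≤ 1 := by
    rw [div_le_one hL]
    linarith
  have hRL0 : 0 < R / Real.log T := by positivity
  set L := Real.log T with hLdef
  set P := windowTuples m T H₀ lam with hP
  have hPfin : P.Finite := windowTuples_finite m T H₀ lam
  have hsub : {t ∈ Icc A (A + H) | ¬ SepM m (Icc (t - R / L) (t + R / L))
      (2 * π * lam / L)} ⊆ ⋃ j ∈ hPfin.toFinset,
        Icc (zetaOrdinate (j (Fin.last m)) - R / L) (zetaOrdinate (j (Fin.last m)) + R / L) := by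
    rintro t ⟨⟨ht1, ht2⟩, hns⟩
    unfold SepM at hns
    push Not at hns
    obtain ⟨x, hx⟩ := hns
    have hfin : {j : ZetaZeroIdx | zetaOrdinate j ∈ Icc (t - R / L) (t + R / L) ∧
        zetaOrdinate j ∈ Icc x (x + 2 * π * lam / L)}.Finite :=
      (goodFamily_zeta.fin (t + R / L)).subset fun j hj => hj.1.2
    obtain ⟨f, hinj, hfS, hlast⟩ := cov_tuple hfin hx
    have hmem : f ∈ P := by
      refine ⟨hinj, fun i => ⟨?_, ?_⟩, fun i => ⟨?_, ?_⟩⟩
      · have := (hfS i).1.1; linarith
      · have := (hfS i).1.2; linarith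
      · exact mul_nonneg (sub_nonneg.2 (hlast _)) (by positivity)
      · have h1 := (hfS i.castSucc).2.2
        have h2 := (hfS (Fin.last m)).2.1
        have h3 : (zetaOrdinate (f i.castSucc) - zetaOrdinate (f (Fin.last m))) * (L / (2 * π)) ≤
            (2 * π * lam / L) * (L / (2 * π)) :=
          mul_le_mul_of_nonneg_right (by linarith) (by positivity)
        refine h3.trans (le_of_eq ?_)
        field_simp
    refine mem_iUnion₂.2 ⟨f, (Set.Finite.mem_toFinset hPfin).2 hmem, ?_⟩
    have h4 := (hfS (Fin.last m)).1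
    exact ⟨by linarith [h4.2], by linarith [h4.1]⟩
  have hvol : volume.real {t ∈ Icc A (A + H) | ¬ SepM m (Icc (t - R / L) (t + R / L))
      (2 * π * lam / L)} ≤ P.ncard * (2 * (R / L)) := by
    refine (measureReal_mono hsub ?_).trans ?_
    · exact ((measure_biUnion_finset_le _ _).trans_lt (ENNReal.sum_lt_top.2 fun j _ => by
        rw [Real.volume_Icc]; exact ENNReal.ofReal_lt_top)).ne
    · refine (measureReal_biUnion_finset_le _ _).trans ?_
      have : ∀ j ∈ hPfin.toFinset, volume.real
          (Icc (zetaOrdinate (j (Fin.last m)) - R / L) (zetaOrdinate (j (Fin.last m)) + R / L)) =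
            2 * (R / L) := by
        intro j _
        rw [Real.volume_real_Icc_of_le (by linarith)]
        ring
      rw [Finset.sum_congr rfl this, Finset.sum_const, nsmul_eq_mul,
        ← Set.ncard_eq_toFinset_card P hPfin]
  have h5 : c * H ≤ P.ncard * (2 * (R / L)) := hmeas.trans hvol
  have h6 : c / (2 * R) * H * L = (c * H) * (L / (2 * R)) := by ring
  rw [h6]
  calc (c * H) * (L / (2 * R)) ≤ (P.ncard * (2 * (R / L))) * (L / (2 * R)) := by gcongr
    _ = P.ncard := by field_simp

/-- MODULE C2. Pairs are `2`-tuples: `(j, j') ↦ ![j, j']`. -/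
theorem windowPairs_le (T H lam : ℝ) :
    (windowPairs T H lam).ncard ≤ (windowTuples 1 T H lam).ncard := by
  refine Set.ncard_le_ncard_of_injOn (fun p => ![p.1, p.2]) ?_ ?_ (windowTuples_finite 1 T H lam)
  · rintro ⟨j, j'⟩ ⟨hne, h1, h2, h3⟩
    simp only at hne h1 h2 h3
    refine ⟨?_, ?_, ?_⟩
    · intro i i' hii
      fin_cases i <;> fin_cases i'
      · rfl
      · exact absurd hii hne
      · exact absurd hii.symm hne
      · rfl
    · intro i
      fin_cases i
      · exact h1
      · exact h2
    · intro i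
      fin_cases i
      exact h3
  · rintro ⟨j, j'⟩ - ⟨l, l'⟩ - h
    have h0 := congrFun h 0
    have h1 := congrFun h 1
    simp only [Matrix.cons_val_zero, Matrix.cons_val_one] at h0 h1
    rw [h0, h1]

/-- MODULE C3. The full window: for `T > 0` all tuples of `tupleCount` with the box `[0, lam]^m` are
in `windowTuples m T T lam`, and conversely (ordinates are positive). -/
theorem windowTuples_full (m : ℕ) {T : ℝ} (hT : 0 < T) (lam : ℝ) :
    (windowTuples m T T lam).ncard =
      tupleCount zetaOrdinate m T (fun _ => 0) (fun _ => lam) := by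
  unfold tupleCount windowTuples
  congr 1
  ext j
  constructor
  · rintro ⟨h1, h2, h3⟩
    exact ⟨h1, fun i => (h2 i).2, h3⟩
  · rintro ⟨h1, h2, h3⟩
    exact ⟨h1, fun i => ⟨by linarith [goodFamily_zeta.pos (j i)], h2 i⟩, h3⟩

end Pool.Agent.MP_67227b_nt.Al
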