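import Pool.Agent.MP_67227b_nt.Ppw.PpwFinal

set_option autoImplicit false

open Filter Topology Set MeasureTheory Complex
open scoped Real ArithmeticFunction ContDiff

/-! # All levels: definitions

Text (helper67, for all modules `Al*`). Write `L = log T`, `α = 2πu/L`, `b = β/L`, `N = ⌊T^κ⌋`,
`x_p = log p / L`. `Th α b t = ∫_0^α Re (xi'/xi)(1/2+b+i(t+y)) dy` (Sg/SgP) is `π` times a smoothed
number of zeros in `[t, t+α]`; its mean is `πu`. We multiply by `|A(1/2+b+i(t+α/2))|²`, where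
`A = ∑ a(n) n^{-s}` has length `T^κ`, `κ < θ₀ ≤ 1`, and average with a Gaussian window of width
`T^θ`. By contour shift the mean is `πu S0 + S1`, where `S0 = ∑ a(m)² m^{-1-2b}` and
`S1 = -∑_m a(m) m^{-1-2b} ∑_{nd=m} Λ(n) a(d) 2 sin(α log n/2)/log n`. The coefficients are
`a(n) = ∏_{p | n} sg·h(x_p)·sign(sin πu x_p)` for squarefree `n`, a smooth weight `h ≥ 0`, truncated:
`Apa`. So `-sg S1 ≈ ∑_p (2 h(x_p)|sin(πu x_p)|/p) F(κ - x_p)`, with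
`F(x) = ∑_{n ≤ T^x} ∏ h(x_p)²/n`, `S0 ≈ F(κ)`. -/

namespace Pool.Agent.MP_67227b_nt.Al

open Pool.Agent.Lib.ZetaCount_helper33 Pool.Agent.MP_67227b_nt Pool.Agent.MP_67227b_nt.Mo
open Pool.Agent.MP_67227b_nt.Sg Pool.Agent.MP_67227b_nt.Pp

/-- The integrand with a general first factor `E`. -/
noncomputable def Eint (E : ℂ → ℂ) (a : ℕ → ℝ) (v b t₀ Δ : ℝ) (N : ℕ) (s : ℂ) : ℂ :=
  E s * Aa a N (1 + 2 * (b : ℂ) - s - (v : ℂ) * I) * Wg Δ b t₀ s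

/-- The diagonal sum for a Dirichlet series with coefficients `c`. -/
noncomputable def Dg (c : ℕ → ℂ) (a : ℕ → ℝ) (v b : ℝ) (N : ℕ) : ℂ :=
  ∑ m ∈ Finset.Icc 1 N, c m * (a m : ℂ) * (m : ℂ) ^ (-(1 + 2 * (b : ℂ)) + (v : ℂ) * I)

/-- The first factor for the mass. -/
noncomputable def E1 (a : ℕ → ℝ) (v : ℝ) (N : ℕ) (s : ℂ) : ℂ := Aa a N (s + (v : ℂ) * I)

/-- Its coefficients. -/
noncomputable def c1 (a : ℕ → ℝ) (v : ℝ) (N j : ℕ) : ℂ :=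
  if 1 ≤ j ∧ j ≤ N then (a j : ℂ) * (j : ℂ) ^ (-((v : ℂ) * I)) else 0

/-- The first factor for the logarithmic derivative. -/
noncomputable def E2 (y : ℝ) (a : ℕ → ℝ) (v : ℝ) (N : ℕ) (s : ℂ) : ℂ :=
  logDeriv riemannZeta (s + (y : ℂ) * I) * Aa a N (s + (v : ℂ) * I)

/-- Its coefficients. -/
noncomputable def c2 (y : ℝ) (a : ℕ → ℝ) (v : ℝ) (N j : ℕ) : ℂ :=
  -∑ p ∈ j.divisorsAntidiagonal, ((Λ p.1 : ℝ) : ℂ) * (p.1 : ℂ) ^ (-((y : ℂ) * I)) *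
    c1 a v N p.2

/-- The mass. -/
noncomputable def S0 (a : ℕ → ℝ) (b : ℝ) (N : ℕ) : ℝ :=
  ∑ m ∈ Finset.Icc 1 N, a m ^ 2 * (m : ℝ) ^ (-(1 + 2 * b))

/-- The diagonal sum of the logarithmic derivative at `y`. -/
noncomputable def S1y (y : ℝ) (a : ℕ → ℝ) (v b : ℝ) (N : ℕ) : ℝ :=
  -∑ m ∈ Finset.Icc 1 N, a m * (m : ℝ) ^ (-(1 + 2 * b)) *
    ∑ p ∈ m.divisorsAntidiagonal, Λ p.1 * a p.2 * Real.cos ((y - v) * Real.log p.1)

/-- The integrated diagonal sum. -/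
noncomputable def S1 (a : ℕ → ℝ) (α b : ℝ) (N : ℕ) : ℝ :=
  -∑ m ∈ Finset.Icc 1 N, a m * (m : ℝ) ^ (-(1 + 2 * b)) *
    ∑ p ∈ m.divisorsAntidiagonal, Λ p.1 * a p.2 *
      ∫ y in (0 : ℝ)..α, Real.cos ((y - α / 2) * Real.log p.1)

/-- The resonator: `∑_k (1/k!) ∑_{J ∈ Tup} ∏_j a(J j) Q_{J j}(s)`. -/
noncomputable def Apa (a : ℕ → ℝ) (T η κ : ℝ) (i0 i1 K : ℕ) (s : ℂ) : ℂ :=
  ∑ k ∈ Finset.range (K + 1), (1 / (k.factorial : ℂ)) *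
    ∑ J ∈ Tup η κ i0 i1 k, ∏ j, ((a (J j) : ℂ) * Qi T η (J j) s)

/-- The coefficients of the resonator. -/
noncomputable def apa (a : ℕ → ℝ) (T η κ : ℝ) (i0 i1 K n : ℕ) : ℝ :=
  ∑ k ∈ Finset.range (K + 1), (1 / (k.factorial : ℝ)) *
    ∑ J ∈ Tup η κ i0 i1 k, ∑ p ∈ PT' T k n,
      ∏ j, (a (J j) * ph η (J j) (Real.log (p j) / Real.log T))

/-- The weight of a prime `p` with `log p = x log T`. -/
noncomputable def hS (a : ℕ → ℝ) (η : ℝ) (i0 i1 : ℕ) (x : ℝ) : ℝ :=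
  ∑ i ∈ Finset.Ico i0 i1, a i * ph η i x

/-- The sign of `sg * sin (πux)` (with sign `1` at the zeros). -/
noncomputable def tau (sg u x : ℝ) : ℝ := if 0 ≤ sg * Real.sin (π * u * x) then 1 else -1

/-- Multiplicative weights on squarefree numbers. -/
noncomputable def wt (v : ℕ → ℝ) (n : ℕ) : ℝ := ∏ p ∈ n.primeFactors, v p

/-- The weighted sum over the squarefree numbers up to `T^x`. -/
noncomputable def FW (v : ℕ → ℝ) (T x : ℝ) : ℝ :=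
  ∑ n ∈ Finset.Icc 1 ⌊T ^ x⌋₊, if Squarefree n then wt v n / n else 0

/-- The sum over primes and squarefree numbers. -/
noncomputable def Sp (v : ℕ → ℝ) (g : ℝ → ℝ) (T κ : ℝ) : ℝ :=
  ∑ p ∈ (Finset.Icc 1 ⌊T ^ κ⌋₊).filter Nat.Prime, g (Real.log p / Real.log T) / p *
    ∑ d ∈ Finset.Icc 1 ⌊T ^ κ / p⌋₊, if Squarefree d ∧ ¬ p ∣ d then wt v d / d else 0

/-- `h` is a nonnegative Lipschitz function, `ε`-close to `|H|`, supported in the `ε`-neighbourhood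
of the support of `H`. -/
structure Near (H : ℝ → ℝ) (ε : ℝ) (h : ℝ → ℝ) : Prop where
  nonneg : ∀ x, 0 ≤ h x
  lip : ∃ B : ℝ, ∀ x y, |h x - h y| ≤ B * |x - y|
  close : ∀ x, |h x - abs (H x)| ≤ ε
  supp : ∀ x, h x ≠ 0 → ∃ y, H y ≠ 0 ∧ |x - y| ≤ ε

/-- The lower bound `F(κ' - t) ≥ (Φ t - ε) F(κ)` on the support of the weights, for all weights near
`H` and all `κ'` near `κ`. -/
def LB (κ : ℝ) (H Φ : ℝ → ℝ) : Prop :=
  ∀ ε : ℝ, 0 < ε → ∃ ε₁ : ℝ, 0 < ε₁ ∧ ∀ h : ℝ → ℝ, Near H ε₁ h → ∀ κ' : ℝ, κ - ε₁ ≤ κ' → κ' ≤ κ →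
    ∀ᶠ T : ℝ in atTop, ∀ t : ℝ, h t ≠ 0 →
      (Φ t - ε) * FW (fun p => h (Real.log p / Real.log T) ^ 2) T κ ≤
        FW (fun p => h (Real.log p / Real.log T) ^ 2) T (κ' - t)

/-- The conditions on the profile `H`: continuous, supported in `[δ, κ - δ]`, where
`|sin (πux)| ≥ δ`, and `sg H(x) sin (πux) > 0` where `H(x) ≠ 0`. -/
structure Prof (sg u κ δ : ℝ) (H : ℝ → ℝ) : Prop where
  cont : Continuous H
  supp : ∀ x, H x ≠ 0 → δ ≤ x ∧ x ≤ κ - δ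
  sin : ∀ x, H x ≠ 0 → δ ≤ |Real.sin (π * u * x)| ∧ 0 < sg * H x * Real.sin (π * u * x)

/-- There are resonators of length `T^κ` for which `sg (S1 + π g' S0)` is negative, where
`g = sg g'`. -/
def Gain (sg u κ g : ℝ) : Prop :=
  ∃ (β η c M : ℝ) (a : ℕ → ℝ) (i0 i1 K : ℕ), 0 < β ∧ 0 < η ∧ 0 < c ∧ 1 ≤ i0 ∧ (∀ i, |a i| ≤ M) ∧
    ∀ᶠ T : ℝ in atTop,
      sg * S1 (apa a T η κ i0 i1 K) (2 * π * u / Real.log T) (β / Real.log T) ⌊T ^ κ⌋₊ +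
        π * g * S0 (apa a T η κ i0 i1 K) (β / Real.log T) ⌊T ^ κ⌋₊ ≤
        -(c * (1 + S0 (apa a T η κ i0 i1 K) (β / Real.log T) ⌊T ^ κ⌋₊))

/-- Every interval of length `a` contains at most `m` zeros (with multiplicity) with ordinates
in `J`. -/
def SepM (m : ℕ) (J : Set ℝ) (a : ℝ) : Prop :=
  ∀ x : ℝ, {j : ZetaZeroIdx | zetaOrdinate j ∈ J ∧ zetaOrdinate j ∈ Icc x (x + a)}.ncard ≤ m

/-- The `(m+1)`-tuples of distinct indices of zeros with ordinates in `[T - H, T]` and normalised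
differences to the last one in `[0, lam]`. -/
def windowTuples (m : ℕ) (T H lam : ℝ) : Set (Fin (m + 1) → ZetaZeroIdx) :=
  {j | Function.Injective j ∧ (∀ i, zetaOrdinate (j i) ∈ Icc (T - H) T) ∧
    ∀ i : Fin m, (zetaOrdinate (j i.castSucc) - zetaOrdinate (j (Fin.last m))) *
      (Real.log T / (2 * π)) ∈ Icc 0 lam}

/-- The gain of the constant weights. -/
noncomputable def Gf (s : ℝ) : ℝ := min (s / Real.sqrt (1 + s)) (Real.sqrt (s / 2))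

end Pool.Agent.MP_67227b_nt.Al
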