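import Pool.Agent.MP_67227b_nt.Al.AlDefs

set_option autoImplicit false

open Filter Topology Set MeasureTheory Complex
open scoped Real ArithmeticFunction ContDiff

namespace Pool.Agent.MP_67227b_nt.Al

open Pool.Agent.Lib.ZetaCount_helper33 Pool.Agent.MP_67227b_nt Pool.Agent.MP_67227b_nt.Mo
open Pool.Agent.MP_67227b_nt.Sg Pool.Agent.MP_67227b_nt.Pp

private lemma dg_cpow_real {m : ℕ} (hm : 1 ≤ m) (b : ℝ) :
    (m : ℂ) ^ (-(1 + 2 * (b : ℂ))) = (((m : ℝ) ^ (-(1 + 2 * b)) : ℝ) : ℂ) := by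
  rw [Complex.ofReal_cpow (by positivity)]
  push_cast
  rfl

/-- MODULE L4d. The diagonal sums: `m^{-iv} m^{-(1+2b)+iv} = m^{-(1+2b)}`. -/
theorem Dg_c1 (a : ℕ → ℝ) (v b : ℝ) (N : ℕ) :
    Dg (c1 a v N) a v b N = ((S0 a b N : ℝ) : ℂ) := by
  unfold Dg S0 c1
  rw [Complex.ofReal_sum]
  refine Finset.sum_congr rfl fun m hm => ?_
  rw [Finset.mem_Icc] at hm
  rw [if_pos hm]
  have hm0 : (m : ℂ) ≠ 0 := by
    have : m ≠ 0 := by omega
    exact_mod_cast this
  rw [Complex.cpow_add _ _ hm0, dg_cpow_real hm.1, Complex.cpow_neg]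
  have h1 : (m : ℂ) ^ ((v : ℂ) * I) ≠ 0 := by
    rw [Complex.cpow_def_of_ne_zero hm0]
    exact Complex.exp_ne_zero _
  push_cast
  field_simp

/-- For `nd = m ≤ N`: `n^{-iy} d^{-iv} m^{iv} = n^{i(v-y)}`, real part `cos ((y-v) log n)`. -/
theorem Dg_c2 (y : ℝ) (a : ℕ → ℝ) (v b : ℝ) (N : ℕ) :
    (Dg (c2 y a v N) a v b N).re = S1y y a v b N := by
  unfold Dg S1y c2
  rw [Complex.re_sum, ← Finset.sum_neg_distrib]
  refine Finset.sum_congr rfl fun m hm => ?_
  rw [Finset.mem_Icc] at hm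
  have hm0 : (m : ℂ) ≠ 0 := by
    have : m ≠ 0 := by omega
    exact_mod_cast this
  rw [Complex.cpow_add _ _ hm0, dg_cpow_real hm.1]
  have hterm : ∀ p ∈ m.divisorsAntidiagonal,
      ((Λ p.1 : ℝ) : ℂ) * (p.1 : ℂ) ^ (-((y : ℂ) * I)) * c1 a v N p.2 *
        (m : ℂ) ^ ((v : ℂ) * I) =
      ((Λ p.1 * a p.2 : ℝ) : ℂ) * Complex.exp (((-(y - v) * Real.log p.1 : ℝ) : ℂ) * I) := by
    intro p hp
    rw [Nat.mem_divisorsAntidiagonal] at hp
    have h1 : p.1 ≠ 0 := by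
      intro h0
      apply hp.2
      rw [← hp.1, h0, zero_mul]
    have h2 : p.2 ≠ 0 := by
      intro h0
      apply hp.2
      rw [← hp.1, h0, mul_zero]
    have h1c : (p.1 : ℂ) ≠ 0 := by exact_mod_cast h1
    have h2c : (p.2 : ℂ) ≠ 0 := by exact_mod_cast h2
    have hle : p.2 ≤ N := by
      have : p.2 ≤ m := by
        rw [← hp.1]
        exact Nat.le_mul_of_pos_left _ (Nat.pos_of_ne_zero h1)
      exact this.trans hm.2
    have hc1 : c1 a v N p.2 = (a p.2 : ℂ) * (p.2 : ℂ) ^ (-((v : ℂ) * I)) := by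
      unfold c1
      rw [if_pos ⟨Nat.pos_of_ne_zero h2, hle⟩]
    have hmm : (m : ℂ) = (p.1 : ℂ) * (p.2 : ℂ) := by
      rw [← hp.1]
      push_cast
      rfl
    rw [hc1]
    have e1 : (m : ℂ) ^ ((v : ℂ) * I) = (p.1 : ℂ) ^ ((v : ℂ) * I) * (p.2 : ℂ) ^ ((v : ℂ) * I) := by
      rw [hmm]
      exact Complex.natCast_mul_natCast_cpow _ _ _
    rw [e1]
    have e2 : (p.2 : ℂ) ^ (-((v : ℂ) * I)) * (p.2 : ℂ) ^ ((v : ℂ) * I) = 1 := by
      rw [← Complex.cpow_add _ _ h2c, neg_add_cancel, Complex.cpow_zero]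
    have e3 : (p.1 : ℂ) ^ (-((y : ℂ) * I)) * (p.1 : ℂ) ^ ((v : ℂ) * I) =
        Complex.exp (((-(y - v) * Real.log p.1 : ℝ) : ℂ) * I) := by
      rw [← Complex.cpow_add _ _ h1c, Complex.cpow_def_of_ne_zero h1c]
      congr 1
      rw [← Complex.natCast_log]
      push_cast
      ring
    calc ((Λ p.1 : ℝ) : ℂ) * (p.1 : ℂ) ^ (-((y : ℂ) * I)) *
          ((a p.2 : ℂ) * (p.2 : ℂ) ^ (-((v : ℂ) * I))) *
          ((p.1 : ℂ) ^ ((v : ℂ) * I) * (p.2 : ℂ) ^ ((v : ℂ) * I))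
        = ((Λ p.1 : ℝ) : ℂ) * (a p.2 : ℂ) *
          ((p.1 : ℂ) ^ (-((y : ℂ) * I)) * (p.1 : ℂ) ^ ((v : ℂ) * I)) *
          ((p.2 : ℂ) ^ (-((v : ℂ) * I)) * (p.2 : ℂ) ^ ((v : ℂ) * I)) := by ring
      _ = _ := by
        rw [e2, e3]
        push_cast
        ring
  have hsum : (-∑ p ∈ m.divisorsAntidiagonal, ((Λ p.1 : ℝ) : ℂ) * (p.1 : ℂ) ^ (-((y : ℂ) * I)) *
        c1 a v N p.2) * (a m : ℂ) *
        ((((m : ℝ) ^ (-(1 + 2 * b)) : ℝ) : ℂ) * (m : ℂ) ^ ((v : ℂ) * I)) =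
      ((-(a m * (m : ℝ) ^ (-(1 + 2 * b))) : ℝ) : ℂ) *
        ∑ p ∈ m.divisorsAntidiagonal, ((Λ p.1 * a p.2 : ℝ) : ℂ) *
          Complex.exp (((-(y - v) * Real.log p.1 : ℝ) : ℂ) * I) := by
    rw [← Finset.sum_congr rfl hterm, ← Finset.sum_mul]
    push_cast
    ring
  rw [hsum, Complex.re_ofReal_mul, Complex.re_sum]
  have hre : ∀ p ∈ m.divisorsAntidiagonal,
      (((Λ p.1 * a p.2 : ℝ) : ℂ) * Complex.exp (((-(y - v) * Real.log p.1 : ℝ) : ℂ) * I)).re =
      Λ p.1 * a p.2 * Real.cos ((y - v) * Real.log p.1) := by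
    intro p _
    rw [Complex.re_ofReal_mul, Complex.exp_ofReal_mul_I_re]
    congr 1
    have : -(y - v) * Real.log p.1 = -((y - v) * Real.log p.1) := by ring
    rw [this, Real.cos_neg]
  rw [Finset.sum_congr rfl hre]
  ring

private lemma dg_cos_cont (v l : ℝ) : Continuous fun y : ℝ => Real.cos ((y - v) * l) :=
  Real.continuous_cos.comp ((continuous_id.sub continuous_const).mul continuous_const)

/-- Linearity of the integral. -/
theorem integral_S1y (a : ℕ → ℝ) (α b : ℝ) (N : ℕ) :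
    ∫ y in (0 : ℝ)..α, S1y y a (α / 2) b N = S1 a α b N := by
  unfold S1y S1
  rw [intervalIntegral.integral_neg, intervalIntegral.integral_finsetSum]
  · congr 1
    refine Finset.sum_congr rfl fun m _ => ?_
    rw [intervalIntegral.integral_const_mul, intervalIntegral.integral_finsetSum]
    · congr 1
      refine Finset.sum_congr rfl fun p _ => ?_
      rw [intervalIntegral.integral_const_mul]
    · intro p _
      exact (continuous_const.mul (dg_cos_cont _ _)).intervalIntegrable _ _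
  · intro m _
    refine (continuous_const.mul (continuous_finsetSum _ fun p _ => ?_)).intervalIntegrable _ _
    exact continuous_const.mul (dg_cos_cont _ _)

/-- `S1y` is continuous in `y`. -/
theorem continuous_S1y (a : ℕ → ℝ) (v b : ℝ) (N : ℕ) :
    Continuous fun y : ℝ => S1y y a v b N := by
  unfold S1y
  refine (continuous_finsetSum _ fun m _ => ?_).neg
  refine continuous_const.mul (continuous_finsetSum _ fun p _ => ?_)
  exact continuous_const.mul (dg_cos_cont _ _)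

/-- `∫_0^α cos ((y - α/2) l) dy = 2 sin(αl/2)/l`. -/
theorem integral_cos_shift {α l : ℝ} (hl : l ≠ 0) :
    ∫ y in (0 : ℝ)..α, Real.cos ((y - α / 2) * l) = 2 * Real.sin (α * l / 2) / l := by
  have h1 : ∀ y ∈ uIcc 0 α, HasDerivAt (fun y : ℝ => Real.sin ((y - α / 2) * l) / l)
      (Real.cos ((y - α / 2) * l)) y := by
    intro y _
    have h2 : HasDerivAt (fun y : ℝ => (y - α / 2) * l) l y := by
      simpa using ((hasDerivAt_id y).sub_const (α / 2)).mul_const l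
    have h3 := (h2.sin).div_const l
    refine h3.congr_deriv ?_
    field_simp
  rw [intervalIntegral.integral_eq_sub_of_hasDerivAt h1
    ((dg_cos_cont (α / 2) l).intervalIntegrable _ _)]
  have e1 : (α - α / 2) * l = α * l / 2 := by ring
  have e2 : (0 - α / 2) * l = -(α * l / 2) := by ring
  rw [e1, e2, Real.sin_neg]
  ring

end Pool.Agent.MP_67227b_nt.Al
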