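import Pool.Agent.MP_67227b_nt.Al.AlLog

set_option autoImplicit false

open Filter Topology Set MeasureTheory Complex
open scoped Real ArithmeticFunction ContDiff

namespace Pool.Agent.MP_67227b_nt.Al

open Pool.Agent.Lib.ZetaCount_helper33 Pool.Agent.MP_67227b_nt Pool.Agent.MP_67227b_nt.Mo
open Pool.Agent.MP_67227b_nt.Sg Pool.Agent.MP_67227b_nt.Pp

/-- MODULE L5b. Differentiability. -/
theorem differentiable_Aa (a : ℕ → ℝ) (N : ℕ) : Differentiable ℂ (Aa a N) := by
  unfold Aa
  refine Differentiable.fun_sum fun n hn => ?_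
  rw [Finset.mem_Icc] at hn
  have hn0 : (n : ℂ) ≠ 0 := by
    have : n ≠ 0 := by omega
    exact_mod_cast this
  refine (differentiable_const _).mul ?_
  exact (differentiable_id.neg).const_cpow (Or.inl hn0)

theorem differentiable_E1 (a : ℕ → ℝ) (v : ℝ) (N : ℕ) : Differentiable ℂ (E1 a v N) := by
  unfold E1
  exact (differentiable_Aa a N).comp (differentiable_id.add (differentiable_const _))

theorem differentiableAt_E2 (hRH : RiemannHypothesis) {y : ℝ} (hy : 0 ≤ y) (a : ℕ → ℝ) (v : ℝ)
    (N : ℕ) {s : ℂ} (hs : 1 / 2 < s.re) (ht : 0 < s.im) : DifferentiableAt ℂ (E2 y a v N) s := by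
  unfold E2
  have h1 : DifferentiableAt ℂ (fun s : ℂ => logDeriv riemannZeta (s + (y : ℂ) * I)) s := by
    have h2 : DifferentiableAt ℂ (logDeriv riemannZeta) (s + (y : ℂ) * I) := by
      refine differentiableAt_logDeriv_zeta hRH ?_ ?_
      · simp only [Complex.add_re, Complex.mul_re, Complex.ofReal_re, Complex.I_re,
          Complex.ofReal_im, Complex.I_im]
        linarith
      · simp only [Complex.add_im, Complex.mul_im, Complex.ofReal_re, Complex.I_re,
          Complex.ofReal_im, Complex.I_im]
        linarith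
    exact DifferentiableAt.comp s h2 (differentiableAt_id.add (differentiableAt_const _))
  exact h1.mul ((differentiable_E1 a v N) s)

end Pool.Agent.MP_67227b_nt.Al
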