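import Pool.Agent.MP_67227b_nt.Al.AlWt

set_option autoImplicit false

open Filter Topology Set MeasureTheory Complex
open scoped Real ArithmeticFunction ContDiff

namespace Pool.Agent.MP_67227b_nt.Al

open Pool.Agent.Lib.ZetaCount_helper33 Pool.Agent.MP_67227b_nt Pool.Agent.MP_67227b_nt.Mo
open Pool.Agent.MP_67227b_nt.Sg Pool.Agent.MP_67227b_nt.Pp

private theorem sum_le_of_inj {ι κ : Type} [DecidableEq κ] {A : Finset ι} {B : Finset κ}
    {F : ι → ℝ} {G : κ → ℝ} (e : ι → κ) (he : ∀ a ∈ A, e a ∈ B)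
    (hi : ∀ a ∈ A, ∀ b ∈ A, e a = e b → a = b) (hFG : ∀ a ∈ A, F a ≤ G (e a))
    (hG : ∀ b ∈ B, 0 ≤ G b) : ∑ a ∈ A, F a ≤ ∑ b ∈ B, G b := by
  calc ∑ a ∈ A, F a ≤ ∑ a ∈ A, G (e a) := Finset.sum_le_sum hFG
    _ = ∑ b ∈ A.image e, G b := by
        rw [Finset.sum_image]
        intro a ha b hb hab
        exact hi a ha b hb hab
    _ ≤ ∑ b ∈ B, G b := by
        refine Finset.sum_le_sum_of_subset_of_nonneg ?_ (fun b hb _ => hG b hb)
        intro b hb
        obtain ⟨a, ha, rfl⟩ := Finset.mem_image.mp hb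
        exact he a ha

/-- MODULE F1. The basic inequality. `∑ w(n) log n/n = ∑_n ∑_{p | n} log p w(n)/n`
`= ∑_{p,d, p∤d, pd ∈ (T^x, T^y]} v(p) (log p/p) w(d)/d
≤ q ∑_{d ≤ T^y} (w(d)/d) ∑_{T^x/d < p ≤ T^y/d} log p/p`, and by `Pp.sum_prime_div` the inner sum is at
most `log (T^y/d) - max (log (T^x/d)) 0 + C₀ = L (y - max x (log d/L)) + C₀`; `integral_FW`. -/
theorem FW_log {q : ℝ} (hq : 0 ≤ q) : ∃ C : ℝ, 0 < C ∧ ∀ (v : ℕ → ℝ) (T x y : ℝ),
    (∀ p, 0 ≤ v p) → (∀ p, v p ≤ q) → 1 < T → 0 ≤ x → x ≤ y →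
    ∑ n ∈ Finset.Ioc ⌊T ^ x⌋₊ ⌊T ^ y⌋₊, (if Squarefree n then wt v n / n * Real.log n else 0) ≤
      q * Real.log T * (∫ t in x..y, FW v T t) + C * FW v T y := by
  obtain ⟨C0, hC0, hmert⟩ := sum_prime_div
  refine ⟨q * C0 + 1, by positivity, ?_⟩
  intro v T x y hv hvq hT hx hxy
  have hT0 : 0 < T := by linarith
  have hL : 0 < Real.log T := Real.log_pos hT
  have hTx : 0 < T ^ x := Real.rpow_pos_of_pos hT0 x
  have hTy : 0 < T ^ y := Real.rpow_pos_of_pos hT0 y
  have hTxy : T ^ x ≤ T ^ y := Real.rpow_le_rpow_of_exponent_le hT.le hxy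
  -- the first sum over pairs
  set A : Finset (Σ _ : ℕ, ℕ) :=
    ((Finset.Ioc ⌊T ^ x⌋₊ ⌊T ^ y⌋₊).filter Squarefree).sigma (fun n => n.primeFactors) with hA
  set B : Finset (Σ _ : ℕ, ℕ) := ((Finset.Icc 1 ⌊T ^ y⌋₊).filter Squarefree).sigma
    (fun d => (Finset.Ioc ⌊max (T ^ x / (d : ℝ)) 1⌋₊ ⌊T ^ y / (d : ℝ)⌋₊).filter Nat.Prime) with hB
  have h1 : ∑ n ∈ Finset.Ioc ⌊T ^ x⌋₊ ⌊T ^ y⌋₊,
      (if Squarefree n then wt v n / n * Real.log n else 0) =
      ∑ a ∈ A, wt v a.1 / a.1 * Real.log a.2 := by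
    rw [hA, Finset.sum_sigma, Finset.sum_filter]
    refine Finset.sum_congr rfl fun n hn => ?_
    split_ifs with hs
    · show _ = ∑ p ∈ n.primeFactors, wt v n / n * Real.log p
      rw [← Finset.mul_sum]
      congr 1
      have h2 : (n : ℝ) = ∏ p ∈ n.primeFactors, (p : ℝ) := by
        rw [← Nat.cast_prod, Nat.prod_primeFactors_of_squarefree hs]
      conv_lhs => rw [h2]
      rw [Real.log_prod]
      intro p hp
      have := (Nat.prime_of_mem_primeFactors hp).pos
      positivity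
    · rfl
  have h2 : ∑ a ∈ A, wt v a.1 / a.1 * Real.log a.2 ≤
      ∑ b ∈ B, q * (wt v b.1 / b.1) * (Real.log b.2 / b.2) := by
    refine sum_le_of_inj (fun a => (⟨a.1 / a.2, a.2⟩ : Σ _ : ℕ, ℕ)) ?_ ?_ ?_ ?_
    · rintro ⟨n, p⟩ ha
      simp only [hA, Finset.mem_sigma, Finset.mem_filter, Finset.mem_Ioc] at ha
      obtain ⟨⟨⟨hn1, hn2⟩, hs⟩, hp⟩ := ha
      have hpp := Nat.prime_of_mem_primeFactors hp
      obtain ⟨d, rfl⟩ := Nat.dvd_of_mem_primeFactors hp
      have hd : p * d / p = d := Nat.mul_div_cancel_left d hpp.pos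
      have hd0 : 0 < d := by
        rcases Nat.eq_zero_or_pos d with h | h
        · subst h; simp at hn1
        · exact h
      have hdR : (0 : ℝ) < d := by exact_mod_cast hd0
      have hn1' : T ^ x < ((p * d : ℕ) : ℝ) := Nat.lt_of_floor_lt hn1
      have hn2' : ((p * d : ℕ) : ℝ) ≤ T ^ y := (Nat.le_floor_iff hTy.le).mp hn2
      push_cast at hn1' hn2'
      simp only [hB, Finset.mem_sigma, Finset.mem_filter, Finset.mem_Ioc, Finset.mem_Icc, hd]
      refine ⟨⟨⟨hd0, ?_⟩, ?_⟩, ⟨?_, ?_⟩, hpp⟩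
      · refine Nat.le_floor ?_
        have : (1 : ℝ) ≤ p := by exact_mod_cast hpp.one_lt.le
        nlinarith
      · exact hs.squarefree_of_dvd (Dvd.intro_left p rfl)
      · refine (Nat.floor_lt (by positivity)).mpr ?_
        refine max_lt ?_ (by exact_mod_cast hpp.one_lt)
        rw [div_lt_iff₀ hdR]
        exact hn1'
      · refine Nat.le_floor ?_
        rw [le_div_iff₀ hdR]
        exact hn2'
    · rintro ⟨n, p⟩ ha ⟨n', p'⟩ ha' h
      simp only [hA, Finset.mem_sigma, Finset.mem_filter] at ha ha'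
      simp only [Sigma.mk.injEq, heq_eq_eq] at h
      obtain ⟨h3, rfl⟩ := h
      have h4 := Nat.dvd_of_mem_primeFactors ha.2
      have h5 := Nat.dvd_of_mem_primeFactors ha'.2
      have h6 : n = n' := by
        rw [← Nat.div_mul_cancel h4, ← Nat.div_mul_cancel h5, h3]
      subst h6
      rfl
    · rintro ⟨n, p⟩ ha
      simp only [hA, Finset.mem_sigma, Finset.mem_filter, Finset.mem_Ioc] at ha
      obtain ⟨⟨⟨hn1, hn2⟩, hs⟩, hp⟩ := ha
      have hpp := Nat.prime_of_mem_primeFactors hp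
      obtain ⟨d, rfl⟩ := Nat.dvd_of_mem_primeFactors hp
      have hd : p * d / p = d := Nat.mul_div_cancel_left d hpp.pos
      have hd0 : 0 < d := by
        rcases Nat.eq_zero_or_pos d with h | h
        · subst h; simp at hn1
        · exact h
      have hdR : (0 : ℝ) < d := by exact_mod_cast hd0
      have hpR : (0 : ℝ) < p := by exact_mod_cast hpp.pos
      have hco : Nat.Coprime p d := Nat.coprime_of_squarefree_mul hs
      simp only [hd]
      rw [wt_mul hco, wt_prime hpp]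
      have hlog : 0 ≤ Real.log p := Real.log_nonneg (by exact_mod_cast hpp.one_lt.le)
      have hw : 0 ≤ wt v d / d := div_nonneg (wt_nonneg hv d) hdR.le
      calc v p * wt v d / ((p * d : ℕ) : ℝ) * Real.log p
          = v p * (wt v d / d * (Real.log p / p)) := by
            push_cast
            field_simp
        _ ≤ q * (wt v d / d * (Real.log p / p)) :=
            mul_le_mul_of_nonneg_right (hvq p) (mul_nonneg hw (div_nonneg hlog hpR.le))
        _ = q * (wt v d / d) * (Real.log p / p) := by ring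
    · rintro ⟨d, p⟩ hb
      simp only [hB, Finset.mem_sigma, Finset.mem_filter] at hb
      have hpp := hb.2.2
      have hlog : 0 ≤ Real.log p := Real.log_nonneg (by exact_mod_cast hpp.one_lt.le)
      have := wt_nonneg hv d
      positivity
  have h3 : ∑ b ∈ B, q * (wt v b.1 / b.1) * (Real.log b.2 / b.2) =
      ∑ d ∈ Finset.Icc 1 ⌊T ^ y⌋₊, if Squarefree d then q * (wt v d / d) *
        ∑ p ∈ (Finset.Ioc ⌊max (T ^ x / (d : ℝ)) 1⌋₊ ⌊T ^ y / (d : ℝ)⌋₊).filter Nat.Prime,
          Real.log p / p else 0 := by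
    rw [hB, Finset.sum_sigma, Finset.sum_filter]
    refine Finset.sum_congr rfl fun d _ => ?_
    split_ifs with hs
    · show ∑ p ∈ (Finset.Ioc ⌊max (T ^ x / (d : ℝ)) 1⌋₊ ⌊T ^ y / (d : ℝ)⌋₊).filter Nat.Prime,
        q * (wt v d / d) * (Real.log p / p) = _
      rw [← Finset.mul_sum]
    · rfl
  have h4 : (∑ d ∈ Finset.Icc 1 ⌊T ^ y⌋₊, if Squarefree d then q * (wt v d / d) *
        ∑ p ∈ (Finset.Ioc ⌊max (T ^ x / (d : ℝ)) 1⌋₊ ⌊T ^ y / (d : ℝ)⌋₊).filter Nat.Prime,
          Real.log p / p else 0) ≤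
      ∑ d ∈ Finset.Icc 1 ⌊T ^ y⌋₊, (q * Real.log T * (if Squarefree d then wt v d / d *
        (y - max x (Real.log d / Real.log T)) else 0) +
        q * C0 * (if Squarefree d then wt v d / d else 0)) := by
    refine Finset.sum_le_sum fun d hd => ?_
    rw [Finset.mem_Icc] at hd
    split_ifs with hs
    · have hd0 : (0 : ℝ) < d := by exact_mod_cast hd.1
      have hdy : (d : ℝ) ≤ T ^ y := (Nat.le_floor_iff hTy.le).mp hd.2
      have hw : 0 ≤ q * (wt v d / d) := mul_nonneg hq (div_nonneg (wt_nonneg hv d) hd0.le)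
      have h5 := hmert (max (T ^ x / (d : ℝ)) 1) (T ^ y / (d : ℝ)) (le_max_right _ _)
        (max_le (by gcongr) (by rw [le_div_iff₀ hd0]; linarith))
      have h6 := (abs_le.mp h5).2
      have h7 : Real.log (T ^ y / (d : ℝ)) - Real.log (max (T ^ x / (d : ℝ)) 1) =
          Real.log T * (y - max x (Real.log d / Real.log T)) := by
        rw [Real.log_div hTy.ne' hd0.ne', Real.log_rpow hT0]
        rcases le_total (T ^ x / (d : ℝ)) 1 with h | h
        · rw [max_eq_right h, Real.log_one]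
          have h8 : T ^ x ≤ d := by rwa [div_le_one hd0] at h
          have h9 : x * Real.log T ≤ Real.log d := by
            rw [← Real.log_rpow hT0]
            exact Real.log_le_log hTx h8
          have h10 : x ≤ Real.log d / Real.log T := by rwa [le_div_iff₀ hL]
          rw [max_eq_right h10]
          field_simp
          ring
        · rw [max_eq_left h, Real.log_div hTx.ne' hd0.ne', Real.log_rpow hT0]
          have h8 : (d : ℝ) ≤ T ^ x := by rwa [le_div_iff₀ hd0, one_mul] at h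
          have h9 : Real.log d ≤ x * Real.log T := by
            rw [← Real.log_rpow hT0]
            exact Real.log_le_log hd0 h8
          have h10 : Real.log d / Real.log T ≤ x := by rwa [div_le_iff₀ hL]
          rw [max_eq_left h10]
          ring
      rw [h7] at h6
      calc q * (wt v d / d) * _ ≤ q * (wt v d / d) *
            (Real.log T * (y - max x (Real.log d / Real.log T)) + C0) :=
            mul_le_mul_of_nonneg_left (by linarith) hw
        _ = _ := by ring
    · simp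
  have h5 : ∑ d ∈ Finset.Icc 1 ⌊T ^ y⌋₊, (q * Real.log T * (if Squarefree d then wt v d / d *
        (y - max x (Real.log d / Real.log T)) else 0) +
        q * C0 * (if Squarefree d then wt v d / d else 0)) =
      q * Real.log T * (∫ t in x..y, FW v T t) + q * C0 * FW v T y := by
    rw [Finset.sum_add_distrib, ← Finset.mul_sum, ← Finset.mul_sum, integral_FW hT hxy, FW]
  have h6 := FW_nonneg hv T y
  rw [h1]
  rw [h5] at h4
  rw [h3] at h2
  linarith

end Pool.Agent.MP_67227b_nt.Al
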