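import Pool.Agent.MP_67227b_nt.Al.AlWt

set_option autoImplicit false

open Filter Topology Set MeasureTheory Complex
open scoped Real ArithmeticFunction ContDiff

namespace Pool.Agent.MP_67227b_nt.Al

open Pool.Agent.Lib.ZetaCount_helper33 Pool.Agent.MP_67227b_nt Pool.Agent.MP_67227b_nt.Mo
open Pool.Agent.MP_67227b_nt.Sg Pool.Agent.MP_67227b_nt.Pp

/-- MODULE F2. Abel summation: from `integral_FW`,
`y F(y) - x F(x) - ∫_x^y F = ∑_{T^x < n ≤ T^y} (w(n)/n) log n/L`. -/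
theorem FW_abel {v : ℕ → ℝ} {T x y : ℝ} (hT : 1 < T) (hx : 0 ≤ x) (hxy : x ≤ y) :
    ∑ n ∈ Finset.Ioc ⌊T ^ x⌋₊ ⌊T ^ y⌋₊, (if Squarefree n then wt v n / n * Real.log n else 0) =
      Real.log T * (y * FW v T y - x * FW v T x - ∫ t in x..y, FW v T t) := by
  have hL : 0 < Real.log T := Real.log_pos hT
  have hT0 : 0 < T := by linarith
  have hTx : 0 < T ^ x := Real.rpow_pos_of_pos hT0 x
  have hI : ∀ N : ℕ, Finset.Icc 1 N = Finset.Ioc 0 N := fun N => by
    ext n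
    simp only [Finset.mem_Icc, Finset.mem_Ioc]
    omega
  rw [integral_FW hT hxy]
  unfold FW
  rw [hI, hI]
  have hN : ⌊T ^ x⌋₊ ≤ ⌊T ^ y⌋₊ :=
    Nat.floor_mono (Real.rpow_le_rpow_of_exponent_le hT.le hxy)
  rw [← Finset.sum_Ioc_consecutive (fun n : ℕ => if Squarefree n then wt v n / (n:ℝ) else 0)
    (Nat.zero_le _) hN, ← Finset.sum_Ioc_consecutive
    (fun n : ℕ => if Squarefree n then wt v n / n * (y - max x (Real.log n / Real.log T)) else 0)
    (Nat.zero_le _) hN]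
  have h1 : ∑ n ∈ Finset.Ioc 0 ⌊T ^ x⌋₊,
      (if Squarefree n then wt v n / n * (y - max x (Real.log n / Real.log T)) else 0) =
      (y - x) * ∑ n ∈ Finset.Ioc 0 ⌊T ^ x⌋₊, (if Squarefree n then wt v n / (n:ℝ) else 0) := by
    rw [Finset.mul_sum]
    refine Finset.sum_congr rfl fun n hn => ?_
    rw [Finset.mem_Ioc] at hn
    have h3 : (n:ℝ) ≤ T ^ x := (Nat.le_floor_iff hTx.le).1 hn.2
    have h4 : (0:ℝ) < n := by exact_mod_cast hn.1
    have h5 : Real.log n / Real.log T ≤ x := by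
      rw [div_le_iff₀ hL, ← Real.log_rpow hT0]
      exact Real.log_le_log h4 h3
    rw [max_eq_left h5]
    split_ifs <;> ring
  have h2 : ∑ n ∈ Finset.Ioc ⌊T ^ x⌋₊ ⌊T ^ y⌋₊,
      (if Squarefree n then wt v n / n * (y - max x (Real.log n / Real.log T)) else 0) =
      y * (∑ n ∈ Finset.Ioc ⌊T ^ x⌋₊ ⌊T ^ y⌋₊, (if Squarefree n then wt v n / (n:ℝ) else 0)) -
      (∑ n ∈ Finset.Ioc ⌊T ^ x⌋₊ ⌊T ^ y⌋₊,
        (if Squarefree n then wt v n / n * Real.log n else 0)) / Real.log T := by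
    rw [Finset.mul_sum, Finset.sum_div, ← Finset.sum_sub_distrib]
    refine Finset.sum_congr rfl fun n hn => ?_
    rw [Finset.mem_Ioc] at hn
    have h3 : T ^ x < (n:ℝ) := (Nat.floor_lt hTx.le).1 hn.1
    have h5 : x ≤ Real.log n / Real.log T := by
      rw [le_div_iff₀ hL, ← Real.log_rpow hT0]
      exact Real.log_le_log hTx h3.le
    rw [max_eq_right h5]
    split_ifs
    · ring
    · simp
  rw [h1, h2]
  field_simp
  ring

end Pool.Agent.MP_67227b_nt.Al
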