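import Pool.Agent.MP_67227b_nt.Al.AlDefs

set_option autoImplicit false

open Filter Topology Set MeasureTheory Complex
open scoped Real ArithmeticFunction ContDiff

namespace Pool.Agent.MP_67227b_nt.Al

open Pool.Agent.Lib.ZetaCount_helper33 Pool.Agent.MP_67227b_nt Pool.Agent.MP_67227b_nt.Mo
open Pool.Agent.MP_67227b_nt.Sg Pool.Agent.MP_67227b_nt.Pp

/-- MODULE F3. Gronwall. Let `G y = x F x + e + (1+q) ∫_x^y F`, continuous, with `t F t ≤ G t`; so
`G y ≤ Ψ y := G x + (1+q) ∫_x^y G t/t dt`, `Ψ` is `C¹` on `[x, κ]`, `Ψ' = (1+q) G/y ≤ (1+q) Ψ/y`, so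
`Ψ y y^{-(1+q)}` is nonincreasing and `κ F κ ≤ Ψ κ ≤ (x F x + e) (κ/x)^{1+q}`. -/
theorem gronwall {F : ℝ → ℝ} {x κ q e : ℝ} (hx : 0 < x) (hxκ : x ≤ κ) (hq : 0 ≤ q)
    (hF : MonotoneOn F (Icc x κ)) (hF0 : ∀ t ∈ Icc x κ, 0 ≤ F t) (he : 0 ≤ e)
    (h : ∀ y ∈ Icc x κ, y * F y ≤ x * F x + (1 + q) * (∫ t in x..y, F t) + e) :
    F κ ≤ (κ / x) ^ q * (F x + e / x) := by
  have hκ : 0 < κ := lt_of_lt_of_le hx hxκ
  have hFi : IntervalIntegrable F volume x κ := by
    apply MonotoneOn.intervalIntegrable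
    rw [uIcc_of_le hxκ]
    exact hF
  set G : ℝ → ℝ := fun y => x * F x + e + (1 + q) * ∫ t in x..y, F t with hG
  have hGc : ContinuousOn G (Icc x κ) := by
    have h1 : ContinuousOn (fun y => ∫ t in x..y, F t) (Icc x κ) := by
      have := intervalIntegral.continuousOn_primitive_interval (μ := volume) (f := F) (a := x)
        (b := κ) (by
          rw [← intervalIntegrable_iff' ]
          exact hFi)
      rw [uIcc_of_le hxκ] at this
      exact this
    exact continuousOn_const.add (continuousOn_const.mul h1)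
  have hGF : ∀ y ∈ Icc x κ, y * F y ≤ G y := fun y hy => by
    have := h y hy
    simp only [hG]
    linarith
  set g : ℝ → ℝ := fun t => G t / t with hg
  have hgc : ContinuousOn g (Icc x κ) :=
    hGc.div continuousOn_id fun t ht => (lt_of_lt_of_le hx ht.1).ne'
  have hgi : IntervalIntegrable g volume x κ := by
    apply ContinuousOn.intervalIntegrable
    rw [uIcc_of_le hxκ]
    exact hgc
  set Ψ : ℝ → ℝ := fun y => G x + (1 + q) * ∫ t in x..y, g t with hΨ
  have hGx : G x = x * F x + e := by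
    simp [hG]
  have hΨc : ContinuousOn Ψ (Icc x κ) := by
    have h1 : ContinuousOn (fun y => ∫ t in x..y, g t) (Icc x κ) := by
      have := intervalIntegral.continuousOn_primitive_interval (μ := volume) (f := g) (a := x)
        (b := κ) (by
          rw [← intervalIntegrable_iff' ]
          exact hgi)
      rw [uIcc_of_le hxκ] at this
      exact this
    exact continuousOn_const.add (continuousOn_const.mul h1)
  have hsub : ∀ (f : ℝ → ℝ), IntervalIntegrable f volume x κ → ∀ y ∈ Icc x κ,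
      IntervalIntegrable f volume x y := fun f hf y hy =>
    hf.mono_set (by
      rw [uIcc_of_le hxκ, uIcc_of_le hy.1]
      exact Icc_subset_Icc le_rfl hy.2)
  have hGΨ : ∀ y ∈ Icc x κ, G y ≤ Ψ y := fun y hy => by
    have h1 : ∫ t in x..y, F t ≤ ∫ t in x..y, g t := by
      apply intervalIntegral.integral_mono_on hy.1 (hsub F hFi y hy) (hsub g hgi y hy)
      intro t ht
      have ht' : t ∈ Icc x κ := ⟨ht.1, ht.2.trans hy.2⟩
      have ht0 : 0 < t := lt_of_lt_of_le hx ht.1
      simp only [hg]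
      rw [le_div_iff₀ ht0]
      have := hGF t ht'
      linarith [mul_comm t (F t)]
    have h2 : 0 ≤ 1 + q := by linarith
    have h3 := mul_le_mul_of_nonneg_left h1 h2
    simp only [hΨ]
    rw [hGx]
    simp only [hG]
    linarith
  have hder : ∀ y ∈ Ioo x κ, HasDerivAt Ψ ((1 + q) * g y) y := fun y hy => by
    have hy' : y ∈ Icc x κ := ⟨hy.1.le, hy.2.le⟩
    have h1 : HasDerivAt (fun y => ∫ t in x..y, g t) (g y) y := by
      apply intervalIntegral.integral_hasDerivAt_right (hsub g hgi y hy')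
      · exact ContinuousOn.stronglyMeasurableAtFilter isOpen_Ioo (hgc.mono Ioo_subset_Icc_self) y hy
      · exact (hgc.mono Ioo_subset_Icc_self).continuousAt (Ioo_mem_nhds hy.1 hy.2)
    exact (h1.const_mul (1 + q)).const_add (G x)
  have hanti : AntitoneOn (fun y => Ψ y * y ^ (-(1 + q))) (Icc x κ) := by
    apply antitoneOn_of_deriv_nonpos (convex_Icc x κ)
    · apply hΨc.mul
      intro t ht
      exact (Real.continuousAt_rpow_const t _ (Or.inl (lt_of_lt_of_le hx ht.1).ne')).continuousWithinAt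
    · intro y hy
      rw [interior_Icc] at hy
      have hy0 : 0 < y := hx.trans hy.1
      exact ((hder y hy).mul (Real.hasDerivAt_rpow_const (Or.inl hy0.ne'))).differentiableAt.differentiableWithinAt
    · intro y hy
      rw [interior_Icc] at hy
      have hy0 : 0 < y := hx.trans hy.1
      have hy' : y ∈ Icc x κ := ⟨hy.1.le, hy.2.le⟩
      have hd := ((hder y hy).mul (Real.hasDerivAt_rpow_const (p := -(1 + q))
        (Or.inl hy0.ne'))).deriv
      have hd' : deriv (fun y => Ψ y * y ^ (-(1 + q))) y =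
          (1 + q) * g y * y ^ (-(1 + q)) + Ψ y * (-(1 + q) * y ^ (-(1 + q) - 1)) := hd
      rw [hd']
      have hyp : y ^ (-(1 + q)) = y ^ (-(1 + q) - 1) * y := by
        rw [Real.rpow_sub_one hy0.ne']
        field_simp
      rw [hyp]
      have h1 : 0 < y ^ (-(1 + q) - 1) := Real.rpow_pos_of_pos hy0 _
      have h2 : g y * y = G y := by
        simp only [hg]
        field_simp
      have h3 : (1 + q) * g y * (y ^ (-(1 + q) - 1) * y) + Ψ y * (-(1 + q) * y ^ (-(1 + q) - 1)) =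
          -((1 + q) * y ^ (-(1 + q) - 1) * (Ψ y - G y)) := by
        rw [← h2]
        ring
      rw [h3]
      have h4 : 0 ≤ (1 + q) * y ^ (-(1 + q) - 1) * (Ψ y - G y) :=
        mul_nonneg (mul_nonneg (by linarith) h1.le) (sub_nonneg.2 (hGΨ y hy'))
      linarith
  have h1 := hanti ⟨le_rfl, hxκ⟩ ⟨hxκ, le_rfl⟩ hxκ
  simp only at h1
  have hΨx : Ψ x = x * F x + e := by
    simp only [hΨ, hGx]
    simp
  rw [hΨx] at h1
  have h2 : κ * F κ ≤ Ψ κ := (hGF κ ⟨hxκ, le_rfl⟩).trans (hGΨ κ ⟨hxκ, le_rfl⟩)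
  have h3 : 0 < κ ^ (-(1 + q)) := Real.rpow_pos_of_pos hκ _
  have h4 : κ * F κ * κ ^ (-(1 + q)) ≤ (x * F x + e) * x ^ (-(1 + q)) :=
    (mul_le_mul_of_nonneg_right h2 h3.le).trans h1
  have h5 : κ * κ ^ (-(1 + q)) = κ ^ (-q) := by
    have : κ ^ (-q) = κ ^ (1 + -(1 + q)) := by congr 1; ring
    rw [this, Real.rpow_add hκ, Real.rpow_one]
  have h6 : x ^ (-(1 + q)) = x ^ (-q) / x := by
    have : -(1 + q) = -q - 1 := by ring
    rw [this, Real.rpow_sub_one hx.ne']
  have h7 : F κ * κ ^ (-q) ≤ (F x + e / x) * x ^ (-q) := by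
    have e1 : F κ * κ ^ (-q) = κ * F κ * κ ^ (-(1 + q)) := by
      rw [← h5]; ring
    have e2 : (F x + e / x) * x ^ (-q) = (x * F x + e) * x ^ (-(1 + q)) := by
      rw [h6]
      field_simp
    rw [e1, e2]
    exact h4
  have h8 : 0 < κ ^ q := Real.rpow_pos_of_pos hκ _
  have h9 : 0 < x ^ q := Real.rpow_pos_of_pos hx _
  rw [Real.rpow_neg hκ.le, Real.rpow_neg hx.le] at h7
  rw [Real.div_rpow hκ.le hx.le]
  have h10 : F κ = F κ * (κ ^ q)⁻¹ * κ ^ q := by
    field_simp
  have h11 : κ ^ q / x ^ q * (F x + e / x) = (F x + e / x) * (x ^ q)⁻¹ * κ ^ q := by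
    field_simp
  rw [h10, h11]
  exact mul_le_mul_of_nonneg_right h7 h8.le

end Pool.Agent.MP_67227b_nt.Al
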