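import Pool.Agent.MP_67227b_nt.Al.AlF1
import Pool.Agent.MP_67227b_nt.Al.AlF2
import Pool.Agent.MP_67227b_nt.Al.AlF3

set_option autoImplicit false

open Filter Topology Set MeasureTheory Complex
open scoped Real ArithmeticFunction ContDiff

namespace Pool.Agent.MP_67227b_nt.Al

open Pool.Agent.Lib.ZetaCount_helper33 Pool.Agent.MP_67227b_nt Pool.Agent.MP_67227b_nt.Mo
open Pool.Agent.MP_67227b_nt.Sg Pool.Agent.MP_67227b_nt.Pp

/-- MODULE F4. Slow growth: `FW_log`, `FW_abel`, `gronwall` with `e = (C/L) F(κ)` give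
`F(κ) ≤ (κ/x)^q (F(x) + C F(κ)/(L x))`, so `F(x) ≥ ((x/κ)^q - C/(L x₀)) F(κ)`. -/
theorem FW_lower {q κ x₀ ε : ℝ} (hq : 0 ≤ q) (hκ : 0 < κ) (hx₀ : 0 < x₀) (hε : 0 < ε) :
    ∀ᶠ T : ℝ in atTop, ∀ v : ℕ → ℝ, (∀ p, 0 ≤ v p) → (∀ p, v p ≤ q) →
      ∀ x, x₀ ≤ x → x ≤ κ → ((x / κ) ^ q - ε) * FW v T κ ≤ FW v T x := by
  obtain ⟨C, hC, hlog⟩ := FW_log hq
  have hT1 : ∀ᶠ T : ℝ in atTop, C / (x₀ * ε) ≤ Real.log T :=
    Real.tendsto_log_atTop.eventually_ge_atTop _
  filter_upwards [hT1, eventually_gt_atTop 1] with T hT hT1 v hv hvq x hx hxκ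
  have hL : 0 < Real.log T := Real.log_pos hT1
  have hx0 : 0 < x := lt_of_lt_of_le hx₀ hx
  have hFκ : 0 ≤ FW v T κ := FW_nonneg hv T κ
  have hgr := gronwall (F := FW v T) (x := x) (κ := κ) (q := q) (e := C / Real.log T * FW v T κ)
    hx0 hxκ hq ((FW_mono hv hT1).monotoneOn _) (fun t _ => FW_nonneg hv T t) (by positivity)
    (by
      intro y hy
      have h1 := hlog v T x y hv hvq hT1 hx0.le hy.1
      rw [FW_abel hT1 hx0.le hy.1] at h1
      have h2 : FW v T y ≤ FW v T κ := FW_mono hv hT1 hy.2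
      have h3 : C * FW v T y ≤ C * FW v T κ := by gcongr
      have h4 : Real.log T * (y * FW v T y) ≤ Real.log T * (x * FW v T x +
          (1 + q) * (∫ t in x..y, FW v T t) + C / Real.log T * FW v T κ) := by
        have h5 : Real.log T * (C / Real.log T * FW v T κ) = C * FW v T κ := by
          field_simp
        nlinarith
      exact le_of_mul_le_mul_left h4 hL)
  have hp1 : 0 < (κ / x) ^ q := Real.rpow_pos_of_pos (by positivity) _
  have hp2 : (x / κ) ^ q * (κ / x) ^ q = 1 := by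
    rw [← Real.mul_rpow (by positivity) (by positivity)]
    rw [show x / κ * (κ / x) = 1 by field_simp]
    exact Real.one_rpow q
  have hp3 : 0 < (x / κ) ^ q := Real.rpow_pos_of_pos (by positivity) _
  have h6 : (x / κ) ^ q * FW v T κ ≤ FW v T x + C / Real.log T * FW v T κ / x := by
    calc (x / κ) ^ q * FW v T κ ≤ (x / κ) ^ q * ((κ / x) ^ q * (FW v T x +
          C / Real.log T * FW v T κ / x)) := by gcongr
      _ = _ := by rw [← mul_assoc, hp2, one_mul]
  have h7 : C / Real.log T * FW v T κ / x ≤ ε * FW v T κ := by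
    have h8 : C / Real.log T / x ≤ ε := by
      rw [div_le_iff₀ (by positivity)] at hT
      rw [div_div, div_le_iff₀ (by positivity)]
      calc C ≤ Real.log T * (x₀ * ε) := hT
        _ ≤ Real.log T * (x * ε) := by gcongr
        _ = ε * (Real.log T * x) := by ring
    calc C / Real.log T * FW v T κ / x = (C / Real.log T / x) * FW v T κ := by ring
      _ ≤ ε * FW v T κ := by gcongr
  linarith

end Pool.Agent.MP_67227b_nt.Al
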