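import Pool.Agent.MP_67227b_nt.Al.AlDefs

set_option autoImplicit false

open Filter Topology Set MeasureTheory Complex
open scoped Real ArithmeticFunction ContDiff

namespace Pool.Agent.MP_67227b_nt.Al

open Pool.Agent.Lib.ZetaCount_helper33 Pool.Agent.MP_67227b_nt Pool.Agent.MP_67227b_nt.Mo
open Pool.Agent.MP_67227b_nt.Sg Pool.Agent.MP_67227b_nt.Pp

/-- MODULE Z1. `Gf` is continuous. -/
theorem continuousOn_Gf : ContinuousOn Gf (Ici 0) := by
  unfold Gf
  refine ContinuousOn.inf ?_ ?_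
  · refine ContinuousOn.div continuousOn_id
      ((continuous_const.add continuous_id).sqrt.continuousOn) (fun s hs => ?_)
    have hs0 : (0:ℝ) ≤ s := hs
    exact (Real.sqrt_pos.mpr (by linarith)).ne'
  · exact ((continuous_id.div_const 2).sqrt).continuousOn

theorem Gf_pos {s : ℝ} (hs : 0 < s) : 0 < Gf s := by
  unfold Gf
  exact lt_min (div_pos hs (Real.sqrt_pos.mpr (by linarith))) (Real.sqrt_pos.mpr (by linarith))

/-- MODULE Z2. If `m < lam + Gf (lam θ)`, the same holds for some `u < lam`. -/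
theorem exists_u_Gf {m : ℕ} {lam θ : ℝ} (hlam : 0 < lam) (hθ : 0 < θ)
    (h : (m : ℝ) < lam + Gf (lam * θ)) : ∃ u : ℝ, 0 < u ∧ u < lam ∧
      (m : ℝ) < u + Gf (u * θ) := by
  have hG : ContinuousAt Gf (lam * θ) :=
    continuousOn_Gf.continuousAt (Ici_mem_nhds (by positivity))
  have hc : ContinuousAt (fun u : ℝ => u + Gf (u * θ)) lam := by
    refine continuousAt_id.add ?_
    exact ContinuousAt.comp (f := fun u : ℝ => u * θ) (g := Gf) hG (by fun_prop)
  have h1 : ∀ᶠ u in 𝓝 lam, (m : ℝ) < u + Gf (u * θ) := hc.eventually (lt_mem_nhds h)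
  have h3 : ∀ᶠ u in 𝓝 lam, 0 < u := lt_mem_nhds hlam
  have h4 : ∀ᶠ u in 𝓝[<] lam, u ∈ Iio lam := self_mem_nhdsWithin
  obtain ⟨u, hu⟩ := (((h1.and h3).filter_mono nhdsWithin_le_nhds).and h4).exists
  exact ⟨u, hu.1.2, hu.2, hu.1.1⟩

/-- MODULE Z3. For `m ≥ 2` and `lam > m - √m/2`, `m < lam + Gf lam`: here `lam ≥ 1`, so
`Gf lam = √(lam/2)` (as `lam/√(1+lam) ≥ √(lam/2)` iff `2 lam ≥ 1 + lam`), and `lam + √(lam/2)` is
increasing with value at `lam = m - √m/2` at least `m`, since `(m - √m/2)/2 ≥ m/4`. For `m = 1`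
it is not true, but `lam > 1/2` there. -/
theorem lt_add_Gf {m : ℕ} {lam : ℝ} (hm : 2 ≤ m) (h : (m : ℝ) - Real.sqrt m / 2 < lam) :
    (m : ℝ) < lam + Gf lam := by
  have hm2 : (2 : ℝ) ≤ m := by exact_mod_cast hm
  have hr : Real.sqrt m ^ 2 = m := Real.sq_sqrt (by linarith)
  have hr0 : 0 ≤ Real.sqrt m := Real.sqrt_nonneg _
  have hr1 : 1.4 ≤ Real.sqrt m := by
    rw [show (1.4:ℝ) = Real.sqrt (1.4 ^ 2) by rw [Real.sqrt_sq (by norm_num)]]
    apply Real.sqrt_le_sqrt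
    norm_num
    linarith
  set r := Real.sqrt m with hrdef
  have hrm : r ≤ m := by nlinarith
  have hlam : 1 < lam := by nlinarith
  have h1 : r / 2 ≤ Real.sqrt (lam / 2) := by
    apply Real.le_sqrt_of_sq_le
    nlinarith
  have h2 : Real.sqrt (lam / 2) ≤ lam / Real.sqrt (1 + lam) := by
    rw [le_div_iff₀ (Real.sqrt_pos.mpr (by linarith)), ← Real.sqrt_mul (by linarith)]
    rw [Real.sqrt_le_left (by linarith)]
    nlinarith
  have h3 : r / 2 ≤ Gf lam := by
    unfold Gf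
    exact le_min (h1.trans h2) h1
  linarith

end Pool.Agent.MP_67227b_nt.Al
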