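import Pool.Agent.MP_67227b_nt.Al.AlHS

set_option autoImplicit false

open Filter Topology Set MeasureTheory Complex
open scoped Real ArithmeticFunction ContDiff

namespace Pool.Agent.MP_67227b_nt.Al

open Pool.Agent.Lib.ZetaCount_helper33 Pool.Agent.MP_67227b_nt Pool.Agent.MP_67227b_nt.Mo
open Pool.Agent.MP_67227b_nt.Sg Pool.Agent.MP_67227b_nt.Pp

private theorem grid_unif {κ δ : ℝ} {H : ℝ → ℝ} (hc : Continuous H)
    (hs : ∀ x, H x ≠ 0 → δ ≤ x ∧ x ≤ κ - δ) :
    (∃ M : ℝ, ∀ x, |H x| ≤ M) ∧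
      ∀ ε : ℝ, 0 < ε → ∃ ρ : ℝ, 0 < ρ ∧ ∀ x y : ℝ, |x - y| < ρ → |H x - H y| < ε := by
  have hcs : HasCompactSupport H := by
    refine HasCompactSupport.intro (isCompact_Icc (a := δ) (b := κ - δ)) ?_
    intro x hx
    by_contra h
    exact hx ⟨(hs x h).1, (hs x h).2⟩
  constructor
  · obtain ⟨M, hM⟩ := hc.bounded_above_of_compact_support hcs
    exact ⟨M, fun x => by simpa using hM x⟩
  · intro ε hε
    have hu : UniformContinuous H := hcs.uniformContinuous_of_continuous hc
    obtain ⟨ρ, hρ, h⟩ := Metric.uniformContinuous_iff.1 hu ε hε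
    exact ⟨ρ, hρ, fun x y hxy => by
      have := @h x y (by rwa [Real.dist_eq])
      rwa [Real.dist_eq] at this⟩

private theorem grid_sign {sg u κ δ η : ℝ} {H : ℝ → ℝ} (hu : 0 < u)
    (hH : Prof sg u κ δ H) (h2 : 2 * η * (π * u) < δ) (i : ℕ) {x : ℝ}
    (hx : x ∈ Icc ((i : ℝ) * η) (((i : ℝ) + 2) * η)) :
    H (i * η) = tau sg u x * |H (i * η)| := by
  by_cases h0 : H (i * η) = 0
  · rw [h0]; simp
  obtain ⟨h3, h4⟩ := hH.sin _ h0
  have hpu : 0 < π * u := mul_pos Real.pi_pos hu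
  have h5 : |Real.sin (π * u * x) - Real.sin (π * u * (i * η))| < δ := by
    calc |Real.sin (π * u * x) - Real.sin (π * u * (i * η))|
        ≤ |π * u * x - π * u * (i * η)| := by
          have := Real.abs_sin_sub_sin_le (π * u * x) (π * u * (i * η))
          exact this
      _ = (π * u) * |x - i * η| := by
          rw [← mul_sub, abs_mul, abs_of_pos hpu]
      _ ≤ (π * u) * (2 * η) := by
          refine mul_le_mul_of_nonneg_left ?_ hpu.le
          rw [abs_le]
          constructor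
          · have := hx.1; have := hx.2; nlinarith
          · have := hx.2; nlinarith
      _ < δ := by linarith
  set s1 := Real.sin (π * u * (i * η)) with hs1
  set s2 := Real.sin (π * u * x) with hs2
  rw [abs_lt] at h5
  have h6 : 0 < s1 * s2 := by
    rcases le_or_gt 0 s1 with h | h
    · rw [abs_of_nonneg h] at h3
      have : 0 < s2 := by linarith
      have : 0 < s1 := by
        rcases h.lt_or_eq with h | h
        · exact h
        · rw [← h] at h4; simp at h4
      positivity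
    · rw [abs_of_neg h] at h3
      have : s2 < 0 := by linarith
      exact mul_pos_of_neg_of_neg h this
  have h7 : 0 < sg * H (i * η) * s2 := by
    have h8 : 0 < (sg * H (i * η) * s1) * (s1 * s2) := mul_pos h4 h6
    have h9 : (sg * H (i * η) * s1) * (s1 * s2) = s1 ^ 2 * (sg * H (i * η) * s2) := by ring
    rw [h9] at h8
    by_contra hn
    push Not at hn
    exact absurd h8 (not_lt.2 (mul_nonpos_of_nonneg_of_nonpos (sq_nonneg _) hn))
  unfold tau
  rw [← hs2]
  split_ifs with hc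
  · have : 0 < H (i * η) := by
      by_contra hn
      push Not at hn
      have : sg * H (i * η) * s2 ≤ 0 := by
        have : sg * H (i * η) * s2 = (sg * s2) * H (i * η) := by ring
        rw [this]
        exact mul_nonpos_of_nonneg_of_nonpos hc hn
      linarith
    rw [abs_of_pos this, one_mul]
  · push Not at hc
    have : H (i * η) < 0 := by
      by_contra hn
      push Not at hn
      have : sg * H (i * η) * s2 ≤ 0 := by
        have : sg * H (i * η) * s2 = (sg * s2) * H (i * η) := by ring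
        rw [this]
        exact mul_nonpos_of_nonpos_of_nonneg hc.le hn
      linarith
    rw [abs_of_neg this]; ring

/-- MODULE G. The grid. `H` is bounded and uniformly continuous (continuous, supported in
`[δ, κ - δ]`). For a natural number `i0` large put `η = (δ/2)/i0`, `K = ⌊κ/(δ/2)⌋`,
`i1 = ⌈κ/η⌉`, `a i = H(i η)`. Then `(K+1) i0 η > κ`, `2Kη → 0`. Sign: if `a i ≠ 0`, then
`|sin(πu iη)| ≥ δ`, so for `2η πu < δ` the sine has a constant sign on `[iη, (i+2)η]`, the sign of
`sin(πu iη)`, so `tau sg u x = tau sg u (iη) = sign (a i)`. Near: `hS |a| x = ∑_i |H(iη)| ph_i x`, and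
`ph_i x ≠ 0` only for `|x - iη| ≤ 2η`; `∑_{i ∈ Ico i0 i1} ph_i x = 1` for
`(i0+1) η ≤ x ≤ i1 η` (`Pp.sum_ph`), in particular on the support of `H`, so
`|hS |a| x - |H x|| ≤ sup_{|x-y| ≤ 2η} |H x - H y|` there; if `H x = 0`,
`hS |a| x ≤ sup_{|x - y| ≤ 2η} |H y| ≤` the same. Lipschitz: `hS_lip`. -/
theorem grid {sg u κ δ ε : ℝ} {H : ℝ → ℝ} (hsg : sg = 1 ∨ sg = -1) (hu : 0 < u) (hκ : 0 < κ)
    (hδ : 0 < δ) (hH : Prof sg u κ δ H) (hε : 0 < ε) :
    ∃ (η M : ℝ) (a : ℕ → ℝ) (i0 i1 K : ℕ), 0 < η ∧ 1 ≤ i0 ∧ (∀ i, |a i| ≤ M) ∧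
      κ < ((K : ℝ) + 1) * ((i0 : ℝ) * η) ∧ 2 * K * η ≤ ε ∧
      (∀ i ∈ Finset.Ico i0 i1, ∀ x ∈ Icc ((i : ℝ) * η) (((i : ℝ) + 2) * η),
        a i = tau sg u x * |a i|) ∧
      Near H ε (hS (fun i => |a i|) η i0 i1) := by
  obtain ⟨⟨M, hM⟩, hunif⟩ := grid_unif hH.cont hH.supp
  obtain ⟨ρ, hρ, hρH⟩ := hunif ε hε
  have hpu : 0 < π * u := mul_pos Real.pi_pos hu
  set K : ℕ := ⌊κ / (δ / 2)⌋₊ with hK
  obtain ⟨e0, he0, he1, he2, he3, he4⟩ : ∃ e0 : ℝ, 0 < e0 ∧ 2 * e0 < ρ ∧ 2 * K * e0 ≤ ε ∧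
      2 * e0 ≤ ε ∧ 2 * e0 * (π * u) < δ := by
    have hK0 : (0 : ℝ) ≤ K := Nat.cast_nonneg K
    refine ⟨min (min (ρ / 4) (ε / (2 * K + 2))) (min (ε / 2) (δ / (4 * (π * u)))), ?_, ?_, ?_,
      ?_, ?_⟩
    · refine lt_min (lt_min (by positivity) (by positivity)) (lt_min (by positivity)
        (by positivity))
    · have : min (min (ρ / 4) (ε / (2 * K + 2))) (min (ε / 2) (δ / (4 * (π * u)))) ≤ ρ / 4 :=
        le_trans (min_le_left _ _) (min_le_left _ _)
      linarith
    · have h1 : min (min (ρ / 4) (ε / (2 * K + 2))) (min (ε / 2) (δ / (4 * (π * u)))) ≤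
          ε / (2 * K + 2) := le_trans (min_le_left _ _) (min_le_right _ _)
      calc 2 * (K : ℝ) * min (min (ρ / 4) (ε / (2 * K + 2))) (min (ε / 2) (δ / (4 * (π * u))))
          ≤ 2 * K * (ε / (2 * K + 2)) := mul_le_mul_of_nonneg_left h1 (by positivity)
        _ ≤ ε := by
          rw [mul_div_assoc', div_le_iff₀ (by positivity)]
          nlinarith
    · have : min (min (ρ / 4) (ε / (2 * K + 2))) (min (ε / 2) (δ / (4 * (π * u)))) ≤ ε / 2 :=
        le_trans (min_le_right _ _) (min_le_left _ _)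
      linarith
    · have h1 : min (min (ρ / 4) (ε / (2 * K + 2))) (min (ε / 2) (δ / (4 * (π * u)))) ≤
          δ / (4 * (π * u)) := le_trans (min_le_right _ _) (min_le_right _ _)
      calc 2 * min (min (ρ / 4) (ε / (2 * K + 2))) (min (ε / 2) (δ / (4 * (π * u)))) * (π * u)
          ≤ 2 * (δ / (4 * (π * u))) * (π * u) := by
            refine mul_le_mul_of_nonneg_right ?_ hpu.le
            linarith
        _ = δ / 2 := by field_simp; ring
        _ < δ := by linarith
  set i0 : ℕ := ⌈(δ / 2) / e0⌉₊ + 1 with hi0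
  have hi0R : (1 : ℝ) ≤ i0 := by
    rw [hi0]; push_cast; have : (0 : ℝ) ≤ (⌈(δ / 2) / e0⌉₊ : ℝ) := Nat.cast_nonneg _; linarith
  have hi0R' : (0 : ℝ) < i0 := by linarith
  set η : ℝ := (δ / 2) / i0 with hη
  have hη0 : 0 < η := by rw [hη]; positivity
  have hi0η : (i0 : ℝ) * η = δ / 2 := by rw [hη]; field_simp
  have hηe : η ≤ e0 := by
    rw [hη, div_le_iff₀ hi0R']
    have h1 : (δ / 2) / e0 ≤ i0 := by
      rw [hi0]; push_cast
      have := Nat.le_ceil ((δ / 2) / e0)
      linarith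
    rw [div_le_iff₀ he0] at h1
    linarith
  set i1 : ℕ := i0 + ⌈κ / η⌉₊ with hi1
  have hi01 : i0 ≤ i1 := by omega
  have hi1η : κ ≤ (i1 : ℝ) * η := by
    rw [hi1]; push_cast
    have h1 : κ / η ≤ (⌈κ / η⌉₊ : ℝ) := Nat.le_ceil _
    rw [div_le_iff₀ hη0] at h1
    have h2 : 0 ≤ (i0 : ℝ) * η := by positivity
    linarith
  have hi0δ : ((i0 : ℝ) + 1) * η ≤ δ := by
    have : η ≤ δ / 2 := by
      rw [hη]; exact div_le_self (by positivity) hi0R
    linarith
  -- distance
  have hdist : ∀ (i : ℕ) (x : ℝ), ph η i x ≠ 0 → |x - i * η| ≤ 2 * η := by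
    intro i x hne
    have h1 : (i : ℝ) * η < x := by
      by_contra h; push Not at h; exact hne (ph_zero_left hη0 h)
    have h2 : x < ((i : ℝ) + 2) * η := by
      by_contra h; push Not at h; exact hne (ph_zero_right hη0 h)
    rw [abs_le]
    constructor
    · linarith
    · linarith
  refine ⟨η, M, fun i => H (i * η), i0, i1, K, hη0, by omega, fun i => hM _, ?_, ?_, ?_, ?_⟩
  · rw [hi0η]
    have h1 : κ / (δ / 2) < (K : ℝ) + 1 := Nat.lt_floor_add_one _
    rwa [div_lt_iff₀ (by positivity)] at h1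
  · calc 2 * (K : ℝ) * η ≤ 2 * K * e0 := mul_le_mul_of_nonneg_left hηe (by positivity)
      _ ≤ ε := he2
  · intro i _ x hx
    refine grid_sign hu hH ?_ i hx
    have : 2 * η * (π * u) ≤ 2 * e0 * (π * u) :=
      mul_le_mul_of_nonneg_right (by linarith) hpu.le
    linarith
  · refine ⟨fun x => hS_nonneg hη0 (fun i => abs_nonneg _) i0 i1 x, ?_, ?_, ?_⟩
    · obtain ⟨B, _, hB⟩ := hS_lip hη0 (fun i : ℕ => |H (i * η)|) i0 i1
      exact ⟨B, hB⟩
    · intro x
      have h1 : hS (fun i : ℕ => |H (i * η)|) η i0 i1 x - |H x| =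
          ∑ i ∈ Finset.Ico i0 i1, (|H (i * η)| - |H x|) * ph η i x +
            |H x| * (∑ i ∈ Finset.Ico i0 i1, ph η i x - 1) := by
        unfold hS
        have h5 : ∑ i ∈ Finset.Ico i0 i1, (|H (i * η)| - |H x|) * ph η i x =
            ∑ i ∈ Finset.Ico i0 i1, |H (i * η)| * ph η i x -
              ∑ i ∈ Finset.Ico i0 i1, |H x| * ph η i x := by
          rw [← Finset.sum_sub_distrib]
          exact Finset.sum_congr rfl (fun i _ => by ring)
        rw [h5, ← Finset.mul_sum]
        ring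
      have h2 : |H x| * (∑ i ∈ Finset.Ico i0 i1, ph η i x - 1) = 0 := by
        by_cases h0 : H x = 0
        · rw [h0]; simp
        obtain ⟨h3, h4⟩ := hH.supp x h0
        rw [sum_ph η hi01 x, Real.smoothTransition.one_of_one_le,
          Real.smoothTransition.zero_of_nonpos]
        · simp
        · have : x / η ≤ i1 := by
            rw [div_le_iff₀ hη0]; linarith
          linarith
        · have : (i0 : ℝ) + 1 ≤ x / η := by
            rw [le_div_iff₀ hη0]; linarith
          linarith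
      rw [h1, h2, add_zero]
      calc |∑ i ∈ Finset.Ico i0 i1, (|H (i * η)| - |H x|) * ph η i x|
          ≤ ∑ i ∈ Finset.Ico i0 i1, |(|H (i * η)| - |H x|) * ph η i x| :=
            Finset.abs_sum_le_sum_abs _ _
        _ ≤ ∑ i ∈ Finset.Ico i0 i1, ε * ph η i x := by
            refine Finset.sum_le_sum (fun i _ => ?_)
            rw [abs_mul, abs_of_nonneg (ph_nonneg hη0 i x)]
            by_cases hne : ph η i x = 0
            · rw [hne]; simp
            refine mul_le_mul_of_nonneg_right ?_ (ph_nonneg hη0 i x)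
            have h3 := hdist i x hne
            have h4 : |(i : ℝ) * η - x| < ρ := by
              rw [abs_sub_comm]; linarith
            exact le_trans (abs_abs_sub_abs_le _ _) (hρH _ _ h4).le
        _ = ε * ∑ i ∈ Finset.Ico i0 i1, ph η i x := by rw [Finset.mul_sum]
        _ ≤ ε * 1 := mul_le_mul_of_nonneg_left (sum_ph_le η i0 i1 x) hε.le
        _ = ε := mul_one _
    · intro x hx
      unfold hS at hx
      obtain ⟨i, _, hi⟩ := Finset.exists_ne_zero_of_sum_ne_zero hx
      have h1 : |H (i * η)| ≠ 0 := left_ne_zero_of_mul hi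
      have h2 : ph η i x ≠ 0 := right_ne_zero_of_mul hi
      refine ⟨i * η, fun h => h1 (by rw [h]; simp), ?_⟩
      have := hdist i x h2
      linarith

end Pool.Agent.MP_67227b_nt.Al
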