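import Pool.Agent.MP_67227b_nt.Al.AlDefs

set_option autoImplicit false

open Filter Topology Set MeasureTheory Complex
open scoped Real ArithmeticFunction ContDiff

namespace Pool.Agent.MP_67227b_nt.Al

open Pool.Agent.Lib.ZetaCount_helper33 Pool.Agent.MP_67227b_nt Pool.Agent.MP_67227b_nt.Mo
open Pool.Agent.MP_67227b_nt.Sg Pool.Agent.MP_67227b_nt.Pp

/-- MODULE M7. Facts on the weight function `hS` (`Pp.ph_nonneg`, `Pp.sum_ph_le`,
`Pp.ph_zero_left`, `Pp.ph_zero_right`). `Real.smoothTransition` is Lipschitz: it is `C^∞`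
(`Real.smoothTransition.contDiff`) and constant outside `[0,1]`, so its derivative is continuous with
compact support, hence bounded. -/
theorem hS_nonneg {η : ℝ} {a : ℕ → ℝ} (hη : 0 < η) (ha : ∀ i, 0 ≤ a i) (i0 i1 : ℕ) (x : ℝ) :
    0 ≤ hS a η i0 i1 x := by
  unfold hS
  exact Finset.sum_nonneg (fun i _ => mul_nonneg (ha i) (ph_nonneg hη _ _))

theorem hS_le {η M : ℝ} {a : ℕ → ℝ} (hη : 0 < η) (hM0 : 0 ≤ M) (hM : ∀ i, |a i| ≤ M)
    (i0 i1 : ℕ) (x : ℝ) : |hS a η i0 i1 x| ≤ M := by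
  unfold hS
  calc |∑ i ∈ Finset.Ico i0 i1, a i * ph η i x|
      ≤ ∑ i ∈ Finset.Ico i0 i1, |a i * ph η i x| := Finset.abs_sum_le_sum_abs _ _
    _ ≤ ∑ i ∈ Finset.Ico i0 i1, M * ph η i x := by
        refine Finset.sum_le_sum (fun i _ => ?_)
        rw [abs_mul, abs_of_nonneg (ph_nonneg hη _ _)]
        exact mul_le_mul_of_nonneg_right (hM i) (ph_nonneg hη _ _)
    _ = M * ∑ i ∈ Finset.Ico i0 i1, ph η i x := by rw [Finset.mul_sum]
    _ ≤ M := mul_le_of_le_one_right hM0 (sum_ph_le η i0 i1 x)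

theorem hS_zero {η : ℝ} {a : ℕ → ℝ} (hη : 0 < η) (i0 i1 : ℕ) {x : ℝ}
    (hx : x ≤ i0 * η ∨ ((i1 : ℝ) + 1) * η ≤ x) : hS a η i0 i1 x = 0 := by
  unfold hS
  refine Finset.sum_eq_zero (fun i hi => ?_)
  rcases hx with hx | hx
  · rw [ph_zero_left hη, mul_zero]
    have h2 : (i0 : ℝ) ≤ i := by exact_mod_cast (Finset.mem_Ico.1 hi).1
    exact hx.trans (mul_le_mul_of_nonneg_right h2 hη.le)
  · rw [ph_zero_right hη, mul_zero]
    have h2 : (i : ℝ) + 1 ≤ i1 := by exact_mod_cast (Finset.mem_Ico.1 hi).2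
    exact (mul_le_mul_of_nonneg_right (by linarith) hη.le).trans hx

theorem smoothTransition_lip : ∃ B : ℝ, 0 < B ∧ ∀ x y : ℝ,
    |Real.smoothTransition x - Real.smoothTransition y| ≤ B * |x - y| := by
  have hC : ContDiff ℝ 1 Real.smoothTransition := Real.smoothTransition.contDiff
  obtain ⟨K, hK⟩ := (hC.locallyLipschitz.locallyLipschitzOn
    (s := Icc (0 : ℝ) 1)).exists_lipschitzOnWith_of_compact isCompact_Icc
  refine ⟨(K : ℝ) + 1, by positivity, fun x y => ?_⟩
  have h1 := hK.dist_le_mul (projIcc (0 : ℝ) 1 zero_le_one x) (Subtype.mem _)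
    (projIcc (0 : ℝ) 1 zero_le_one y) (Subtype.mem _)
  rw [Real.smoothTransition.projIcc, Real.smoothTransition.projIcc, Real.dist_eq] at h1
  have h2 : dist (projIcc (0 : ℝ) 1 zero_le_one x : ℝ) (projIcc (0 : ℝ) 1 zero_le_one y : ℝ) ≤
      |x - y| := by
    have h3 := (LipschitzWith.projIcc (zero_le_one (α := ℝ))).dist_le_mul x y
    rw [Subtype.dist_eq, Real.dist_eq x y] at h3
    simpa using h3
  calc |Real.smoothTransition x - Real.smoothTransition y|
      ≤ K * dist (projIcc (0 : ℝ) 1 zero_le_one x : ℝ) (projIcc (0 : ℝ) 1 zero_le_one y : ℝ) := h1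
    _ ≤ K * |x - y| := mul_le_mul_of_nonneg_left h2 K.2
    _ ≤ ((K : ℝ) + 1) * |x - y| := mul_le_mul_of_nonneg_right (by linarith) (abs_nonneg _)

theorem hS_lip {η : ℝ} (hη : 0 < η) (a : ℕ → ℝ) (i0 i1 : ℕ) : ∃ B : ℝ, 0 < B ∧ ∀ x y : ℝ,
    |hS a η i0 i1 x - hS a η i0 i1 y| ≤ B * |x - y| := by
  obtain ⟨B, hB, hl⟩ := smoothTransition_lip
  have hph : ∀ (i : ℕ) (x y : ℝ), |ph η i x - ph η i y| ≤ (2 * B / η) * |x - y| := by
    intro i x y
    unfold ph
    have h1 := hl (x / η - i) (y / η - i)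
    have h2 := hl (x / η - (i + 1)) (y / η - (i + 1))
    have e1 : |(x / η - i) - (y / η - i)| = |x - y| / η := by
      rw [show (x / η - i) - (y / η - i) = (x - y) / η by ring, abs_div, abs_of_pos hη]
    have e2 : |(x / η - (i + 1)) - (y / η - ((i : ℝ) + 1))| = |x - y| / η := by
      rw [show (x / η - (i + 1)) - (y / η - ((i : ℝ) + 1)) = (x - y) / η by ring, abs_div,
        abs_of_pos hη]
    rw [e1] at h1
    rw [e2] at h2
    have e3 : (2 * B / η) * |x - y| = B * (|x - y| / η) + B * (|x - y| / η) := by ring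
    rw [e3]
    calc |Real.smoothTransition (x / η - i) - Real.smoothTransition (x / η - (i + 1)) -
          (Real.smoothTransition (y / η - i) - Real.smoothTransition (y / η - (i + 1)))|
        = |(Real.smoothTransition (x / η - i) - Real.smoothTransition (y / η - i)) -
          (Real.smoothTransition (x / η - (i + 1)) -
            Real.smoothTransition (y / η - (i + 1)))| := by
          congr 1
          ring
      _ ≤ _ := (abs_sub _ _).trans (add_le_add h1 h2)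
  have hS0 : 0 ≤ ∑ i ∈ Finset.Ico i0 i1, |a i| * (2 * B / η) :=
    Finset.sum_nonneg (fun i _ => by positivity)
  refine ⟨(∑ i ∈ Finset.Ico i0 i1, |a i| * (2 * B / η)) + 1, by linarith, fun x y => ?_⟩
  unfold hS
  rw [← Finset.sum_sub_distrib]
  calc |∑ i ∈ Finset.Ico i0 i1, (a i * ph η i x - a i * ph η i y)|
      ≤ ∑ i ∈ Finset.Ico i0 i1, |a i * ph η i x - a i * ph η i y| :=
        Finset.abs_sum_le_sum_abs _ _
    _ ≤ ∑ i ∈ Finset.Ico i0 i1, |a i| * (2 * B / η) * |x - y| := by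
        refine Finset.sum_le_sum (fun i _ => ?_)
        rw [← mul_sub, abs_mul, mul_assoc]
        exact mul_le_mul_of_nonneg_left (hph i x y) (abs_nonneg _)
    _ = (∑ i ∈ Finset.Ico i0 i1, |a i| * (2 * B / η)) * |x - y| := by rw [Finset.sum_mul]
    _ ≤ ((∑ i ∈ Finset.Ico i0 i1, |a i| * (2 * B / η)) + 1) * |x - y| :=
        mul_le_mul_of_nonneg_right (by linarith) (abs_nonneg _)

end Pool.Agent.MP_67227b_nt.Al
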