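import Pool.Agent.MP_67227b_nt.Al.AlDefs

set_option autoImplicit false

open Filter Topology Set MeasureTheory Complex
open scoped Real ArithmeticFunction ContDiff

namespace Pool.Agent.MP_67227b_nt.Al

open Pool.Agent.Lib.ZetaCount_helper33 Pool.Agent.MP_67227b_nt Pool.Agent.MP_67227b_nt.Mo
open Pool.Agent.MP_67227b_nt.Sg Pool.Agent.MP_67227b_nt.Pp

/-- MODULE F0. Basic facts on the weights. -/
theorem wt_nonneg {v : ℕ → ℝ} (hv : ∀ p, 0 ≤ v p) (n : ℕ) : 0 ≤ wt v n := by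
  unfold wt
  exact Finset.prod_nonneg (fun p _ => hv p)

/-- `wt` is multiplicative on coprime numbers (`Nat.Coprime.primeFactors_mul`). -/
theorem wt_mul {v : ℕ → ℝ} {m n : ℕ} (h : Nat.Coprime m n) : wt v (m * n) = wt v m * wt v n := by
  unfold wt
  rw [Nat.Coprime.primeFactors_mul h, Finset.prod_union h.disjoint_primeFactors]

theorem wt_prime {v : ℕ → ℝ} {p : ℕ} (hp : p.Prime) : wt v p = v p := by
  unfold wt
  rw [hp.primeFactors, Finset.prod_singleton]

private theorem F0_term {v : ℕ → ℝ} (hv : ∀ p, 0 ≤ v p) (n : ℕ) :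
    0 ≤ if Squarefree n then wt v n / (n : ℝ) else 0 := by
  split_ifs
  · exact div_nonneg (wt_nonneg hv n) (Nat.cast_nonneg n)
  · exact le_refl _

theorem FW_nonneg {v : ℕ → ℝ} (hv : ∀ p, 0 ≤ v p) (T x : ℝ) : 0 ≤ FW v T x := by
  unfold FW
  exact Finset.sum_nonneg (fun n _ => F0_term hv n)

/-- For `T > 1`, `x ↦ FW v T x` is monotone. -/
theorem FW_mono {v : ℕ → ℝ} (hv : ∀ p, 0 ≤ v p) {T : ℝ} (hT : 1 < T) : Monotone (FW v T) := by
  intro x y hxy
  unfold FW
  apply Finset.sum_le_sum_of_subset_of_nonneg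
  · exact Finset.Icc_subset_Icc_right
      (Nat.floor_mono (Real.rpow_le_rpow_of_exponent_le hT.le hxy))
  · exact fun n _ _ => F0_term hv n

/-- The term `n = 1`. -/
theorem one_le_FW {v : ℕ → ℝ} (hv : ∀ p, 0 ≤ v p) {T x : ℝ} (hT : 1 < T) (hx : 0 ≤ x) :
    1 ≤ FW v T x := by
  unfold FW
  have h1 : (1 : ℕ) ∈ Finset.Icc 1 ⌊T ^ x⌋₊ := by
    rw [Finset.mem_Icc]
    exact ⟨le_refl _, Nat.le_floor (by simpa using Real.one_le_rpow hT.le hx)⟩
  calc (1 : ℝ) = if Squarefree 1 then wt v 1 / ((1 : ℕ) : ℝ) else 0 := by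
        rw [if_pos squarefree_one]
        simp [wt]
    _ ≤ _ := Finset.single_le_sum (f := fun n : ℕ => if Squarefree n then wt v n / (n : ℝ) else 0)
        (fun n _ => F0_term hv n) h1

theorem FW_neg {v : ℕ → ℝ} {T x : ℝ} (hT : 1 < T) (hx : x < 0) : FW v T x = 0 := by
  unfold FW
  have h1 : ⌊T ^ x⌋₊ = 0 := by
    rw [Nat.floor_eq_zero]
    exact Real.rpow_lt_one_of_one_lt_of_neg hT hx
  rw [h1]
  simp

private theorem F0_int {l x y : ℝ} (hxy : x ≤ y) (hl : l ≤ y) :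
    ∫ t in x..y, (if l ≤ t then (1 : ℝ) else 0) = y - max x l := by
  rw [intervalIntegral.integral_of_le hxy]
  have h1 : (fun t : ℝ => if l ≤ t then (1 : ℝ) else 0) = (Ici l).indicator (fun _ => (1 : ℝ)) := by
    ext t
    simp only [Set.indicator, Set.mem_Ici]
  rw [h1, setIntegral_indicator measurableSet_Ici, setIntegral_const, smul_eq_mul, mul_one]
  rcases le_or_gt l x with h | h
  · have h2 : Ioc x y ∩ Ici l = Ioc x y := by
      ext t
      simp only [Set.mem_inter_iff, Set.mem_Ioc, Set.mem_Ici]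
      constructor
      · rintro ⟨h1, _⟩; exact h1
      · rintro h1; exact ⟨h1, h.trans h1.1.le⟩
    rw [h2, max_eq_left h, Real.volume_real_Ioc_of_le hxy]
  · have h2 : Ioc x y ∩ Ici l = Icc l y := by
      ext t
      simp only [Set.mem_inter_iff, Set.mem_Ioc, Set.mem_Ici, Set.mem_Icc]
      constructor
      · rintro ⟨⟨_, h1⟩, h3⟩; exact ⟨h3, h1⟩
      · rintro ⟨h1, h3⟩; exact ⟨⟨h.trans_le h1, h3⟩, h1⟩
    rw [h2, max_eq_right h.le, Real.volume_real_Icc_of_le hl]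

private theorem F0_ii (l x y : ℝ) :
    IntervalIntegrable (fun t : ℝ => if l ≤ t then (1 : ℝ) else 0) volume x y := by
  have h1 : (fun t : ℝ => if l ≤ t then (1 : ℝ) else 0) = (Ici l).indicator (fun _ => (1 : ℝ)) := by
    ext t
    simp only [Set.indicator, Set.mem_Ici]
  rw [h1]
  constructor <;>
    exact (integrable_const (1 : ℝ)).indicator measurableSet_Ici

/-- `∫_x^y F = ∑_{n ≤ T^y} (wt n/n) (y - max x (log n/L))`: in the form needed for sums over
`n`. -/
theorem integral_FW {v : ℕ → ℝ} {T x y : ℝ} (hT : 1 < T) (hxy : x ≤ y) :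
    ∫ t in x..y, FW v T t = ∑ n ∈ Finset.Icc 1 ⌊T ^ y⌋₊,
      if Squarefree n then wt v n / n * (y - max x (Real.log n / Real.log T)) else 0 := by
  have hlT : 0 < Real.log T := Real.log_pos hT
  have hT0 : 0 < T := by linarith
  have hkey : ∀ (n : ℕ), 1 ≤ n → ∀ t : ℝ, n ≤ ⌊T ^ t⌋₊ ↔ Real.log n / Real.log T ≤ t := by
    intro n hn t
    have hn' : (0 : ℝ) < n := by exact_mod_cast hn
    rw [Nat.le_floor_iff (Real.rpow_nonneg hT0.le t), div_le_iff₀ hlT, ← Real.log_rpow hT0,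
      Real.log_le_log_iff hn' (Real.rpow_pos_of_pos hT0 t)]
  have h1 : ∀ t ∈ Set.uIcc x y, FW v T t = ∑ n ∈ Finset.Icc 1 ⌊T ^ y⌋₊,
      (if Squarefree n then wt v n / (n : ℝ) else 0) *
        (if Real.log n / Real.log T ≤ t then (1 : ℝ) else 0) := by
    intro t ht
    rw [Set.uIcc_of_le hxy] at ht
    unfold FW
    have hsub : Finset.Icc 1 ⌊T ^ t⌋₊ =
        (Finset.Icc 1 ⌊T ^ y⌋₊).filter (fun n : ℕ => Real.log n / Real.log T ≤ t) := by
      ext n
      rw [Finset.mem_filter, Finset.mem_Icc, Finset.mem_Icc]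
      constructor
      · rintro ⟨h1, h2⟩
        exact ⟨⟨h1, h2.trans (Nat.floor_mono (Real.rpow_le_rpow_of_exponent_le hT.le ht.2))⟩,
          (hkey n h1 t).1 h2⟩
      · rintro ⟨⟨h1, _⟩, h3⟩
        exact ⟨h1, (hkey n h1 t).2 h3⟩
    rw [hsub, Finset.sum_filter]
    refine Finset.sum_congr rfl (fun n _ => ?_)
    by_cases h : Real.log n / Real.log T ≤ t
    · rw [if_pos h, if_pos h, mul_one]
    · rw [if_neg h, if_neg h, mul_zero]
  rw [intervalIntegral.integral_congr h1, intervalIntegral.integral_finset_sum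
    (fun n _ => (F0_ii _ _ _).const_mul _)]
  refine Finset.sum_congr rfl (fun n hn => ?_)
  obtain ⟨hn1, hn2⟩ := Finset.mem_Icc.1 hn
  rw [intervalIntegral.integral_const_mul, F0_int hxy ((hkey n hn1 y).1 hn2)]
  split_ifs
  · rfl
  · rw [zero_mul]

end Pool.Agent.MP_67227b_nt.Al
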