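import Pool.Agent.MP_67227b_nt.Al.AlApB
import Pool.Agent.MP_67227b_nt.Al.AlApG
import Pool.Agent.MP_67227b_nt.Al.AlApS
import Pool.Agent.MP_67227b_nt.Al.AlHS
import Pool.Agent.MP_67227b_nt.Al.AlWt
import Pool.Agent.MP_67227b_nt.Al.AlDg

set_option autoImplicit false

open Filter Topology Set MeasureTheory Complex
open scoped Real ArithmeticFunction ContDiff

namespace Pool.Agent.MP_67227b_nt.Al

open Pool.Agent.Lib.ZetaCount_helper33 Pool.Agent.MP_67227b_nt Pool.Agent.MP_67227b_nt.Mo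
open Pool.Agent.MP_67227b_nt.Sg Pool.Agent.MP_67227b_nt.Pp

private theorem n2_alg (e p d H Y s W : ℝ) (hp : 0 < p) (hd : 0 < d) (hH : 0 ≤ H) (hY : 0 ≤ Y)
    (hs : 0 ≤ s) (hW : e * (1 / (p * d)) ≤ W) :
    e * ((2 * H * s) / p * ((Y * Y) / d)) ≤ W * ((H * Y) * Y) * (2 * s) := by
  have h1 : e * ((2 * H * s) / p * ((Y * Y) / d)) =
      (e * (1 / (p * d))) * (((H * Y) * Y) * (2 * s)) := by
    field_simp
  rw [h1, mul_assoc W]
  exact mul_le_mul_of_nonneg_right hW (by positivity)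

private theorem n2_inj {ι κ : Type} [DecidableEq κ] {A : Finset ι} {B : Finset κ}
    {F : ι → ℝ} {G : κ → ℝ} (e : ι → κ) (he : ∀ a ∈ A, e a ∈ B)
    (hi : ∀ a ∈ A, ∀ b ∈ A, e a = e b → a = b) (hFG : ∀ a ∈ A, F a ≤ G (e a))
    (hG : ∀ b ∈ B, 0 ≤ G b) : ∑ a ∈ A, F a ≤ ∑ b ∈ B, G b := by
  calc ∑ a ∈ A, F a ≤ ∑ a ∈ A, G (e a) := Finset.sum_le_sum hFG
    _ = ∑ b ∈ A.image e, G b := by
        rw [Finset.sum_image]
        intro a ha b hb hab
        exact hi a ha b hb hab
    _ ≤ ∑ b ∈ B, G b := by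
        refine Finset.sum_le_sum_of_subset_of_nonneg ?_ (fun b hb _ => hG b hb)
        intro b hb
        obtain ⟨a, ha, rfl⟩ := Finset.mem_image.mp hb
        exact he a ha

private theorem n2_int {T u : ℝ} {n : ℕ} (hn : 2 ≤ n) :
    ∫ y in (0 : ℝ)..(2 * π * u / Real.log T),
      Real.cos ((y - 2 * π * u / Real.log T / 2) * Real.log n) =
      2 * Real.sin (π * u * (Real.log n / Real.log T)) / Real.log n := by
  have h1 : Real.log n ≠ 0 := by
    have : (1 : ℝ) < n := by exact_mod_cast hn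
    exact (Real.log_pos this).ne'
  rw [integral_cos_shift h1]
  congr 3
  ring

private theorem n2_tau_sq (sg u x : ℝ) : tau sg u x * tau sg u x = 1 := by
  unfold tau
  split_ifs <;> norm_num

private theorem n2_tau_abs {sg u x : ℝ} (hsg : sg = 1 ∨ sg = -1) :
    sg * tau sg u x * Real.sin (π * u * x) = |Real.sin (π * u * x)| := by
  unfold tau
  rcases hsg with rfl | rfl
  · split_ifs with h
    · rw [abs_of_nonneg (by linarith)]; ring
    · rw [abs_of_nonpos (by linarith)]; ring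
  · split_ifs with h
    · rw [abs_of_nonpos (by linarith)]; ring
    · rw [abs_of_nonneg (by linarith)]; ring

/-- the term of a squarefree number -/
private theorem n2_sqf {sg u η κ : ℝ} {a : ℕ → ℝ} {i0 i1 K : ℕ} (hsg : sg = 1 ∨ sg = -1)
    (hη : 0 < η) (ha : ∀ i ∈ Finset.Ico i0 i1, ∀ x ∈ Icc ((i : ℝ) * η) (((i : ℝ) + 2) * η),
      a i = tau sg u x * |a i|) {T : ℝ} (hT : 1 < T) (w : ℝ) {m : ℕ} (hm : Squarefree m) :
    sg * (apa a T η κ i0 i1 K m * w * ∑ p ∈ m.divisorsAntidiagonal,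
      Λ p.1 * apa a T η κ i0 i1 K p.2 * ∫ y in (0 : ℝ)..(2 * π * u / Real.log T),
        Real.cos ((y - 2 * π * u / Real.log T / 2) * Real.log p.1)) =
      ∑ p ∈ m.primeFactors, w * (apa (fun i => |a i|) T η κ i0 i1 K m *
        apa (fun i => |a i|) T η κ i0 i1 K (m / p)) *
          (2 * |Real.sin (π * u * (Real.log p / Real.log T))|) := by
  have hm0 : m ≠ 0 := hm.ne_zero
  have e1 : ∑ p ∈ m.divisorsAntidiagonal,
      Λ p.1 * apa a T η κ i0 i1 K p.2 * (∫ y in (0 : ℝ)..(2 * π * u / Real.log T),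
        Real.cos ((y - 2 * π * u / Real.log T / 2) * Real.log p.1)) =
      ∑ p ∈ m.primeFactors, apa a T η κ i0 i1 K (m / p) *
        (2 * Real.sin (π * u * (Real.log p / Real.log T))) := by
    rw [Nat.sum_divisorsAntidiagonal (fun n d => Λ n * apa a T η κ i0 i1 K d *
      ∫ y in (0 : ℝ)..(2 * π * u / Real.log T),
        Real.cos ((y - 2 * π * u / Real.log T / 2) * Real.log n))]
    have hsub : m.primeFactors ⊆ m.divisors := by
      intro p hp
      exact Nat.mem_divisors.mpr ⟨Nat.dvd_of_mem_primeFactors hp, hm0⟩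
    rw [← Finset.sum_subset hsub]
    · refine Finset.sum_congr rfl fun p hp => ?_
      have hpp := Nat.prime_of_mem_primeFactors hp
      have hlog : Real.log p ≠ 0 := by
        have : (1 : ℝ) < p := by exact_mod_cast hpp.one_lt
        exact (Real.log_pos this).ne'
      rw [ArithmeticFunction.vonMangoldt_apply_prime hpp, n2_int hpp.two_le]
      field_simp
    · intro n hn hnp
      have hnd := (Nat.mem_divisors.mp hn).1
      have : Λ n = 0 := by
        rw [ArithmeticFunction.vonMangoldt_eq_zero_iff]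
        intro hpp
        obtain ⟨p, k, hp, hk, rfl⟩ := hpp
        have hp' := hp.nat_prime
        have hsq := hm.squarefree_of_dvd hnd
        rcases Nat.lt_or_ge k 2 with h | h
        · have : k = 1 := by omega
          subst this
          apply hnp
          rw [pow_one] at hnd ⊢
          exact Nat.mem_primeFactors.mpr ⟨hp', hnd, hm0⟩
        · have h2 : p * p ∣ p ^ k := by
            rw [← sq]; exact pow_dvd_pow p h
          exact hp'.one_lt.ne' (Nat.isUnit_iff.mp (hsq p h2))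
      rw [this]
      ring
  rw [e1, Finset.mul_sum, Finset.mul_sum]
  refine Finset.sum_congr rfl fun p hp => ?_
  have hpp := Nat.prime_of_mem_primeFactors hp
  obtain ⟨d, rfl⟩ := Nat.dvd_of_mem_primeFactors hp
  have hd : p * d / p = d := Nat.mul_div_cancel_left d hpp.pos
  have hco : Nat.Coprime p d := Nat.coprime_of_squarefree_mul hm
  have hsd : Squarefree d := hm.squarefree_of_dvd (Dvd.intro_left p rfl)
  have hpd : p ∉ d.primeFactors := by
    intro h
    exact hpp.one_lt.ne' (Nat.Coprime.eq_one_of_dvd hco (Nat.dvd_of_mem_primeFactors h))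
  rw [hd, apa_sign (τ := tau sg u) hT hη ha hm, apa_sign (τ := tau sg u) hT hη ha hsd]
  have hpf : (p * d).primeFactors = insert p d.primeFactors := by
    rw [Nat.primeFactors_mul hpp.ne_zero hsd.ne_zero, hpp.primeFactors]
    rfl
  rw [hpf, Finset.prod_insert hpd]
  set X := ∏ q ∈ d.primeFactors, tau sg u (Real.log q / Real.log T) with hX
  have hXX : X * X = 1 := by
    rw [hX, ← Finset.prod_mul_distrib]
    exact Finset.prod_eq_one fun q _ => n2_tau_sq _ _ _
  have h3 := n2_tau_abs (u := u) (x := Real.log p / Real.log T) hsg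
  calc _ = (X * X) * (w * (apa (fun i => |a i|) T η κ i0 i1 K (p * d) *
        apa (fun i => |a i|) T η κ i0 i1 K d) *
          (2 * (sg * tau sg u (Real.log p / Real.log T) *
            Real.sin (π * u * (Real.log p / Real.log T))))) := by ring
    _ = _ := by rw [hXX, h3, one_mul]

/-- the size of the term of a rough number -/
private theorem n2_abs {sg u η κ M : ℝ} {a : ℕ → ℝ} {i0 i1 K : ℕ} (hsg : sg = 1 ∨ sg = -1)
    (hη : 0 < η) (hi0 : 1 ≤ i0) (hM : ∀ i, |a i| ≤ M) {T w : ℝ} (hT : 1 < T) {m : ℕ}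
    (hmT : (m : ℝ) ≤ T) (hA : apa a T η κ i0 i1 K m ≠ 0) (hw0 : 0 ≤ w) (hw : w ≤ 1 / (m : ℝ)) :
    |sg * (apa a T η κ i0 i1 K m * w * ∑ p ∈ m.divisorsAntidiagonal,
      Λ p.1 * apa a T η κ i0 i1 K p.2 * ∫ y in (0 : ℝ)..(2 * π * u / Real.log T),
        Real.cos ((y - 2 * π * u / Real.log T / 2) * Real.log p.1))| ≤
      (Real.exp (K * M) * Real.exp (K * M) * (2 / ((i0 : ℝ) * η))) * (1 / (m : ℝ)) := by
  have hL : 0 < Real.log T := Real.log_pos hT
  obtain ⟨hm0, hr⟩ := apa_rough hT hη hA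
  have hmR : (0 : ℝ) < m := by exact_mod_cast Nat.pos_of_ne_zero hm0
  have hδ : 0 < (i0 : ℝ) * η := by
    have : (0 : ℝ) < i0 := by exact_mod_cast hi0
    positivity
  have hsg1 : |sg| = 1 := by rcases hsg with rfl | rfl <;> simp
  have hE : 0 < Real.exp (K * M) := Real.exp_pos _
  have h1 : |∑ p ∈ m.divisorsAntidiagonal,
      Λ p.1 * apa a T η κ i0 i1 K p.2 * ∫ y in (0 : ℝ)..(2 * π * u / Real.log T),
        Real.cos ((y - 2 * π * u / Real.log T / 2) * Real.log p.1)| ≤
      Real.exp (K * M) * (2 / ((i0 : ℝ) * η)) := by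
    calc _ ≤ ∑ p ∈ m.divisorsAntidiagonal,
          |Λ p.1 * apa a T η κ i0 i1 K p.2 * ∫ y in (0 : ℝ)..(2 * π * u / Real.log T),
            Real.cos ((y - 2 * π * u / Real.log T / 2) * Real.log p.1)| :=
          Finset.abs_sum_le_sum_abs _ _
      _ ≤ ∑ p ∈ m.divisorsAntidiagonal,
          Λ p.1 * (Real.exp (K * M) * (2 / ((i0 : ℝ) * η * Real.log T))) := by
          refine Finset.sum_le_sum fun p hp => ?_
          rw [Nat.mem_divisorsAntidiagonal] at hp
          have hΛ : 0 ≤ Λ p.1 := ArithmeticFunction.vonMangoldt_nonneg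
          rw [abs_mul, abs_mul, abs_of_nonneg hΛ, mul_assoc]
          rcases eq_or_ne (Λ p.1) 0 with h0 | h0
          · rw [h0]; simp
          · refine mul_le_mul_of_nonneg_left ?_ hΛ
            have hpp : IsPrimePow p.1 := by
              by_contra hcon
              exact h0 (ArithmeticFunction.vonMangoldt_eq_zero_iff.mpr hcon)
            have h2 : 2 ≤ p.1 := hpp.two_le
            have hlogn : (i0 : ℝ) * η * Real.log T ≤ Real.log p.1 := by
              obtain ⟨q, hq, hqd⟩ := Nat.exists_prime_and_dvd (show p.1 ≠ 1 by omega)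
              have h3 := hr q hq (hqd.trans ⟨p.2, hp.1.symm⟩)
              refine h3.trans (Real.log_le_log (by exact_mod_cast hq.pos) ?_)
              exact_mod_cast Nat.le_of_dvd (by omega) hqd
            rw [n2_int h2]
            have hd0 : 0 < (i0 : ℝ) * η * Real.log T := by positivity
            have hlog0 : 0 < Real.log p.1 := lt_of_lt_of_le hd0 hlogn
            refine mul_le_mul (apa_bound hη hM i0 i1 K p.2) ?_ (abs_nonneg _) hE.le
            rw [abs_div, abs_mul, abs_of_pos hlog0, abs_two]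
            have h4 := Real.abs_sin_le_one (π * u * (Real.log p.1 / Real.log T))
            rw [div_le_div_iff₀ hlog0 hd0]
            nlinarith [abs_nonneg (Real.sin (π * u * (Real.log p.1 / Real.log T)))]
      _ = (∑ n ∈ m.divisors, Λ n) * (Real.exp (K * M) * (2 / ((i0 : ℝ) * η * Real.log T))) := by
          rw [Nat.sum_divisorsAntidiagonal (fun n _ =>
            Λ n * (Real.exp (K * M) * (2 / ((i0 : ℝ) * η * Real.log T)))), Finset.sum_mul]
      _ = Real.log m * (Real.exp (K * M) * (2 / ((i0 : ℝ) * η * Real.log T))) := by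
          rw [ArithmeticFunction.vonMangoldt_sum]
      _ ≤ Real.log T * (Real.exp (K * M) * (2 / ((i0 : ℝ) * η * Real.log T))) := by
          refine mul_le_mul_of_nonneg_right (Real.log_le_log hmR hmT) ?_
          positivity
      _ = _ := by field_simp
  rw [abs_mul, hsg1, one_mul, abs_mul, abs_mul, abs_of_nonneg hw0]
  have h2 := apa_bound (κ := κ) (T := T) hη hM i0 i1 K m
  calc |apa a T η κ i0 i1 K m| * w * _ ≤
      Real.exp (K * M) * (1 / (m : ℝ)) * (Real.exp (K * M) * (2 / ((i0 : ℝ) * η))) := by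
        refine mul_le_mul (mul_le_mul h2 hw hw0 hE.le) h1 (abs_nonneg _) (by positivity)
    _ = _ := by ring

/-- MODULE N2. The main term. By `integral_cos_shift` (`α = 2πu/L`, `α l/2 = π u x`, `l = log n`,
`x = l/L`; terms with `Λ n ≠ 0` have `n ≥ 2`),
`-sg S1 = ∑_m a(m) m^{-1-2b} ∑_{nd=m} Λ(n) a(d) 2 sg sin(πu x_n)/log n`.
(i) `m` squarefree: only `n = p` prime, `Λ(p)/log p = 1`; `m = pd`, `p ∤ d`. By `apa_sign` and
`τ(x) sg sin(πux) = |sin(πux)|` (definition of `tau`), the term is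
`(pd)^{-1-2b} 2 |sin(πu x_p)| r(pd) r(d) ≥ 0`, `r = apa |a| ≥ 0` (`apa_nonneg`). Keep the terms with
`pd ≤ T^κ'`, `κ' = κ - 2Kη`: `r(pd) r(d) = h(x_p) wt v d` (`apa_good`), and `m^{-2b} ≥ e^{-2β}`
since `m ≤ T^κ ≤ T`. This is `e^{-2β} Sp`.
(ii) `m` not squarefree: each term is at most
`m^{-1} e^{2KM} · 2 · #{n | m, Λ n ≠ 0} ≤ C/m` if `a(m) ≠ 0` (then `m ≤ T` is rough with `δ = i0 η`, so
`Ω(m) ≤ 1/δ`), in total at most `ε` by `Pp.rough_sq`. If `κ' < 0`, `Sp = 0`. -/
theorem S1_ge {sg u η κ β M ε : ℝ} {a : ℕ → ℝ} {i0 i1 K : ℕ} (hsg : sg = 1 ∨ sg = -1)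
    (hu : 0 < u) (hη : 0 < η) (hκ : 0 < κ) (hκ1 : κ ≤ 1) (hβ : 0 < β) (hi0 : 1 ≤ i0)
    (hM : ∀ i, |a i| ≤ M) (hK : κ < ((K : ℝ) + 1) * ((i0 : ℝ) * η))
    (ha : ∀ i ∈ Finset.Ico i0 i1, ∀ x ∈ Icc ((i : ℝ) * η) (((i : ℝ) + 2) * η),
      a i = tau sg u x * |a i|) (hε : 0 < ε) : ∀ᶠ T : ℝ in atTop,
      Real.exp (-(2 * β)) *
        Sp (fun p => hS (fun i => |a i|) η i0 i1 (Real.log p / Real.log T) ^ 2)
          (fun x => 2 * hS (fun i => |a i|) η i0 i1 x * |Real.sin (π * u * x)|) T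
          (κ - 2 * K * η) - ε ≤
        -(sg * S1 (apa a T η κ i0 i1 K) (2 * π * u / Real.log T) (β / Real.log T) ⌊T ^ κ⌋₊) := by
  classical
  have hM0 : 0 ≤ M := (abs_nonneg _).trans (hM 0)
  have hδ : 0 < (i0 : ℝ) * η := by
    have : (0 : ℝ) < i0 := by exact_mod_cast hi0
    positivity
  set C : ℝ := Real.exp (K * M) * Real.exp (K * M) * (2 / ((i0 : ℝ) * η)) with hC
  have hC0 : 0 < C := by positivity
  filter_upwards [rough_sq hδ (show 0 < ε / C by positivity), eventually_gt_atTop 1]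
    with T hrs hT
  have hT0 : 0 < T := by linarith
  have hL : 0 < Real.log T := Real.log_pos hT
  have hTκ : T ^ κ ≤ T := by
    calc T ^ κ ≤ T ^ (1 : ℝ) := Real.rpow_le_rpow_of_exponent_le hT.le hκ1
      _ = T := Real.rpow_one T
  set A := apa a T η κ i0 i1 K with hA
  set r := apa (fun i => |a i|) T η κ i0 i1 K with hr
  set N := ⌊T ^ κ⌋₊ with hN
  have hNle : ∀ m ∈ Finset.Icc 1 N, (m : ℝ) ≤ T := by
    intro m hm
    have h1 : (m : ℝ) ≤ N := by exact_mod_cast (Finset.mem_Icc.1 hm).2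
    exact (h1.trans (Nat.floor_le (Real.rpow_nonneg (by linarith) _))).trans hTκ
  set F : ℕ → ℝ := fun m => sg * (A m * (m : ℝ) ^ (-(1 + 2 * (β / Real.log T))) *
    ∑ p ∈ m.divisorsAntidiagonal, Λ p.1 * A p.2 * ∫ y in (0 : ℝ)..(2 * π * u / Real.log T),
      Real.cos ((y - 2 * π * u / Real.log T / 2) * Real.log p.1)) with hF
  have e1 : -(sg * S1 A (2 * π * u / Real.log T) (β / Real.log T) N) =
      ∑ m ∈ Finset.Icc 1 N, F m := by
    rw [S1, hF, mul_neg, neg_neg, Finset.mul_sum]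
  -- the weight
  have hw0 : ∀ m : ℕ, 0 ≤ (m : ℝ) ^ (-(1 + 2 * (β / Real.log T))) := fun m =>
    Real.rpow_nonneg (Nat.cast_nonneg m) _
  have hw1 : ∀ m ∈ Finset.Icc 1 N, (m : ℝ) ^ (-(1 + 2 * (β / Real.log T))) ≤ 1 / (m : ℝ) := by
    intro m hm
    have hm1 : (1 : ℝ) ≤ m := by exact_mod_cast (Finset.mem_Icc.1 hm).1
    rw [one_div, ← Real.rpow_neg_one]
    refine Real.rpow_le_rpow_of_exponent_le hm1 ?_
    have : 0 < β / Real.log T := by positivity
    linarith
  have hw2 : ∀ m ∈ Finset.Icc 1 N, Real.exp (-(2 * β)) * (1 / (m : ℝ)) ≤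
      (m : ℝ) ^ (-(1 + 2 * (β / Real.log T))) := by
    intro m hm
    have hm1 : (1 : ℝ) ≤ m := by exact_mod_cast (Finset.mem_Icc.1 hm).1
    have hmp : (0 : ℝ) < m := by linarith
    rw [neg_add, Real.rpow_add hmp, Real.rpow_neg_one, one_div, mul_comm]
    refine mul_le_mul_of_nonneg_left ?_ (by positivity)
    rw [Real.rpow_def_of_pos hmp, Real.exp_le_exp]
    have h2 : Real.log m ≤ Real.log T := Real.log_le_log hmp (hNle m hm)
    have h3 : Real.log m * (2 * (β / Real.log T)) ≤ 2 * β := by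
      calc Real.log m * (2 * (β / Real.log T)) ≤ Real.log T * (2 * (β / Real.log T)) := by
            gcongr
        _ = 2 * β := by field_simp
    linarith
  -- the squarefree part
  have hsq : Real.exp (-(2 * β)) *
        Sp (fun p => hS (fun i => |a i|) η i0 i1 (Real.log p / Real.log T) ^ 2)
          (fun x => 2 * hS (fun i => |a i|) η i0 i1 x * |Real.sin (π * u * x)|) T
          (κ - 2 * K * η) ≤ ∑ m ∈ (Finset.Icc 1 N).filter Squarefree, F m := by
    have e2 : ∑ m ∈ (Finset.Icc 1 N).filter Squarefree, F m =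
        ∑ x ∈ ((Finset.Icc 1 N).filter Squarefree).sigma (fun m => m.primeFactors),
          ((x.1 : ℝ) ^ (-(1 + 2 * (β / Real.log T))) * (r x.1 * r (x.1 / x.2)) *
          (2 * |Real.sin (π * u * (Real.log x.2 / Real.log T))|)) := by
      rw [Finset.sum_sigma]
      refine Finset.sum_congr rfl fun m hm => ?_
      exact n2_sqf hsg hη ha hT _ (Finset.mem_filter.1 hm).2
    set κ' := κ - 2 * K * η with hκ'
    have hκκ : κ' ≤ κ := by
      have : 0 ≤ 2 * (K : ℝ) * η := by positivity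
      linarith
    have e3 : Real.exp (-(2 * β)) *
        Sp (fun p => hS (fun i => |a i|) η i0 i1 (Real.log p / Real.log T) ^ 2)
          (fun x => 2 * hS (fun i => |a i|) η i0 i1 x * |Real.sin (π * u * x)|) T κ' =
        ∑ x ∈ ((Finset.Icc 1 ⌊T ^ κ'⌋₊).filter Nat.Prime).sigma (fun p =>
          (Finset.Icc 1 ⌊T ^ κ' / (p : ℝ)⌋₊).filter (fun d => Squarefree d ∧ ¬ p ∣ d)),
          Real.exp (-(2 * β)) * ((2 * hS (fun i => |a i|) η i0 i1
            (Real.log x.1 / Real.log T) * |Real.sin (π * u * (Real.log x.1 / Real.log T))|) /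
              x.1 * (wt (fun p => hS (fun i => |a i|) η i0 i1
                (Real.log p / Real.log T) ^ 2) x.2 / x.2)) := by
      rw [Finset.sum_sigma, Sp, Finset.mul_sum]
      refine Finset.sum_congr rfl fun p _ => ?_
      rw [← Finset.sum_filter, Finset.mul_sum, Finset.mul_sum]
    rw [e2, e3]
    have hh : ∀ x, 0 ≤ hS (fun i => |a i|) η i0 i1 x := fun x =>
      hS_nonneg hη (fun i => abs_nonneg _) i0 i1 x
    have hrn : ∀ n, 0 ≤ r n := fun n => apa_nonneg hη (fun i => abs_nonneg _) i0 i1 K n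
    refine n2_inj (fun x => (⟨x.1 * x.2, x.1⟩ : Σ _ : ℕ, ℕ)) ?_ ?_ ?_ ?_
    · rintro ⟨p, d⟩ hx
      simp only [Finset.mem_sigma, Finset.mem_filter, Finset.mem_Icc] at hx
      obtain ⟨⟨⟨hp1, hp2⟩, hpp⟩, ⟨hd1, hd2⟩, hds, hpd⟩ := hx
      have hco : Nat.Coprime p d := (Nat.Prime.coprime_iff_not_dvd hpp).mpr hpd
      have hpR : (0 : ℝ) < p := by exact_mod_cast hpp.pos
      have h1 : ((p * d : ℕ) : ℝ) ≤ T ^ κ' := by
        have h2 := (Nat.le_floor_iff (by positivity)).mp hd2
        rw [le_div_iff₀ hpR] at h2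
        push_cast
        linarith
      simp only [Finset.mem_sigma, Finset.mem_filter, Finset.mem_Icc]
      refine ⟨⟨⟨Nat.mul_pos hpp.pos hd1, ?_⟩, ?_⟩, ?_⟩
      · refine Nat.le_floor (h1.trans ?_)
        exact Real.rpow_le_rpow_of_exponent_le hT.le hκκ
      · exact (Nat.squarefree_mul hco).mpr ⟨hpp.squarefree, hds⟩
      · exact Nat.mem_primeFactors.mpr ⟨hpp, Dvd.intro d rfl,
          (Nat.mul_pos hpp.pos hd1).ne'⟩
    · rintro ⟨p, d⟩ hx ⟨p', d'⟩ hx' h
      simp only [Finset.mem_sigma, Finset.mem_filter, Finset.mem_Icc] at hx hx'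
      simp only [Sigma.mk.injEq, heq_eq_eq] at h
      obtain ⟨h1, rfl⟩ := h
      have h2 : d = d' := Nat.eq_of_mul_eq_mul_left hx.1.2.pos h1
      subst h2
      rfl
    · rintro ⟨p, d⟩ hx
      simp only [Finset.mem_sigma, Finset.mem_filter, Finset.mem_Icc] at hx
      obtain ⟨⟨⟨hp1, hp2⟩, hpp⟩, ⟨hd1, hd2⟩, hds, hpd⟩ := hx
      have hco : Nat.Coprime p d := (Nat.Prime.coprime_iff_not_dvd hpp).mpr hpd
      have hpR : (0 : ℝ) < p := by exact_mod_cast hpp.pos
      have hdR : (0 : ℝ) < d := by exact_mod_cast hd1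
      have h1 : ((p * d : ℕ) : ℝ) ≤ T ^ κ' := by
        have h2 := (Nat.le_floor_iff (by positivity)).mp hd2
        rw [le_div_iff₀ hpR] at h2
        push_cast
        linarith
      have hsqf : Squarefree (p * d) := (Nat.squarefree_mul hco).mpr ⟨hpp.squarefree, hds⟩
      have hlog1 : Real.log ((p * d : ℕ) : ℝ) ≤ κ' * Real.log T := by
        rw [← Real.log_rpow hT0]
        refine Real.log_le_log ?_ h1
        exact_mod_cast Nat.mul_pos hpp.pos hd1
      have hlog2 : Real.log (d : ℝ) ≤ κ' * Real.log T := by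
        refine le_trans (Real.log_le_log hdR ?_) hlog1
        exact_mod_cast Nat.le_mul_of_pos_left d hpp.pos
      have g1 := apa_good (a := fun i => |a i|) (i1 := i1) hT hη hκ1 hi0 hK hsqf hlog1
      have g2 := apa_good (a := fun i => |a i|) (i1 := i1) hT hη hκ1 hi0 hK hds hlog2
      have hpf : (p * d).primeFactors = insert p d.primeFactors := by
        rw [Nat.primeFactors_mul hpp.ne_zero hds.ne_zero, hpp.primeFactors]
        rfl
      have hpdm : p ∉ d.primeFactors := fun h => hpd (Nat.dvd_of_mem_primeFactors h)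
      rw [hpf, Finset.prod_insert hpdm] at g1
      have hd' : p * d / p = d := Nat.mul_div_cancel_left d hpp.pos
      simp only [hd']
      have hmem : p * d ∈ Finset.Icc 1 N := by
        rw [Finset.mem_Icc]
        refine ⟨Nat.mul_pos hpp.pos hd1, Nat.le_floor (h1.trans ?_)⟩
        exact Real.rpow_le_rpow_of_exponent_le hT.le hκκ
      have hw := hw2 (p * d) hmem
      have hwt : wt (fun p => hS (fun i => |a i|) η i0 i1 (Real.log p / Real.log T) ^ 2) d =
          (∏ q ∈ d.primeFactors, hS (fun i => |a i|) η i0 i1 (Real.log q / Real.log T)) *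
          (∏ q ∈ d.primeFactors, hS (fun i => |a i|) η i0 i1 (Real.log q / Real.log T)) := by
        rw [wt, ← Finset.prod_mul_distrib]
        exact Finset.prod_congr rfl fun q _ => by ring
      rw [hr, g1, g2, hwt]
      set Y := ∏ q ∈ d.primeFactors, hS (fun i => |a i|) η i0 i1 (Real.log q / Real.log T)
        with hY
      have hY0 : 0 ≤ Y := Finset.prod_nonneg fun q _ => hh _
      have hhp := hh (Real.log p / Real.log T)
      have hcast : ((p * d : ℕ) : ℝ) = (p : ℝ) * (d : ℝ) := by push_cast; ring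
      exact n2_alg _ _ _ _ _ _ _ hpR hdR hhp hY0 (abs_nonneg _) (by rw [← hcast]; exact hw)
    · rintro ⟨m, p⟩ _
      have h1 := hrn m
      have h2 := hrn (m / p)
      have h3 := hw0 m
      positivity
  -- the other terms
  have hns : -ε ≤ ∑ m ∈ (Finset.Icc 1 N).filter (fun m => ¬ Squarefree m), F m := by
    set S := ((Finset.Icc 1 N).filter (fun m => ¬ Squarefree m)).filter (fun m => A m ≠ 0)
      with hS'
    have e4 : ∑ m ∈ (Finset.Icc 1 N).filter (fun m => ¬ Squarefree m), F m =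
        ∑ m ∈ S, F m := by
      symm
      refine Finset.sum_subset (Finset.filter_subset _ _) ?_
      intro m hm hmS
      have hA0 : A m = 0 := by
        by_contra hcon
        exact hmS (Finset.mem_filter.mpr ⟨hm, hcon⟩)
      rw [hF]
      simp only [hA0]
      ring
    have h5 : ∑ m ∈ S, (1 : ℝ) / m ≤ ε / C := by
      refine hrs S fun m hm => ?_
      rw [hS', Finset.mem_filter, Finset.mem_filter] at hm
      obtain ⟨⟨hm1, hm2⟩, hm3⟩ := hm
      obtain ⟨h6, h7⟩ := apa_rough hT hη hm3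
      exact ⟨hNle m hm1, ⟨h6, h7⟩, hm2⟩
    have h6 : |∑ m ∈ S, F m| ≤ ε := by
      calc |∑ m ∈ S, F m| ≤ ∑ m ∈ S, |F m| := Finset.abs_sum_le_sum_abs _ _
        _ ≤ ∑ m ∈ S, C * (1 / (m : ℝ)) := by
            refine Finset.sum_le_sum fun m hm => ?_
            rw [hS', Finset.mem_filter, Finset.mem_filter] at hm
            obtain ⟨⟨hm1, hm2⟩, hm3⟩ := hm
            exact n2_abs hsg hη hi0 hM hT (hNle m hm1) hm3 (hw0 m) (hw1 m hm1)
        _ = C * ∑ m ∈ S, (1 / (m : ℝ)) := by rw [Finset.mul_sum]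
        _ ≤ C * (ε / C) := mul_le_mul_of_nonneg_left h5 hC0.le
        _ = ε := by field_simp
    rw [e4]
    linarith [(abs_le.mp h6).1]
  rw [e1, ← Finset.sum_filter_add_sum_filter_not (Finset.Icc 1 N) Squarefree]
  linarith

end Pool.Agent.MP_67227b_nt.Al
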