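import Pool.Agent.MP_67227b_nt.Al.AlN1
import Pool.Agent.MP_67227b_nt.Al.AlN2
import Pool.Agent.MP_67227b_nt.Al.AlGrid
import Pool.Agent.MP_67227b_nt.Al.AlSp

set_option autoImplicit false

open Filter Topology Set MeasureTheory Complex
open scoped Real ArithmeticFunction ContDiff

namespace Pool.Agent.MP_67227b_nt.Al

open Pool.Agent.Lib.ZetaCount_helper33 Pool.Agent.MP_67227b_nt Pool.Agent.MP_67227b_nt.Mo
open Pool.Agent.MP_67227b_nt.Sg Pool.Agent.MP_67227b_nt.Pp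

private theorem gain_near_mono {H h : ℝ → ℝ} {ε ε' : ℝ} (hle : ε ≤ ε') (hh : Near H ε h) :
    Near H ε' h :=
  ⟨hh.nonneg, hh.lip, fun x => (hh.close x).trans hle, fun x hx => by
    obtain ⟨y, hy, hxy⟩ := hh.supp x hx
    exact ⟨y, hy, hxy.trans hle⟩⟩

private theorem gain_bdd {sg u κ δ : ℝ} {H : ℝ → ℝ} (hH : Prof sg u κ δ H) :
    ∃ M : ℝ, 0 ≤ M ∧ ∀ x, |H x| ≤ M := by
  have hcs : HasCompactSupport H := by
    refine HasCompactSupport.intro (isCompact_Icc (a := δ) (b := κ - δ)) ?_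
    intro x hx
    by_contra h
    exact hx ⟨(hH.supp x h).1, (hH.supp x h).2⟩
  obtain ⟨M, hM⟩ := hH.cont.bounded_above_of_compact_support hcs
  exact ⟨M, (norm_nonneg _).trans (hM 0), fun x => by simpa using hM x⟩

/-- The kernel `|sin(πut)|/t`, extended continuously. -/
private noncomputable def gs (u t : ℝ) : ℝ := π * u * |Real.sinc (π * u * t)|

private theorem gs_cont (u : ℝ) : Continuous (gs u) := by
  unfold gs
  exact continuous_const.mul ((Real.continuous_sinc.comp (by fun_prop)).abs)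

private theorem gs_nonneg {u : ℝ} (hu : 0 < u) (t : ℝ) : 0 ≤ gs u t := by
  unfold gs
  have := Real.pi_pos
  positivity

private theorem gs_le {u : ℝ} (hu : 0 < u) (t : ℝ) : gs u t ≤ π * u := by
  unfold gs
  have h1 : |Real.sinc (π * u * t)| ≤ 1 := by
    rw [abs_le]
    exact ⟨Real.neg_one_le_sinc _, Real.sinc_le_one _⟩
  have := Real.pi_pos
  exact mul_le_of_le_one_right (by positivity) h1

private theorem gs_eq {u t : ℝ} (hu : 0 < u) (ht : 0 < t) :
    |Real.sin (π * u * t)| / t = gs u t := by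
  unfold gs
  have h1 : 0 < π * u * t := mul_pos (mul_pos Real.pi_pos hu) ht
  rw [Real.sinc_of_ne_zero h1.ne', abs_div, abs_of_pos h1]
  have := Real.pi_pos
  field_simp

private theorem gain_lower {sg u κ κ' δ ε ε₂ M : ℝ} {H Φ h : ℝ → ℝ} (hu : 0 < u)
    (hκ1 : κ ≤ 1) (hH : Prof sg u κ δ H)
    (hΦ : ContinuousOn Φ (Icc 0 κ)) (hΦ0 : ∀ t ∈ Icc 0 κ, 0 ≤ Φ t ∧ Φ t ≤ 1)
    (hM0 : 0 ≤ M) (hM : ∀ x, |H x| ≤ M) (hε : 0 < ε) (hε1 : ε ≤ 1)
    (hh : Near H ε₂ h) (hε2 : ε₂ ≤ ε) (hhc : Continuous h)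
    (hκ'0 : 0 ≤ κ') (hκ' : κ' ≤ κ) (hκδ : κ - δ ≤ κ') :
    (∫ t in (0 : ℝ)..κ, 2 * |H t * Real.sin (π * u * t)| / t * Φ t) - 2 * (π * u) * (M + 2) * ε ≤
      ∫ t in (0 : ℝ)..κ', 2 * h t * gs u t * (Φ t - ε) := by
  have hpu : 0 < π * u := mul_pos Real.pi_pos hu
  have hκ0 : 0 ≤ κ := hκ'0.trans hκ'
  -- rewrite the first integral
  have h1 : (∫ t in (0 : ℝ)..κ, 2 * |H t * Real.sin (π * u * t)| / t * Φ t) =
      ∫ t in (0 : ℝ)..κ', 2 * |H t| * gs u t * Φ t := by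
    have h2 : (∫ t in (0 : ℝ)..κ, 2 * |H t * Real.sin (π * u * t)| / t * Φ t) =
        ∫ t in (0 : ℝ)..κ, 2 * |H t| * gs u t * Φ t := by
      refine intervalIntegral.integral_congr_ae (Eventually.of_forall fun t ht => ?_)
      rw [uIoc_of_le hκ0] at ht
      have e : 2 * |H t * Real.sin (π * u * t)| / t = 2 * |H t| * gs u t := by
        rw [← gs_eq hu ht.1, abs_mul]; ring
      rw [e]
    have hint : ∀ a b : ℝ, a ∈ Icc 0 κ → b ∈ Icc 0 κ →
        IntervalIntegrable (fun t => 2 * |H t| * gs u t * Φ t) volume a b := by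
      intro a b ha hb
      refine ContinuousOn.intervalIntegrable ?_
      refine ((continuous_const.mul hH.cont.abs).mul (gs_cont u)).continuousOn.mul
        (hΦ.mono ?_)
      exact uIcc_subset_Icc ha hb
    rw [h2, ← intervalIntegral.integral_add_adjacent_intervals
      (hint 0 κ' ⟨le_rfl, hκ0⟩ ⟨hκ'0, hκ'⟩) (hint κ' κ ⟨hκ'0, hκ'⟩ ⟨hκ0, le_rfl⟩)]
    have h3 : (∫ t in κ'..κ, 2 * |H t| * gs u t * Φ t) = 0 := by
      rw [intervalIntegral.integral_congr_ae (g := fun _ => (0 : ℝ))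
        (Eventually.of_forall fun t ht => ?_)]
      · simp
      · rw [uIoc_of_le hκ'] at ht
        have : H t = 0 := by
          by_contra hn
          have := (hH.supp t hn).2
          linarith only [ht.1, hκδ, this, ht]
        rw [this]; simp
    rw [h3, add_zero]
  rw [h1]
  have hc1 : ContinuousOn (fun t => 2 * |H t| * gs u t * Φ t) (Icc 0 κ') := by
    refine ((continuous_const.mul hH.cont.abs).mul (gs_cont u)).continuousOn.mul
      (hΦ.mono (Icc_subset_Icc le_rfl hκ'))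
  have hc2 : ContinuousOn (fun t => 2 * h t * gs u t * (Φ t - ε)) (Icc 0 κ') := by
    refine ((continuous_const.mul hhc).mul (gs_cont u)).continuousOn.mul
      ((hΦ.mono (Icc_subset_Icc le_rfl hκ')).sub continuousOn_const)
  have hi1 : IntervalIntegrable (fun t => 2 * |H t| * gs u t * Φ t) volume 0 κ' :=
    ContinuousOn.intervalIntegrable (by rwa [uIcc_of_le hκ'0])
  have hi2 : IntervalIntegrable (fun t => 2 * h t * gs u t * (Φ t - ε)) volume 0 κ' :=
    ContinuousOn.intervalIntegrable (by rwa [uIcc_of_le hκ'0])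
  have h4 : (∫ t in (0 : ℝ)..κ', (2 * |H t| * gs u t * Φ t - 2 * (π * u) * (M + 2) * ε)) ≤
      ∫ t in (0 : ℝ)..κ', 2 * h t * gs u t * (Φ t - ε) := by
    refine intervalIntegral.integral_mono_on hκ'0 (hi1.sub intervalIntegrable_const) hi2 ?_
    intro t ht
    obtain ⟨hp0, hp1⟩ := hΦ0 t ⟨ht.1, ht.2.trans hκ'⟩
    have hg0 := gs_nonneg hu t
    have hg1 := gs_le hu t
    have hcl := abs_le.1 (hh.close t)
    have hn := hh.nonneg t
    have hMt := hM t
    have hab := abs_nonneg (H t)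
    -- 2 gs (|H| Φ - h (Φ - ε)) ≤ 2 gs (ε + ε h) ≤ 2 π u (M + 2) ε
    have h5 : |H t| * Φ t - h t * (Φ t - ε) ≤ (M + 2) * ε := by
      have h6 : (|H t| - h t) * Φ t ≤ ε := by
        have h7 : |H t| - h t ≤ ε := by linarith
        calc (|H t| - h t) * Φ t ≤ ε * Φ t := mul_le_mul_of_nonneg_right h7 hp0
          _ ≤ ε := mul_le_of_le_one_right hε.le hp1
      have h8 : h t * ε ≤ (M + 1) * ε := mul_le_mul_of_nonneg_right (by linarith) hε.le
      nlinarith only [h6, h8]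
    have h9 : 0 ≤ (M + 2) * ε := by positivity
    have h10 : gs u t * (|H t| * Φ t - h t * (Φ t - ε)) ≤ π * u * ((M + 2) * ε) := by
      calc gs u t * (|H t| * Φ t - h t * (Φ t - ε)) ≤ gs u t * ((M + 2) * ε) :=
            mul_le_mul_of_nonneg_left h5 hg0
        _ ≤ π * u * ((M + 2) * ε) := mul_le_mul_of_nonneg_right hg1 h9
    nlinarith only [h10]
  rw [intervalIntegral.integral_sub hi1 intervalIntegrable_const,
    intervalIntegral.integral_const, sub_zero, smul_eq_mul] at h4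
  have h11 : κ' * (2 * (π * u) * (M + 2) * ε) ≤ 2 * (π * u) * (M + 2) * ε := by
    have : 0 ≤ 2 * (π * u) * (M + 2) * ε := by positivity
    exact mul_le_of_le_one_left this (hκ'.trans hκ1)
  linarith

private theorem gain_int {u κ κ' ε T : ℝ} {Φ h : ℝ → ℝ} {v : ℕ → ℝ} (hu : 0 < u)
    (hΦ : ContinuousOn Φ (Icc 0 κ)) (hhc : Continuous h) (hn : ∀ x, 0 ≤ h x)
    (hv : ∀ p, 0 ≤ v p) (hT : 1 < T) (hκ'0 : 0 ≤ κ') (hκ' : κ' ≤ κ)
    (hLB : ∀ t : ℝ, h t ≠ 0 → (Φ t - ε) * FW v T κ ≤ FW v T (κ' - t)) :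
    FW v T κ * (∫ t in (0 : ℝ)..κ', 2 * h t * gs u t * (Φ t - ε)) ≤
      ∫ t in (0 : ℝ)..κ', (2 * h t * |Real.sin (π * u * t)|) / t * FW v T (κ' - t) := by
  have h1 : (∫ t in (0 : ℝ)..κ', (2 * h t * |Real.sin (π * u * t)|) / t * FW v T (κ' - t)) =
      ∫ t in (0 : ℝ)..κ', 2 * h t * gs u t * FW v T (κ' - t) := by
    refine intervalIntegral.integral_congr_ae (Eventually.of_forall fun t ht => ?_)
    rw [uIoc_of_le hκ'0] at ht
    have e : (2 * h t * |Real.sin (π * u * t)|) / t = 2 * h t * gs u t := by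
      rw [← gs_eq hu ht.1]; ring
    rw [e]
  rw [h1, ← intervalIntegral.integral_const_mul]
  have hc2 : ContinuousOn (fun t => FW v T κ * (2 * h t * gs u t * (Φ t - ε))) (Icc 0 κ') := by
    refine continuousOn_const.mul
      (((continuous_const.mul hhc).mul (gs_cont u)).continuousOn.mul
      ((hΦ.mono (Icc_subset_Icc le_rfl hκ')).sub continuousOn_const))
  have hi2 : IntervalIntegrable (fun t => FW v T κ * (2 * h t * gs u t * (Φ t - ε)))
      volume 0 κ' := ContinuousOn.intervalIntegrable (by rwa [uIcc_of_le hκ'0])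
  have hmono : Antitone (fun t : ℝ => FW v T (κ' - t)) := by
    intro s t hst
    exact FW_mono hv hT (by linarith)
  have hi3 : IntervalIntegrable (fun t => 2 * h t * gs u t * FW v T (κ' - t)) volume 0 κ' := by
    refine (hmono.intervalIntegrable).continuousOn_mul ?_
    exact ((continuous_const.mul hhc).mul (gs_cont u)).continuousOn
  refine intervalIntegral.integral_mono_on hκ'0 hi2 hi3 ?_
  intro t ht
  by_cases h0 : h t = 0
  · rw [h0]; simp
  · have h2 := hLB t h0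
    have h3 : 0 ≤ 2 * h t * gs u t := by
      have := hn t; have := gs_nonneg hu t; positivity
    calc FW v T κ * (2 * h t * gs u t * (Φ t - ε))
        = 2 * h t * gs u t * ((Φ t - ε) * FW v T κ) := by ring
      _ ≤ 2 * h t * gs u t * FW v T (κ' - t) := mul_le_mul_of_nonneg_left h2 h3

private theorem gain_S0_nonneg (a : ℕ → ℝ) (b : ℝ) (N : ℕ) : 0 ≤ S0 a b N := by
  unfold S0
  exact Finset.sum_nonneg fun m _ => by positivity

private theorem gain_lip {u M B : ℝ} {h : ℝ → ℝ} (hu : 0 < u) (hM0 : 0 ≤ M) (hM : ∀ x, |h x| ≤ M)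
    (hB : ∀ x y, |h x - h y| ≤ B * |x - y|) (x y : ℝ) :
    abs (2 * h x * |Real.sin (π * u * x)| - 2 * h y * |Real.sin (π * u * y)|) ≤
      (2 * (B + M * (π * u))) * |x - y| := by
  have hpu : 0 < π * u := mul_pos Real.pi_pos hu
  have h1 : abs (|Real.sin (π * u * x)| - |Real.sin (π * u * y)|) ≤ π * u * |x - y| := by
    calc abs (|Real.sin (π * u * x)| - |Real.sin (π * u * y)|)
        ≤ |Real.sin (π * u * x) - Real.sin (π * u * y)| := abs_abs_sub_abs_le _ _
      _ ≤ |π * u * x - π * u * y| := Real.abs_sin_sub_sin_le _ _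
      _ = π * u * |x - y| := by rw [← mul_sub, abs_mul, abs_of_pos hpu]
  have h2 : 2 * h x * |Real.sin (π * u * x)| - 2 * h y * |Real.sin (π * u * y)| =
      2 * ((h x - h y) * |Real.sin (π * u * x)|) +
        2 * (h y * (|Real.sin (π * u * x)| - |Real.sin (π * u * y)|)) := by ring
  rw [h2]
  have h3 : abs ((h x - h y) * |Real.sin (π * u * x)|) ≤ B * |x - y| := by
    rw [abs_mul, abs_abs]
    exact (mul_le_of_le_one_right (abs_nonneg _) (Real.abs_sin_le_one _)).trans (hB x y)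
  have h4 : abs (h y * (|Real.sin (π * u * x)| - |Real.sin (π * u * y)|)) ≤
      M * (π * u * |x - y|) := by
    rw [abs_mul]
    exact mul_le_mul (hM y) h1 (abs_nonneg _) hM0
  calc abs (2 * ((h x - h y) * |Real.sin (π * u * x)|) +
        2 * (h y * (|Real.sin (π * u * x)| - |Real.sin (π * u * y)|)))
      ≤ abs (2 * ((h x - h y) * |Real.sin (π * u * x)|)) +
        abs (2 * (h y * (|Real.sin (π * u * x)| - |Real.sin (π * u * y)|))) := abs_add_le _ _
    _ ≤ 2 * (B * |x - y|) + 2 * (M * (π * u * |x - y|)) := by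
        rw [abs_mul (2 : ℝ) ((h x - h y) * |Real.sin (π * u * x)|),
          abs_mul (2 : ℝ) (h y * (|Real.sin (π * u * x)| - |Real.sin (π * u * y)|)), abs_two]
        linarith only [h3, h4]
    _ = (2 * (B + M * (π * u))) * |x - y| := by ring

/-- MODULE P. From the profile to the gain. Let `I = ∫_0^κ (2 |H sin|/t) Φ dt > πg`. Choose `ε` small,
then `ε₁ ≤ ε` from `LB` and `grid` with `ε₁`; `h = hS |a|`, `v p = h(x_p)²`, `g₀ x = 2 h x |sin(πux)|`
(Lipschitz, nonnegative, `0` for `x ≤ δ/2`), `κ' = κ - 2Kη ∈ [κ - ε₁, κ]`. For large `T`, with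
`F = FW v T κ ≥ 1` (`one_le_FW`), `-sg S1 ≥ e^{-2β} Sp - ε` (`S1_ge`),
`Sp ≥ ∫_0^κ' (g₀ t/t) FW(κ' - t) dt - ε F ≥ (∫_0^κ' (g₀ t/t) (Φ t - ε) dt - ε) F` (`Sp_ge`,
`FW_mono`, `LB`: if `h t = 0` the integrand vanishes), and the integral is at least `I - C ε`, as
`|h - |H|| ≤ ε`, `h` and `H` are supported in `[δ/2, κ - δ/2]` (`ε₁ ≤ δ/4`), `0 ≤ Φ ≤ 1`. So for
`β`, `ε` small, `-sg S1 ≥ (π max(g,0) + ε₀) F`, and `S0 ≤ F + ε` (`S0_le` with `τ = tau sg u`). -/
theorem main_ineq {sg u κ g δ : ℝ} {H Φ : ℝ → ℝ} (hsg : sg = 1 ∨ sg = -1) (hu : 0 < u)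
    (hκ : 0 < κ) (hκ1 : κ ≤ 1) (hδ : 0 < δ) (hH : Prof sg u κ δ H)
    (hΦ : ContinuousOn Φ (Icc 0 κ)) (hΦ0 : ∀ t ∈ Icc 0 κ, 0 ≤ Φ t ∧ Φ t ≤ 1) (hLB : LB κ H Φ)
    (hg : π * g < ∫ t in (0 : ℝ)..κ, 2 * |H t * Real.sin (π * u * t)| / t * Φ t)
    (hpos : 0 < ∫ t in (0 : ℝ)..κ, 2 * |H t * Real.sin (π * u * t)| / t * Φ t) :
    Gain sg u κ g := by
  obtain ⟨MH, hMH0, hMH⟩ := gain_bdd hH
  have hpu : 0 < π * u := mul_pos Real.pi_pos hu
  set I : ℝ := ∫ t in (0 : ℝ)..κ, 2 * |H t * Real.sin (π * u * t)| / t * Φ t with hI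
  set G : ℝ := max (π * g) 0 with hG
  have hG0 : 0 ≤ G := le_max_right _ _
  have hGg : π * g ≤ G := le_max_left _ _
  have hGI : G < I := max_lt hg hpos
  set D : ℝ := 2 * (π * u) * (MH + 2) with hD
  have hD0 : 0 ≤ D := by positivity
  set gap : ℝ := I - G with hgap
  have hgap0 : 0 < gap := by rw [hgap]; linarith
  set ε : ℝ := min 1 (gap / (4 * (D + 2 + I + G))) with hεd
  have hden : 0 < 4 * (D + 2 + I + G) := by linarith only [hpos, hG0, hD0]
  have hε : 0 < ε := lt_min one_pos (div_pos hgap0 hden)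
  have hε1 : ε ≤ 1 := min_le_left _ _
  have hεg : ε * (D + 2 + I + G) ≤ gap / 4 := by
    have h1 : ε ≤ gap / (4 * (D + 2 + I + G)) := min_le_right _ _
    rw [le_div_iff₀ hden] at h1
    linarith
  obtain ⟨ε₁, hε₁, hLB1⟩ := hLB ε hε
  set ε₂ : ℝ := min (min ε₁ ε) (min (δ / 2) κ) with hε₂d
  have hε₂ : 0 < ε₂ := lt_min (lt_min hε₁ hε) (lt_min (by linarith) hκ)
  have hε₂₁ : ε₂ ≤ ε₁ := (min_le_left _ _).trans (min_le_left _ _)
  have hε₂ε : ε₂ ≤ ε := (min_le_left _ _).trans (min_le_right _ _)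
  have hε₂δ : ε₂ ≤ δ / 2 := (min_le_right _ _).trans (min_le_left _ _)
  have hε₂κ : ε₂ ≤ κ := (min_le_right _ _).trans (min_le_right _ _)
  obtain ⟨η, M, a, i0, i1, K, hη, hi0, haM, hK, hKη, hsign, hnear⟩ :=
    grid hsg hu hκ hδ hH hε₂
  set h : ℝ → ℝ := hS (fun i => |a i|) η i0 i1 with hh
  have hM0 : 0 ≤ M := (abs_nonneg _).trans (haM 0)
  have hhM : ∀ x, |h x| ≤ MH + 1 := by
    intro x
    rw [abs_of_nonneg (hnear.nonneg x)]
    have h1 := (abs_le.1 (hnear.close x)).2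
    have h2 := hMH x
    linarith only [hε1, hε₂ε, h1, h2]
  obtain ⟨B, hB⟩ := hnear.lip
  have hhc : Continuous h := by
    have : LipschitzWith (Real.toNNReal B) h := by
      refine LipschitzWith.of_dist_le_mul fun x y => ?_
      rw [Real.dist_eq, Real.dist_eq]
      exact (hB x y).trans (mul_le_mul_of_nonneg_right (Real.le_coe_toNNReal B) (abs_nonneg _))
    exact this.continuous
  set κ' : ℝ := κ - 2 * K * η with hκ'd
  have hκ'0 : 0 ≤ κ' := by rw [hκ'd]; linarith only [hε₂κ, hKη]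
  have hκ'κ : κ' ≤ κ := by
    rw [hκ'd]
    have : 0 ≤ 2 * (K : ℝ) * η := by positivity
    linarith
  have hκ'ε : κ - ε₁ ≤ κ' := by rw [hκ'd]; linarith only [hε₂₁, hKη]
  have hκ'δ : κ - δ ≤ κ' := by rw [hκ'd]; linarith only [hε₂, hε₂δ, hKη]
  have hlow := gain_lower hu hκ1 hH hΦ hΦ0 hMH0 hMH hε hε1 hnear hε₂ε hhc hκ'0 hκ'κ hκ'δ
  rw [← hI, ← hD] at hlow
  -- the kernel function
  have hg0n : ∀ x, 0 ≤ 2 * h x * |Real.sin (π * u * x)| := fun x => by
    have := hnear.nonneg x; positivity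
  have hg00 : ∀ x, x ≤ δ / 4 → 2 * h x * |Real.sin (π * u * x)| = 0 := by
    intro x hx
    have : h x = 0 := by
      by_contra hn
      obtain ⟨y, hy, hxy⟩ := hnear.supp x hn
      have := (hH.supp y hy).1
      have h2 := (abs_le.1 hxy).1
      linarith only [hε₂, hε₂δ, hx, this, h2]
    rw [this]; simp
  have hgl := gain_lip hu (by linarith only [hMH0] : (0 : ℝ) ≤ MH + 1) hhM hB
  have hτ : ∀ x, tau sg u x = 1 ∨ tau sg u x = -1 := by
    intro x; unfold tau; split_ifs <;> simp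
  -- collect the eventual statements
  have e1 := Sp_ge (by linarith only [hε₂, hε₂δ] : (0 : ℝ) < δ / 4) hg0n hg00 hgl
    (by positivity : (0 : ℝ) ≤ (MH + 1) ^ 2) hε
  have e2 := S0_le hη hκ hκ1 (by linarith only [hε] : 0 < ε / 2) hi0 haM hτ hsign hε (K := K)
  have e3 := S1_ge hsg hu hη hκ hκ1 (by linarith : 0 < ε / 2) hi0 haM hK hsign hε
  have e4 := hLB1 h (gain_near_mono hε₂₁ hnear) κ' hκ'ε hκ'κ
  refine ⟨ε / 2, η, gap / 8, M, a, i0, i1, K, by linarith, hη, by linarith only [hGI], hi0, haM, ?_⟩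
  filter_upwards [e1, e2, e3, e4, eventually_gt_atTop 1] with T h1 h2 h3 h4 hT
  have hv : ∀ p : ℕ, 0 ≤ h (Real.log p / Real.log T) ^ 2 := fun p => sq_nonneg _
  have hvq : ∀ p : ℕ, h (Real.log p / Real.log T) ^ 2 ≤ (MH + 1) ^ 2 := fun p =>
    sq_le_sq' (by have := (abs_le.1 (hhM (Real.log p / Real.log T))).1; linarith only [this])
      (abs_le.1 (hhM (Real.log p / Real.log T))).2
  have h5 := h1 (fun p => h (Real.log p / Real.log T) ^ 2) hv hvq κ' hκ'0 (hκ'κ.trans hκ1)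
  have h6 := gain_int (ε := ε) hu hΦ hhc hnear.nonneg hv hT hκ'0 hκ'κ h4
  set F : ℝ := FW (fun p => h (Real.log p / Real.log T) ^ 2) T κ with hF
  have hF1 : 1 ≤ F := one_le_FW hv hT hκ.le
  have hFκ' : FW (fun p => h (Real.log p / Real.log T) ^ 2) T κ' ≤ F := FW_mono hv hT hκ'κ
  set s0 : ℝ := S0 (apa a T η κ i0 i1 K) (ε / 2 / Real.log T) ⌊T ^ κ⌋₊ with hs0
  have hs00 : 0 ≤ s0 := gain_S0_nonneg _ _ _
  have hb : 2 * (ε / 2) = ε := by ring
  rw [hb] at h3
  set SP : ℝ := Sp (fun p => h (Real.log p / Real.log T) ^ 2)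
    (fun x => 2 * h x * |Real.sin (π * u * x)|) T κ' with hSP
  set X : ℝ := I - D * ε - ε with hX
  have hX0 : 0 ≤ X := by
    rw [hX]
    nlinarith only [hpos, hG0, hε, hεg]
  have hSPX : F * X ≤ SP := by
    have h7 : F * (I - D * ε) ≤ F * ∫ t in (0 : ℝ)..κ', 2 * h t * gs u t * (Φ t - ε) :=
      mul_le_mul_of_nonneg_left hlow (by linarith only [hF1])
    have h8 : ε * FW (fun p => h (Real.log p / Real.log T) ^ 2) T κ' ≤ ε * F :=
      mul_le_mul_of_nonneg_left hFκ' hε.le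
    have h9 : F * X = F * (I - D * ε) - ε * F := by rw [hX]; ring
    rw [h9]
    linarith only [h6, h5, h7, h8]
  have hexp : 1 - ε ≤ Real.exp (-ε) := by
    have := Real.add_one_le_exp (-ε); linarith only [this]
  have h10 : (1 - ε) * (F * X) ≤ Real.exp (-ε) * SP := by
    calc (1 - ε) * (F * X) ≤ Real.exp (-ε) * (F * X) :=
          mul_le_mul_of_nonneg_right hexp (mul_nonneg (by linarith only [hF1]) hX0)
      _ ≤ Real.exp (-ε) * SP := mul_le_mul_of_nonneg_left hSPX (Real.exp_pos _).le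
  have h11 : π * g * s0 ≤ G * (F + ε) := by
    calc π * g * s0 ≤ G * s0 := mul_le_mul_of_nonneg_right hGg hs00
      _ ≤ G * (F + ε) := mul_le_mul_of_nonneg_left h2 hG0
  have h12 : gap / 8 * (1 + s0) ≤ gap / 8 * (1 + (F + ε)) :=
    mul_le_mul_of_nonneg_left (by linarith only [h2]) (by linarith only [hGI])
  have h13 : ε + G * (F + ε) + gap / 8 * (1 + (F + ε)) ≤ (1 - ε) * (F * X) := by
    have h14 : ε + G * (1 + ε) + gap / 8 * (2 + ε) ≤ (1 - ε) * X := by
      have h15 : (1 - ε) * X = X - ε * X := by ring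
      have h16 : ε * X ≤ ε * I := by
        refine mul_le_mul_of_nonneg_left ?_ hε.le
        rw [hX]
        have : 0 ≤ D * ε := by positivity
        linarith only [hε, this]
      rw [h15]
      have h17 : gap / 8 * (2 + ε) ≤ 3 * gap / 8 := by nlinarith only [hGI, hε1]
      have h18 : ε * (D + 2 + I + G) = D * ε + 2 * ε + ε * I + G * ε := by ring
      rw [h18] at hεg
      have h19 : X = gap + G - D * ε - ε := by rw [hX, hgap]; ring
      rw [h19] at h16 ⊢
      nlinarith only [hGI, hεg, h16, h17]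
    have h20 : ε + G * (F + ε) + gap / 8 * (1 + (F + ε)) ≤
        F * (ε + G * (1 + ε) + gap / 8 * (2 + ε)) := by
      have a1 : ε ≤ F * ε := le_mul_of_one_le_left hε.le hF1
      have a2 : G * ε ≤ F * (G * ε) := le_mul_of_one_le_left (by positivity) hF1
      have a3 : gap / 8 * (1 + ε) ≤ F * (gap / 8 * (1 + ε)) :=
        le_mul_of_one_le_left (by positivity) hF1
      nlinarith only [a1, a2, a3]
    calc ε + G * (F + ε) + gap / 8 * (1 + (F + ε))
        ≤ F * (ε + G * (1 + ε) + gap / 8 * (2 + ε)) := h20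
      _ ≤ F * ((1 - ε) * X) := mul_le_mul_of_nonneg_left h14 (by linarith only [hF1])
      _ = (1 - ε) * (F * X) := by ring
  linarith only [h3, h10, h11, h12, h13]

end Pool.Agent.MP_67227b_nt.Al
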