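import Pool.Agent.MP_67227b_nt.Al.AlF4

set_option autoImplicit false

open Filter Topology Set MeasureTheory Complex
open scoped Real ArithmeticFunction ContDiff

namespace Pool.Agent.MP_67227b_nt.Al

open Pool.Agent.Lib.ZetaCount_helper33 Pool.Agent.MP_67227b_nt Pool.Agent.MP_67227b_nt.Mo
open Pool.Agent.MP_67227b_nt.Sg Pool.Agent.MP_67227b_nt.Pp

/-- MODULE B1. The bound `LB` for bounded profiles. Let `|H| ≤ √q₁`, `q₁ < q₂`, `H` supported in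
`[δ, κ - δ]`. If `ε₁` is small, `h ≤ √q₁ + ε₁`, so `h² ≤ q₂`, and `h t ≠ 0` implies
`δ/2 ≤ t ≤ κ - δ/2`, so `x = κ' - t ≥ δ/4`; `FW_lower` (with `q = q₂`, `x₀ = δ/4`, `ε/2`) gives
`F(κ' - t) ≥ (((κ'-t)/κ)^q₂ - ε/2) F(κ)`, and `((κ'-t)/κ)^q₂ ≥ ((κ-t)/κ)^q₂ - ε/2` by uniform
continuity of `x ↦ x^q₂` on `[0,1]`. -/
theorem LB_bounded {κ q₁ q₂ δ : ℝ} {H : ℝ → ℝ} (hκ : 0 < κ) (hδ : 0 < δ) (hq₁ : 0 ≤ q₁)
    (hq : q₁ < q₂) (hH : ∀ x, |H x| ≤ Real.sqrt q₁)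
    (hs : ∀ x, H x ≠ 0 → δ ≤ x ∧ x ≤ κ - δ) : LB κ H (fun t => ((κ - t) / κ) ^ q₂) := by
  intro ε hε
  have hq₂ : 0 < q₂ := lt_of_le_of_lt hq₁ hq
  have hsq : Real.sqrt q₁ < Real.sqrt q₂ := Real.sqrt_lt_sqrt hq₁ hq
  -- uniform continuity
  have huc : UniformContinuousOn (fun x : ℝ => x ^ q₂) (Icc 0 1) :=
    isCompact_Icc.uniformContinuousOn_of_continuous
      (Real.continuous_rpow_const hq₂.le).continuousOn
  obtain ⟨δ₂, hδ₂, hU⟩ := Metric.uniformContinuousOn_iff.1 huc (ε / 2) (by positivity)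
  obtain ⟨ε₁, hε₁, h1, h2, h3⟩ : ∃ ε₁ : ℝ, 0 < ε₁ ∧ ε₁ ≤ δ / 4 ∧
      ε₁ ≤ Real.sqrt q₂ - Real.sqrt q₁ ∧ ε₁ ≤ κ * δ₂ / 2 := by
    refine ⟨min (min (δ / 4) (Real.sqrt q₂ - Real.sqrt q₁)) (κ * δ₂ / 2), ?_, ?_, ?_, ?_⟩
    · exact lt_min (lt_min (by positivity) (sub_pos.2 hsq)) (by positivity)
    · exact (min_le_left _ _).trans (min_le_left _ _)
    · exact (min_le_left _ _).trans (min_le_right _ _)
    · exact min_le_right _ _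
  refine ⟨ε₁, hε₁, fun h hn κ' hκ1 hκ2 => ?_⟩
  have hx₀ : 0 < δ / 2 := by positivity
  filter_upwards [FW_lower hq₂.le hκ hx₀ (half_pos hε)] with T hT t ht
  obtain ⟨y, hy, hty⟩ := hn.supp t ht
  obtain ⟨hy1, hy2⟩ := hs y hy
  have hty' := abs_le.1 hty
  have ht0 : 0 < t := by linarith
  have ht1 : δ / 2 ≤ κ' - t := by linarith
  have ht2 : κ' - t ≤ κ := by linarith
  have hv0 : ∀ p : ℕ, 0 ≤ h (Real.log p / Real.log T) ^ 2 := fun p => sq_nonneg _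
  have hvq : ∀ p : ℕ, h (Real.log p / Real.log T) ^ 2 ≤ q₂ := by
    intro p
    have h4 := hn.nonneg (Real.log p / Real.log T)
    have h5 := (abs_le.1 (hn.close (Real.log p / Real.log T))).2
    have h6 := hH (Real.log p / Real.log T)
    have h7 : h (Real.log p / Real.log T) ≤ Real.sqrt q₂ := by linarith
    calc h (Real.log p / Real.log T) ^ 2 ≤ Real.sqrt q₂ ^ 2 := pow_le_pow_left₀ h4 h7 2
      _ = q₂ := Real.sq_sqrt hq₂.le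
  have h8 := hT (fun p => h (Real.log p / Real.log T) ^ 2) hv0 hvq (κ' - t) ht1 ht2
  refine le_trans (mul_le_mul_of_nonneg_right ?_ (FW_nonneg hv0 T κ)) h8
  have ha : (κ - t) / κ ∈ Icc (0 : ℝ) 1 :=
    ⟨div_nonneg (by linarith) hκ.le, (div_le_one hκ).2 (by linarith)⟩
  have hb : (κ' - t) / κ ∈ Icc (0 : ℝ) 1 :=
    ⟨div_nonneg (by linarith) hκ.le, (div_le_one hκ).2 (by linarith)⟩
  have hd : dist ((κ - t) / κ) ((κ' - t) / κ) < δ₂ := by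
    rw [Real.dist_eq, ← sub_div, abs_div, abs_of_pos hκ, div_lt_iff₀ hκ]
    rw [show κ - t - (κ' - t) = κ - κ' by ring, abs_of_nonneg (by linarith)]
    nlinarith
  have h9 := hU _ ha _ hb hd
  rw [Real.dist_eq] at h9
  have h10 := (abs_lt.1 h9).2
  show ((κ - t) / κ) ^ q₂ - ε ≤ ((κ' - t) / κ) ^ q₂ - ε / 2
  linarith

end Pool.Agent.MP_67227b_nt.Al
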