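import Pool.Agent.MP_67227b_nt.Al.AlDefs

set_option autoImplicit false

open Filter Topology Set MeasureTheory Complex
open scoped Real ArithmeticFunction ContDiff

namespace Pool.Agent.MP_67227b_nt.Al

open Pool.Agent.Lib.ZetaCount_helper33 Pool.Agent.MP_67227b_nt Pool.Agent.MP_67227b_nt.Mo
open Pool.Agent.MP_67227b_nt.Sg Pool.Agent.MP_67227b_nt.Pp

private theorem sin_ge_aux {y : ℝ} (h0 : 0 ≤ y) (h1 : y ≤ π / 2) :
    y * (1 - y / π) ≤ Real.sin y := by
  have hmono : MonotoneOn (fun y : ℝ => Real.sin y - y * (1 - y / π)) (Icc 0 (π / 2)) := by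
    apply monotoneOn_of_deriv_nonneg (convex_Icc _ _)
    · fun_prop
    · fun_prop
    · intro z hz
      rw [interior_Icc] at hz
      have hd : HasDerivAt (fun y : ℝ => Real.sin y - y * (1 - y / π))
          (Real.cos z - (1 * (1 - z / π) + z * (0 - 1 / π))) z :=
        (Real.hasDerivAt_sin z).sub ((hasDerivAt_id z).mul
          ((hasDerivAt_const z (1 : ℝ)).sub ((hasDerivAt_id z).div_const π)))
      rw [hd.deriv]
      have := Real.one_sub_mul_le_cos hz.1.le hz.2.le
      have e : 1 * (1 - z / π) + z * (0 - 1 / π) = 1 - 2 / π * z := by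
        field_simp; ring
      rw [e]; linarith
  have h := hmono (left_mem_Icc.2 (by positivity)) ⟨h0, h1⟩ h0
  simp only [Real.sin_zero, zero_mul, sub_zero] at h
  linarith

/-- MODULE Q2a. `sin (πx) ≥ πx(1-x)` on `[0,1]` (for `x ≤ 1/2` from `sin y ≥ y - y³/6`, and
symmetry `x ↦ 1-x`). -/
theorem sin_ge {x : ℝ} (h0 : 0 ≤ x) (h1 : x ≤ 1) : π * x * (1 - x) ≤ Real.sin (π * x) := by
  have hpi := Real.pi_pos
  rcases le_total x (1 / 2) with h | h
  · have := sin_ge_aux (y := π * x) (by positivity) (by nlinarith)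
    have e : π * x * (1 - π * x / π) = π * x * (1 - x) := by field_simp
    rw [e] at this; exact this
  · have := sin_ge_aux (y := π * (1 - x)) (mul_nonneg hpi.le (by linarith)) (by nlinarith)
    have e : π * (1 - x) * (1 - π * (1 - x) / π) = π * x * (1 - x) := by field_simp; ring
    rw [e] at this
    have e2 : Real.sin (π * (1 - x)) = Real.sin (π * x) := by
      rw [show π * (1 - x) = π - π * x by ring, Real.sin_pi_sub]
    rw [e2] at this; exact this

/-- MODULE Q2b. The trapezoidal profile. Let `m = min κ (1/u)`. For `σ` small let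
`H x = sg √q₁ tr x`, where `tr` is `1` on `[2σ, m - 2σ]`, `0` outside `[σ, m-σ]`, linear in
between (e.g. `tr x = max 0 (min 1 (min ((x-σ)/σ) ((m-σ-x)/σ)))`). On `[σ, m-σ]`,
`0 < πux < π`, so `sin(πux) > 0`, with a positive lower bound. As `σ → 0`, `q₁ → q` from below,
`q₂ → q` from above,
`∫ 2 |H sin|/t ((κ-t)/κ)^q₂ dt → 2 √q ∫_0^m sin(πut)/t (1-t/κ)^q dt
≥ 2 π √q ∫_0^m u (1-ut) (1-t/κ)^q dt > π g` by `sin_ge`. -/
theorem const_profile {sg u κ q g : ℝ} (hsg : sg = 1 ∨ sg = -1) (hu : 0 < u) (hκ : 0 < κ)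
    (hq : 0 < q) (hg0 : 0 ≤ g)
    (hg : g < 2 * Real.sqrt q *
      ∫ y in (0 : ℝ)..(min κ (1 / u)), u * (1 - u * y) * (1 - y / κ) ^ q) :
    ∃ (δ q₁ q₂ : ℝ) (H : ℝ → ℝ), 0 < δ ∧ 0 ≤ q₁ ∧ q₁ < q₂ ∧ Prof sg u κ δ H ∧
      (∀ x, |H x| ≤ Real.sqrt q₁) ∧
      π * g < ∫ t in (0 : ℝ)..κ, 2 * |H t * Real.sin (π * u * t)| / t * ((κ - t) / κ) ^ q₂ := by
  set m : ℝ := min κ (1 / u) with hm
  set J : ℝ := ∫ y in (0 : ℝ)..m, u * (1 - u * y) * (1 - y / κ) ^ q with hJ
  have hpi := Real.pi_pos
  have hm0 : 0 < m := lt_min hκ (by positivity)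
  have hmκ : m ≤ κ := min_le_left _ _
  have hmu : m ≤ 1 / u := min_le_right _ _
  have hum : u * m ≤ 1 := by
    have := mul_le_mul_of_nonneg_left hmu hu.le
    rwa [mul_one_div_cancel hu.ne'] at this
  have hsq : 0 < Real.sqrt q := Real.sqrt_pos.2 hq
  -- the small parameter
  have hcont : ContinuousAt (fun e : ℝ => 2 * Real.sqrt q * (1 - e) * (J - 4 * e * u)) 0 := by
    fun_prop
  have hev : ∀ᶠ e : ℝ in 𝓝[>] (0 : ℝ), g < 2 * Real.sqrt q * (1 - e) * (J - 4 * e * u) ∧
      e < 1 / 2 ∧ 8 * e < m := by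
    refine (((hcont.tendsto.eventually_const_lt (u := g) ?_).filter_mono
      nhdsWithin_le_nhds).and ?_)
    · simpa using hg
    · have h1 : ∀ᶠ e : ℝ in 𝓝[>] (0 : ℝ), e < 1 / 2 :=
        (eventually_lt_nhds (by norm_num)).filter_mono nhdsWithin_le_nhds
      have h2 : ∀ᶠ e : ℝ in 𝓝[>] (0 : ℝ), e < m / 8 :=
        (eventually_lt_nhds (by positivity)).filter_mono nhdsWithin_le_nhds
      filter_upwards [h1, h2] with e h1 h2
      exact ⟨h1, by linarith⟩
  obtain ⟨σ, ⟨hg1, hσ1, hσm⟩, hσ0⟩ := (hev.and self_mem_nhdsWithin).exists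
  have hσ : 0 < σ := hσ0
  -- the trapezoid
  set tr : ℝ → ℝ := fun x => max 0 (min 1 (min ((x - σ) / σ) ((m - σ - x) / σ))) with htr
  have htrc : Continuous tr := by
    rw [htr]
    fun_prop
  have htr0 : ∀ x, 0 ≤ tr x := fun x => le_max_left _ _
  have htr1 : ∀ x, tr x ≤ 1 := fun x => max_le (by norm_num) (min_le_left _ _)
  have htrs : ∀ x, tr x ≠ 0 → σ < x ∧ x < m - σ := by
    intro x hx
    have h1 : 0 < tr x := lt_of_le_of_ne (htr0 x) (Ne.symm hx)
    have h2 : 0 < min 1 (min ((x - σ) / σ) ((m - σ - x) / σ)) := by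
      by_contra h
      push Not at h
      have : tr x = 0 := max_eq_left h
      exact hx this
    have h3 := lt_min_iff.1 (lt_min_iff.1 h2).2
    have h4 := (div_pos_iff_of_pos_right hσ).1 h3.1
    have h5 := (div_pos_iff_of_pos_right hσ).1 h3.2
    exact ⟨by linarith, by linarith⟩
  have htrone : ∀ x, 2 * σ ≤ x → x ≤ m - 2 * σ → tr x = 1 := by
    intro x h1 h2
    have h3 : 1 ≤ (x - σ) / σ := by rw [le_div_iff₀ hσ]; linarith
    have h4 : 1 ≤ (m - σ - x) / σ := by rw [le_div_iff₀ hσ]; linarith
    show max 0 (min 1 (min ((x - σ) / σ) ((m - σ - x) / σ))) = 1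
    rw [min_eq_left (le_min h3 h4)]
    norm_num
  have hsin : ∀ x, σ ≤ x → x ≤ m - σ → π * (u * σ) * (u * σ) ≤ Real.sin (π * u * x) := by
    intro x h1 h2
    have hx : u * x ≤ 1 - u * σ := by
      have := mul_le_mul_of_nonneg_left h2 hu.le
      nlinarith only [hum, this]
    have hx0 : u * σ ≤ u * x := mul_le_mul_of_nonneg_left h1 hu.le
    have huσ : 0 < u * σ := by positivity
    have h3 := sin_ge (x := u * x) (by linarith) (by linarith)
    rw [show π * u * x = π * (u * x) by ring]
    refine le_trans ?_ h3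
    have : (u * σ) * (u * σ) ≤ (u * x) * (1 - u * x) := by
      apply mul_le_mul hx0 (by linarith) huσ.le (by linarith)
    nlinarith only [hpi, this]
  set A : ℝ := (1 - σ) * Real.sqrt q with hA
  have hA0 : 0 < A := mul_pos (by linarith) hsq
  have hAsq : Real.sqrt ((1 - σ) ^ 2 * q) = A := by
    rw [Real.sqrt_mul (by positivity), Real.sqrt_sq (by linarith)]
  have hsg2 : sg * sg = 1 := by rcases hsg with h | h <;> rw [h] <;> norm_num
  have hsga : |sg| = 1 := by rcases hsg with h | h <;> rw [h] <;> norm_num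
  set δ : ℝ := min σ (π * (u * σ) * (u * σ)) with hδ
  have hδ0 : 0 < δ := lt_min hσ (by positivity)
  refine ⟨δ, (1 - σ) ^ 2 * q, q, fun x => sg * A * tr x, hδ0, by positivity, ?_, ⟨?_, ?_, ?_⟩,
    ?_, ?_⟩
  · have : (1 - σ) ^ 2 < 1 := by nlinarith only [hσ0, hσ1]
    nlinarith only [hq, this]
  · exact continuous_const.mul htrc
  · intro x hx
    have hx' : tr x ≠ 0 := right_ne_zero_of_mul hx
    have h1 := htrs x hx'
    have h2 : δ ≤ σ := min_le_left _ _
    exact ⟨by linarith, by linarith⟩
  · intro x hx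
    have hx' : tr x ≠ 0 := right_ne_zero_of_mul hx
    have h1 := htrs x hx'
    have h2 := hsin x h1.1.le h1.2.le
    have h3 : 0 < π * (u * σ) * (u * σ) := by positivity
    have h4 : 0 < tr x := lt_of_le_of_ne (htr0 x) (Ne.symm hx')
    refine ⟨?_, ?_⟩
    · exact (min_le_right _ _).trans (h2.trans (le_abs_self _))
    · have : sg * (sg * A * tr x) * Real.sin (π * u * x) =
          (sg * sg) * (A * tr x * Real.sin (π * u * x)) := by ring
      rw [this, hsg2, one_mul]
      exact mul_pos (mul_pos hA0 h4) (lt_of_lt_of_le h3 h2)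
  · intro x
    rw [hAsq, abs_mul, abs_mul, hsga, one_mul, abs_of_pos hA0, abs_of_nonneg (htr0 x)]
    nlinarith only [htr1 x, htr0 x, hσ0, hσ1, hA0, htr1]
  · -- the integral
    set F : ℝ → ℝ := fun t => 2 * |sg * A * tr t * Real.sin (π * u * t)| / t *
      ((κ - t) / κ) ^ q with hF
    set P : ℝ → ℝ := fun y => u * (1 - u * y) * (1 - y / κ) ^ q with hP
    have hPc : Continuous P := by
      rw [hP]
      refine Continuous.mul (by fun_prop) (Continuous.rpow_const (by fun_prop) ?_)
      intro x; exact Or.inr hq.le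
    have hFc : Continuous F := by
      have : F = fun t => 2 * |sg * A * tr t * Real.sin (π * u * t)| / max t σ *
          ((κ - t) / κ) ^ q := by
        funext t
        by_cases ht : tr t = 0
        · simp only [hF, ht]; simp
        · have h1 := htrs t ht
          simp only [hF]
          rw [max_eq_left h1.1.le]
      rw [this]
      refine Continuous.mul (Continuous.div ?_ (by fun_prop) ?_)
        (Continuous.rpow_const (by fun_prop) ?_)
      · exact continuous_const.mul ((continuous_const.mul htrc).mul (by fun_prop)).abs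
      · intro x
        exact (lt_of_lt_of_le hσ (le_max_right _ _)).ne'
      · intro x; exact Or.inr hq.le
    have hPb : ∀ y, 0 ≤ y → y ≤ m → 0 ≤ P y ∧ P y ≤ u := by
      intro y h0 h1
      have h2 : u * y ≤ 1 := (mul_le_mul_of_nonneg_left h1 hu.le).trans hum
      have h2' : 0 ≤ u * y := by positivity
      have h3 : y / κ ≤ 1 := by rw [div_le_one hκ]; linarith
      have h4 : 0 ≤ y / κ := by positivity
      have h5 : 0 ≤ (1 - y / κ) ^ q := Real.rpow_nonneg (by linarith) q
      have h6 : (1 - y / κ) ^ q ≤ 1 := Real.rpow_le_one (by linarith) (by linarith) hq.le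
      have h7 : 0 ≤ u * (1 - u * y) := mul_nonneg hu.le (by linarith)
      refine ⟨mul_nonneg h7 h5, ?_⟩
      have : P y ≤ u * (1 - u * y) * 1 := mul_le_mul_of_nonneg_left h6 h7
      nlinarith only [this, hu, h2']
    have hJ1 : J - 4 * σ * u ≤ ∫ y in (2 * σ)..(m - 2 * σ), P y := by
      have e1 : J = (∫ y in (0 : ℝ)..(2 * σ), P y) + (∫ y in (2 * σ)..(m - 2 * σ), P y) +
          ∫ y in (m - 2 * σ)..m, P y := by
        rw [intervalIntegral.integral_add_adjacent_intervals (hPc.intervalIntegrable _ _)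
          (hPc.intervalIntegrable _ _), intervalIntegral.integral_add_adjacent_intervals
          (hPc.intervalIntegrable _ _) (hPc.intervalIntegrable _ _)]
      have e2 : (∫ y in (0 : ℝ)..(2 * σ), P y) ≤ 2 * σ * u := by
        have := intervalIntegral.integral_mono_on (μ := volume) (a := 0) (b := 2 * σ) (f := P)
          (g := fun _ => u) (by linarith) (hPc.intervalIntegrable _ _)
          (continuous_const.intervalIntegrable _ _) (fun x hx => (hPb x hx.1 (by linarith [hx.2])).2)
        rw [intervalIntegral.integral_const, smul_eq_mul] at this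
        linarith
      have e3 : (∫ y in (m - 2 * σ)..m, P y) ≤ 2 * σ * u := by
        have := intervalIntegral.integral_mono_on (μ := volume) (a := m - 2 * σ) (b := m)
          (f := P)
          (g := fun _ => u) (by linarith) (hPc.intervalIntegrable _ _)
          (continuous_const.intervalIntegrable _ _)
          (fun x hx => (hPb x (by linarith [hx.1]) hx.2).2)
        rw [intervalIntegral.integral_const, smul_eq_mul] at this
        linarith
      linarith
    have hF0 : ∀ t, 0 ≤ t → t ≤ κ → 0 ≤ F t := by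
      intro t h0 h1
      have : 0 ≤ (κ - t) / κ := div_nonneg (by linarith) hκ.le
      exact mul_nonneg (div_nonneg (by positivity) h0) (Real.rpow_nonneg this q)
    have hlow : ∫ t in (2 * σ)..(m - 2 * σ), (2 * A * π) * P t ≤ ∫ t in (0 : ℝ)..κ, F t := by
      calc ∫ t in (2 * σ)..(m - 2 * σ), (2 * A * π) * P t
          ≤ ∫ t in (2 * σ)..(m - 2 * σ), F t := by
            have hPc2 : Continuous fun t => (2 * A * π) * P t := continuous_const.mul hPc
            refine intervalIntegral.integral_mono_on (by linarith)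
              (hPc2.intervalIntegrable _ _) (hFc.intervalIntegrable _ _) ?_
            intro t ht
            have ht0 : 0 < t := by linarith [ht.1]
            have h1 := htrone t ht.1 ht.2
            have h2 : u * t ≤ 1 :=
              (mul_le_mul_of_nonneg_left (by linarith [ht.2] : t ≤ m) hu.le).trans hum
            have h3 := sin_ge (x := u * t) (by positivity) h2
            have h3' : 0 ≤ π * (u * t) * (1 - u * t) :=
              mul_nonneg (by positivity) (by linarith)
            have hz : 0 ≤ (κ - t) / κ := div_nonneg (by linarith [ht.2]) hκ.le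
            have h4 : 0 ≤ ((κ - t) / κ) ^ q := Real.rpow_nonneg hz q
            simp only [hP, hF]
            rw [h1, mul_one, abs_mul, abs_mul, hsga, one_mul, abs_of_pos hA0,
              show π * u * t = π * (u * t) by ring, abs_of_nonneg (h3'.trans h3),
              show 1 - t / κ = (κ - t) / κ by field_simp]
            have h5 : 2 * A * π * (u * (1 - u * t)) ≤
                2 * (A * Real.sin (π * (u * t))) / t := by
              rw [le_div_iff₀ ht0]
              nlinarith only [hσ0, hσ1, hA0, h3]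
            calc 2 * A * π * (u * (1 - u * t) * ((κ - t) / κ) ^ q)
                = 2 * A * π * (u * (1 - u * t)) * ((κ - t) / κ) ^ q := by ring
              _ ≤ _ := mul_le_mul_of_nonneg_right h5 h4
        _ ≤ ∫ t in (0 : ℝ)..κ, F t := by
            refine intervalIntegral.integral_mono_interval (by linarith) (by linarith)
              (by linarith) ?_ (hFc.intervalIntegrable _ _)
            rw [Filter.EventuallyLE, ae_restrict_iff' measurableSet_Ioc]
            exact Filter.Eventually.of_forall fun t ht => hF0 t ht.1.le ht.2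
    rw [intervalIntegral.integral_const_mul] at hlow
    have h1 : π * g < 2 * A * π * ∫ y in (2 * σ)..(m - 2 * σ), P y := by
      have h2 : 2 * A * π * (J - 4 * σ * u) ≤ 2 * A * π * ∫ y in (2 * σ)..(m - 2 * σ), P y :=
        mul_le_mul_of_nonneg_left hJ1 (by positivity)
      have h3 : π * g < π * (2 * Real.sqrt q * (1 - σ) * (J - 4 * σ * u)) :=
        mul_lt_mul_of_pos_left hg1 hpi
      have h4 : π * (2 * Real.sqrt q * (1 - σ) * (J - 4 * σ * u)) =
          2 * A * π * (J - 4 * σ * u) := by rw [hA]; ring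
      linarith
    exact lt_of_lt_of_le h1 hlow

end Pool.Agent.MP_67227b_nt.Al
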