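import Pool.Agent.MP_67227b_nt.Al.AlPa1
import Pool.Agent.MP_67227b_nt.Al.AlPa2
import Pool.Agent.MP_67227b_nt.Al.AlGain
import Pool.Agent.MP_67227b_nt.Al.AlLBa

set_option autoImplicit false

open Filter Topology Set MeasureTheory Complex
open scoped Real ArithmeticFunction ContDiff

namespace Pool.Agent.MP_67227b_nt.Al

open Pool.Agent.Lib.ZetaCount_helper33 Pool.Agent.MP_67227b_nt Pool.Agent.MP_67227b_nt.Mo
open Pool.Agent.MP_67227b_nt.Sg Pool.Agent.MP_67227b_nt.Pp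

/-- MODULE Q3. Constant weights: `gain_num` for `max g 0 < Gf (uθ₀)` (`Gf > 0`), `const_profile`,
`LB_bounded`, `main_ineq` with `Φ t = ((κ-t)/κ)^q₂` (continuous, between `0` and `1` on `[0, κ]`). -/
theorem gain_const {sg u θ₀ g : ℝ} (hsg : sg = 1 ∨ sg = -1) (hu : 0 < u) (hθ₀ : 0 < θ₀)
    (hθ₀1 : θ₀ ≤ 1) (hg : g < Gf (u * θ₀)) : ∃ κ : ℝ, 0 < κ ∧ κ < θ₀ ∧ Gain sg u κ g := by
  have hs : 0 < u * θ₀ := mul_pos hu hθ₀
  have hGf : 0 < Gf (u * θ₀) := by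
    unfold Gf
    exact lt_min (div_pos hs (Real.sqrt_pos.mpr (by linarith))) (Real.sqrt_pos.mpr (by linarith))
  obtain ⟨κ, q, hκ, hκθ, hq, hgq⟩ := gain_num hu hθ₀ (g := max g 0) (max_lt hg hGf)
  obtain ⟨δ, q₁, q₂, H, hδ, hq₁, hq₁₂, hP, hHb, hI⟩ :=
    const_profile hsg hu hκ hq (le_max_right g 0) hgq
  have hq₂ : 0 ≤ q₂ := by linarith
  have hg1 : π * g ≤ π * max g 0 := mul_le_mul_of_nonneg_left (le_max_left _ _) Real.pi_pos.le
  have hg0 : 0 ≤ π * max g 0 := mul_nonneg Real.pi_pos.le (le_max_right _ _)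
  refine ⟨κ, hκ, hκθ, main_ineq hsg hu hκ (by linarith) hδ hP (Φ := fun t => ((κ - t) / κ) ^ q₂)
    ?_ ?_ (LB_bounded hκ hδ hq₁ hq₁₂ hHb hP.supp) (lt_of_le_of_lt hg1 hI)
    (lt_of_le_of_lt hg0 hI)⟩
  · refine ContinuousOn.rpow_const (by fun_prop) fun x _ => Or.inr hq₂
  · intro t ht
    have h1 : 0 ≤ (κ - t) / κ := div_nonneg (by linarith [ht.2]) hκ.le
    have h2 : (κ - t) / κ ≤ 1 := by
      rw [div_le_one hκ]
      linarith [ht.1]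
    exact ⟨Real.rpow_nonneg h1 _, Real.rpow_le_one h1 h2 hq₂⟩

end Pool.Agent.MP_67227b_nt.Al
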