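import Pool.Agent.MP_67227b_nt.Al.AlDefs

set_option autoImplicit false

open Filter Topology Set MeasureTheory Complex
open scoped Real ArithmeticFunction ContDiff

namespace Pool.Agent.MP_67227b_nt.Al

open Pool.Agent.Lib.ZetaCount_helper33 Pool.Agent.MP_67227b_nt Pool.Agent.MP_67227b_nt.Mo
open Pool.Agent.MP_67227b_nt.Sg Pool.Agent.MP_67227b_nt.Pp

/-- Subdivision: an increment bound with a quadratic error is an increment bound. -/
private theorem F5_sub {f : ℝ → ℝ} {K Q y : ℝ} (hQ : 0 ≤ Q) (hy0 : 0 ≤ y) (hy1 : y ≤ 1)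
    (hf : ∀ s t : ℝ, 0 ≤ s → s ≤ t → t ≤ y → |f t - f s| ≤ K * (t - s) + Q * (t - s) ^ 2) :
    |f y - f 0| ≤ K * y + 1 := by
  obtain ⟨n, hn⟩ := exists_nat_ge (max Q 1)
  have hn1 : (1 : ℝ) ≤ n := (le_max_right _ _).trans hn
  have hnQ : Q ≤ n := (le_max_left _ _).trans hn
  have hn0 : (0 : ℝ) < n := by linarith
  have hstep : ∀ i : ℕ, i ≤ n → |f ((i : ℝ) * (y / n)) - f 0| ≤
      i * (K * (y / n) + Q * (y / n) ^ 2) := by
    intro i
    induction i with
    | zero => intro _; simp
    | succ i ih =>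
      intro hi
      have h1 := ih (by omega)
      have hyn : 0 ≤ y / n := div_nonneg hy0 hn0.le
      have hi' : (i : ℝ) + 1 ≤ n := by exact_mod_cast hi
      have h2 := hf ((i : ℝ) * (y / n)) (((i + 1 : ℕ) : ℝ) * (y / n)) (by positivity)
        (by push_cast; nlinarith)
        (by
          push_cast
          calc ((i : ℝ) + 1) * (y / n) ≤ n * (y / n) := mul_le_mul_of_nonneg_right hi' hyn
            _ = y := by field_simp)
      have e1 : ((i + 1 : ℕ) : ℝ) * (y / n) - (i : ℝ) * (y / n) = y / n := by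
        push_cast; ring
      rw [e1] at h2
      have h3 := abs_add_le (f (((i + 1 : ℕ) : ℝ) * (y / n)) - f ((i : ℝ) * (y / n)))
        (f ((i : ℝ) * (y / n)) - f 0)
      rw [sub_add_sub_cancel] at h3
      have e2 : (((i + 1 : ℕ) : ℝ)) * (K * (y / n) + Q * (y / n) ^ 2) =
          (K * (y / n) + Q * (y / n) ^ 2) + i * (K * (y / n) + Q * (y / n) ^ 2) := by
        push_cast; ring
      rw [e2]
      linarith
  have h1 := hstep n le_rfl
  have e1 : (n : ℝ) * (y / n) = y := by field_simp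
  rw [e1] at h1
  have e2 : (n : ℝ) * (K * (y / n) + Q * (y / n) ^ 2) = K * y + Q * y ^ 2 / n := by
    field_simp
  rw [e2] at h1
  have h2 : Q * y ^ 2 / n ≤ 1 := by
    rw [div_le_one hn0]
    have : y ^ 2 ≤ 1 := by nlinarith
    nlinarith
  linarith

/-- The function `g t / t` is Lipschitz. -/
private theorem F5_lip {g : ℝ → ℝ} {δ B : ℝ} (hδ : 0 < δ) (hg0 : ∀ x, x ≤ δ → g x = 0)
    (hgl : ∀ x y, |g x - g y| ≤ B * |x - y|) (s t : ℝ) (hst : s ≤ t) :
    |g t / t - g s / s| ≤ (2 * B / δ) * (t - s) := by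
  have hB : 0 ≤ B := by
    have := hgl 1 0
    have h2 := (abs_nonneg _).trans this
    simpa using h2
  rcases le_or_gt t δ with ht | ht
  · rw [hg0 t ht, hg0 s (hst.trans ht)]
    simp only [zero_div, sub_zero, abs_zero]
    have : 0 ≤ t - s := by linarith
    positivity
  · have ht0 : 0 < t := hδ.trans ht
    have hgt : |g t| ≤ B * (t - δ) := by
      have := hgl t δ
      rwa [hg0 δ le_rfl, sub_zero, abs_of_nonneg (show 0 ≤ t - δ by linarith)] at this
    rcases le_or_gt s δ with hs | hs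
    · rw [hg0 s hs, zero_div, sub_zero, abs_div, abs_of_pos ht0, div_le_iff₀ ht0]
      have h1 : B * (t - δ) ≤ B * (t - s) := mul_le_mul_of_nonneg_left (by linarith) hB
      have h2 : B * (t - s) ≤ (2 * B / δ) * (t - s) * t := by
        have h3 : 1 ≤ t / δ := by rw [le_div_iff₀ hδ]; linarith
        have h4 : (2 * B / δ) * (t - s) * t = (2 * (t / δ)) * (B * (t - s)) := by
          field_simp
        rw [h4]
        have h5 : 0 ≤ B * (t - s) := mul_nonneg hB (by linarith)
        nlinarith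
      linarith
    · have hs0 : 0 < s := hδ.trans hs
      have e1 : g t / t - g s / s = (g t - g s) / s - g t * (t - s) / (s * t) := by
        field_simp
        ring
      rw [e1]
      have h1 : |(g t - g s) / s| ≤ B / δ * (t - s) := by
        rw [abs_div, abs_of_pos hs0, div_le_iff₀ hs0]
        have := hgl t s
        rw [abs_of_nonneg (show 0 ≤ t - s by linarith)] at this
        refine this.trans ?_
        have h3 : 1 ≤ s / δ := by rw [le_div_iff₀ hδ]; linarith
        have h4 : B / δ * (t - s) * s = (s / δ) * (B * (t - s)) := by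
          field_simp
        rw [h4]
        have h5 : 0 ≤ B * (t - s) := mul_nonneg hB (by linarith)
        nlinarith
      have h2 : |g t * (t - s) / (s * t)| ≤ B / δ * (t - s) := by
        rw [abs_div, abs_mul, abs_of_nonneg (show 0 ≤ t - s by linarith),
          abs_of_pos (mul_pos hs0 ht0), div_le_iff₀ (mul_pos hs0 ht0)]
        have h6 : |g t| ≤ B * t := hgt.trans (mul_le_mul_of_nonneg_left (by linarith) hB)
        have h7 : |g t| * (t - s) ≤ B * t * (t - s) :=
          mul_le_mul_of_nonneg_right h6 (by linarith)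
        refine h7.trans ?_
        have h3 : 1 ≤ s / δ := by rw [le_div_iff₀ hδ]; linarith
        have h4 : B / δ * (t - s) * (s * t) = (s / δ) * (B * t * (t - s)) := by
          field_simp
        rw [h4]
        have h5 : 0 ≤ B * t * (t - s) := by
          have : 0 ≤ t - s := by linarith
          positivity
        nlinarith
      have h3 := abs_sub (( g t - g s) / s) (g t * (t - s) / (s * t))
      have e2 : 2 * B / δ * (t - s) = B / δ * (t - s) + B / δ * (t - s) := by ring
      rw [e2]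
      linarith

/-- Partial summation for a Lipschitz function against a measure of density `L` up to `O(1)`. -/
private theorem F5_core {G : ℝ → ℝ} {D C L y : ℝ} {S M : ℝ → ℝ} (hD : 0 ≤ D) (hL : 0 < L)
    (hG : ∀ s t : ℝ, s ≤ t → |G t - G s| ≤ D * (t - s)) (hG0 : G 0 = 0)
    (hy0 : 0 ≤ y) (hy1 : y ≤ 1) (hGc : Continuous G)
    (hM : ∀ s t : ℝ, 0 ≤ s → s ≤ t → |M t - M s - L * (t - s)| ≤ C)
    (hS : ∀ s t : ℝ, 0 ≤ s → s ≤ t →
      |S t - S s - G t * (M t - M s)| ≤ D * (t - s) * (M t - M s)) :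
    |S y - S 0 - L * ∫ t in (0 : ℝ)..y, G t| ≤ 4 * D * C + 1 := by
  have hC : 0 ≤ C := (abs_nonneg _).trans (hM 0 0 le_rfl le_rfl)
  set E : ℝ → ℝ := fun t => M t - M 0 - L * t with hE
  set R : ℝ → ℝ := fun t => S t - L * (∫ u in (0 : ℝ)..t, G u) - G t * E t with hR
  have hEb : ∀ t, 0 ≤ t → |E t| ≤ C := by
    intro t ht
    have := hM 0 t le_rfl ht
    rwa [sub_zero] at this
  have hint : ∀ s t : ℝ, IntervalIntegrable G volume s t := fun s t =>
    hGc.intervalIntegrable _ _
  have hinc : ∀ s t : ℝ, 0 ≤ s → s ≤ t → t ≤ y →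
      |R t - R s| ≤ (3 * D * C) * (t - s) + (2 * D * L) * (t - s) ^ 2 := by
    intro s t hs hst _
    have hts : 0 ≤ t - s := by linarith
    have hI : (∫ u in (0 : ℝ)..t, G u) - (∫ u in (0 : ℝ)..s, G u) = ∫ u in s..t, G u :=
      intervalIntegral.integral_interval_sub_left (hint _ _) (hint _ _)
    have hI2 : |(∫ u in s..t, G u) - G t * (t - s)| ≤ D * (t - s) * (t - s) := by
      have e1 : (∫ u in s..t, G u) - G t * (t - s) = ∫ u in s..t, (G u - G t) := by
        rw [intervalIntegral.integral_sub (hint _ _) intervalIntegrable_const,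
          intervalIntegral.integral_const, smul_eq_mul, mul_comm (t - s)]
      rw [e1, ← Real.norm_eq_abs]
      have h1 : ∀ u ∈ Set.uIoc s t, ‖G u - G t‖ ≤ D * (t - s) := by
        intro u hu
        rw [Set.uIoc_of_le hst] at hu
        rw [Real.norm_eq_abs, abs_sub_comm]
        exact (hG u t hu.2).trans (mul_le_mul_of_nonneg_left (by linarith [hu.1]) hD)
      have h2 := intervalIntegral.norm_integral_le_of_norm_le_const h1
      rwa [abs_of_nonneg hts] at h2
    have hMs : M t - M s ≤ L * (t - s) + C := by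
      have := (abs_le.1 (hM s t hs hst)).2
      linarith
    have h3 : |S t - S s - G t * (M t - M s)| ≤ D * (t - s) * (L * (t - s) + C) :=
      (hS s t hs hst).trans (mul_le_mul_of_nonneg_left hMs (mul_nonneg hD hts))
    have h4 : |(G t - G s) * E s| ≤ D * (t - s) * C := by
      rw [abs_mul]
      exact mul_le_mul (hG s t hst) (hEb s hs) (abs_nonneg _) (mul_nonneg hD hts)
    have e2 : R t - R s = (S t - S s - G t * (M t - M s)) -
        L * ((∫ u in s..t, G u) - G t * (t - s)) - (G t - G s) * E s := by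
      rw [← hI]
      simp only [hR, hE]
      ring
    have h5 : |L * ((∫ u in s..t, G u) - G t * (t - s))| ≤ L * (D * (t - s) * (t - s)) := by
      rw [abs_mul, abs_of_pos hL]
      exact mul_le_mul_of_nonneg_left hI2 hL.le
    rw [e2]
    have h6 := abs_sub ((S t - S s - G t * (M t - M s)) -
        L * ((∫ u in s..t, G u) - G t * (t - s))) ((G t - G s) * E s)
    have h7 := abs_sub (S t - S s - G t * (M t - M s))
        (L * ((∫ u in s..t, G u) - G t * (t - s)))
    have h8 : 0 ≤ D * C * (t - s) := mul_nonneg (mul_nonneg hD hC) hts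
    nlinarith
  have hfin := F5_sub (K := 3 * D * C) (Q := 2 * D * L) (by positivity) hy0 hy1 hinc
  have hR0 : R 0 = S 0 := by
    simp only [hR, intervalIntegral.integral_same, hG0]
    ring
  have hGy : |G y| ≤ D * y := by
    have := hG 0 y hy0
    rwa [hG0, sub_zero, sub_zero] at this
  have h1 : |G y * E y| ≤ D * C := by
    rw [abs_mul]
    calc |G y| * |E y| ≤ (D * y) * C := mul_le_mul hGy (hEb y hy0) (abs_nonneg _)
          (mul_nonneg hD hy0)
      _ ≤ (D * 1) * C := by gcongr
      _ = D * C := by ring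
  have h2 : S y - S 0 - L * ∫ t in (0 : ℝ)..y, G t = (R y - R 0) + G y * E y := by
    rw [hR0]
    simp only [hR]
    ring
  rw [h2]
  have h3 := abs_add_le (R y - R 0) (G y * E y)
  have h4 : 3 * D * C * y ≤ 3 * D * C := mul_le_of_le_one_right (by positivity) hy1
  linarith

/-- MODULE F5a. Prime sums against a Lipschitz function. Let `G x = g x / x` (Lipschitz on `(0,1]`,
since `g = 0` on `(-∞, δ]`; also bounded). Partial summation with `Pp.sum_prime_div`:
`∑_{p ≤ T^y} g(x_p)/p = (1/L) ∑ (log p/p) G(x_p)`; with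
`M(t) = ∑_{T^δ < p ≤ T^t} log p/p = L (t - δ) + O(1)`, approximate `G` by a step function with steps
of length `1/L` (Lipschitz: the error is `O(1/L)` in each of the `L` steps, weights
`log p/(p L) = O(1/L)` on average) and sum by parts; the total variation of `G` is bounded.
(Another way: write `G(x_p) = G(y) - ∫_{x_p}^y G'` if `g` is only Lipschitz: absolutely
continuous; or a Riemann sum as above.) -/
theorem prime_sum {g : ℝ → ℝ} {δ B : ℝ} (hδ : 0 < δ) (hg0 : ∀ x, x ≤ δ → g x = 0)
    (hgl : ∀ x y, |g x - g y| ≤ B * |x - y|) : ∃ C : ℝ, 0 < C ∧ ∀ᶠ T : ℝ in atTop,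
      ∀ y : ℝ, 0 ≤ y → y ≤ 1 →
        |(∑ p ∈ (Finset.Icc 1 ⌊T ^ y⌋₊).filter Nat.Prime, g (Real.log p / Real.log T) / p) -
          ∫ t in (0 : ℝ)..y, g t / t| ≤ C / Real.log T := by
  obtain ⟨C, hC, hM⟩ := sum_prime_div
  have hB : 0 ≤ B := by
    have h2 := (abs_nonneg _).trans (hgl 1 0)
    simpa using h2
  set D : ℝ := 2 * B / δ with hD
  have hD0 : 0 ≤ D := by positivity
  refine ⟨4 * D * C + 1, by positivity, ?_⟩
  filter_upwards [eventually_gt_atTop (1 : ℝ)] with T hT y hy0 hy1
  set L : ℝ := Real.log T with hLdef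
  have hL : 0 < L := Real.log_pos hT
  have hT0 : 0 < T := by linarith
  have hT1 : ∀ s : ℝ, 0 ≤ s → 1 ≤ T ^ s := fun s hs => Real.one_le_rpow hT.le hs
  set G : ℝ → ℝ := fun t => g t / t with hGdef
  have hG : ∀ s t : ℝ, s ≤ t → |G t - G s| ≤ D * (t - s) := fun s t hst =>
    F5_lip hδ hg0 hgl s t hst
  have hGc : Continuous G := by
    have hl : LipschitzWith D.toNNReal G := by
      refine LipschitzWith.of_dist_le_mul (fun s t => ?_)
      rw [Real.coe_toNNReal D hD0, Real.dist_eq, Real.dist_eq]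
      rcases le_total s t with h | h
      · rw [abs_sub_comm, abs_sub_comm s t, abs_of_nonneg (show 0 ≤ t - s by linarith)]
        exact hG s t h
      · rw [abs_of_nonneg (show 0 ≤ s - t by linarith)]
        exact hG t s h
    exact hl.continuous
  set M : ℝ → ℝ := fun t => ∑ p ∈ (Finset.Icc 1 ⌊T ^ t⌋₊).filter Nat.Prime,
    Real.log p / p with hMdef
  set S : ℝ → ℝ := fun t => ∑ p ∈ (Finset.Icc 1 ⌊T ^ t⌋₊).filter Nat.Prime,
    Real.log p / p * G (Real.log p / L) with hSdef
  have hsplit : ∀ (f : ℕ → ℝ) (s t : ℝ), 0 ≤ s → s ≤ t →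
      (∑ p ∈ (Finset.Icc 1 ⌊T ^ t⌋₊).filter Nat.Prime, f p) -
        (∑ p ∈ (Finset.Icc 1 ⌊T ^ s⌋₊).filter Nat.Prime, f p) =
      ∑ p ∈ (Finset.Ioc ⌊T ^ s⌋₊ ⌊T ^ t⌋₊).filter Nat.Prime, f p := by
    intro f s t hs hst
    have h1 : ⌊T ^ s⌋₊ ≤ ⌊T ^ t⌋₊ :=
      Nat.floor_mono (Real.rpow_le_rpow_of_exponent_le hT.le hst)
    have h0 : 1 ≤ ⌊T ^ s⌋₊ := Nat.le_floor (by simpa using hT1 s hs)
    have h2 : (Finset.Icc 1 ⌊T ^ t⌋₊).filter Nat.Prime =
        (Finset.Icc 1 ⌊T ^ s⌋₊).filter Nat.Prime ∪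
          (Finset.Ioc ⌊T ^ s⌋₊ ⌊T ^ t⌋₊).filter Nat.Prime := by
      rw [← Finset.filter_union]
      congr 1
      ext z
      simp only [Finset.mem_Icc, Finset.mem_union, Finset.mem_Ioc]
      omega
    rw [h2, Finset.sum_union, add_sub_cancel_left]
    rw [Finset.disjoint_left]
    intro z
    simp only [Finset.mem_filter, Finset.mem_Icc, Finset.mem_Ioc]
    omega
  have hM' : ∀ s t : ℝ, 0 ≤ s → s ≤ t → |M t - M s - L * (t - s)| ≤ C := by
    intro s t hs hst
    have h1 := hM (T ^ s) (T ^ t) (hT1 s hs) (Real.rpow_le_rpow_of_exponent_le hT.le hst)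
    rw [Real.log_rpow hT0, Real.log_rpow hT0, ← hsplit (fun p => Real.log p / p) s t hs hst] at h1
    have e1 : L * (t - s) = t * Real.log T - s * Real.log T := by rw [hLdef]; ring
    rw [e1]
    exact h1
  have hS' : ∀ s t : ℝ, 0 ≤ s → s ≤ t →
      |S t - S s - G t * (M t - M s)| ≤ D * (t - s) * (M t - M s) := by
    intro s t hs hst
    have e1 : S t - S s = ∑ p ∈ (Finset.Ioc ⌊T ^ s⌋₊ ⌊T ^ t⌋₊).filter Nat.Prime,
        Real.log p / p * G (Real.log p / L) :=
      hsplit (fun p => Real.log p / p * G (Real.log p / L)) s t hs hst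
    have e2 : M t - M s = ∑ p ∈ (Finset.Ioc ⌊T ^ s⌋₊ ⌊T ^ t⌋₊).filter Nat.Prime,
        Real.log p / p := hsplit (fun p => Real.log p / p) s t hs hst
    rw [e1, e2, Finset.mul_sum, Finset.mul_sum, ← Finset.sum_sub_distrib]
    refine (Finset.abs_sum_le_sum_abs _ _).trans (Finset.sum_le_sum (fun p hp => ?_))
    obtain ⟨hp1, hp2⟩ := Finset.mem_filter.1 hp
    obtain ⟨hp3, hp4⟩ := Finset.mem_Ioc.1 hp1
    have hp0 : (0 : ℝ) < p := by exact_mod_cast hp2.pos
    have hlog : 0 ≤ Real.log p / p := div_nonneg (Real.log_natCast_nonneg p) hp0.le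
    have hx1 : Real.log p / L ≤ t := by
      rw [div_le_iff₀ hL, hLdef, ← Real.log_rpow hT0]
      apply Real.log_le_log hp0
      exact (Nat.le_floor_iff (Real.rpow_nonneg hT0.le t)).1 hp4
    have hx2 : s ≤ Real.log p / L := by
      rw [le_div_iff₀ hL, hLdef, ← Real.log_rpow hT0]
      apply Real.log_le_log (Real.rpow_pos_of_pos hT0 s)
      exact ((Nat.floor_lt (Real.rpow_nonneg hT0.le s)).1 hp3).le
    have e3 : Real.log p / p * G (Real.log p / L) - G t * (Real.log p / p) =
        (Real.log p / p) * (G (Real.log p / L) - G t) := by ring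
    rw [e3, abs_mul, abs_of_nonneg hlog, abs_sub_comm, mul_comm]
    exact mul_le_mul_of_nonneg_right ((hG _ _ hx1).trans
      (mul_le_mul_of_nonneg_left (by linarith) hD0)) hlog
  have hcore := F5_core (S := S) (M := M) hD0 hL hG (by simp [hGdef]) hy0 hy1 hGc hM' hS'
  have hS0 : S 0 = 0 := by
    simp only [hSdef, Real.rpow_zero, Nat.floor_one]
    rw [Finset.filter_eq_empty_iff.2]
    · simp
    · intro p hp
      rw [Finset.mem_Icc] at hp
      have : p = 1 := by omega
      rw [this]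
      exact Nat.not_prime_one
  have hSy : S y = L * ∑ p ∈ (Finset.Icc 1 ⌊T ^ y⌋₊).filter Nat.Prime,
      g (Real.log p / L) / p := by
    simp only [hSdef, hGdef]
    rw [Finset.mul_sum]
    refine Finset.sum_congr rfl (fun p hp => ?_)
    have hpp := (Finset.mem_filter.1 hp).2
    have hp0 : (0 : ℝ) < p := by exact_mod_cast hpp.pos
    have hlp : 0 < Real.log p := Real.log_pos (by exact_mod_cast hpp.one_lt)
    field_simp
  rw [hS0, sub_zero, hSy, ← mul_sub, abs_mul, abs_of_pos hL] at hcore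
  rw [le_div_iff₀ hL, mul_comm]
  exact hcore

end Pool.Agent.MP_67227b_nt.Al
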