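import Pool.Agent.MP_67227b_nt.Al.AlCheb
import Pool.Agent.MP_67227b_nt.Al.AlPr

set_option autoImplicit false

open Filter Topology Set MeasureTheory Complex
open scoped Real ArithmeticFunction ContDiff

namespace Pool.Agent.MP_67227b_nt.Al

open Pool.Agent.Lib.ZetaCount_helper33 Pool.Agent.MP_67227b_nt Pool.Agent.MP_67227b_nt.Mo
open Pool.Agent.MP_67227b_nt.Sg Pool.Agent.MP_67227b_nt.Pp

/-- products of bounded Lipschitz functions -/
private lemma lbb_mul {f g : ℝ → ℝ} {M₁ M₂ B₁ B₂ : ℝ} (hf : ∀ x, |f x| ≤ M₁) (hg : ∀ x, |g x| ≤ M₂)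
    (lf : ∀ x y, |f x - f y| ≤ B₁ * |x - y|) (lg : ∀ x y, |g x - g y| ≤ B₂ * |x - y|) :
    ∀ x y, |f x * g x - f y * g y| ≤ (M₁ * B₂ + B₁ * M₂) * |x - y| := by
  intro x y
  have e : f x * g x - f y * g y = f x * (g x - g y) + (f x - f y) * g y := by ring
  rw [e]
  refine (abs_add_le _ _).trans ?_
  rw [abs_mul, abs_mul]
  have h1 : |f x| * |g x - g y| ≤ M₁ * (B₂ * |x - y|) :=
    mul_le_mul (hf x) (lg x y) (abs_nonneg _) ((abs_nonneg _).trans (hf x))
  have h2 : |f x - f y| * |g y| ≤ (B₁ * |x - y|) * M₂ :=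
    mul_le_mul (lf x y) (hg y) (abs_nonneg _) ((abs_nonneg _).trans (lf x y))
  calc |f x| * |g x - g y| + |f x - f y| * |g y|
      ≤ M₁ * (B₂ * |x - y|) + (B₁ * |x - y|) * M₂ := add_le_add h1 h2
    _ = (M₁ * B₂ + B₁ * M₂) * |x - y| := by ring

/-- the cut off identity -/
private noncomputable def lbb_m (R : ℝ) (t : ℝ) : ℝ := max 0 (min t |R|)

private lemma lbb_m_bd (R t : ℝ) : |lbb_m R t| ≤ |R| := by
  unfold lbb_m
  rw [abs_of_nonneg (le_max_left _ _)]
  exact max_le (abs_nonneg _) (min_le_right _ _)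

private lemma lbb_m_lip (R : ℝ) : ∀ x y, |lbb_m R x - lbb_m R y| ≤ 1 * |x - y| := by
  intro x y
  rw [one_mul]
  unfold lbb_m
  rw [max_comm 0 (min x |R|), max_comm 0 (min y |R|)]
  refine (abs_max_sub_max_le_abs _ _ _).trans ?_
  generalize |R| = r
  rcases le_total x r with hx | hx <;> rcases le_total y r with hy | hy
  · rw [min_eq_left hx, min_eq_left hy]
  · rw [min_eq_left hx, min_eq_right hy, abs_of_nonpos (by linarith), abs_of_nonpos (by linarith)]
    linarith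
  · rw [min_eq_right hx, min_eq_left hy, abs_of_nonneg (by linarith), abs_of_nonneg (by linarith)]
    linarith
  · rw [min_eq_right hx, min_eq_right hy, sub_self, abs_zero]
    exact abs_nonneg _

/-- a sum over the primes with a polynomial weight is smaller than the integral bound -/
private lemma lbb_sum {κ δ' R M B J : ℝ} {h : ℝ → ℝ} (hκ : 0 < κ) (hκ1 : κ ≤ 1) (hδ' : 0 < δ')
    (hh : ∀ x, |h x| ≤ M) (hl : ∀ x y, |h x - h y| ≤ B * |x - y|)
    (hsupp : ∀ x, h x ≠ 0 → δ' < x ∧ x ≤ R) (j : ℕ)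
    (hJ : ∫ t in (0 : ℝ)..κ, t ^ j * h t ^ 2 < J) :
    ∀ᶠ T : ℝ in atTop,
      ∑ p ∈ (Finset.Icc 1 ⌊T ^ κ⌋₊).filter Nat.Prime,
        Real.log p ^ (j + 1) * (h (Real.log p / Real.log T) ^ 2 / p) ≤ J * Real.log T ^ (j + 1) := by
  set g : ℝ → ℝ := fun t => t ^ (j + 1) * h t ^ 2 with hg
  -- the function `g` is Lipschitz
  have hpow : ∀ i : ℕ, ∃ M₁ B₁ : ℝ, (∀ x, |lbb_m R x ^ i * h x ^ 2| ≤ M₁) ∧
      ∀ x y, |lbb_m R x ^ i * h x ^ 2 - lbb_m R y ^ i * h y ^ 2| ≤ B₁ * |x - y| := by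
    intro i
    induction i with
    | zero =>
      refine ⟨M * M, M * B + B * M, fun x => ?_, fun x y => ?_⟩
      · rw [pow_zero, one_mul, sq, abs_mul]
        exact mul_le_mul (hh x) (hh x) (abs_nonneg _) ((abs_nonneg _).trans (hh x))
      · have := lbb_mul hh hh hl hl x y
        simpa [sq] using this
    | succ i ih =>
      obtain ⟨M₁, B₁, h1, h2⟩ := ih
      refine ⟨|R| * M₁, |R| * B₁ + 1 * M₁, fun x => ?_, fun x y => ?_⟩
      · have e : lbb_m R x ^ (i + 1) * h x ^ 2 = lbb_m R x * (lbb_m R x ^ i * h x ^ 2) := by ring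
        rw [e, abs_mul]
        exact mul_le_mul (lbb_m_bd R x) (h1 x) (abs_nonneg _) (abs_nonneg _)
      · have := lbb_mul (lbb_m_bd R) h1 (lbb_m_lip R) h2 x y
        have e : ∀ x, lbb_m R x ^ (i + 1) * h x ^ 2 = lbb_m R x * (lbb_m R x ^ i * h x ^ 2) :=
          fun x => by ring
        rw [e, e]
        exact this
  have hgm : ∀ x, g x = lbb_m R x ^ (j + 1) * h x ^ 2 := by
    intro x
    by_cases hx : h x = 0
    · simp [hg, hx]
    · obtain ⟨h1, h2⟩ := hsupp x hx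
      have h3 : lbb_m R x = x := by
        unfold lbb_m
        rw [min_eq_left (h2.trans (le_abs_self R)), max_eq_right (by linarith)]
      simp only [hg, h3]
  obtain ⟨M₁, B₁, -, hlip⟩ := hpow (j + 1)
  have hg0 : ∀ x, x ≤ δ' → g x = 0 := by
    intro x hx
    have : h x = 0 := by
      by_contra hne
      exact absurd (hsupp x hne).1 (not_lt.2 hx)
    simp [hg, this]
  obtain ⟨C, hC, hps⟩ := prime_sum hδ' hg0 (B := B₁) (by
    intro x y
    rw [hgm, hgm]
    exact hlip x y)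
  have hint : ∫ t in (0 : ℝ)..κ, g t / t = ∫ t in (0 : ℝ)..κ, t ^ j * h t ^ 2 := by
    apply intervalIntegral.integral_congr_ae
    refine Filter.Eventually.of_forall fun t ht => ?_
    rw [uIoc_of_le hκ.le] at ht
    have : t ≠ 0 := ht.1.ne'
    simp only [hg]
    field_simp
    ring
  have hgap : 0 < J - ∫ t in (0 : ℝ)..κ, t ^ j * h t ^ 2 := by linarith
  have hlog : Tendsto Real.log atTop atTop := Real.tendsto_log_atTop
  filter_upwards [hps, hlog.eventually_ge_atTop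
    (max 1 (C / (J - ∫ t in (0 : ℝ)..κ, t ^ j * h t ^ 2)))] with T hT hL
  have hL1 : 1 ≤ Real.log T := (le_max_left _ _).trans hL
  have hL0 : 0 < Real.log T := by linarith
  have hL2 := (le_max_right _ _).trans hL
  have h1 := hT κ hκ.le hκ1
  rw [hint] at h1
  have h2 : C / Real.log T ≤ J - ∫ t in (0 : ℝ)..κ, t ^ j * h t ^ 2 := by
    rw [div_le_iff₀ hL0]
    rw [div_le_iff₀ hgap] at hL2
    linarith
  have h3 := (abs_le.1 h1).2
  have h4 : (∑ p ∈ (Finset.Icc 1 ⌊T ^ κ⌋₊).filter Nat.Prime,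
      g (Real.log p / Real.log T) / p) ≤ J := by linarith
  have h5 : ∑ p ∈ (Finset.Icc 1 ⌊T ^ κ⌋₊).filter Nat.Prime,
        Real.log p ^ (j + 1) * (h (Real.log p / Real.log T) ^ 2 / p) =
      (∑ p ∈ (Finset.Icc 1 ⌊T ^ κ⌋₊).filter Nat.Prime,
        g (Real.log p / Real.log T) / p) * Real.log T ^ (j + 1) := by
    rw [Finset.sum_mul]
    refine Finset.sum_congr rfl fun p _ => ?_
    simp only [hg, div_pow]
    field_simp
  rw [h5]
  exact mul_le_mul_of_nonneg_right h4 (by positivity)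

private lemma lbb_FW_nonneg {h : ℝ → ℝ} (T x : ℝ) :
    0 ≤ FW (fun p => h (Real.log p / Real.log T) ^ 2) T x := by
  unfold FW
  refine Finset.sum_nonneg fun n _ => ?_
  split_ifs
  · refine div_nonneg ?_ (Nat.cast_nonneg n)
    unfold wt
    exact Finset.prod_nonneg fun p _ => sq_nonneg _
  · exact le_rfl

/-- MODULE B2. The bound `LB` by the second moment. `H` is supported in `[δ, X]`, `∫ H² < E`,
`∫ t H² < V`, `X + E < κ`. If `ε₁` is small and `Near H ε₁ h`, then `h` is supported in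
`[δ - ε₁, X + ε₁]`, `∫_0^κ h² < E`, `∫_0^κ t h² < V` (`H` is bounded, being continuous with compact
support), and by `prime_sum` (with `g t = t h(t)²` and `g t = t² h(t)²`, cut off
suitably so that they are Lipschitz), for large `T`, `∑_{p ≤ T^κ} log p h(x_p)²/p ≤ E log T`,
`∑ (log p)² h(x_p)²/p ≤ V (log T)²`. `FW_cheb` with `x = κ' - t ≥ κ - X - 2ε₁ > E` gives the
factor `1 - V/(κ - X - 2ε₁ - E)² ≥ 1 - V/(κ-X-E)² - ε`. -/
theorem LB_moment {κ δ X E V : ℝ} {H : ℝ → ℝ} (hκ : 0 < κ) (hκ1 : κ ≤ 1) (hδ : 0 < δ)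
    (hH : Continuous H) (hs : ∀ x, H x ≠ 0 → δ ≤ x ∧ x ≤ X)
    (hE : ∫ t in (0 : ℝ)..κ, H t ^ 2 < E) (hV : ∫ t in (0 : ℝ)..κ, t * H t ^ 2 < V)
    (hXE : X + E < κ) : LB κ H (fun _ => 1 - V / (κ - X - E) ^ 2) := by
  intro ε hε
  -- `H` is bounded
  obtain ⟨M, hM0, hM⟩ : ∃ M : ℝ, 0 ≤ M ∧ ∀ x, |H x| ≤ M := by
    obtain ⟨M, hM⟩ := (isCompact_Icc (a := δ) (b := X)).exists_bound_of_continuousOn hH.continuousOn
    refine ⟨max M 0, le_max_right _ _, fun x => ?_⟩
    by_cases hx : H x = 0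
    · rw [hx, abs_zero]
      exact le_max_right _ _
    · exact (hM x ⟨(hs x hx).1, (hs x hx).2⟩).trans (le_max_left _ _)
  have hV0 : 0 < V := by
    refine lt_of_le_of_lt ?_ hV
    refine intervalIntegral.integral_nonneg hκ.le fun t ht => ?_
    exact mul_nonneg ht.1 (sq_nonneg _)
  have hg0 : 0 < κ - X - E := by linarith
  -- the choice of `ε₁`
  have hchoice : ∀ᶠ s : ℝ in 𝓝[>] 0, 0 < s ∧ s < δ ∧ E < κ - X - 2 * s ∧
      V / (κ - X - 2 * s - E) ^ 2 < V / (κ - X - E) ^ 2 + ε ∧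
      (∫ t in (0 : ℝ)..κ, H t ^ 2) + κ * (2 * s * M + s ^ 2) < E ∧
      (∫ t in (0 : ℝ)..κ, t * H t ^ 2) + κ * (2 * s * M + s ^ 2) < V := by
    have c1 : ∀ᶠ s : ℝ in 𝓝 0, s < δ := eventually_lt_nhds hδ
    have c2 : ∀ᶠ s : ℝ in 𝓝 0, E < κ - X - 2 * s := by
      have hc : ContinuousAt (fun s : ℝ => κ - X - 2 * s) 0 := by fun_prop
      exact hc.eventually (lt_mem_nhds (by linarith))
    have c3 : ∀ᶠ s : ℝ in 𝓝 0, V / (κ - X - 2 * s - E) ^ 2 < V / (κ - X - E) ^ 2 + ε := by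
      have hc : ContinuousAt (fun s : ℝ => V / (κ - X - 2 * s - E) ^ 2) 0 := by
        refine ContinuousAt.div (by fun_prop) (by fun_prop) ?_
        have : κ - X - 2 * 0 - E = κ - X - E := by ring
        rw [this]
        positivity
      refine hc.eventually (gt_mem_nhds ?_)
      have : κ - X - 2 * 0 - E = κ - X - E := by ring
      show V / (κ - X - 2 * 0 - E) ^ 2 < V / (κ - X - E) ^ 2 + ε
      rw [this]
      linarith
    have c4 : ∀ᶠ s : ℝ in 𝓝 0, (∫ t in (0 : ℝ)..κ, H t ^ 2) + κ * (2 * s * M + s ^ 2) < E := by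
      have hc : ContinuousAt (fun s : ℝ => (∫ t in (0 : ℝ)..κ, H t ^ 2) +
        κ * (2 * s * M + s ^ 2)) 0 := by fun_prop
      refine hc.eventually (gt_mem_nhds ?_)
      simpa using hE
    have c5 : ∀ᶠ s : ℝ in 𝓝 0,
        (∫ t in (0 : ℝ)..κ, t * H t ^ 2) + κ * (2 * s * M + s ^ 2) < V := by
      have hc : ContinuousAt (fun s : ℝ => (∫ t in (0 : ℝ)..κ, t * H t ^ 2) +
        κ * (2 * s * M + s ^ 2)) 0 := by fun_prop
      refine hc.eventually (gt_mem_nhds ?_)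
      simpa using hV
    have c6 := (c1.and (c2.and (c3.and (c4.and c5)))).filter_mono
      (nhdsWithin_le_nhds (s := Ioi (0 : ℝ)))
    filter_upwards [c6, self_mem_nhdsWithin] with s hs1 hs2
    exact ⟨hs2, hs1⟩
  obtain ⟨ε₁, hε₁, hε₁δ, hε₁E, hε₁V, hε₁I, hε₁J⟩ := hchoice.exists
  refine ⟨ε₁, hε₁, fun h hN κ' hκ'1 hκ'2 => ?_⟩
  obtain ⟨B, hB⟩ := hN.lip
  have hhM : ∀ x, h x ≤ |H x| + ε₁ := fun x => by
    have := (abs_le.1 (hN.close x)).2
    linarith
  have hhb : ∀ x, |h x| ≤ M + ε₁ := fun x => by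
    rw [abs_of_nonneg (hN.nonneg x)]
    exact (hhM x).trans (by linarith [hM x])
  have hsupp' : ∀ x, h x ≠ 0 → δ - ε₁ ≤ x ∧ x ≤ X + ε₁ := by
    intro x hx
    obtain ⟨y, hy, hxy⟩ := hN.supp x hx
    have h1 := hs y hy
    have h2 := abs_le.1 hxy
    constructor <;> linarith [h1.1, h1.2, h2.1, h2.2]
  have hsupp : ∀ x, h x ≠ 0 → (δ - ε₁) / 2 < x ∧ x ≤ X + ε₁ := by
    intro x hx
    have := hsupp' x hx
    constructor
    · linarith [this.1]
    · exact this.2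
  have hhc : Continuous h := by
    refine (LipschitzWith.of_dist_le_mul (K := Real.toNNReal (max B 0)) fun x y => ?_).continuous
    rw [Real.dist_eq, Real.dist_eq, Real.coe_toNNReal _ (le_max_right _ _)]
    exact (hB x y).trans (mul_le_mul_of_nonneg_right (le_max_left _ _) (abs_nonneg _))
  have hsq : ∀ x, h x ^ 2 ≤ H x ^ 2 + (2 * ε₁ * M + ε₁ ^ 2) := by
    intro x
    have h1 := hhM x
    have h2 := hN.nonneg x
    have h3 : h x ^ 2 ≤ (|H x| + ε₁) ^ 2 := pow_le_pow_left₀ h2 h1 2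
    have h4 : (|H x| + ε₁) ^ 2 = H x ^ 2 + (2 * ε₁ * |H x| + ε₁ ^ 2) := by
      rw [add_sq, sq_abs]
      ring
    rw [h4] at h3
    have h5 : 2 * ε₁ * |H x| ≤ 2 * ε₁ * M := mul_le_mul_of_nonneg_left (hM x) (by linarith)
    linarith
  have hI0 : ∫ t in (0 : ℝ)..κ, t ^ 0 * h t ^ 2 < E := by
    refine lt_of_le_of_lt ?_ hε₁I
    have e : (∫ t in (0 : ℝ)..κ, H t ^ 2) + κ * (2 * ε₁ * M + ε₁ ^ 2) =
        ∫ t in (0 : ℝ)..κ, (H t ^ 2 + (2 * ε₁ * M + ε₁ ^ 2)) := by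
      have i1 : IntervalIntegrable (fun t => H t ^ 2) volume 0 κ :=
        Continuous.intervalIntegrable (by fun_prop) _ _
      have i2 : IntervalIntegrable (fun _ : ℝ => 2 * ε₁ * M + ε₁ ^ 2) volume 0 κ :=
        continuous_const.intervalIntegrable _ _
      rw [intervalIntegral.integral_add i1 i2, intervalIntegral.integral_const, sub_zero,
        smul_eq_mul]
    rw [e]
    apply intervalIntegral.integral_mono_on hκ.le
    · exact Continuous.intervalIntegrable (by fun_prop) _ _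
    · exact Continuous.intervalIntegrable (by fun_prop) _ _
    · intro t _
      rw [pow_zero, one_mul]
      exact hsq t
  have hI1 : ∫ t in (0 : ℝ)..κ, t ^ 1 * h t ^ 2 < V := by
    refine lt_of_le_of_lt ?_ hε₁J
    have e : (∫ t in (0 : ℝ)..κ, t * H t ^ 2) + κ * (2 * ε₁ * M + ε₁ ^ 2) =
        ∫ t in (0 : ℝ)..κ, (t * H t ^ 2 + (2 * ε₁ * M + ε₁ ^ 2)) := by
      have i1 : IntervalIntegrable (fun t => t * H t ^ 2) volume 0 κ :=
        Continuous.intervalIntegrable (by fun_prop) _ _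
      have i2 : IntervalIntegrable (fun _ : ℝ => 2 * ε₁ * M + ε₁ ^ 2) volume 0 κ :=
        continuous_const.intervalIntegrable _ _
      rw [intervalIntegral.integral_add i1 i2, intervalIntegral.integral_const, sub_zero,
        smul_eq_mul]
    rw [e]
    apply intervalIntegral.integral_mono_on hκ.le
    · exact Continuous.intervalIntegrable (by fun_prop) _ _
    · exact Continuous.intervalIntegrable (by fun_prop) _ _
    · intro t ht
      rw [pow_one]
      have h1 : t * h t ^ 2 ≤ t * (H t ^ 2 + (2 * ε₁ * M + ε₁ ^ 2)) :=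
        mul_le_mul_of_nonneg_left (hsq t) ht.1
      have h2 : t * (2 * ε₁ * M + ε₁ ^ 2) ≤ 1 * (2 * ε₁ * M + ε₁ ^ 2) :=
        mul_le_mul_of_nonneg_right (ht.2.trans hκ1) (by positivity)
      linarith
  have hs0 := lbb_sum (J := E) hκ hκ1 (by linarith : 0 < (δ - ε₁) / 2) hhb hB hsupp 0 hI0
  have hs1 := lbb_sum (J := V) hκ hκ1 (by linarith : 0 < (δ - ε₁) / 2) hhb hB hsupp 1 hI1
  filter_upwards [hs0, hs1, eventually_gt_atTop (1 : ℝ)] with T hT0 hT1 hT t ht
  have hst := hsupp' t ht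
  have hx1 : κ' - t ≤ κ := by linarith [hst.1]
  have hx2 : κ - X - 2 * ε₁ ≤ κ' - t := by linarith [hst.2]
  have hx3 : E < κ' - t := by linarith
  have hch := FW_cheb (v := fun p => h (Real.log p / Real.log T) ^ 2) (T := T) (κ := κ)
    (x := κ' - t) (E := E) (V := V) (fun p => sq_nonneg _) hT hx1 hx3
    (by simpa using hT0) (by simpa using hT1)
  refine le_trans (mul_le_mul_of_nonneg_right ?_ (lbb_FW_nonneg T κ)) hch
  have hy : V / (κ' - t - E) ^ 2 ≤ V / (κ - X - 2 * ε₁ - E) ^ 2 := by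
    have h1 : 0 < κ - X - 2 * ε₁ - E := by linarith
    exact div_le_div_of_nonneg_left hV0.le (by positivity)
      (pow_le_pow_left₀ h1.le (by linarith) 2)
  linarith

end Pool.Agent.MP_67227b_nt.Al
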