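import Pool.Agent.MP_67227b_nt.Al.AlPb2
import Pool.Agent.MP_67227b_nt.Al.AlGain
import Pool.Agent.MP_67227b_nt.Al.AlLBb

set_option autoImplicit false

open Filter Topology Set MeasureTheory Complex
open scoped Real ArithmeticFunction ContDiff

namespace Pool.Agent.MP_67227b_nt.Al

open Pool.Agent.Lib.ZetaCount_helper33 Pool.Agent.MP_67227b_nt Pool.Agent.MP_67227b_nt.Mo
open Pool.Agent.MP_67227b_nt.Sg Pool.Agent.MP_67227b_nt.Pp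

/-- MODULE R4. `sine_profile`, `LB_moment`, `main_ineq` with the constant function
`Φ = 1 - V/(κ-X-E)²`. -/
theorem gain_sine {ϑ : ℝ} (hϑ0 : 0 ≤ ϑ) (hϑ : ϑ < Real.sqrt 2) : ∃ s₀ : ℝ, 0 < s₀ ∧
    ∀ sg u θ₀ g : ℝ, (sg = 1 ∨ sg = -1) → 0 < u → 0 < θ₀ → θ₀ ≤ 1 → s₀ ≤ u * θ₀ →
      g ≤ ϑ * Real.sqrt (u * θ₀) → ∃ κ : ℝ, 0 < κ ∧ κ < θ₀ ∧ Gain sg u κ g := by
  obtain ⟨s₀, hs₀, h⟩ := sine_profile hϑ0 hϑ
  refine ⟨s₀, hs₀, fun sg u θ₀ g hsg hu hθ₀ hθ₀1 hs hg => ?_⟩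
  obtain ⟨κ, δ, X, E, V, H, hκ, hκθ, hδ, hP, hX, hE, hV, hXE, hV0, hV1, hI⟩ :=
    h sg u θ₀ hsg hu hθ₀ hθ₀1 hs
  have hpos : 0 < κ - X - E := by linarith
  have hg1 : π * g ≤ π * (ϑ * Real.sqrt (u * θ₀)) := mul_le_mul_of_nonneg_left hg Real.pi_pos.le
  have hg0 : 0 ≤ π * (ϑ * Real.sqrt (u * θ₀)) := by positivity
  have hκ1 : κ ≤ 1 := by linarith
  refine ⟨κ, hκ, hκθ, main_ineq hsg hu hκ hκ1 hδ hP (Φ := fun _ => 1 - V / (κ - X - E) ^ 2)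
    continuousOn_const (fun t _ => ⟨?_, ?_⟩)
    (LB_moment hκ hκ1 hδ hP.cont (fun x hx => ⟨(hP.supp x hx).1, hX x hx⟩) hE hV hXE)
    (lt_of_le_of_lt hg1 hI) (lt_of_le_of_lt hg0 hI)⟩
  · have : V / (κ - X - E) ^ 2 ≤ 1 := by
      rw [div_le_one (by positivity)]
      exact hV1
    linarith
  · have : 0 ≤ V / (κ - X - E) ^ 2 := by positivity
    linarith

end Pool.Agent.MP_67227b_nt.Al
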