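import Pool.Agent.MP_67227b_nt.Al.AlStep
import Pool.Agent.MP_67227b_nt.Al.AlPa3
import Pool.Agent.MP_67227b_nt.Al.AlPb3
import Pool.Agent.MP_67227b_nt.Al.AlGf

set_option autoImplicit false

open Filter Topology Set MeasureTheory Complex
open scoped Real ArithmeticFunction ContDiff

namespace Pool.Agent.MP_67227b_nt.Al

open Pool.Agent.Lib.ZetaCount_helper33 Pool.Agent.MP_67227b_nt Pool.Agent.MP_67227b_nt.Mo
open Pool.Agent.MP_67227b_nt.Sg Pool.Agent.MP_67227b_nt.Pp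

/-- MODULE FINAL. All levels: constant weights. -/
theorem pos_prop_m (hRH : RiemannHypothesis) {m : ℕ} {lam θ : ℝ} (hm : 1 ≤ m) (hlam : 0 < lam)
    (hθ0 : 0 < θ) (hθ1 : θ ≤ 1)
    (h : (m = 1 ∧ 1 < lam * (1 + θ)) ∨ (m : ℝ) < lam + Gf (lam * θ)) :
    ∃ c : ℝ, 0 < c ∧ ∀ᶠ T : ℝ in atTop, c * (T ^ θ * Real.log T) ≤
      ((windowTuples m T (T ^ θ) lam).ncard : ℝ) := by
  rcases h with ⟨rfl, h⟩ | h
  · have hl : 1 / 2 < lam := by nlinarith
    have hθ : 1 / lam - 1 < θ := by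
      rw [sub_lt_iff_lt_add, div_lt_iff₀ hlam]
      linarith
    obtain ⟨c, hc, hT⟩ := pos_prop_w hRH hl hθ0 hθ1 hθ
    refine ⟨c, hc, ?_⟩
    filter_upwards [hT] with T h1
    refine h1.trans ?_
    exact_mod_cast windowPairs_le T (T ^ θ) lam
  · obtain ⟨u, hu, hul, hmu⟩ := exists_u_Gf hlam hθ0 h
    obtain ⟨κ, hκ, hκθ, hG⟩ := gain_const (sg := -1) (g := -1 * (u - m)) (Or.inr rfl) hu hθ0 hθ1
      (by linarith)
    exact pos_prop_of_gain hRH hm hu hul hθ0 hθ1 hκ hκθ hG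

/-- All levels: large `k`. -/
theorem pos_prop_large (hRH : RiemannHypothesis) {ϑ : ℝ} (hϑ0 : 0 ≤ ϑ) (hϑ : ϑ < Real.sqrt 2) :
    ∃ s₀ : ℝ, 0 < s₀ ∧ ∀ (m : ℕ) (lam θ : ℝ), 1 ≤ m → 0 < θ → θ ≤ 1 → s₀ ≤ lam * θ →
      (m : ℝ) < lam + ϑ * Real.sqrt (lam * θ) →
      ∃ c : ℝ, 0 < c ∧ ∀ᶠ T : ℝ in atTop, c * (T ^ θ * Real.log T) ≤
        ((windowTuples m T (T ^ θ) lam).ncard : ℝ) := by
  obtain ⟨s₀, hs₀, hs⟩ := gain_sine hϑ0 hϑ
  refine ⟨s₀ + 1, by positivity, fun m lam θ hm hθ0 hθ1 hsl h => ?_⟩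
  have hlam : 0 < lam := by
    by_contra hn
    push Not at hn
    nlinarith
  -- a suitable `u < lam`
  have hc : ContinuousAt (fun u : ℝ => u + ϑ * Real.sqrt (u * θ)) lam := by
    apply Continuous.continuousAt
    exact continuous_id.add (continuous_const.mul ((continuous_id.mul continuous_const).sqrt))
  have h1 : ∀ᶠ u in 𝓝 lam, (m : ℝ) < u + ϑ * Real.sqrt (u * θ) :=
    hc.eventually (lt_mem_nhds h)
  have h2 : ∀ᶠ u in 𝓝 lam, s₀ < u * θ := by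
    have : ContinuousAt (fun u : ℝ => u * θ) lam := by fun_prop
    exact this.eventually (lt_mem_nhds (by linarith))
  have h3 : ∀ᶠ u in 𝓝 lam, 0 < u := lt_mem_nhds hlam
  have h4 : ∀ᶠ u in 𝓝[<] lam, u ∈ Iio lam := self_mem_nhdsWithin
  obtain ⟨u, hu⟩ := (((h1.and (h2.and h3)).filter_mono nhdsWithin_le_nhds).and h4).exists
  obtain ⟨⟨hu1, hu2, hu3⟩, hu4⟩ := hu
  have hul : u < lam := hu4
  obtain ⟨κ, hκ, hκθ, hG⟩ := hs (-1) u θ (-1 * (u - m)) (Or.inr rfl) hu3 hθ0 hθ1 hu2.le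
    (by linarith)
  exact pos_prop_of_gain hRH hm hu3 hul hθ0 hθ1 hκ hκθ hG

/-- The correlation counts. -/
theorem count_lower (hRH : RiemannHypothesis) {m : ℕ} {lam : ℝ} (hm : 1 ≤ m)
    (h : (m : ℝ) - Real.sqrt m / 2 < lam) :
    ∃ c : ℝ, 0 < c ∧ ∀ᶠ T : ℝ in atTop, c * zeroScale T ≤
      (tupleCount zetaOrdinate m T (fun _ => 0) (fun _ => lam) : ℝ) := by
  have hm1 : (1 : ℝ) ≤ m := by exact_mod_cast hm
  have hsq : Real.sqrt m ≤ m := by
    rw [Real.sqrt_le_left (by linarith)]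
    nlinarith
  have hlam : 0 < lam := by linarith
  obtain ⟨c, hc, hT⟩ := pos_prop_m hRH hm hlam one_pos le_rfl (by
    rcases Nat.lt_or_ge m 2 with h2 | h2
    · left
      have : m = 1 := by omega
      subst this
      refine ⟨rfl, ?_⟩
      norm_num at h ⊢
      linarith
    · right
      rw [mul_one]
      exact lt_add_Gf h2 h)
  refine ⟨c, hc, ?_⟩
  filter_upwards [hT, eventually_gt_atTop 1] with T h1 hT1
  rw [Real.rpow_one] at h1
  rw [← windowTuples_full m (by linarith) lam]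
  refine le_trans ?_ h1
  have hL : 0 < Real.log T := Real.log_pos hT1
  have hπ : 1 ≤ 2 * π := by linarith [Real.pi_gt_three]
  unfold zeroScale
  have h2 : T / (2 * π) ≤ T := div_le_self (by linarith) hπ
  have h3 : T / (2 * π) * Real.log T ≤ T * Real.log T := by gcongr
  gcongr

end Pool.Agent.MP_67227b_nt.Al
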