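import Pool.Agent.MP_67227b_nt.Al.AlLog

set_option autoImplicit false

open Filter Topology Set MeasureTheory Complex
open scoped Real ArithmeticFunction ContDiff

namespace Pool.Agent.MP_67227b_nt.Al

open Pool.Agent.Lib.ZetaCount_helper33 Pool.Agent.MP_67227b_nt Pool.Agent.MP_67227b_nt.Mo
open Pool.Agent.MP_67227b_nt.Sg Pool.Agent.MP_67227b_nt.Pp

private lemma gr_Aa {a : ℕ → ℝ} {A : ℝ} (ha : ∀ n, |a n| ≤ A) (N : ℕ) {s : ℂ} (hs : 0 ≤ s.re) :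
    ‖Aa a N s‖ ≤ A * N := by
  unfold Aa
  have h1 : ∀ n ∈ Finset.Icc 1 N, ‖((a n : ℝ) : ℂ) * (n : ℂ) ^ (-s)‖ ≤ A := by
    intro n hn
    rw [Finset.mem_Icc] at hn
    have hn1 : (1 : ℝ) ≤ n := by exact_mod_cast hn.1
    rw [norm_mul, Complex.norm_natCast_cpow_of_pos (by omega)]
    have h2 : ‖((a n : ℝ) : ℂ)‖ ≤ A := by
      rw [Complex.norm_real, Real.norm_eq_abs]
      exact ha n
    have h3 : (n : ℝ) ^ (-s).re ≤ 1 :=
      Real.rpow_le_one_of_one_le_of_nonpos hn1 (by rw [Complex.neg_re]; linarith)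
    have h4 : 0 ≤ (n : ℝ) ^ (-s).re := Real.rpow_nonneg (by linarith) _
    have hA0 : 0 ≤ A := (abs_nonneg _).trans (ha 0)
    calc _ ≤ A * 1 := mul_le_mul h2 h3 h4 hA0
      _ = A := mul_one A
  refine (norm_sum_le_of_le _ h1).trans (le_of_eq ?_)
  rw [Finset.sum_const, Nat.card_Icc, nsmul_eq_mul, Nat.add_sub_cancel]
  ring

private lemma gr_N {κ T : ℝ} (hκ : κ ≤ 1) (hT : 1 ≤ T) : ((⌊T ^ κ⌋₊ : ℕ) : ℝ) ≤ T := by
  have h1 : ((⌊T ^ κ⌋₊ : ℕ) : ℝ) ≤ T ^ κ := Nat.floor_le (by positivity)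
  have h2 : T ^ κ ≤ T ^ (1 : ℝ) := Real.rpow_le_rpow_of_exponent_le hT hκ
  rw [Real.rpow_one] at h2
  exact h1.trans h2

private lemma gr_A {κ T A : ℝ} (hκ : κ ≤ 1) (hT : 1 ≤ T) {a : ℕ → ℝ} (ha : ∀ n, |a n| ≤ A)
    (hAT : A ≤ T) (v : ℝ) {σ t : ℝ} (hσ : 1 / 2 ≤ σ) :
    ‖Aa a ⌊T ^ κ⌋₊ (pl σ t + (v : ℂ) * I)‖ ≤ T ^ 2 := by
  have hA0 : 0 ≤ A := (abs_nonneg _).trans (ha 0)
  have h1 := gr_Aa ha ⌊T ^ κ⌋₊ (s := pl σ t + (v : ℂ) * I) (by
    have : (pl σ t + (v : ℂ) * I).re = σ := by simp [pl]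
    rw [this]; linarith)
  have h2 := gr_N hκ hT
  calc _ ≤ A * ((⌊T ^ κ⌋₊ : ℕ) : ℝ) := h1
    _ ≤ T * T := by gcongr
    _ = T ^ 2 := by ring

/-- MODULE L6a. The first factor of the mass: `‖n^{-σ-it}‖ ≤ 1` for `σ ≥ 0`, so
`‖E1‖ ≤ A N ≤ A T ≤ T²`. -/
theorem E1_growth {A κ : ℝ} (hκ : κ ≤ 1) : ∀ᶠ T : ℝ in atTop, ∀ (a : ℕ → ℝ) (v σ t : ℝ),
    (∀ n, |a n| ≤ A) → 1 / 2 ≤ σ → ‖E1 a v ⌊T ^ κ⌋₊ (pl σ t)‖ ≤ T ^ (2 : ℝ) := by
  filter_upwards [eventually_ge_atTop 1, eventually_ge_atTop A] with T hT hAT a v σ t ha hσ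
  have h := gr_A hκ hT ha hAT v (t := t) hσ
  rw [E1]
  refine h.trans (le_of_eq ?_)
  rw [← Real.rpow_natCast]
  norm_num

/-- MODULE L6b. Growth of `ζ'/ζ`. For `σ ≤ 2`: `logDeriv ζ = logDeriv xi - archF`
(`logDeriv_xi_eq`), `Sg.norm_F_le` gives `C log(|t|+3)/(σ-1/2) ≤ C' (log T)²`, and `Sg.archF_near`
gives `‖archF‖ ≤ log T + C`. For `σ ≥ 2`: `‖ζ'/ζ‖ ≤ ∑ Λ(n) n^{-2}` (Mathlib:
`ArithmeticFunction.LSeries_vonMangoldt_eq_deriv_riemannZeta_div`). -/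
theorem logDeriv_zeta_growth (hRH : RiemannHypothesis) {β : ℝ} (hβ : 0 < β) :
    ∀ᶠ T : ℝ in atTop, ∀ σ t : ℝ, 1 / 2 + β / Real.log T ≤ σ → σ ≤ 4 → T / 2 ≤ t → t ≤ 4 * T →
      ‖logDeriv riemannZeta (pl σ t)‖ ≤ T := by
  obtain ⟨C₁, hC₁, h1⟩ := norm_F_le hRH
  obtain ⟨C₂, hC₂, h2⟩ := archF_near
  set K0 : ℝ := ∑' n : ℕ, ‖LSeries.term (fun n => (Λ n : ℂ)) 2 n‖ with hK0
  have hlim : Tendsto (fun T : ℝ => Real.log T ^ 2 / T) atTop (𝓝 0) := by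
    have h3 := (Real.isLittleO_pow_log_id_atTop (n := 2)).tendsto_div_nhds_zero
    simpa using h3
  have hT3 : ∀ᶠ T : ℝ in atTop, Real.log T ^ 2 / T < 1 / (2 * C₁ / β + 2 + C₂) :=
    hlim.eventually (gt_mem_nhds (by positivity))
  have hT1 : ∀ᶠ T : ℝ in atTop, 1 ≤ Real.log T := Real.tendsto_log_atTop.eventually_ge_atTop 1
  filter_upwards [hT1, hT3, eventually_ge_atTop 100, eventually_ge_atTop K0] with T hL1 hL3 hT100
    hTK σ t hσ hσ4 ht ht4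
  have hT0 : 0 < T := by linarith
  have hL0 : 0 < Real.log T := by linarith
  set L := Real.log T with hL
  have ht0 : 0 < t := by linarith
  rcases le_or_gt σ 2 with h | h
  · have hσ1 : 1 / 2 < σ := by
      have : 0 < β / L := by positivity
      linarith
    have hlog : Real.log (|t| + 3) ≤ 2 * L := by
      rw [abs_of_nonneg ht0.le]
      have h3 : t + 3 ≤ T ^ 2 := by nlinarith
      have h4 := Real.log_le_log (by linarith : 0 < t + 3) h3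
      rw [Real.log_pow] at h4
      push_cast at h4
      exact h4
    have e0 := logDeriv_xi_eq hRH (s := pl σ t) (by rw [pl_re]; exact hσ1) (by rw [pl_im]; exact ht0)
    have e1 := h1 σ t hσ1 h
    have e2 := h2 σ t hσ1 h (by linarith)
    have e4 : C₁ * Real.log (|t| + 3) / (σ - 1 / 2) ≤ 2 * C₁ / β * L ^ 2 := by
      have hb : 0 < β / L := by positivity
      calc C₁ * Real.log (|t| + 3) / (σ - 1 / 2) ≤ C₁ * (2 * L) / (β / L) := by
            apply div_le_div₀ (by positivity) _ hb (by linarith)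
            gcongr
        _ = 2 * C₁ / β * L ^ 2 := by
            field_simp
    have e5 : ‖archF (pl σ t)‖ ≤ C₂ + L := by
      have e6 := norm_sub_norm_le (archF (pl σ t)) ((Real.log t / 2 : ℝ) : ℂ)
      have e7 : ‖((Real.log t / 2 : ℝ) : ℂ)‖ ≤ L := by
        rw [norm_real, Real.norm_of_nonneg]
        · have e8 : Real.log t ≤ Real.log (|t| + 3) := by
            apply Real.log_le_log ht0
            have := le_abs_self t
            linarith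
          linarith
        · apply div_nonneg _ (by norm_num)
          apply Real.log_nonneg
          linarith
      linarith
    have hLL : L ≤ L ^ 2 := by nlinarith
    have hCL : C₂ ≤ C₂ * L ^ 2 := by
      have : 1 ≤ L ^ 2 := by nlinarith
      nlinarith
    have hq : 0 < 2 * C₁ / β + 2 + C₂ := by positivity
    have e9 : (2 * C₁ / β + 2 + C₂) * L ^ 2 ≤ T := by
      rw [div_lt_div_iff₀ hT0 hq] at hL3
      linarith
    have e10 : logDeriv riemannZeta (pl σ t) = logDeriv xi (pl σ t) - archF (pl σ t) := by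
      rw [e0]; ring
    rw [e10]
    calc ‖logDeriv xi (pl σ t) - archF (pl σ t)‖
        ≤ ‖logDeriv xi (pl σ t)‖ + ‖archF (pl σ t)‖ := norm_sub_le _ _
      _ ≤ 2 * C₁ / β * L ^ 2 + (C₂ + L) := add_le_add (e1.trans e4) e5
      _ ≤ (2 * C₁ / β + 2 + C₂) * L ^ 2 := by nlinarith
      _ ≤ T := e9
  · have hs1 : 1 < (pl σ t).re := by rw [pl_re]; linarith
    have e1 := ArithmeticFunction.LSeries_vonMangoldt_eq_deriv_riemannZeta_div hs1
    have e2 : ‖logDeriv riemannZeta (pl σ t)‖ = ‖LSeries (fun n => (Λ n : ℂ)) (pl σ t)‖ := by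
      rw [e1, logDeriv_apply, norm_div, norm_div, norm_neg]
    rw [e2]
    refine le_trans ?_ hTK
    have hsum := (ArithmeticFunction.LSeriesSummable_vonMangoldt (s := 2) (by norm_num)).norm
    have hsum2 := (ArithmeticFunction.LSeriesSummable_vonMangoldt hs1).norm
    calc ‖LSeries (fun n => (Λ n : ℂ)) (pl σ t)‖
        ≤ ∑' n : ℕ, ‖LSeries.term (fun n => (Λ n : ℂ)) (pl σ t) n‖ := norm_tsum_le_tsum_norm hsum2
      _ ≤ K0 := by
        refine hsum2.tsum_le_tsum (fun n => ?_) hsum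
        refine LSeries.norm_term_le_of_re_le_re _ ?_ n
        rw [pl_re]
        norm_num
        linarith

/-- MODULE L6c. `‖E2‖ ≤ T · (A T) ≤ T³`. -/
theorem E2_growth (hRH : RiemannHypothesis) {A κ β : ℝ} (hκ : κ ≤ 1) (hβ : 0 < β) :
    ∀ᶠ T : ℝ in atTop, ∀ (a : ℕ → ℝ) (v y σ t : ℝ), (∀ n, |a n| ≤ A) → 0 ≤ y → y ≤ 1 →
      1 / 2 + β / Real.log T ≤ σ → σ ≤ 4 → T / 2 ≤ t → t ≤ 3 * T →
      ‖E2 y a v ⌊T ^ κ⌋₊ (pl σ t)‖ ≤ T ^ (3 : ℝ) := by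
  filter_upwards [logDeriv_zeta_growth hRH hβ, eventually_ge_atTop 1, eventually_ge_atTop A]
    with T hg hT hAT a v y σ t ha hy hy1 hσ hσ4 ht ht3
  have hσ2 : 1 / 2 ≤ σ := by
    have : 0 ≤ β / Real.log T := div_nonneg hβ.le (Real.log_nonneg hT)
    linarith
  have h := gr_A hκ hT ha hAT v (t := t) hσ2
  have hT0 : 0 < T := by linarith
  have h2 : ‖logDeriv riemannZeta (pl σ t + (y : ℂ) * I)‖ ≤ T := by
    have e : pl σ t + (y : ℂ) * I = pl σ (t + y) := by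
      simp only [pl]; push_cast; ring
    rw [e]
    exact hg σ (t + y) hσ hσ4 (by linarith) (by linarith)
  rw [E2, norm_mul]
  have e3 : T ^ (3 : ℝ) = T * T ^ 2 := by
    rw [show (3 : ℝ) = ((3 : ℕ) : ℝ) by norm_num, Real.rpow_natCast]; ring
  rw [e3]
  exact mul_le_mul h2 h (norm_nonneg _) hT0.le

end Pool.Agent.MP_67227b_nt.Al
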