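import Pool.Agent.MP_67227b_nt.Al.AlDefs

set_option autoImplicit false

open Filter Topology Set MeasureTheory Complex
open scoped Real ArithmeticFunction ContDiff

namespace Pool.Agent.MP_67227b_nt.Al

open Pool.Agent.Lib.ZetaCount_helper33 Pool.Agent.MP_67227b_nt Pool.Agent.MP_67227b_nt.Mo
open Pool.Agent.MP_67227b_nt.Sg Pool.Agent.MP_67227b_nt.Pp

private lemma alidx {z : Zer} (hz : 0 < ord z) {i : ℕ} (hi : i < analyticOrderNatAt xi z.1) :
    ∃ j : ZetaZeroIdx, j.1 = (z.1, i) ∧ zetaOrdinate j = ord z := by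
  have him : z.1.im ≠ 0 := ne_of_gt hz
  have h1 : riemannZeta z.1 = 0 := (xi_eq_zero_iff him).mp z.2
  have h2 : i < analyticOrderNatAt riemannZeta z.1 := by
    rw [← xi_order_eq him]
    exact hi
  exact ⟨⟨(z.1, i), h1, hz, h2⟩, rfl, rfl⟩

/-- MODULE S0. From zeros of `xi` to indices: a zero `z` with positive ordinate corresponds to the
indices `(z, i)`, `i <` order (see the private lemma `SG16_idx` in `Sg/SgZ_a.lean`:
`xi_eq_zero_iff`, `xi_order_eq`), and `mu z` is the order. -/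
theorem exists_idx {A B : ℝ} (hA : 0 < A) (S : Finset Zer) (hS : ∀ z ∈ S, ord z ∈ Icc A B) :
    ∃ S' : Finset ZetaZeroIdx, (∀ j ∈ S', zetaOrdinate j ∈ Icc A B) ∧
      ∀ f : ℝ → ℝ, ∑ z ∈ S, mu z * f (ord z) = ∑ j ∈ S', f (zetaOrdinate j) := by
  classical
  set Q : Finset (Σ _ : Zer, ℕ) :=
    S.sigma (fun z => Finset.range (analyticOrderNatAt xi z.1)) with hQ
  have hmem : ∀ x : (Σ _ : Zer, ℕ), x ∈ Q →
      ∃ j : ZetaZeroIdx, j.1 = (x.1.1, x.2) ∧ zetaOrdinate j = ord x.1 := by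
    intro x hx
    rw [hQ, Finset.mem_sigma, Finset.mem_range] at hx
    exact alidx (lt_of_lt_of_le hA (hS x.1 hx.1).1) hx.2
  choose φ hφ1 hφ2 using hmem
  refine ⟨Q.attach.image (fun x => φ x.1 x.2), ?_, ?_⟩
  · intro j hj
    rw [Finset.mem_image] at hj
    obtain ⟨x, _, rfl⟩ := hj
    rw [hφ2]
    exact hS _ (Finset.mem_sigma.1 (show x.1 ∈ S.sigma _ from x.2)).1
  · intro f
    rw [Finset.sum_image]
    · have h1 : ∑ x ∈ Q.attach, f (zetaOrdinate (φ x.1 x.2)) = ∑ x ∈ Q.attach, f (ord x.1.1) :=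
        Finset.sum_congr rfl fun x _ => by rw [hφ2]
      rw [h1, Finset.sum_attach Q (fun x => f (ord x.1)), hQ, Finset.sum_sigma]
      refine Finset.sum_congr rfl fun z _ => ?_
      simp only [Finset.sum_const, Finset.card_range, nsmul_eq_mul]
      rfl
    · intro x _ y _ hxy
      have e : (x.1.1.1, x.1.2) = (y.1.1.1, y.1.2) := by
        rw [← hφ1 x.1 x.2, ← hφ1 y.1 y.2]
        exact congrArg Subtype.val hxy
      have e1 : x.1.1 = y.1.1 := Subtype.ext (congrArg Prod.fst e)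
      have e2 : x.1.2 = y.1.2 := congrArg Prod.snd e
      apply Subtype.ext
      obtain ⟨⟨x1, x2⟩, hx⟩ := x
      obtain ⟨⟨y1, y2⟩, hy⟩ := y
      simp only at e1 e2
      subst e1 e2
      rfl

end Pool.Agent.MP_67227b_nt.Al
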