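import Pool.Agent.MP_67227b_nt.Al.AlDefs

set_option autoImplicit false

open Filter Topology Set MeasureTheory Complex
open scoped Real ArithmeticFunction ContDiff

namespace Pool.Agent.MP_67227b_nt.Al

open Pool.Agent.Lib.ZetaCount_helper33 Pool.Agent.MP_67227b_nt Pool.Agent.MP_67227b_nt.Mo
open Pool.Agent.MP_67227b_nt.Sg Pool.Agent.MP_67227b_nt.Pp

private lemma alleft_conj (a : ℕ → ℝ) (N : ℕ) (z : ℂ) :
    Aa a N ((starRingEnd ℂ) z) = (starRingEnd ℂ) (Aa a N z) := by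
  unfold Aa
  rw [map_sum]
  refine Finset.sum_congr rfl fun n hn => ?_
  rw [map_mul]
  congr 1
  · simp
  · have h1 : ((n : ℂ)).arg ≠ π := by
      rw [Complex.natCast_arg]
      exact Real.pi_pos.ne
    rw [← map_neg, Complex.cpow_conj _ _ h1]
    simp


/-- MODULE L7a. The integrands on the left line: on `Re s = 1/2 + b`, `1 + 2b - s - iv` is the
conjugate of `s + iv`. Copy of `Pp.Pa_left` (Pp/PpLeft.lean). -/
theorem Eint_left (G : ℂ → ℂ) (a : ℕ → ℝ) (v b t₀ Δ t : ℝ) (N : ℕ) :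
    Eint (fun s => G s * Aa a N (s + (v : ℂ) * I)) a v b t₀ Δ N (pl (1 / 2 + b) t) =
      G (pl (1 / 2 + b) t) *
        ((‖Aa a N (pl (1 / 2 + b) (t + v))‖ ^ 2 * Real.exp (-(((t - t₀) / Δ) ^ 2)) : ℝ) : ℂ) := by
  have e0 : pl (1 / 2 + b) (t + v) = pl (1 / 2 + b) t + (v : ℂ) * I := by
    simp only [pl]
    push_cast
    ring
  have e1 : 1 + 2 * (b : ℂ) - pl (1 / 2 + b) t - (v : ℂ) * I =
      (starRingEnd ℂ) (pl (1 / 2 + b) t + (v : ℂ) * I) := by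
    simp only [pl, map_add, map_mul, Complex.conj_ofReal, Complex.conj_I]
    push_cast
    ring
  have e2 : Aa a N (pl (1 / 2 + b) t + (v : ℂ) * I) *
      Aa a N (1 + 2 * (b : ℂ) - pl (1 / 2 + b) t - (v : ℂ) * I) =
      ((‖Aa a N (pl (1 / 2 + b) t + (v : ℂ) * I)‖ ^ 2 : ℝ) : ℂ) := by
    rw [e1, alleft_conj, Complex.mul_conj, Complex.normSq_eq_norm_sq]
  have e3 : Wg Δ b t₀ (pl (1 / 2 + b) t) =
      ((Real.exp (-(((t - t₀) / Δ) ^ 2)) : ℝ) : ℂ) := by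
    have e4 : ((pl (1 / 2 + b) t - pl (1 / 2 + b) t₀) / (Δ : ℂ)) ^ 2 =
        ((-(((t - t₀) / Δ) ^ 2) : ℝ) : ℂ) := by
      simp only [pl]
      push_cast
      have : (1 / 2 + (b : ℂ) + (t : ℂ) * I - (1 / 2 + (b : ℂ) + (t₀ : ℂ) * I)) / (Δ : ℂ) =
          (((t : ℂ) - t₀) / Δ) * I := by ring
      rw [this, mul_pow, Complex.I_sq]
      ring
    unfold Wg
    rw [e4, Complex.ofReal_exp]
  unfold Eint
  rw [e3, mul_assoc (G (pl (1 / 2 + b) t)), e2, e0]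
  push_cast
  ring

theorem Eint_left1 (a : ℕ → ℝ) (v b t₀ Δ t : ℝ) (N : ℕ) :
    Eint (E1 a v N) a v b t₀ Δ N (pl (1 / 2 + b) t) =
      ((‖Aa a N (pl (1 / 2 + b) (t + v))‖ ^ 2 * Real.exp (-(((t - t₀) / Δ) ^ 2)) : ℝ) : ℂ) := by
  have h := Eint_left (fun _ => 1) a v b t₀ Δ t N
  have e : (fun s : ℂ => (fun _ : ℂ => (1 : ℂ)) s * Aa a N (s + (v : ℂ) * I)) = E1 a v N := by
    funext s
    simp [E1]
  rw [e] at h
  rw [h, one_mul]

theorem Eint_left2 (y : ℝ) (a : ℕ → ℝ) (v b t₀ Δ t : ℝ) (N : ℕ) :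
    Eint (E2 y a v N) a v b t₀ Δ N (pl (1 / 2 + b) t) =
      logDeriv riemannZeta (pl (1 / 2 + b) (t + y)) *
        ((‖Aa a N (pl (1 / 2 + b) (t + v))‖ ^ 2 * Real.exp (-(((t - t₀) / Δ) ^ 2)) : ℝ) : ℂ) := by
  have h := Eint_left (fun s => logDeriv riemannZeta (s + (y : ℂ) * I)) a v b t₀ Δ t N
  have e0 : pl (1 / 2 + b) (t + y) = pl (1 / 2 + b) t + (y : ℂ) * I := by
    simp only [pl]
    push_cast
    ring
  rw [e0]
  exact h

end Pool.Agent.MP_67227b_nt.Al
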