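import Pool.Agent.MP_67227b_nt.Al.AlRight
import Pool.Agent.MP_67227b_nt.Al.AlMove

set_option autoImplicit false

open Filter Topology Set MeasureTheory Complex
open scoped Real ArithmeticFunction ContDiff

namespace Pool.Agent.MP_67227b_nt.Al

open Pool.Agent.Lib.ZetaCount_helper33 Pool.Agent.MP_67227b_nt Pool.Agent.MP_67227b_nt.Mo
open Pool.Agent.MP_67227b_nt.Sg Pool.Agent.MP_67227b_nt.Pp

/-- Decay: a power times an exponential of a negative power tends to zero. -/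
private lemma L3_decay (a k : ℝ) {δ : ℝ} (hδ : 0 < δ) (hk : 0 < k) :
    Tendsto (fun T : ℝ => T ^ a * Real.exp (-(k * T ^ δ))) atTop (𝓝 0) := by
  have h1 : Tendsto (fun x : ℝ => x ^ (a / δ) * Real.exp (-k * x)) atTop (𝓝 0) :=
    tendsto_rpow_mul_exp_neg_mul_atTop_nhds_zero _ _ hk
  have h2 := h1.comp (tendsto_rpow_atTop hδ)
  refine h2.congr' ?_
  filter_upwards [eventually_gt_atTop 0] with T hT
  simp only [Function.comp]
  rw [← Real.rpow_mul hT.le, mul_div_cancel₀ _ hδ.ne', neg_mul]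

/-- MODULE L3. Asymptotics, uniformly in `E, c, a, v, t₀`: `right_gen` and `move_gen` with `Δ = T^θ`,
`X = T^θ₂`, `N = ⌊T^κ⌋`, `b = β/log T`. The errors are `T^θ` times
`C A B (T^{12κ} e^{-T^{2(θ-κ)}/32} + T^{12κ} e^{-T^{2(θ₂-θ)}/2}) + 100 A T^{C+12κ} e^{-T^{2(θ₂-θ)}}`,
which tends to zero. This is the second half of the proof of `Pp.neg_at_w` (Ppw/PpwT0.lean, from
`e1` on); copy it. (`A ≥ 0`, `B ≥ 0` follow from the hypotheses at `n = 0`, `j = 1`.) -/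
theorem line_gen {κ θ θ₂ β A B C ε : ℝ} (hκ : 0 < κ) (hκθ : κ < θ) (hθ : θ < θ₂) (hθ₂ : θ₂ < 1)
    (hβ : 0 < β) (hε : 0 < ε) : ∀ᶠ T : ℝ in atTop, ∀ (E : ℂ → ℂ) (c : ℕ → ℂ) (a : ℕ → ℝ)
      (v t₀ : ℝ), (∀ n, |a n| ≤ A) → (∀ j : ℕ, ‖c j‖ ≤ B * (j : ℝ) ^ 2) →
      (∀ s : ℂ, 3 < s.re →
        HasSum (fun j : ℕ => if j = 0 then 0 else c j * (j : ℂ) ^ (-s)) (E s)) →
      (∀ s : ℂ, 1 / 2 < s.re → 0 < s.im → DifferentiableAt ℂ E s) →
      (∀ σ t : ℝ, 1 / 2 + β / Real.log T ≤ σ → σ ≤ 4 → T / 2 ≤ t → t ≤ 3 * T →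
        ‖E (pl σ t)‖ ≤ T ^ C) →
      0 ≤ v → t₀ ∈ Icc (5 * T / 8) (2 * T) →
      ‖(∫ t in (t₀ - T ^ θ₂)..(t₀ + T ^ θ₂),
          Eint E a v (β / Real.log T) t₀ (T ^ θ) ⌊T ^ κ⌋₊ (pl (1 / 2 + β / Real.log T) t)) -
        ((T ^ θ * Real.sqrt π : ℝ) : ℂ) * Dg c a v (β / Real.log T) ⌊T ^ κ⌋₊‖ ≤
        ε * T ^ θ := by
  obtain ⟨C₃, hC₃, hright⟩ := right_gen
  have hθ0 : 0 < θ := hκ.trans hκθ
  have e1 : Tendsto (fun T : ℝ => C₃ * (A * B) *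
      (T ^ (12 * κ) * Real.exp (-(1 / 32 * T ^ (2 * (θ - κ)))) +
      T ^ (12 * κ) * Real.exp (-(1 / 2 * T ^ (2 * (θ₂ - θ))))) +
      100 * A * (T ^ (C + 12 * κ) * Real.exp (-(1 * T ^ (2 * (θ₂ - θ)))))) atTop
      (𝓝 0) := by
    have t1 := L3_decay (12 * κ) (1 / 32) (δ := 2 * (θ - κ)) (by linarith) (by norm_num)
    have t2 := L3_decay (12 * κ) (1 / 2) (δ := 2 * (θ₂ - θ)) (by linarith) (by norm_num)
    have t3 := L3_decay (C + 12 * κ) 1 (δ := 2 * (θ₂ - θ)) (by linarith) one_pos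
    have := ((t1.add t2).const_mul (C₃ * (A * B))).add (t3.const_mul (100 * A))
    simpa using this
  have ev1 := e1.eventually (gt_mem_nhds hε)
  have ev2 : ∀ᶠ T : ℝ in atTop, (32 : ℝ) ≤ T ^ (θ - κ) :=
    (tendsto_rpow_atTop (by linarith : 0 < θ - κ)).eventually_ge_atTop 32
  have ev3 : ∀ᶠ T : ℝ in atTop, β + 1 ≤ Real.log T :=
    Real.tendsto_log_atTop.eventually_ge_atTop _
  have ev4 : ∀ᶠ T : ℝ in atTop, (8 : ℝ) ≤ T ^ (1 - θ₂) :=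
    (tendsto_rpow_atTop (by linarith : 0 < 1 - θ₂)).eventually_ge_atTop 8
  filter_upwards [ev1, ev2, ev3, ev4, eventually_ge_atTop 4] with T hE h32
    hL h8T hT4 E c a v t₀ hab hc hser hEd hgr hv ht₀
  have hT0 : 0 < T := by linarith
  have hT1 : 1 ≤ T := by linarith
  have hπ := Real.pi_pos
  have hL0 : 0 < Real.log T := by linarith
  have hA0 : 0 ≤ A := (abs_nonneg _).trans (hab 0)
  have hB0 : 0 ≤ B := by
    have := (norm_nonneg _).trans (hc 1)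
    simpa using this
  set L := Real.log T with hLdef
  set b : ℝ := β / L with hb
  set X : ℝ := T ^ θ₂ with hX
  set Δ : ℝ := T ^ θ with hΔ
  set N : ℕ := ⌊T ^ κ⌋₊ with hN
  have hb0 : 0 < b := by positivity
  have hb1 : b ≤ 1 := by
    rw [hb, div_le_one hL0]
    linarith
  have hTκ : 1 ≤ T ^ κ := Real.one_le_rpow hT1 hκ.le
  have hN1 : 1 ≤ N := by
    rw [hN, Nat.one_le_floor_iff]
    exact hTκ
  have hNle : (N : ℝ) ≤ T ^ κ := Nat.floor_le (by positivity)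
  have hN1' : (1 : ℝ) ≤ N := by exact_mod_cast hN1
  have hΔ0 : 0 < Δ := by positivity
  have hΔN : 32 * (N : ℝ) ≤ Δ := by
    have : Δ = T ^ (θ - κ) * T ^ κ := by
      rw [hΔ, ← Real.rpow_add hT0]
      congr 1
      ring
    rw [this]
    gcongr
  have hΔ4 : 4 ≤ Δ := by linarith
  have hX0 : 0 < X := by positivity
  have hX8 : X ≤ T / 8 := by
    have h9 : T = T ^ (1 - θ₂) * T ^ θ₂ := by
      rw [← Real.rpow_add hT0, sub_add_cancel, Real.rpow_one]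
    have h10 : 8 * X ≤ T := by
      calc 8 * X ≤ T ^ (1 - θ₂) * T ^ θ₂ := by
            rw [hX]
            gcongr
        _ = T := h9.symm
    linarith
  have hXt : X < t₀ := by linarith [ht₀.1]
  have hr := hright E c a A B v b t₀ Δ X N hab hc hser hN1 hv hb0 hb1 hΔN hX0
  have hm := move_gen (E := E) (a := a) (A := A) (v := v) (b := b) (t₀ := t₀) (Δ := Δ) (X := X)
    (K := T ^ C) (N := N) hab hEd hb0 hb1 hΔ4 hX0 hXt hN1 (by
      intro σ t hσ1 hσ2 ht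
      apply hgr σ t hσ1 hσ2
      · rcases ht with rfl | rfl <;> linarith [ht₀.1, ht₀.2]
      · rcases ht with rfl | rfl <;> linarith [ht₀.1, ht₀.2])
  set IL := ∫ t in (t₀ - X)..(t₀ + X), Eint E a v b t₀ Δ N (pl (1 / 2 + b) t) with hIL
  set IR := ∫ t in (t₀ - X)..(t₀ + X), Eint E a v b t₀ Δ N (pl 4 t) with hIR
  set M : ℂ := ((Δ * Real.sqrt π : ℝ) : ℂ) * Dg c a v b N with hM
  have hN12 : (N : ℝ) ^ 12 ≤ T ^ (12 * κ) := by
    calc (N : ℝ) ^ 12 ≤ (T ^ κ) ^ 12 := by gcongr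
      _ = T ^ (12 * κ) := by
        rw [← Real.rpow_natCast, ← Real.rpow_mul hT0.le]
        congr 1
        push_cast
        ring
  have hx1 : Real.exp (-(Δ ^ 2 / (32 * (N : ℝ) ^ 2))) ≤
      Real.exp (-(1 / 32 * T ^ (2 * (θ - κ)))) := by
    apply Real.exp_le_exp.mpr
    apply neg_le_neg
    have h8 : T ^ (2 * (θ - κ)) = Δ ^ 2 / (T ^ κ) ^ 2 := by
      rw [hΔ, ← Real.rpow_natCast, ← Real.rpow_natCast, ← Real.rpow_mul hT0.le,
        ← Real.rpow_mul hT0.le, ← Real.rpow_sub hT0]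
      congr 1
      push_cast
      ring
    rw [h8]
    rw [div_mul_div_comm, one_mul]
    gcongr
  have hx3 : X ^ 2 / Δ ^ 2 = 1 * T ^ (2 * (θ₂ - θ)) := by
    rw [one_mul, hΔ, hX, ← Real.rpow_natCast, ← Real.rpow_natCast, ← Real.rpow_mul hT0.le,
      ← Real.rpow_mul hT0.le, ← Real.rpow_sub hT0]
    congr 1
    push_cast
    ring
  have hx2 : X ^ 2 / (2 * Δ ^ 2) = 1 / 2 * T ^ (2 * (θ₂ - θ)) := by
    have : X ^ 2 / (2 * Δ ^ 2) = 1 / 2 * (X ^ 2 / Δ ^ 2) := by field_simp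
    rw [this, hx3, one_mul]
  rw [hx2] at hr
  rw [hx3] at hm
  have hr' : ‖IR - M‖ ≤ Δ * (C₃ * (A * B) * (T ^ (12 * κ) *
      Real.exp (-(1 / 32 * T ^ (2 * (θ - κ)))) +
      T ^ (12 * κ) * Real.exp (-(1 / 2 * T ^ (2 * (θ₂ - θ)))))) := by
    refine hr.trans ?_
    calc C₃ * (A * B) * (N : ℝ) ^ 12 * Δ * (Real.exp (-(Δ ^ 2 / (32 * (N : ℝ) ^ 2))) +
          Real.exp (-(1 / 2 * T ^ (2 * (θ₂ - θ)))))
        ≤ C₃ * (A * B) * T ^ (12 * κ) * Δ * (Real.exp (-(1 / 32 * T ^ (2 * (θ - κ)))) +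
          Real.exp (-(1 / 2 * T ^ (2 * (θ₂ - θ))))) := by gcongr
      _ = _ := by ring
  have hm' : ‖IL - IR‖ ≤ Δ * (100 * A * (T ^ (C + 12 * κ) *
      Real.exp (-(1 * T ^ (2 * (θ₂ - θ)))))) := by
    refine hm.trans ?_
    rw [Real.rpow_add hT0]
    calc 100 * A * T ^ C * (N : ℝ) ^ 12 * Real.exp (-(1 * T ^ (2 * (θ₂ - θ))))
        ≤ 100 * A * T ^ C * T ^ (12 * κ) * Real.exp (-(1 * T ^ (2 * (θ₂ - θ)))) := by
          gcongr
      _ = 1 * (100 * A * (T ^ C * T ^ (12 * κ) *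
          Real.exp (-(1 * T ^ (2 * (θ₂ - θ)))))) := by ring
      _ ≤ _ := by
        gcongr
        linarith
  calc ‖IL - M‖ = ‖(IL - IR) + (IR - M)‖ := by congr 1; ring
    _ ≤ ‖IL - IR‖ + ‖IR - M‖ := norm_add_le _ _
    _ ≤ _ := add_le_add hm' hr'
    _ = Δ * (C₃ * (A * B) * (T ^ (12 * κ) * Real.exp (-(1 / 32 * T ^ (2 * (θ - κ)))) +
        T ^ (12 * κ) * Real.exp (-(1 / 2 * T ^ (2 * (θ₂ - θ))))) +
        100 * A * (T ^ (C + 12 * κ) * Real.exp (-(1 * T ^ (2 * (θ₂ - θ)))))) := by ring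
    _ ≤ Δ * ε := by gcongr
    _ = ε * Δ := by ring

end Pool.Agent.MP_67227b_nt.Al
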