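import Pool.Agent.MP_67227b_nt.Al.AlDefs

set_option autoImplicit false

open Filter Topology Set MeasureTheory Complex
open scoped Real ArithmeticFunction ContDiff

namespace Pool.Agent.MP_67227b_nt.Al

open Pool.Agent.Lib.ZetaCount_helper33 Pool.Agent.MP_67227b_nt Pool.Agent.MP_67227b_nt.Mo
open Pool.Agent.MP_67227b_nt.Sg Pool.Agent.MP_67227b_nt.Pp

private lemma allog_ne_one {s : ℂ} (ht : 0 < s.im) : s ≠ 1 := by
  rintro rfl
  simp at ht

private lemma allog_ne_zero {s : ℂ} (ht : 0 < s.im) : s ≠ 0 := by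
  rintro rfl
  simp at ht

/-- No zeros to the right of the critical line. -/
private lemma allog_zeta_ne (hRH : RiemannHypothesis) {s : ℂ} (hs : 1 / 2 < s.re) (ht : 0 < s.im) :
    riemannZeta s ≠ 0 := by
  intro h
  have h1 : s.re = 1 / 2 := by
    refine hRH s h ?_ (allog_ne_one ht)
    rintro ⟨n, hn⟩
    rw [hn] at ht
    simp at ht
  linarith

private lemma allog_half_re {s : ℂ} (hs : 0 < s.re) : 0 < (s / 2).re := by
  have : (s / 2).re = s.re / 2 := by simp
  rw [this]
  linarith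

private lemma allog_logDeriv_Gammaℝ {s : ℂ} (hs : 0 < s.re) :
    DifferentiableAt ℂ Gammaℝ s ∧
    logDeriv Gammaℝ s = - (Real.log Real.pi : ℂ) / 2 + digamma (s / 2) / 2 := by
  have h0 := allog_half_re hs
  have e : Gammaℝ = fun s : ℂ => exp (-(s / 2) * (Real.log Real.pi : ℂ)) * Gamma (s / 2) := by
    ext s
    rw [Gammaℝ_def, cpow_def_of_ne_zero (by exact_mod_cast Real.pi_ne_zero),
      ← ofReal_log Real.pi_pos.le]
    congr 2
    ring
  have h1 : HasDerivAt (fun s : ℂ => exp (-(s / 2) * (Real.log Real.pi : ℂ)))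
      (exp (-(s / 2) * (Real.log Real.pi : ℂ)) * (-(1 / 2) * (Real.log Real.pi : ℂ))) s :=
    (((hasDerivAt_id s).div_const 2).neg.mul_const _).cexp
  have h2 : HasDerivAt (fun s : ℂ => Gamma (s / 2)) (deriv Gamma (s / 2) * (1 / 2)) s := by
    have h3 : HasDerivAt Gamma (deriv Gamma (s / 2)) (s / 2) :=
      (differentiableAt_Gamma _ (ne_neg_nat h0)).hasDerivAt
    exact h3.comp s ((hasDerivAt_id s).div_const 2)
  have hG : Gamma (s / 2) ≠ 0 := Gamma_ne_zero_of_re_pos h0
  refine ⟨by rw [e]; exact (h1.mul h2).differentiableAt, ?_⟩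
  rw [e, logDeriv_mul (f := fun s : ℂ => exp (-(s / 2) * (Real.log Real.pi : ℂ)))
    (g := fun s : ℂ => Gamma (s / 2)) s (exp_ne_zero _) hG h1.differentiableAt
    h2.differentiableAt, logDeriv_apply, logDeriv_apply, h1.deriv, h2.deriv, mul_div_cancel_left₀ _ (exp_ne_zero _),
    digamma_def, logDeriv_apply]
  ring

/-- The logarithmic derivative of `xi` to the right of the critical line. -/
private lemma AL_log_xi (hRH : RiemannHypothesis) {s : ℂ} (hs : 1 / 2 < s.re)
    (ht : 0 < s.im) : logDeriv xi s = archF s + logDeriv riemannZeta s := by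
  have h0 : s ≠ 0 := allog_ne_zero ht
  have h1 : s ≠ 1 := allog_ne_one ht
  have h1' : (1 : ℂ) - s ≠ 0 := sub_ne_zero.mpr h1.symm
  have hs0 : 0 < s.re := by linarith
  have hGn : Gammaℝ s ≠ 0 := Gammaℝ_ne_zero_of_re_pos hs0
  have hz : riemannZeta s ≠ 0 := allog_zeta_ne hRH hs ht
  have e : xi =ᶠ[𝓝 s] fun s => s * (1 - s) * Gammaℝ s * riemannZeta s := by
    filter_upwards [(isOpen_lt continuous_const continuous_re).mem_nhds hs0,
      (isOpen_lt continuous_const continuous_im).mem_nhds ht] with z hz hz2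
    have hz' : 0 < z.re := hz
    exact xi_eq' (allog_ne_zero hz2) (allog_ne_one hz2) (Gammaℝ_ne_zero_of_re_pos hz')
  have d1 : DifferentiableAt ℂ (fun s : ℂ => s) s := differentiableAt_id
  have d2 : DifferentiableAt ℂ (fun s : ℂ => 1 - s) s := (differentiableAt_const 1).sub d1
  obtain ⟨d3, hGl⟩ := allog_logDeriv_Gammaℝ hs0
  have d4 : DifferentiableAt ℂ riemannZeta s := differentiableAt_riemannZeta h1
  have e2 : logDeriv xi s = logDeriv (fun s => s * (1 - s) * Gammaℝ s * riemannZeta s) s := by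
    rw [logDeriv_apply, logDeriv_apply, e.deriv_eq, e.eq_of_nhds]
  rw [e2, logDeriv_mul (f := fun s : ℂ => s * (1 - s) * Gammaℝ s) (g := riemannZeta) s
      (mul_ne_zero (mul_ne_zero h0 h1') hGn) hz ((d1.mul d2).mul d3) d4,
    logDeriv_mul (f := fun s : ℂ => s * (1 - s)) (g := Gammaℝ) s
      (mul_ne_zero h0 h1') hGn (d1.mul d2) d3,
    logDeriv_mul (f := fun s : ℂ => s) (g := fun s : ℂ => 1 - s) s h0 h1' d1 d2,
    hGl]
  have e3 : logDeriv (fun s : ℂ => s) s = s⁻¹ := by
    rw [logDeriv_apply, deriv_id'', one_div]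
  have e4 : logDeriv (fun s : ℂ => 1 - s) s = (s - 1)⁻¹ := by
    have h5 : HasDerivAt (fun s : ℂ => 1 - s) (-1) s := (hasDerivAt_id s).const_sub 1
    rw [logDeriv_apply, h5.deriv, ← neg_sub s 1, neg_div_neg_eq, one_div]
  rw [e3, e4]
  unfold archF
  ring


/-- MODULE L5a. The logarithmic derivative of `xi` (private lemma `ac_logDeriv_xi` in
`Sg/SgA_c.lean`; copy its proof with the private lemmas it uses). -/
theorem logDeriv_xi_eq (hRH : RiemannHypothesis) {s : ℂ} (hs : 1 / 2 < s.re) (ht : 0 < s.im) :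
    logDeriv xi s = archF s + logDeriv riemannZeta s :=
  AL_log_xi hRH hs ht

theorem zeta_ne_zero_right (hRH : RiemannHypothesis) {s : ℂ} (hs : 1 / 2 < s.re)
    (ht : 0 < s.im) : riemannZeta s ≠ 0 :=
  allog_zeta_ne hRH hs ht

/-- `ζ'/ζ` is differentiable to the right of the critical line. -/
theorem differentiableAt_logDeriv_zeta (hRH : RiemannHypothesis) {s : ℂ} (hs : 1 / 2 < s.re)
    (ht : 0 < s.im) : DifferentiableAt ℂ (logDeriv riemannZeta) s := by
  have h1 : AnalyticAt ℂ riemannZeta s := by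
    have h2 : DifferentiableOn ℂ riemannZeta ({1}ᶜ : Set ℂ) := fun z hz =>
      (differentiableAt_riemannZeta hz).differentiableWithinAt
    exact h2.analyticAt (isOpen_compl_singleton.mem_nhds (allog_ne_one ht))
  exact (h1.deriv.div h1 (allog_zeta_ne hRH hs ht)).differentiableAt

end Pool.Agent.MP_67227b_nt.Al
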