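import Pool.Agent.MP_67227b_nt.Al.AlDefs

set_option autoImplicit false

open Filter Topology Set MeasureTheory Complex
open scoped Real ArithmeticFunction ContDiff

namespace Pool.Agent.MP_67227b_nt.Al

open Pool.Agent.Lib.ZetaCount_helper33 Pool.Agent.MP_67227b_nt Pool.Agent.MP_67227b_nt.Mo
open Pool.Agent.MP_67227b_nt.Sg Pool.Agent.MP_67227b_nt.Pp

/-- MODULE L4a. The coefficients for `E1`: `|j^{-iv}| = 1` for `j ≥ 1`. -/
theorem c1_bound {a : ℕ → ℝ} {A : ℝ} (ha : ∀ n, |a n| ≤ A) (v : ℝ) (N j : ℕ) :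
    ‖c1 a v N j‖ ≤ A * (j : ℝ) ^ 2 := by
  have hA : 0 ≤ A := (abs_nonneg _).trans (ha 0)
  unfold c1
  split_ifs with h
  · have hj : 0 < j := h.1
    have h2 : ‖(j : ℂ) ^ (-((v : ℂ) * I))‖ = 1 := by
      rw [Complex.norm_natCast_cpow_of_pos hj]
      simp
    rw [norm_mul, h2, mul_one, Complex.norm_real, Real.norm_eq_abs]
    have h3 : (1 : ℝ) ≤ (j : ℝ) ^ 2 := by
      have : (1 : ℝ) ≤ j := by exact_mod_cast hj
      exact one_le_pow₀ this
    calc |a j| ≤ A := ha j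
      _ = A * 1 := (mul_one A).symm
      _ ≤ A * (j : ℝ) ^ 2 := mul_le_mul_of_nonneg_left h3 hA
  · rw [norm_zero]
    positivity

/-- The series is a finite sum: `j^{-iv} j^{-s} = j^{-(s+iv)}`. -/
theorem c1_series (a : ℕ → ℝ) (v : ℝ) (N : ℕ) (s : ℂ) :
    HasSum (fun j : ℕ => if j = 0 then 0 else c1 a v N j * (j : ℂ) ^ (-s)) (E1 a v N s) := by
  unfold E1 Aa
  have h1 : ∑ n ∈ Finset.Icc 1 N, (a n : ℂ) * (n : ℂ) ^ (-(s + (v : ℂ) * I)) =
      ∑ n ∈ Finset.Icc 1 N, if n = 0 then 0 else c1 a v N n * (n : ℂ) ^ (-s) := by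
    refine Finset.sum_congr rfl fun n hn => ?_
    rw [Finset.mem_Icc] at hn
    have hn0 : n ≠ 0 := by omega
    have hnC : (n : ℂ) ≠ 0 := by exact_mod_cast hn0
    rw [if_neg hn0]
    unfold c1
    rw [if_pos hn, neg_add, Complex.cpow_add _ _ hnC]
    ring
  rw [h1]
  apply hasSum_sum_of_ne_finset_zero
  intro n hn
  rw [Finset.mem_Icc] at hn
  split_ifs with h0
  · rfl
  · unfold c1
    rw [if_neg hn, zero_mul]

end Pool.Agent.MP_67227b_nt.Al
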