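import Pool.Agent.MP_67227b_nt.Al.AlLine
import Pool.Agent.MP_67227b_nt.Al.AlSer1
import Pool.Agent.MP_67227b_nt.Al.AlDg
import Pool.Agent.MP_67227b_nt.Al.AlDiff
import Pool.Agent.MP_67227b_nt.Al.AlGrow
import Pool.Agent.MP_67227b_nt.Al.AlLeft

set_option autoImplicit false

open Filter Topology Set MeasureTheory Complex
open scoped Real ArithmeticFunction ContDiff

namespace Pool.Agent.MP_67227b_nt.Al

open Pool.Agent.Lib.ZetaCount_helper33 Pool.Agent.MP_67227b_nt Pool.Agent.MP_67227b_nt.Mo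
open Pool.Agent.MP_67227b_nt.Sg Pool.Agent.MP_67227b_nt.Pp

/-- MODULE L7b. The mass: `line_gen` for `E = E1 a v N`, `c = c1 a v N`, `B = A`, `C = 2`
(`c1_bound`, `c1_series`, `differentiable_E1`, `E1_growth`, `Dg_c1`, `Eint_left1`); the integral of
the complex function is the complex number of the real integral
(`intervalIntegral.integral_ofReal`). -/
theorem mean_A {κ θ θ₂ β A ε : ℝ} (hκ : 0 < κ) (hκθ : κ < θ) (hθ : θ < θ₂) (hθ₂ : θ₂ < 1)
    (hβ : 0 < β) (hε : 0 < ε) : ∀ᶠ T : ℝ in atTop, ∀ (a : ℕ → ℝ) (v t₀ : ℝ),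
      (∀ n, |a n| ≤ A) → 0 ≤ v → t₀ ∈ Icc (5 * T / 8) (2 * T) →
      |(∫ t in (t₀ - T ^ θ₂)..(t₀ + T ^ θ₂),
          ‖Aa a ⌊T ^ κ⌋₊ (pl (1 / 2 + β / Real.log T) (t + v))‖ ^ 2 *
            Real.exp (-(((t - t₀) / T ^ θ) ^ 2))) -
        T ^ θ * Real.sqrt π * S0 a (β / Real.log T) ⌊T ^ κ⌋₊| ≤ ε * T ^ θ := by
  have hκ1 : κ ≤ 1 := by linarith
  filter_upwards [line_gen (A := A) (B := A) (C := 2) hκ hκθ hθ hθ₂ hβ hε,
    E1_growth (A := A) (κ := κ) hκ1, eventually_gt_atTop (1 : ℝ)] with T h1 h2 hT a v t₀ ha hv ht₀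
  have hL : 0 < Real.log T := Real.log_pos hT
  have h3 := h1 (E1 a v ⌊T ^ κ⌋₊) (c1 a v ⌊T ^ κ⌋₊) a v t₀ ha (c1_bound ha v _)
    (fun s _ => c1_series a v _ s) (fun s _ _ => (differentiable_E1 a v _).differentiableAt)
    (fun σ t h _ _ _ => h2 a v σ t ha (by
      have : 0 < β / Real.log T := by positivity
      linarith)) hv ht₀
  rw [Dg_c1] at h3
  simp_rw [Eint_left1] at h3
  rw [intervalIntegral.integral_ofReal, ← Complex.ofReal_mul, ← Complex.ofReal_sub,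
    Complex.norm_real] at h3
  exact h3

end Pool.Agent.MP_67227b_nt.Al
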