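import Pool.Agent.MP_67227b_nt.Al.AlDefs

set_option autoImplicit false

open Filter Topology Set MeasureTheory Complex
open scoped Real ArithmeticFunction ContDiff

namespace Pool.Agent.MP_67227b_nt.Al

open Pool.Agent.Lib.ZetaCount_helper33 Pool.Agent.MP_67227b_nt Pool.Agent.MP_67227b_nt.Mo
open Pool.Agent.MP_67227b_nt.Sg Pool.Agent.MP_67227b_nt.Pp

/-- MODULE L4b. `‖c2 j‖ ≤ A ∑_{n | j} Λ(n) = A log j ≤ A j ≤ A j²`
(`ArithmeticFunction.vonMangoldt_sum`). -/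
theorem c2_bound {a : ℕ → ℝ} {A : ℝ} (ha : ∀ n, |a n| ≤ A) (y v : ℝ) (N j : ℕ) :
    ‖c2 y a v N j‖ ≤ A * (j : ℝ) ^ 2 := by
  have hA : 0 ≤ A := (abs_nonneg _).trans (ha 0)
  unfold c2
  rw [norm_neg]
  rcases Nat.eq_zero_or_pos j with h0 | h0
  · subst h0
    simp
  have hterm : ∀ p ∈ j.divisorsAntidiagonal,
      ‖((Λ p.1 : ℝ) : ℂ) * (p.1 : ℂ) ^ (-((y : ℂ) * I)) * c1 a v N p.2‖ ≤ Λ p.1 * A := by
    rintro ⟨p1, p2⟩ hp
    rw [Nat.mem_divisorsAntidiagonal] at hp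
    obtain ⟨hp, hj0⟩ := hp
    simp only at hp ⊢
    have hp1 : 0 < p1 := by
      rcases Nat.eq_zero_or_pos p1 with h | h
      · rw [h, zero_mul] at hp
        exact absurd hp.symm hj0
      · exact h
    have h1 : ‖((Λ p1 : ℝ) : ℂ)‖ = Λ p1 := by
      rw [Complex.norm_real, Real.norm_eq_abs, abs_of_nonneg ArithmeticFunction.vonMangoldt_nonneg]
    have h2 : ‖(p1 : ℂ) ^ (-((y : ℂ) * I))‖ = 1 := by
      rw [Complex.norm_natCast_cpow_of_pos hp1]
      simp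
    have h3 : ‖c1 a v N p2‖ ≤ A := by
      unfold c1
      split_ifs with h
      · have hp2 : 0 < p2 := h.1
        have h4 : ‖(p2 : ℂ) ^ (-((v : ℂ) * I))‖ = 1 := by
          rw [Complex.norm_natCast_cpow_of_pos hp2]
          simp
        rw [norm_mul, h4, mul_one, Complex.norm_real, Real.norm_eq_abs]
        exact ha p2
      · rw [norm_zero]
        exact hA
    rw [norm_mul, norm_mul, h1, h2, mul_one]
    exact mul_le_mul_of_nonneg_left h3 ArithmeticFunction.vonMangoldt_nonneg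
  have hjr : (1 : ℝ) ≤ j := by exact_mod_cast h0
  have hlog : Real.log j ≤ (j : ℝ) ^ 2 := by
    have h1 := Real.log_le_sub_one_of_pos (show (0 : ℝ) < j by linarith)
    nlinarith
  calc _ ≤ ∑ p ∈ j.divisorsAntidiagonal, Λ p.1 * A := norm_sum_le_of_le _ hterm
    _ = (∑ p ∈ j.divisorsAntidiagonal, Λ p.1) * A := by rw [Finset.sum_mul]
    _ = (∑ d ∈ j.divisors, Λ d) * A := by
        rw [Nat.sum_divisorsAntidiagonal (fun d _ => Λ d)]
    _ = Real.log j * A := by rw [ArithmeticFunction.vonMangoldt_sum]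
    _ ≤ (j : ℝ) ^ 2 * A := mul_le_mul_of_nonneg_right hlog hA
    _ = A * (j : ℝ) ^ 2 := mul_comm _ _

end Pool.Agent.MP_67227b_nt.Al
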