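import Pool.Agent.MP_67227b_nt.Al.AlDefs

set_option autoImplicit false

open Filter Topology Set MeasureTheory Complex
open scoped Real ArithmeticFunction ContDiff

namespace Pool.Agent.MP_67227b_nt.Al

open Pool.Agent.Lib.ZetaCount_helper33 Pool.Agent.MP_67227b_nt Pool.Agent.MP_67227b_nt.Mo
open Pool.Agent.MP_67227b_nt.Sg Pool.Agent.MP_67227b_nt.Pp

open LSeries in
/-- MODULE L4c. The Dirichlet series of `ζ'/ζ(s+iy) A(s+iv)`: for `Re s > 1`,
`logDeriv ζ (s+iy) = -∑ Λ(n) n^{-iy} n^{-s}` (Mathlib: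
`ArithmeticFunction.LSeries_vonMangoldt_eq_deriv_riemannZeta_div`), and `A(s+iv)` is a finite
Dirichlet series; the product is the series of the convolution (see `Sg.cf_series`, Sg/SgS*.lean, and
`Pp.ca_series`, Pp/PpCa.lean, where the convolution of L-series is used in the same way). -/
theorem c2_series (y : ℝ) (a : ℕ → ℝ) (v : ℝ) (N : ℕ) {s : ℂ} (hs : 3 < s.re) :
    HasSum (fun j : ℕ => if j = 0 then 0 else c2 y a v N j * (j : ℂ) ^ (-s)) (E2 y a v N s) := by
  obtain ⟨z, hz⟩ : ∃ z : ℂ, z = s + (y : ℂ) * I := ⟨_, rfl⟩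
  have hzre : 1 < z.re := by
    rw [hz]
    simp only [Complex.add_re, Complex.mul_re, Complex.ofReal_re, Complex.I_re, Complex.ofReal_im,
      Complex.I_im]
    linarith
  -- the finite Dirichlet series
  have hfs : LSeriesHasSum (c1 a v N) s (Aa a N (s + (v : ℂ) * I)) := by
    unfold LSeriesHasSum Aa
    have h1 : ∑ n ∈ Finset.Icc 1 N, (a n : ℂ) * (n : ℂ) ^ (-(s + (v : ℂ) * I)) =
        ∑ n ∈ Finset.Icc 1 N, LSeries.term (c1 a v N) s n := by
      refine Finset.sum_congr rfl fun n hn => ?_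
      rw [Finset.mem_Icc] at hn
      have hn0 : n ≠ 0 := by omega
      have hnC : (n : ℂ) ≠ 0 := by exact_mod_cast hn0
      rw [LSeries.term_of_ne_zero hn0]
      unfold c1
      rw [if_pos hn, neg_add, Complex.cpow_add _ _ hnC, Complex.cpow_neg _ s, div_eq_mul_inv]
      ring
    rw [h1]
    apply hasSum_sum_of_ne_finset_zero
    intro n hn
    rw [Finset.mem_Icc] at hn
    rcases Nat.eq_zero_or_pos n with h0 | h0
    · rw [h0, LSeries.term_zero]
    · rw [LSeries.term_of_ne_zero (by omega)]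
      unfold c1
      rw [if_neg hn, zero_div]
  -- the logarithmic derivative
  obtain ⟨g, hg⟩ : ∃ g : ℕ → ℂ, g = fun n : ℕ => ((Λ n : ℝ) : ℂ) * (n : ℂ) ^ (-((y : ℂ) * I)) :=
    ⟨_, rfl⟩
  have hL := (ArithmeticFunction.LSeriesSummable_vonMangoldt hzre).LSeriesHasSum
  rw [ArithmeticFunction.LSeries_vonMangoldt_eq_deriv_riemannZeta_div hzre] at hL
  have hgs : LSeriesHasSum g s (-deriv riemannZeta z / riemannZeta z) := by
    have hterm : LSeries.term g s = LSeries.term (fun n => ((Λ n : ℝ) : ℂ)) z := by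
      ext n
      rcases Nat.eq_zero_or_pos n with h0 | h0
      · rw [h0, LSeries.term_zero, LSeries.term_zero]
      · have hn0 : n ≠ 0 := by omega
        have hnC : (n : ℂ) ≠ 0 := by exact_mod_cast hn0
        rw [LSeries.term_of_ne_zero hn0, LSeries.term_of_ne_zero hn0, hg, hz,
          Complex.cpow_add _ _ hnC]
        simp only
        rw [Complex.cpow_neg]
        have h3 : (n : ℂ) ^ ((y : ℂ) * I) ≠ 0 := fun h => hnC ((Complex.cpow_eq_zero_iff _ _).1 h).1
        have h4 : (n : ℂ) ^ s ≠ 0 := fun h => hnC ((Complex.cpow_eq_zero_iff _ _).1 h).1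
        field_simp
    unfold LSeriesHasSum
    rw [hterm]
    exact hL
  have hfin := hgs.convolution hfs
  unfold LSeriesHasSum at hfin
  have e2 : (fun j : ℕ => if j = 0 then 0 else c2 y a v N j * (j : ℂ) ^ (-s)) =
      fun j => -(LSeries.term (LSeries.convolution g (c1 a v N)) s j) := by
    ext j
    rcases Nat.eq_zero_or_pos j with h0 | h0
    · rw [h0, LSeries.term_zero, if_pos rfl, neg_zero]
    · have hj0 : j ≠ 0 := by omega
      rw [LSeries.term_of_ne_zero hj0, if_neg hj0, Complex.cpow_neg, ← div_eq_mul_inv, ← neg_div]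
      congr 1
      rw [LSeries.convolution_def]
      unfold c2
      rw [hg]
  rw [e2]
  have e1 : E2 y a v N s = -(-deriv riemannZeta z / riemannZeta z * Aa a N (s + (v : ℂ) * I)) := by
    unfold E2
    rw [logDeriv_apply, ← hz]
    ring
  rw [e1]
  exact hfin.neg

end Pool.Agent.MP_67227b_nt.Al
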