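import Pool.Agent.MP_67227b_nt.Al.AlLine
import Pool.Agent.MP_67227b_nt.Al.AlSer2
import Pool.Agent.MP_67227b_nt.Al.AlSer3
import Pool.Agent.MP_67227b_nt.Al.AlDg
import Pool.Agent.MP_67227b_nt.Al.AlDiff
import Pool.Agent.MP_67227b_nt.Al.AlGrow
import Pool.Agent.MP_67227b_nt.Al.AlLeft
import Pool.Agent.MP_67227b_nt.Al.AlSer1

set_option autoImplicit false

open Filter Topology Set MeasureTheory Complex
open scoped Real ArithmeticFunction ContDiff

namespace Pool.Agent.MP_67227b_nt.Al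

open Pool.Agent.Lib.ZetaCount_helper33 Pool.Agent.MP_67227b_nt Pool.Agent.MP_67227b_nt.Mo
open Pool.Agent.MP_67227b_nt.Sg Pool.Agent.MP_67227b_nt.Pp

/-- MODULE L7c. The logarithmic derivative: `line_gen` for `E = E2 y a v N`, `c = c2 y a v N`, `B = A`,
`C = 3` (`c2_bound`, `c2_series`, `differentiableAt_E2`, `E2_growth`, `Dg_c2`, `Eint_left2`), real
parts. -/
theorem mean_L (hRH : RiemannHypothesis) {κ θ θ₂ β A ε : ℝ} (hκ : 0 < κ) (hκθ : κ < θ)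
    (hθ : θ < θ₂) (hθ₂ : θ₂ < 1) (hβ : 0 < β) (hε : 0 < ε) :
    ∀ᶠ T : ℝ in atTop, ∀ (a : ℕ → ℝ) (v y t₀ : ℝ),
      (∀ n, |a n| ≤ A) → 0 ≤ v → 0 ≤ y → y ≤ 1 → t₀ ∈ Icc (5 * T / 8) (2 * T) →
      |(∫ t in (t₀ - T ^ θ₂)..(t₀ + T ^ θ₂),
          (logDeriv riemannZeta (pl (1 / 2 + β / Real.log T) (t + y))).re *
            (‖Aa a ⌊T ^ κ⌋₊ (pl (1 / 2 + β / Real.log T) (t + v))‖ ^ 2 *
              Real.exp (-(((t - t₀) / T ^ θ) ^ 2)))) -
        T ^ θ * Real.sqrt π * S1y y a v (β / Real.log T) ⌊T ^ κ⌋₊| ≤ ε * T ^ θ := by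
  have hκ1 : κ ≤ 1 := by linarith
  have hθ0 : 0 < θ₂ := by linarith
  have hX : ∀ᶠ T : ℝ in atTop, T ^ θ₂ ≤ T / 2 := by
    have h := (tendsto_rpow_atTop (y := 1 - θ₂) (by linarith)).eventually_ge_atTop 2
    filter_upwards [h, eventually_gt_atTop (0 : ℝ)] with T h1 h2
    have h3 : T ^ (1 - θ₂) * T ^ θ₂ = T := by
      rw [← Real.rpow_add h2]
      simp
    have h4 : 0 < T ^ θ₂ := Real.rpow_pos_of_pos h2 _
    nlinarith
  filter_upwards [line_gen (A := A) (B := A) (C := 3) hκ hκθ hθ hθ₂ hβ hε,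
    E2_growth hRH (A := A) (κ := κ) hκ1 hβ, eventually_gt_atTop (1 : ℝ), hX]
    with T h1 h2 hT hX a v y t₀ ha hv hy hy1 ht₀
  have hL : 0 < Real.log T := Real.log_pos hT
  have hb : 0 < β / Real.log T := by positivity
  have h3 := h1 (E2 y a v ⌊T ^ κ⌋₊) (c2 y a v ⌊T ^ κ⌋₊) a v t₀ ha (c2_bound ha y v _)
    (fun s hs => c2_series y a v _ hs) (fun s hs ht => differentiableAt_E2 hRH hy a v _ hs ht)
    (fun σ t e1 e2 e3 e4 => h2 a v y σ t ha hy hy1 e1 e2 e3 e4) hv ht₀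
  have hcont : ContinuousOn (fun t : ℝ => Eint (E2 y a v ⌊T ^ κ⌋₊) a v (β / Real.log T) t₀ (T ^ θ)
      ⌊T ^ κ⌋₊ (pl (1 / 2 + β / Real.log T) t)) (uIcc (t₀ - T ^ θ₂) (t₀ + T ^ θ₂)) := by
    intro t ht
    have h4 : 0 ≤ T ^ θ₂ := Real.rpow_nonneg (by linarith) _
    rw [uIcc_of_le (by linarith)] at ht
    have ht0 : 0 < t := by
      have := ht.1
      have := ht₀.1
      linarith
    have hpl : Continuous fun t : ℝ => pl (1 / 2 + β / Real.log T) t := by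
      unfold pl
      fun_prop
    have e1 : ContinuousAt (fun t : ℝ => E2 y a v ⌊T ^ κ⌋₊ (pl (1 / 2 + β / Real.log T) t)) t := by
      refine ContinuousAt.comp (g := E2 y a v ⌊T ^ κ⌋₊) ?_ hpl.continuousAt
      refine (differentiableAt_E2 hRH hy a v _ ?_ ?_).continuousAt
      · rw [pl_re]; linarith
      · rw [pl_im]; exact ht0
    have e2 : Continuous fun t : ℝ => Aa a ⌊T ^ κ⌋₊ (1 + 2 * ((β / Real.log T : ℝ) : ℂ) -
        (pl (1 / 2 + β / Real.log T) t) - (v : ℂ) * I) :=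
      (differentiable_Aa a _).continuous.comp (by fun_prop)
    have e3 : Continuous fun t : ℝ => Wg (T ^ θ) (β / Real.log T) t₀
        (pl (1 / 2 + β / Real.log T) t) := by
      unfold Wg
      fun_prop
    exact ((e1.mul e2.continuousAt).mul e3.continuousAt).continuousWithinAt
  have hint : IntervalIntegrable (fun t : ℝ => Eint (E2 y a v ⌊T ^ κ⌋₊) a v (β / Real.log T) t₀
      (T ^ θ) ⌊T ^ κ⌋₊ (pl (1 / 2 + β / Real.log T) t)) volume (t₀ - T ^ θ₂) (t₀ + T ^ θ₂) :=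
    hcont.intervalIntegrable
  have hre := Complex.reCLM.intervalIntegral_comp_comm hint
  have h5 := (Complex.abs_re_le_norm _).trans h3
  rw [Complex.sub_re, Complex.re_ofReal_mul, Dg_c2] at h5
  have h6 : (∫ t in (t₀ - T ^ θ₂)..(t₀ + T ^ θ₂),
      Eint (E2 y a v ⌊T ^ κ⌋₊) a v (β / Real.log T) t₀ (T ^ θ) ⌊T ^ κ⌋₊
        (pl (1 / 2 + β / Real.log T) t)).re = ∫ t in (t₀ - T ^ θ₂)..(t₀ + T ^ θ₂),
          (logDeriv riemannZeta (pl (1 / 2 + β / Real.log T) (t + y))).re *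
            (‖Aa a ⌊T ^ κ⌋₊ (pl (1 / 2 + β / Real.log T) (t + v))‖ ^ 2 *
              Real.exp (-(((t - t₀) / T ^ θ) ^ 2))) := by
    rw [← Complex.reCLM_apply, ← hre]
    refine intervalIntegral.integral_congr fun t _ => ?_
    simp only [Complex.reCLM_apply]
    rw [Eint_left2, Complex.re_mul_ofReal]
  rw [h6] at h5
  exact h5

end Pool.Agent.MP_67227b_nt.Al
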