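import Pool.Agent.MP_67227b_nt.Al.AlThMk
import Pool.Agent.MP_67227b_nt.Al.AlApN

set_option autoImplicit false

open Filter Topology Set MeasureTheory Complex
open scoped Real ArithmeticFunction ContDiff

namespace Pool.Agent.MP_67227b_nt.Al

open Pool.Agent.Lib.ZetaCount_helper33 Pool.Agent.MP_67227b_nt Pool.Agent.MP_67227b_nt.Mo
open Pool.Agent.MP_67227b_nt.Sg Pool.Agent.MP_67227b_nt.Pp

private lemma msal_pl_cont (σ a : ℝ) : Continuous (fun t : ℝ => pl σ (t + a)) := by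
  unfold pl
  fun_prop

private lemma msal_sumQ (hRH : RiemannHypothesis) {η β : ℝ} (hη : 0 < η) (hβ : 0 < β)
    (F : Finset ℕ) : (∀ i ∈ F, 1 ≤ i ∧ ((i : ℝ) + 2) * η < 1) → ∃ C : ℝ, 0 < C ∧
      ∀ᶠ T : ℝ in atTop, ∀ t ∈ Icc (T / 4) (4 * T),
        ∑ i ∈ F, ‖Qi T η i (pl (1 / 2 + β / Real.log T) t)‖ ≤ C + C * Mk (Real.log T) 1 t := by
  classical
  refine Finset.induction_on F ?_ ?_
  · intro _
    refine ⟨1, one_pos, Eventually.of_forall fun T t _ => ?_⟩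
    rw [Finset.sum_empty]
    have := Mk_nonneg (Real.log T) 1 t
    linarith
  · intro i F hi ih hF
    obtain ⟨C0, hC0, h0⟩ := ih fun j hj => hF j (Finset.mem_insert_of_mem hj)
    obtain ⟨C1, hC1, h1⟩ := Qi_le hRH hη hβ (hF i (Finset.mem_insert_self i F)).1
      (hF i (Finset.mem_insert_self i F)).2
    refine ⟨C1 + C0, by positivity, ?_⟩
    filter_upwards [h0, h1] with T hT0 hT1 t ht
    rw [Finset.sum_insert hi]
    have := hT0 t ht
    have := hT1 t ht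
    nlinarith

/-- MODULE H2. Mean square. As in `Pp.mean_sq_w` (Ppw/PpwMean.lean; copy `meanw_sumQ`):
`‖Apa‖ ≤ exp (M (C + C Mk L 1 (t + πu/L))) ≤ exp (C₁ + C₁ Mk L 1 t)` for `t ∈ [T/2, 3T]`
(`norm_Apa_le`, `Pp.Qi_le`, `Pp.Mk_shift`), `Th + |ρ| π ≤ C (1 + Mk L 1 t) ≤ C exp (Mk L 1 t)`
(`Th_le_Mk`), so the integrand is at most `C₂ exp (lam Mk L 1 t)`, and `Pp.exp_int_w` with
`Pp.LD_Mk`, `Pp.Mk_log`. -/
theorem mean_sq_al (hRH : RiemannHypothesis) {u β κ η ρ M : ℝ} {a : ℕ → ℝ} (hu : 0 < u)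
    (hβ : 0 < β) (hκ1 : κ < 1) (hη : 0 < η) (hM : ∀ i, |a i| ≤ M) {i0 i1 K : ℕ} (hi0 : 1 ≤ i0)
    {θ : ℝ} (hθ : 0 < θ) (hθ1 : θ ≤ 1) :
    ∃ C : ℝ, 0 < C ∧ ∀ᶠ T : ℝ in atTop, ∀ A H : ℝ, T / 2 ≤ A → T ^ θ ≤ H → A + H ≤ 3 * T →
      ∫ t in A..(A + H), ((Th (2 * π * u / Real.log T) (β / Real.log T) t + |ρ| * π) *
        ‖Apa a T η κ i0 i1 K (pl (1 / 2 + β / Real.log T) (t + π * u / Real.log T))‖ ^ 2) ^ 2 ≤
        C * H := by
  classical
  have hM0 : 0 ≤ M := (abs_nonneg _).trans (hM 0)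
  have hpi : 0 < π := Real.pi_pos
  set F : Finset ℕ := (Finset.Ico i0 i1).filter (fun i : ℕ => ((i : ℝ) + 2) * η ≤ κ) with hF
  obtain ⟨C0, hC0, hQ⟩ := msal_sumQ hRH hη hβ F (by
    intro i hi
    rw [hF, Finset.mem_filter, Finset.mem_Ico] at hi
    exact ⟨hi0.trans hi.1.1, lt_of_le_of_lt hi.2 hκ1⟩)
  obtain ⟨CT, hCT, hTh⟩ := Th_le_Mk hRH hu hβ
  set A₁ : ℝ := π * u with hA₁
  have hA₁0 : 0 < A₁ := by positivity
  set C1 : ℝ := C0 * (2 + 2 * A₁ ^ 2) with hC1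
  have hC10 : 0 < C1 := by positivity
  set D : ℝ := CT + |ρ| * π with hD
  have hD0 : 0 < D := by positivity
  -- the exponential moment
  obtain ⟨CM, hCM, hMlog⟩ := Mk_log hRH
  have hlog0 : ∀ᶠ T : ℝ in atTop, 0 < Real.log T := by
    filter_upwards [eventually_gt_atTop (1 : ℝ)] with T hT
    exact Real.log_pos hT
  have hMexp := exp_int_w (LD_Mk hRH) (by
      filter_upwards [hlog0] with T hT
      exact (continuous_Mk hRH hT one_pos).continuousOn) ⟨CM, by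
      filter_upwards [hMlog, eventually_gt_atTop (0 : ℝ)] with T hT hT0 t ht
      exact hT t (by linarith [ht.1]) (by linarith [ht.2])⟩ (lam := 2 + 4 * M * C1)
      (by positivity) hθ hθ1
  obtain ⟨K2, hK2, hMe⟩ := hMexp
  refine ⟨D ^ 2 * Real.exp (4 * (M * C0)) * K2, by positivity, ?_⟩
  filter_upwards [hQ, hMe, eventually_ge_atTop (Real.exp 1), eventually_ge_atTop (4 : ℝ),
    eventually_ge_atTop (A₁ : ℝ)] with T hQT hMT₀ hTe hT4 hTA A H hA hTH hAH
  have hMT := hMT₀ A H hA hTH hAH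
  have hH0 : 0 < H := lt_of_lt_of_le (Real.rpow_pos_of_pos (by linarith) _) hTH
  have hT0 : 0 < T := by linarith
  have hL1 : 1 ≤ Real.log T := by
    rw [Real.le_log_iff_exp_le hT0]
    exact hTe
  have hL0 : 0 < Real.log T := by linarith
  have hTh' := hTh T (by linarith)
  set L := Real.log T with hL
  have hα0 : 0 ≤ A₁ / L := by positivity
  have hα1 : A₁ / L ≤ A₁ := div_le_self hA₁0.le hL1
  have hb0 : 0 < β / L := by positivity
  have hpt : ∀ t ∈ Icc A (A + H),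
      ((Th (2 * π * u / L) (β / L) t + |ρ| * π) *
        ‖Apa a T η κ i0 i1 K (pl (1 / 2 + β / L) (t + A₁ / L))‖ ^ 2) ^ 2 ≤
      D ^ 2 * Real.exp (4 * (M * C0)) * Real.exp ((2 + 4 * M * C1) * Mk L 1 t) := by
    intro t ht
    have hMk := Mk_nonneg L 1 t
    set x := Th (2 * π * u / L) (β / L) t + |ρ| * π with hx
    have hx0 : 0 ≤ x := by
      have h0 := Th_nonneg hRH (α := 2 * π * u / L) (b := β / L) (by positivity) hb0 t
      positivity
    have hxD : x ≤ D * Real.exp (Mk L 1 t) := by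
      have h0 := hTh' t
      have h1 : Mk L 1 t + 1 ≤ Real.exp (Mk L 1 t) := Real.add_one_le_exp _
      have h2 : x ≤ D * (Mk L 1 t + 1) := by
        rw [hx, hD]
        have h3 : 0 ≤ |ρ| * π * Mk L 1 t := by positivity
        have h4 : (CT + |ρ| * π) * (Mk L 1 t + 1) =
          CT * Mk L 1 t + |ρ| * π * Mk L 1 t + CT + |ρ| * π := by ring
        rw [h4]
        linarith
      exact h2.trans (mul_le_mul_of_nonneg_left h1 hD0.le)
    have h1 := hQT (t + A₁ / L) ⟨by linarith [ht.1, hA], by linarith [ht.2, hAH]⟩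
    have h2 := Mk_shift hRH (L := L) (k := 1) (A := A₁) (y := A₁ / L) (t := t) hL0 le_rfl hA₁0.le
      (by rw [abs_of_nonneg hα0])
    have h3 := norm_Apa_le (T := T) (κ := κ) hη hM i0 i1 K (pl (1 / 2 + β / L) (t + A₁ / L))
    have h4 : ‖Apa a T η κ i0 i1 K (pl (1 / 2 + β / L) (t + A₁ / L))‖ ≤
        Real.exp (M * (C0 + C1 * Mk L 1 t)) := by
      refine h3.trans (Real.exp_le_exp.mpr ?_)
      refine mul_le_mul_of_nonneg_left (h1.trans ?_) hM0
      rw [hC1]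
      have := mul_le_mul_of_nonneg_left h2 hC0.le
      linarith
    set y := ‖Apa a T η κ i0 i1 K (pl (1 / 2 + β / L) (t + A₁ / L))‖ with hy
    have hy0 : 0 ≤ y := norm_nonneg _
    have h5 : y ^ 4 ≤ Real.exp (4 * (M * C0)) * Real.exp (4 * M * C1 * Mk L 1 t) := by
      have := pow_le_pow_left₀ hy0 h4 4
      refine this.trans (le_of_eq ?_)
      rw [← Real.exp_nat_mul, ← Real.exp_add]
      congr 1
      push_cast
      ring
    have h6 : x ^ 2 ≤ D ^ 2 * Real.exp (2 * Mk L 1 t) := by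
      have := pow_le_pow_left₀ hx0 hxD 2
      refine this.trans (le_of_eq ?_)
      rw [mul_pow, ← Real.exp_nat_mul]
      push_cast
      ring
    have h9 : (x * y ^ 2) ^ 2 = x ^ 2 * y ^ 4 := by ring
    rw [h9]
    calc x ^ 2 * y ^ 4 ≤ (D ^ 2 * Real.exp (2 * Mk L 1 t)) *
          (Real.exp (4 * (M * C0)) * Real.exp (4 * M * C1 * Mk L 1 t)) :=
          mul_le_mul h6 h5 (by positivity) (by positivity)
      _ = D ^ 2 * Real.exp (4 * (M * C0)) *
          (Real.exp (2 * Mk L 1 t) * Real.exp (4 * M * C1 * Mk L 1 t)) := by ring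
      _ = D ^ 2 * Real.exp (4 * (M * C0)) * Real.exp ((2 + 4 * M * C1) * Mk L 1 t) := by
          rw [← Real.exp_add]
          congr 2
          ring
  have hc2 : Continuous (fun t : ℝ => Real.exp ((2 + 4 * M * C1) * Mk L 1 t)) :=
    (continuous_const.mul (continuous_Mk hRH hL0 one_pos)).rexp
  have hc3 : Continuous (fun t : ℝ => Apa a T η κ i0 i1 K (pl (1 / 2 + β / L) (t + A₁ / L))) :=
    (continuous_Apa a T η κ i0 i1 K).comp (msal_pl_cont _ _)
  have hc4 : Continuous (Th (2 * π * u / L) (β / L)) := continuous_Th hRH hb0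
  have hle : A ≤ A + H := by linarith
  have hi2 : IntervalIntegrable (fun t : ℝ => Real.exp ((2 + 4 * M * C1) * Mk L 1 t)) volume
      A (A + H) := hc2.intervalIntegrable _ _
  have hi3 : IntervalIntegrable (fun t : ℝ => ((Th (2 * π * u / L) (β / L) t + |ρ| * π) *
      ‖Apa a T η κ i0 i1 K (pl (1 / 2 + β / L) (t + A₁ / L))‖ ^ 2) ^ 2) volume A (A + H) :=
    (((hc4.add continuous_const).mul (hc3.norm.pow 2)).pow 2).intervalIntegrable _ _
  calc ∫ t in A..(A + H), ((Th (2 * π * u / L) (β / L) t + |ρ| * π) *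
      ‖Apa a T η κ i0 i1 K (pl (1 / 2 + β / L) (t + A₁ / L))‖ ^ 2) ^ 2
      ≤ ∫ t in A..(A + H), D ^ 2 * Real.exp (4 * (M * C0)) *
          Real.exp ((2 + 4 * M * C1) * Mk L 1 t) :=
        intervalIntegral.integral_mono_on hle hi3 (hi2.const_mul _) hpt
    _ = D ^ 2 * Real.exp (4 * (M * C0)) *
          ∫ t in A..(A + H), Real.exp ((2 + 4 * M * C1) * Mk L 1 t) := by
        rw [intervalIntegral.integral_const_mul]
    _ ≤ D ^ 2 * Real.exp (4 * (M * C0)) * (K2 * H) :=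
        mul_le_mul_of_nonneg_left hMT (by positivity)
    _ = D ^ 2 * Real.exp (4 * (M * C0)) * K2 * H := by ring

end Pool.Agent.MP_67227b_nt.Al
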