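import Pool.Agent.MP_67227b_nt.Al.AlMeanA
import Pool.Agent.MP_67227b_nt.Al.AlMeanL
import Pool.Agent.MP_67227b_nt.Al.AlArch

set_option autoImplicit false

open Filter Topology Set MeasureTheory Complex
open scoped Real ArithmeticFunction ContDiff

namespace Pool.Agent.MP_67227b_nt.Al

open Pool.Agent.Lib.ZetaCount_helper33 Pool.Agent.MP_67227b_nt Pool.Agent.MP_67227b_nt.Mo
open Pool.Agent.MP_67227b_nt.Sg Pool.Agent.MP_67227b_nt.Pp

/-- the logarithmic derivative on a vertical half line is continuous -/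
private lemma mt_G (hRH : RiemannHypothesis) {σ : ℝ} (hσ : 1 / 2 < σ) :
    ContinuousOn (fun x : ℝ => (logDeriv riemannZeta (pl σ x)).re) (Ioi 0) := by
  intro x hx
  have h1 : DifferentiableAt ℂ (logDeriv riemannZeta) (pl σ x) :=
    differentiableAt_logDeriv_zeta hRH (by rw [pl_re]; exact hσ) (by rw [pl_im]; exact hx)
  have h2 : ContinuousAt (fun x : ℝ => pl σ x) x := by
    unfold pl
    fun_prop
  have h3 : ContinuousAt (fun x : ℝ => logDeriv riemannZeta (pl σ x)) x :=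
    ContinuousAt.comp (f := fun x : ℝ => pl σ x) h1.continuousAt h2
  exact (Complex.continuous_re.continuousAt.comp h3).continuousWithinAt

/-- the weight is continuous and nonnegative -/
private lemma mt_W (a : ℕ → ℝ) (N : ℕ) (σ v t₀ Δ : ℝ) :
    Continuous (fun t : ℝ => ‖Aa a N (pl σ (t + v))‖ ^ 2 *
      Real.exp (-(((t - t₀) / Δ) ^ 2))) := by
  have h1 : Continuous (Aa a N) := (differentiable_Aa a N).continuous
  have h2 : Continuous (fun t : ℝ => pl σ (t + v)) := by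
    unfold pl
    fun_prop
  have h3 : Continuous (fun t : ℝ => Aa a N (pl σ (t + v))) := h1.comp h2
  fun_prop

/-- interchange of the integrations -/
private lemma mt_swap {G W : ℝ → ℝ} {c d α : ℝ} (hc : 0 < c) (hcd : c ≤ d) (hα : 0 ≤ α)
    (hG : ContinuousOn G (Ioi 0)) (hW : Continuous W) :
    IntervalIntegrable (fun t => (∫ y in (0 : ℝ)..α, G (t + y)) * W t) volume c d ∧
    IntervalIntegrable (fun y => ∫ t in c..d, G (t + y) * W t) volume 0 α ∧
    ∫ t in c..d, (∫ y in (0 : ℝ)..α, G (t + y)) * W t =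
      ∫ y in (0 : ℝ)..α, ∫ t in c..d, G (t + y) * W t := by
  set F : ℝ → ℝ := fun x => G (max x c) with hF
  have hFc : Continuous F := by
    rw [continuous_iff_continuousAt]
    intro x
    have h1 : ContinuousAt G (max x c) := hG.continuousAt (Ioi_mem_nhds (lt_max_of_lt_right hc))
    exact ContinuousAt.comp (f := fun x : ℝ => max x c) h1 (by fun_prop)
  have hFG : ∀ x, c ≤ x → F x = G x := fun x hx => by simp only [hF, max_eq_left hx]
  have e1 : ∀ t ∈ uIcc c d, (∫ y in (0 : ℝ)..α, G (t + y)) * W t =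
      (∫ y in (0 : ℝ)..α, F (t + y)) * W t := by
    intro t ht
    rw [uIcc_of_le hcd] at ht
    congr 1
    apply intervalIntegral.integral_congr
    intro y hy
    rw [uIcc_of_le hα] at hy
    exact (hFG _ (by linarith [ht.1, hy.1])).symm
  have e2 : ∀ y ∈ uIcc (0 : ℝ) α, (∫ t in c..d, G (t + y) * W t) =
      ∫ t in c..d, F (t + y) * W t := by
    intro y hy
    rw [uIcc_of_le hα] at hy
    apply intervalIntegral.integral_congr
    intro t ht
    rw [uIcc_of_le hcd] at ht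
    simp only
    rw [hFG _ (by linarith [ht.1, hy.1])]
  have c1 : Continuous (fun t => (∫ y in (0 : ℝ)..α, F (t + y)) * W t) := by
    refine Continuous.mul ?_ hW
    apply intervalIntegral.continuous_parametric_intervalIntegral_of_continuous'
    show Continuous fun p : ℝ × ℝ => F (p.1 + p.2)
    fun_prop
  have c2 : Continuous (fun y => ∫ t in c..d, F (t + y) * W t) := by
    apply intervalIntegral.continuous_parametric_intervalIntegral_of_continuous'
    show Continuous fun p : ℝ × ℝ => F (p.2 + p.1) * W p.2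
    fun_prop
  refine ⟨?_, ?_, ?_⟩
  · exact (c1.intervalIntegrable c d).congr_ae (by
      refine (ae_restrict_iff' measurableSet_uIoc).2 (Filter.Eventually.of_forall fun t ht => ?_)
      exact (e1 t (uIoc_subset_uIcc ht)).symm)
  · exact (c2.intervalIntegrable 0 α).congr_ae (by
      refine (ae_restrict_iff' measurableSet_uIoc).2 (Filter.Eventually.of_forall fun y hy => ?_)
      exact (e2 y (uIoc_subset_uIcc hy)).symm)
  · rw [intervalIntegral.integral_congr e1, intervalIntegral.integral_congr e2]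
    have e3 : ∀ t, (∫ y in (0 : ℝ)..α, F (t + y)) * W t = ∫ y in (0 : ℝ)..α, F (t + y) * W t :=
      fun t => (intervalIntegral.integral_mul_const _ _).symm
    simp only [e3]
    simp only [intervalIntegral.integral_of_le hcd, intervalIntegral.integral_of_le hα]
    apply integral_integral_swap
    have hcc : Continuous (Function.uncurry fun t y => F (t + y) * W t) := by
      unfold Function.uncurry
      fun_prop
    have : IntegrableOn (Function.uncurry fun t y => F (t + y) * W t)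
        (Icc c d ×ˢ Icc 0 α) (volume.prod volume) :=
      hcc.continuousOn.integrableOn_compact (isCompact_Icc.prod isCompact_Icc)
    have h8 := this.mono_set (prod_mono Ioc_subset_Icc_self Ioc_subset_Icc_self)
    rw [IntegrableOn, ← Measure.prod_restrict] at h8
    exact h8

/-- the deterministic part -/
private lemma mt_det (hRH : RiemannHypothesis) {a : ℕ → ℝ} {N : ℕ} {β L u ε₁ C Δ t₀ c d : ℝ}
    (hL : 0 < L) (hβ : 0 < β) (hu : 0 < u) (hε₁ : 0 < ε₁) (hΔ : 0 < Δ) (hc : 0 < c) (hcd : c ≤ d)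
    (hα1 : 2 * π * u / L ≤ 1)
    (harch : ∀ t ∈ Icc c d, |(∫ y in (0 : ℝ)..(2 * π * u / L),
        (archF (pl (1 / 2 + β / L) (t + y))).re) - π * u| ≤ C / L)
    (hA : |(∫ t in c..d, ‖Aa a N (pl (1 / 2 + β / L) (t + π * u / L))‖ ^ 2 *
            Real.exp (-(((t - t₀) / Δ) ^ 2))) -
        Δ * Real.sqrt π * S0 a (β / L) N| ≤ ε₁ * Δ)
    (hLd : ∀ y : ℝ, 0 ≤ y → y ≤ 1 → |(∫ t in c..d,
          (logDeriv riemannZeta (pl (1 / 2 + β / L) (t + y))).re *
            (‖Aa a N (pl (1 / 2 + β / L) (t + π * u / L))‖ ^ 2 *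
              Real.exp (-(((t - t₀) / Δ) ^ 2)))) -
        Δ * Real.sqrt π * S1y y a (π * u / L) (β / L) N| ≤ ε₁ * Δ) :
    |(∫ t in c..d,
          Th (2 * π * u / L) (β / L) t *
            (‖Aa a N (pl (1 / 2 + β / L) (t + π * u / L))‖ ^ 2 *
              Real.exp (-(((t - t₀) / Δ) ^ 2)))) -
        Δ * Real.sqrt π * (π * u * S0 a (β / L) N +
          S1 a (2 * π * u / L) (β / L) N)| ≤
        (C / L + π * u) * (ε₁ * Δ) + C / L * (Δ * Real.sqrt π * S0 a (β / L) N) + ε₁ * Δ := by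
  set b : ℝ := β / L with hb
  set α : ℝ := 2 * π * u / L with hα
  have hb0 : 0 < b := div_pos hβ hL
  have hα0 : 0 < α := by positivity
  have hv : π * u / L = α / 2 := by rw [hα]; ring
  rw [hv] at hA hLd ⊢
  set W : ℝ → ℝ := fun t => ‖Aa a N (pl (1 / 2 + b) (t + α / 2))‖ ^ 2 *
    Real.exp (-(((t - t₀) / Δ) ^ 2)) with hW
  have hWc : Continuous W := mt_W a N (1 / 2 + b) (α / 2) t₀ Δ
  have hW0 : ∀ t, 0 ≤ W t := fun t => by simp only [hW]; positivity
  set G : ℝ → ℝ := fun x => (logDeriv riemannZeta (pl (1 / 2 + b) x)).re with hG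
  have hGc : ContinuousOn G (Ioi 0) := mt_G hRH (by linarith)
  obtain ⟨i1, i2, hsw⟩ := mt_swap (W := W) hc hcd hα0.le hGc hWc
  have hThc : Continuous (Th α b) := continuous_Th hRH hb0
  -- the mass
  have hS0 : 0 ≤ ∫ t in c..d, W t :=
    intervalIntegral.integral_nonneg hcd fun t _ => hW0 t
  have hW1 : ∫ t in c..d, W t ≤ Δ * Real.sqrt π * S0 a b N + ε₁ * Δ := by
    have := (abs_le.1 hA).2
    linarith
  -- decomposition
  have hC0 : 0 ≤ C / L := (abs_nonneg _).trans (harch c ⟨le_rfl, hcd⟩)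
  have hD : |∫ t in c..d, (Th α b t - (∫ y in (0 : ℝ)..α, G (t + y)) - π * u) * W t| ≤
      C / L * ∫ t in c..d, W t := by
    rw [← intervalIntegral.integral_const_mul]
    have hle : ∀ t ∈ Ioc c d, ‖(Th α b t - (∫ y in (0 : ℝ)..α, G (t + y)) - π * u) * W t‖ ≤
        C / L * W t := by
      intro t ht
      rw [norm_mul, Real.norm_eq_abs, Real.norm_eq_abs, abs_of_nonneg (hW0 t)]
      refine mul_le_mul_of_nonneg_right ?_ (hW0 t)
      have h1 := harch t ⟨ht.1.le, ht.2⟩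
      rw [Th_split hRH hα0.le hb0 (hc.trans ht.1)]
      rw [add_sub_cancel_right]
      exact h1
    exact intervalIntegral.norm_integral_le_of_norm_le hcd
      (Filter.Eventually.of_forall hle) ((continuous_const.mul hWc).intervalIntegrable _ _)
  have hdec : ∫ t in c..d, Th α b t * W t =
      (∫ t in c..d, (Th α b t - (∫ y in (0 : ℝ)..α, G (t + y)) - π * u) * W t) +
      π * u * (∫ t in c..d, W t) + ∫ t in c..d, (∫ y in (0 : ℝ)..α, G (t + y)) * W t := by
    have j1 : IntervalIntegrable (fun t => Th α b t * W t) volume c d :=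
      (hThc.mul hWc).intervalIntegrable _ _
    have j2 : IntervalIntegrable (fun t => π * u * W t) volume c d :=
      (continuous_const.mul hWc).intervalIntegrable _ _
    rw [← intervalIntegral.integral_const_mul]
    have e1 : ∀ t, (Th α b t - (∫ y in (0 : ℝ)..α, G (t + y)) - π * u) * W t =
        Th α b t * W t - (∫ y in (0 : ℝ)..α, G (t + y)) * W t - π * u * W t := fun t => by ring
    simp only [e1]
    rw [intervalIntegral.integral_sub (j1.sub i1) j2, intervalIntegral.integral_sub j1 i1]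
    ring
  -- the second part
  have hZ : |(∫ t in c..d, (∫ y in (0 : ℝ)..α, G (t + y)) * W t) -
      Δ * Real.sqrt π * S1 a α b N| ≤ ε₁ * Δ := by
    have i3 : IntervalIntegrable (fun y => Δ * Real.sqrt π * S1y y a (α / 2) b N) volume 0 α :=
      (continuous_const.mul (continuous_S1y a (α / 2) b N)).intervalIntegrable _ _
    rw [hsw, ← integral_S1y, ← intervalIntegral.integral_const_mul,
      ← intervalIntegral.integral_sub i2 i3]
    have h1 : ∀ y ∈ uIoc (0 : ℝ) α, ‖(∫ t in c..d, G (t + y) * W t) -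
        Δ * Real.sqrt π * S1y y a (α / 2) b N‖ ≤ ε₁ * Δ := by
      intro y hy
      rw [uIoc_of_le hα0.le] at hy
      exact hLd y hy.1.le (hy.2.trans hα1)
    have h2 := intervalIntegral.norm_integral_le_of_norm_le_const h1
    rw [Real.norm_eq_abs, sub_zero, abs_of_pos hα0] at h2
    refine h2.trans ?_
    have : 0 < ε₁ * Δ := mul_pos hε₁ hΔ
    nlinarith
  rw [hdec]
  have hpu : 0 < π * u := mul_pos Real.pi_pos hu
  have t1 := abs_le.1 hD
  have t2 := abs_le.1 hA
  have t3 := abs_le.1 hZ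
  have t4 : C / L * ∫ t in c..d, W t ≤ C / L * (Δ * Real.sqrt π * S0 a b N + ε₁ * Δ) :=
    mul_le_mul_of_nonneg_left hW1 hC0
  have t5 : |π * u * ((∫ t in c..d, W t) - Δ * Real.sqrt π * S0 a b N)| ≤ π * u * (ε₁ * Δ) := by
    rw [abs_mul, abs_of_pos hpu]
    exact mul_le_mul_of_nonneg_left hA hpu.le
  have t6 := abs_le.1 t5
  rw [abs_le]
  constructor <;> nlinarith [t1.1, t1.2, t2.1, t2.2, t3.1, t3.2, t4, t6.1, t6.2]

/-- MODULE L7e. The mean of `Th`. For `t > 0` use `Th_split`. The archimedean part contributes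
`(πu + O(1/L)) ∫ |A|² w` (`arch_int`, `mean_A` with `v = α/2`); for the second part
interchange the integrals over `t` and `y` (continuous integrand on a rectangle) and use `mean_L`
for each `y ∈ [0, α]`, `α ≤ 1`, and `integral_S1y`. The errors are at most `ε T^θ (1 + S0)`;
`S0 ≥ 0`. -/
theorem mean_Th (hRH : RiemannHypothesis) {κ θ θ₂ β A u ε : ℝ} (hκ : 0 < κ) (hκθ : κ < θ)
    (hθ : θ < θ₂) (hθ₂ : θ₂ < 1) (hβ : 0 < β) (hu : 0 < u) (hε : 0 < ε) :
    ∀ᶠ T : ℝ in atTop, ∀ (a : ℕ → ℝ) (t₀ : ℝ), (∀ n, |a n| ≤ A) →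
      t₀ ∈ Icc (5 * T / 8) (2 * T) →
      |(∫ t in (t₀ - T ^ θ₂)..(t₀ + T ^ θ₂),
          Th (2 * π * u / Real.log T) (β / Real.log T) t *
            (‖Aa a ⌊T ^ κ⌋₊ (pl (1 / 2 + β / Real.log T) (t + π * u / Real.log T))‖ ^ 2 *
              Real.exp (-(((t - t₀) / T ^ θ) ^ 2)))) -
        T ^ θ * Real.sqrt π * (π * u * S0 a (β / Real.log T) ⌊T ^ κ⌋₊ +
          S1 a (2 * π * u / Real.log T) (β / Real.log T) ⌊T ^ κ⌋₊)| ≤
        ε * T ^ θ * (1 + S0 a (β / Real.log T) ⌊T ^ κ⌋₊) := by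
  obtain ⟨C, hC, harch⟩ := arch_int hu hβ
  have hpu : 0 < π * u := mul_pos Real.pi_pos hu
  set ε₁ : ℝ := ε / (π * u + 2) with hε₁
  have hε₁0 : 0 < ε₁ := by positivity
  have hA := mean_A (A := A) hκ hκθ hθ hθ₂ hβ hε₁0
  have hLd := mean_L hRH (A := A) hκ hκθ hθ hθ₂ hβ hε₁0
  have hlog : Tendsto Real.log atTop atTop := Real.tendsto_log_atTop
  have hev1 := hlog.eventually_ge_atTop (max 1 (max (2 * π * u) (max C (C * Real.sqrt π / ε))))
  have hev2 : ∀ᶠ T : ℝ in atTop, T ^ θ₂ ≤ T / 8 := by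
    have h1 : Tendsto (fun T : ℝ => T ^ (1 - θ₂)) atTop atTop :=
      tendsto_rpow_atTop (by linarith)
    filter_upwards [h1.eventually_ge_atTop 8, eventually_gt_atTop (0 : ℝ)] with T h8 hT
    have h2 : T ^ θ₂ * T ^ (1 - θ₂) = T := by
      rw [← Real.rpow_add hT]
      simp
    have h3 : 0 < T ^ θ₂ := Real.rpow_pos_of_pos hT _
    nlinarith
  filter_upwards [harch, hA, hLd, hev1, hev2, eventually_gt_atTop (1 : ℝ)]
    with T harchT hAT hLdT hL1 hT8 hT1 a t₀ ha ht₀
  set L : ℝ := Real.log T with hLdef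
  have hT0 : 0 < T := by linarith
  have hL1' : 1 ≤ L := (le_max_left _ _).trans hL1
  have hL2 : 2 * π * u ≤ L := (le_max_left _ _).trans ((le_max_right _ _).trans hL1)
  have hL3 : C ≤ L :=
    (le_max_left _ _).trans ((le_max_right _ _).trans ((le_max_right _ _).trans hL1))
  have hL4 : C * Real.sqrt π / ε ≤ L :=
    (le_max_right _ _).trans ((le_max_right _ _).trans ((le_max_right _ _).trans hL1))
  have hL0 : 0 < L := by linarith
  have hX0 : 0 < T ^ θ₂ := Real.rpow_pos_of_pos hT0 _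
  have hΔ : 0 < T ^ θ := Real.rpow_pos_of_pos hT0 _
  have hmain := mt_det hRH (a := a) (N := ⌊T ^ κ⌋₊) (β := β) (L := L) (u := u) (ε₁ := ε₁) (C := C)
    (Δ := T ^ θ) (t₀ := t₀) (c := t₀ - T ^ θ₂) (d := t₀ + T ^ θ₂) hL0 hβ hu hε₁0 hΔ
    (by linarith [ht₀.1]) (by linarith) ((div_le_one hL0).2 hL2)
    (by
      intro t ht
      refine harchT t ⟨?_, ?_⟩
      · linarith [ht.1, ht₀.1]
      · linarith [ht.2, ht₀.2])
    (hAT a (π * u / L) t₀ ha (by positivity) ht₀)
    (fun y hy0 hy1 => hLdT a (π * u / L) y t₀ ha (by positivity) hy0 hy1 ht₀)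
  refine hmain.trans ?_
  have hS0 : 0 ≤ S0 a (β / L) ⌊T ^ κ⌋₊ := by
    unfold S0
    refine Finset.sum_nonneg fun m _ => mul_nonneg (sq_nonneg _) (Real.rpow_nonneg (Nat.cast_nonneg m) _)
  have k1 : C / L ≤ 1 := (div_le_one hL0).2 hL3
  have k2 : C / L * Real.sqrt π ≤ ε := by
    rw [div_mul_eq_mul_div, div_le_iff₀ hL0]
    rw [div_le_iff₀ hε] at hL4
    linarith
  have k3 : (C / L + π * u) * (ε₁ * T ^ θ) + ε₁ * T ^ θ ≤ ε * T ^ θ := by
    have e : (π * u + 2) * ε₁ = ε := by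
      rw [hε₁]
      field_simp
    have : 0 < ε₁ * T ^ θ := mul_pos hε₁0 hΔ
    calc (C / L + π * u) * (ε₁ * T ^ θ) + ε₁ * T ^ θ
        ≤ (1 + π * u) * (ε₁ * T ^ θ) + ε₁ * T ^ θ := by
          gcongr
      _ = ((π * u + 2) * ε₁) * T ^ θ := by ring
      _ = ε * T ^ θ := by rw [e]
  have k4 : C / L * (T ^ θ * Real.sqrt π * S0 a (β / L) ⌊T ^ κ⌋₊) ≤
      ε * (T ^ θ * S0 a (β / L) ⌊T ^ κ⌋₊) := by
    have h0 : 0 ≤ T ^ θ * S0 a (β / L) ⌊T ^ κ⌋₊ := mul_nonneg hΔ.le hS0
    calc C / L * (T ^ θ * Real.sqrt π * S0 a (β / L) ⌊T ^ κ⌋₊)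
        = (C / L * Real.sqrt π) * (T ^ θ * S0 a (β / L) ⌊T ^ κ⌋₊) := by ring
      _ ≤ ε * (T ^ θ * S0 a (β / L) ⌊T ^ κ⌋₊) := mul_le_mul_of_nonneg_right k2 h0
  calc (C / L + π * u) * (ε₁ * T ^ θ) + C / L * (T ^ θ * Real.sqrt π * S0 a (β / L) ⌊T ^ κ⌋₊) +
        ε₁ * T ^ θ
      ≤ ε * T ^ θ + ε * (T ^ θ * S0 a (β / L) ⌊T ^ κ⌋₊) := by linarith
    _ = ε * T ^ θ * (1 + S0 a (β / L) ⌊T ^ κ⌋₊) := by ring

end Pool.Agent.MP_67227b_nt.Al
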