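import Pool.Agent.MP_67227b_nt.Al.AlNeg
import Pool.Agent.MP_67227b_nt.Al.AlMeanSq

set_option autoImplicit false

open Filter Topology Set MeasureTheory Complex
open scoped Real ArithmeticFunction ContDiff

namespace Pool.Agent.MP_67227b_nt.Al

open Pool.Agent.Lib.ZetaCount_helper33 Pool.Agent.MP_67227b_nt Pool.Agent.MP_67227b_nt.Mo
open Pool.Agent.MP_67227b_nt.Sg Pool.Agent.MP_67227b_nt.Pp

/-- MODULE H3. Positive measure. Choose `κ < θ < θ₂ < θ₀`. With `f = sg (Th - ρπ) |Apa|²`,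
`g = (Th + |ρ|π) |Apa|²`, `E = {t ∈ [A, A+W] | sg (Th - ρπ) < 0}`: `Pp.fub_w` and `neg_int` give
`∫ max(-f, 0) ≥ c W`; off `E`, `f ≥ 0`; on `E`, `-f ≤ g ≤ g²/(2M) + M/2`; `mean_sq_al`. Copy of the
proof of `Pp.meas_large_w` (Ppw/PpwMeas.lean). -/
theorem meas_al (hRH : RiemannHypothesis) {sg u κ θ₀ ρ : ℝ} (hsg : sg = 1 ∨ sg = -1)
    (hu : 0 < u) (hκ : 0 < κ) (hκθ : κ < θ₀) (hθ₀1 : θ₀ ≤ 1) (hG : Gain sg u κ (sg * (u - ρ))) :
    ∃ β c₃ : ℝ, 0 < β ∧ 0 < c₃ ∧ ∀ᶠ T : ℝ in atTop, ∀ A W : ℝ, 5 * T / 8 ≤ A → T ^ θ₀ / 4 ≤ W →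
      A + W ≤ 2 * T → c₃ * W ≤ volume.real {t ∈ Icc A (A + W) |
        sg * (Th (2 * π * u / Real.log T) (β / Real.log T) t - ρ * π) < 0} := by
  obtain ⟨β, η, c, M₀, av, i0, i1, K, hβ, hη, hc, hi0, hM₀, hgain⟩ := hG
  obtain ⟨θ, hκθ1, hθθ₀⟩ := exists_between hκθ
  obtain ⟨θ₂, hθθ₂, hθ₂⟩ := exists_between hθθ₀
  have hθ : 0 < θ := hκ.trans hκθ1
  have hκ1 : κ < 1 := lt_of_lt_of_le hκθ hθ₀1
  have hθ₂0 : 0 < θ₂ := hθ.trans hθθ₂
  have hθ₂1 : θ₂ < 1 := lt_of_lt_of_le hθ₂ hθ₀1
  obtain ⟨c₂, hc₂, hN⟩ := neg_int hRH hsg hu hκ hκθ1 hθθ₂ hθ₂1 hβ hη hc hM₀ hgain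
  obtain ⟨C, hC, hM⟩ := mean_sq_al hRH (ρ := ρ) hu hβ hκ1 hη hM₀ (i1 := i1) (K := K) hi0
    (θ := θ₂) hθ₂0 hθ₂1.le
  have hpi : 0 < Real.sqrt π := Real.sqrt_pos.mpr Real.pi_pos
  have hpi0 : 0 < π := Real.pi_pos
  set a : ℝ := c₂ / Real.sqrt π / 2 with ha
  have ha0 : 0 < a := by positivity
  refine ⟨β, a ^ 2 / C, hβ, by positivity, ?_⟩
  have ev1 : ∀ᶠ T : ℝ in atTop, (16 : ℝ) ≤ T ^ (θ₀ - θ₂) :=
    (tendsto_rpow_atTop (by linarith : 0 < θ₀ - θ₂)).eventually_ge_atTop 16
  filter_upwards [hN, hM, ev1, eventually_gt_atTop 1] with T hN hM h16 hT A W hA1 hW1 hAW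
  have hT0 : 0 < T := by linarith
  have hX0 : 0 < T ^ θ₂ := Real.rpow_pos_of_pos hT0 _
  have hXW : 4 * T ^ θ₂ ≤ W := by
    have h9 : T ^ θ₀ = T ^ (θ₀ - θ₂) * T ^ θ₂ := by
      rw [← Real.rpow_add hT0, sub_add_cancel]
    have h10 : 16 * T ^ θ₂ ≤ T ^ θ₀ := by
      rw [h9]
      gcongr
    linarith
  have hM := hM A W (by linarith) (by linarith) (by linarith)
  have hL : 0 < Real.log T := Real.log_pos hT
  set α : ℝ := 2 * π * u / Real.log T with hαdef
  set b : ℝ := β / Real.log T with hbdef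
  have hα : 0 < α := by positivity
  have hb : 0 < b := by positivity
  have hsg1 : |sg| = 1 := by rcases hsg with h | h <;> rw [h] <;> simp
  set B : ℝ → ℝ := fun t => ‖Apa av T η κ i0 i1 K (pl (1 / 2 + b) (t + π * u / Real.log T))‖ ^ 2
    with hB
  set f : ℝ → ℝ := fun t => sg * (Th α b t - ρ * π) * B t with hf
  set g : ℝ → ℝ := fun t => (Th α b t + |ρ| * π) * B t with hg
  set E : Set ℝ := {t ∈ Icc A (A + W) | sg * (Th α b t - ρ * π) < 0} with hEdef
  have hThc : Continuous (Th α b) := continuous_Th hRH hb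
  have hBc : Continuous B := by
    apply Continuous.pow
    apply Continuous.norm
    refine (continuous_Apa av T η κ i0 i1 K).comp ?_
    unfold pl
    fun_prop
  have hfc : Continuous f :=
    (continuous_const.mul (hThc.sub continuous_const)).mul hBc
  have hgc : Continuous g := (hThc.add continuous_const).mul hBc
  have hB0 : ∀ t, 0 ≤ B t := fun t => by positivity
  have hT0' : ∀ t, 0 ≤ Th α b t := fun t => Th_nonneg hRH hα.le hb t
  have h1 : a * W ≤ ∫ t in A..(A + W), max (-(f t)) 0 := by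
    have h0 : c₂ / Real.sqrt π * (A + W - A - 2 * T ^ θ₂) ≤
        ∫ t in A..(A + W), max (-(f t)) 0 := by
      apply fub_w (Δ := T ^ θ) hX0.le (by linarith) (Real.rpow_pos_of_pos hT0 _) hc₂
        hfc.continuousOn
      intro t₀ ht₀
      exact hN t₀ ⟨by linarith [ht₀.1], by linarith [ht₀.2]⟩
    refine le_trans ?_ h0
    have h2 : W / 2 ≤ A + W - A - 2 * T ^ θ₂ := by linarith
    calc a * W = c₂ / Real.sqrt π * (W / 2) := by rw [ha]; ring
      _ ≤ c₂ / Real.sqrt π * (A + W - A - 2 * T ^ θ₂) := by gcongr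
  have hEm : MeasurableSet E := by
    have h2 : E = Icc A (A + W) ∩ {t | sg * (Th α b t - ρ * π) < 0} := by
      ext t
      simp [hEdef]
    rw [h2]
    apply measurableSet_Icc.inter
    exact (isOpen_lt (continuous_const.mul (hThc.sub continuous_const))
      continuous_const).measurableSet
  have hle : A ≤ A + W := by linarith
  set M : ℝ := C / a with hMdef
  have hM0 : 0 < M := by positivity
  -- the pointwise bound
  have h3 : ∀ t ∈ Icc A (A + W), max (-(f t)) 0 ≤
      (1 / (2 * M)) * (g t) ^ 2 + E.indicator (fun _ => M / 2) t := by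
    intro t ht
    have hg0 : 0 ≤ (1 / (2 * M)) * (g t) ^ 2 := by positivity
    by_cases hE : t ∈ E
    · rw [indicator_of_mem hE]
      have h4 : -(f t) ≤ g t := by
        have h5 : -(sg * (Th α b t - ρ * π)) ≤ Th α b t + |ρ| * π := by
          have h6 : -(sg * (Th α b t - ρ * π)) ≤ |sg * (Th α b t - ρ * π)| := neg_le_abs _
          rw [abs_mul, hsg1, one_mul] at h6
          have h7 : |Th α b t - ρ * π| ≤ |Th α b t| + |ρ * π| := abs_sub _ _
          rw [abs_of_nonneg (hT0' t), abs_mul, abs_of_pos hpi0] at h7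
          linarith
        have h8 := mul_le_mul_of_nonneg_right h5 (hB0 t)
        simp only [hf, hg]
        linarith
      have h7 : g t ≤ (1 / (2 * M)) * (g t) ^ 2 + M / 2 := by
        have h8 : 0 ≤ (g t - M) ^ 2 / (2 * M) := by positivity
        have h9 : (g t - M) ^ 2 / (2 * M) = (1 / (2 * M)) * (g t) ^ 2 + M / 2 - g t := by
          field_simp
          ring
        linarith
      have h8 : 0 ≤ (1 / (2 * M)) * (g t) ^ 2 + M / 2 := by positivity
      exact max_le (h4.trans h7) h8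
    · rw [indicator_of_notMem hE, add_zero]
      have h4 : 0 ≤ sg * (Th α b t - ρ * π) := by
        by_contra hneg
        push Not at hneg
        exact hE ⟨ht, hneg⟩
      have h5 : 0 ≤ f t := mul_nonneg h4 (hB0 t)
      exact max_le (by linarith) hg0
  have hi1 : IntervalIntegrable (fun t => (1 / (2 * M)) * (g t) ^ 2) volume A (A + W) :=
    (continuous_const.mul (hgc.pow 2)).intervalIntegrable _ _
  have hi2 : IntervalIntegrable (E.indicator fun _ => M / 2) volume A (A + W) := by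
    rw [intervalIntegrable_iff_integrableOn_Ioc_of_le hle]
    apply Integrable.indicator _ hEm
    exact integrable_const _
  have hi3 : IntervalIntegrable (fun t => max (-(f t)) 0) volume A (A + W) :=
    (hfc.neg.max continuous_const).intervalIntegrable _ _
  have h4 : ∫ t in A..(A + W), max (-(f t)) 0 ≤
      (∫ t in A..(A + W), (1 / (2 * M)) * (g t) ^ 2) +
        ∫ t in A..(A + W), E.indicator (fun _ => M / 2) t := by
    rw [← intervalIntegral.integral_add hi1 hi2]
    exact intervalIntegral.integral_mono_on hle hi3 (hi1.add hi2) h3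
  have h5 : ∫ t in A..(A + W), (1 / (2 * M)) * (g t) ^ 2 ≤ (1 / (2 * M)) * (C * W) := by
    rw [intervalIntegral.integral_const_mul]
    apply mul_le_mul_of_nonneg_left hM (by positivity)
  have hfin : volume (Icc A (A + W)) ≠ ⊤ := by
    rw [Real.volume_Icc]
    exact ENNReal.ofReal_ne_top
  have h6 : ∫ t in A..(A + W), E.indicator (fun _ => M / 2) t ≤ M / 2 * volume.real E := by
    rw [intervalIntegral.integral_of_le hle, integral_indicator hEm, setIntegral_const,
      smul_eq_mul, mul_comm, measureReal_restrict_apply hEm]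
    apply mul_le_mul_of_nonneg_left _ (by positivity)
    exact measureReal_mono inter_subset_left (measure_ne_top_of_subset (fun x hx => hx.1) hfin)
  have h7 : (1 / (2 * M)) * (C * W) = a * W / 2 := by
    rw [hMdef]
    field_simp
  have h8 : a * W / 2 ≤ M / 2 * volume.real E := by linarith
  have h9 : a ^ 2 / C * W = 2 / M * (a * W / 2) := by
    rw [hMdef]
    field_simp
  rw [h9]
  calc 2 / M * (a * W / 2) ≤ 2 / M * (M / 2 * volume.real E) :=
        mul_le_mul_of_nonneg_left h8 (by positivity)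
    _ = volume.real E := by field_simp

end Pool.Agent.MP_67227b_nt.Al
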