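import Pool.Agent.MP_67227b_nt.Al.AlApB
import Pool.Agent.MP_67227b_nt.Al.AlApG
import Pool.Agent.MP_67227b_nt.Al.AlApS
import Pool.Agent.MP_67227b_nt.Al.AlHS
import Pool.Agent.MP_67227b_nt.Al.AlWt

set_option autoImplicit false

open Filter Topology Set MeasureTheory Complex
open scoped Real ArithmeticFunction ContDiff

namespace Pool.Agent.MP_67227b_nt.Al

open Pool.Agent.Lib.ZetaCount_helper33 Pool.Agent.MP_67227b_nt Pool.Agent.MP_67227b_nt.Mo
open Pool.Agent.MP_67227b_nt.Sg Pool.Agent.MP_67227b_nt.Pp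

/-- MODULE N1. The mass. For squarefree `m`, `a(m)² = apa |a| (m)² ≤ ∏ h(x_p)² = wt v m`
(`apa_sign` with `τ` the given sign function, `τ² = 1`; `apa_le`, `apa_nonneg`), `m^{-2b} ≤ 1`. For
`m` not squarefree, `|a(m)| ≤ e^{KM}` and `m` is rough (`apa_bound`, `apa_rough`), so the
sum is at most `e^{2KM} ε' ≤ ε` by `Pp.rough_sq` (`δ = i0 η`). -/
theorem S0_le {η κ β M ε : ℝ} {a : ℕ → ℝ} {τ : ℝ → ℝ} {i0 i1 K : ℕ} (hη : 0 < η) (hκ : 0 < κ)
    (hκ1 : κ ≤ 1) (hβ : 0 < β) (hi0 : 1 ≤ i0) (hM : ∀ i, |a i| ≤ M)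
    (hτ : ∀ x, τ x = 1 ∨ τ x = -1)
    (ha : ∀ i ∈ Finset.Ico i0 i1, ∀ x ∈ Icc ((i : ℝ) * η) (((i : ℝ) + 2) * η),
      a i = τ x * |a i|) (hε : 0 < ε) : ∀ᶠ T : ℝ in atTop,
      S0 (apa a T η κ i0 i1 K) (β / Real.log T) ⌊T ^ κ⌋₊ ≤
        FW (fun p => hS (fun i => |a i|) η i0 i1 (Real.log p / Real.log T) ^ 2) T κ + ε := by
  classical
  have hi0' : (1 : ℝ) ≤ i0 := by exact_mod_cast hi0
  have hδ : 0 < (i0 : ℝ) * η := by positivity
  have hε' : 0 < ε / Real.exp (2 * (K * M)) := by positivity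
  filter_upwards [rough_sq hδ hε', eventually_gt_atTop (1 : ℝ)] with T h1 hT
  have hL : 0 < Real.log T := Real.log_pos hT
  have hT0 : 0 < T := by linarith
  have hb0 : 0 < β / Real.log T := by positivity
  have hpow : ∀ m : ℕ, 1 ≤ m → (m : ℝ) ^ (-(1 + 2 * (β / Real.log T))) ≤ 1 / m := by
    intro m hm
    have hm1 : (1 : ℝ) ≤ m := by exact_mod_cast hm
    rw [one_div, ← Real.rpow_neg_one]
    exact Real.rpow_le_rpow_of_exponent_le hm1 (by linarith)
  unfold S0 FW
  have hterm : ∀ m ∈ Finset.Icc 1 ⌊T ^ κ⌋₊,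
      apa a T η κ i0 i1 K m ^ 2 * (m : ℝ) ^ (-(1 + 2 * (β / Real.log T))) ≤
      (if Squarefree m then
        wt (fun p => hS (fun i => |a i|) η i0 i1 (Real.log p / Real.log T) ^ 2) m / m else 0) +
      (if ¬ Squarefree m ∧ apa a T η κ i0 i1 K m ≠ 0 then
        Real.exp (2 * (K * M)) * (1 / m) else 0) := by
    intro m hm
    have hm1 : 1 ≤ m := (Finset.mem_Icc.1 hm).1
    by_cases hs : Squarefree m
    · rw [if_pos hs, if_neg (by tauto), add_zero]
      have e1 := apa_sign (κ := κ) (K := K) hT hη ha hs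
      have e2 := apa_le (T := T) (κ := κ) (a := fun i => |a i|) (i0 := i0) (i1 := i1) (K := K) hη
        (fun i => abs_nonneg _) hs
      have e3 := apa_nonneg (T := T) (κ := κ) (a := fun i => |a i|) hη
        (fun i => abs_nonneg _) i0 i1 K m
      have e4 : (∏ p ∈ m.primeFactors, τ (Real.log p / Real.log T)) ^ 2 = 1 := by
        rw [← Finset.prod_pow]
        refine Finset.prod_eq_one fun p _ => ?_
        rcases hτ (Real.log p / Real.log T) with h | h <;> rw [h] <;> norm_num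
      have e6 : wt (fun p => hS (fun i => |a i|) η i0 i1 (Real.log p / Real.log T) ^ 2) m =
          (∏ p ∈ m.primeFactors, hS (fun i => |a i|) η i0 i1 (Real.log p / Real.log T)) ^ 2 := by
        unfold wt
        rw [Finset.prod_pow]
      rw [e1, mul_pow, e4, one_mul, e6]
      have e7 := mul_le_mul (pow_le_pow_left₀ e3 e2 2) (hpow m hm1)
        (Real.rpow_nonneg (by positivity) _) (sq_nonneg _)
      rw [mul_one_div] at e7
      exact e7
    · rw [if_neg hs, zero_add]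
      by_cases h0 : apa a T η κ i0 i1 K m = 0
      · rw [h0, if_neg (by tauto)]
        simp
      · rw [if_pos ⟨hs, h0⟩]
        have e1 := apa_bound (T := T) (κ := κ) hη hM i0 i1 K m
        have e2 : apa a T η κ i0 i1 K m ^ 2 ≤ Real.exp (2 * (K * M)) := by
          rw [← sq_abs, show Real.exp (2 * (K * M)) = Real.exp (K * M) ^ 2 by
            rw [← Real.exp_nat_mul]; norm_num]
          exact pow_le_pow_left₀ (abs_nonneg _) e1 2
        exact mul_le_mul e2 (hpow m hm1) (Real.rpow_nonneg (by positivity) _)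
          (Real.exp_pos _).le
  refine (Finset.sum_le_sum hterm).trans ?_
  rw [Finset.sum_add_distrib]
  refine add_le_add le_rfl ?_
  rw [← Finset.sum_filter, ← Finset.mul_sum]
  have h2 := h1 ((Finset.Icc 1 ⌊T ^ κ⌋₊).filter
    (fun m => ¬ Squarefree m ∧ apa a T η κ i0 i1 K m ≠ 0)) (fun n hn => by
      rw [Finset.mem_filter, Finset.mem_Icc] at hn
      obtain ⟨⟨hn1, hn2⟩, hn3, hn4⟩ := hn
      refine ⟨?_, apa_rough hT hη hn4, hn3⟩
      have e1 : (n : ℝ) ≤ T ^ κ := (Nat.le_floor_iff (by positivity)).1 hn2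
      refine e1.trans ?_
      calc T ^ κ ≤ T ^ (1 : ℝ) := Real.rpow_le_rpow_of_exponent_le hT.le hκ1
        _ = T := Real.rpow_one T)
  calc Real.exp (2 * (K * M)) * ∑ i ∈ (Finset.Icc 1 ⌊T ^ κ⌋₊).filter
        (fun m => ¬ Squarefree m ∧ apa a T η κ i0 i1 K m ≠ 0), (1 : ℝ) / i
      ≤ Real.exp (2 * (K * M)) * (ε / Real.exp (2 * (K * M))) :=
        mul_le_mul_of_nonneg_left h2 (Real.exp_pos _).le
    _ = ε := by
        have := Real.exp_pos (2 * ((K : ℝ) * M))
        field_simp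

end Pool.Agent.MP_67227b_nt.Al
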