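import Pool.Agent.MP_67227b_nt.Al.AlMeanT
import Pool.Agent.MP_67227b_nt.Al.AlApEq
import Pool.Agent.MP_67227b_nt.Al.AlApB

set_option autoImplicit false

open Filter Topology Set MeasureTheory Complex
open scoped Real ArithmeticFunction ContDiff

namespace Pool.Agent.MP_67227b_nt.Al

open Pool.Agent.Lib.ZetaCount_helper33 Pool.Agent.MP_67227b_nt Pool.Agent.MP_67227b_nt.Mo
open Pool.Agent.MP_67227b_nt.Sg Pool.Agent.MP_67227b_nt.Pp

/-- MODULE H1. The negative mean. `Apa = Aa (apa ..)` (`Apa_eq`), `|apa| ≤ e^{KM}` (`apa_bound`), so by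
`mean_Th` and `mean_A` (`v = πu/L`, `A = e^{KM}`) the integral is, up to
`ε T^θ (1 + S0) (1 + |ρ| π)`, equal to
`T^θ √π (sg (πu S0 + S1) - sg ρ π S0) = T^θ √π (sg S1 + π sg (u - ρ) S0) ≤ -c √π T^θ (1 + S0)`. -/
theorem neg_int (hRH : RiemannHypothesis) {sg u κ ρ θ θ₂ β η c M : ℝ} {a : ℕ → ℝ}
    {i0 i1 K : ℕ} (hsg : sg = 1 ∨ sg = -1) (hu : 0 < u) (hκ : 0 < κ) (hκθ : κ < θ) (hθ : θ < θ₂)
    (hθ₂ : θ₂ < 1) (hβ : 0 < β) (hη : 0 < η) (hc : 0 < c) (hM : ∀ i, |a i| ≤ M)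
    (h : ∀ᶠ T : ℝ in atTop,
      sg * S1 (apa a T η κ i0 i1 K) (2 * π * u / Real.log T) (β / Real.log T) ⌊T ^ κ⌋₊ +
        π * (sg * (u - ρ)) * S0 (apa a T η κ i0 i1 K) (β / Real.log T) ⌊T ^ κ⌋₊ ≤
        -(c * (1 + S0 (apa a T η κ i0 i1 K) (β / Real.log T) ⌊T ^ κ⌋₊))) :
    ∃ c₂ : ℝ, 0 < c₂ ∧ ∀ᶠ T : ℝ in atTop, ∀ t₀ ∈ Icc (5 * T / 8) (2 * T),
      ∫ t in (t₀ - T ^ θ₂)..(t₀ + T ^ θ₂),
        sg * (Th (2 * π * u / Real.log T) (β / Real.log T) t - ρ * π) *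
          ‖Apa a T η κ i0 i1 K (pl (1 / 2 + β / Real.log T) (t + π * u / Real.log T))‖ ^ 2 *
          Real.exp (-(((t - t₀) / T ^ θ) ^ 2)) ≤ -c₂ * T ^ θ := by
  have hc' : 0 < c * Real.sqrt π := by positivity
  refine ⟨c * Real.sqrt π / 2, by positivity, ?_⟩
  have hε1 : 0 < c * Real.sqrt π / 4 := by positivity
  have hε2 : 0 < c * Real.sqrt π / (4 * (|ρ| * π + 1)) := by positivity
  filter_upwards [mean_Th (A := Real.exp (K * M)) hRH hκ hκθ hθ hθ₂ hβ hu hε1,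
    mean_A (A := Real.exp (K * M)) hκ hκθ hθ hθ₂ hβ hε2, h, eventually_gt_atTop (1 : ℝ)]
    with T h1 h2 h3 hT t₀ ht₀
  have hL : 0 < Real.log T := Real.log_pos hT
  have hT0 : 0 < T := by linarith
  have hb : 0 < β / Real.log T := by positivity
  set L := Real.log T with hLdef
  set a' := apa a T η κ i0 i1 K with ha'
  have hA : ∀ n, |a' n| ≤ Real.exp (K * M) := fun n => apa_bound hη hM i0 i1 K n
  have h4 := h1 a' t₀ hA ht₀
  have h5 := h2 a' (π * u / L) t₀ hA (by positivity) ht₀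
  set X := T ^ θ₂ with hX
  set N := ⌊T ^ κ⌋₊ with hN
  set G : ℝ → ℝ := fun t => ‖Aa a' N (pl (1 / 2 + β / L) (t + π * u / L))‖ ^ 2 *
    Real.exp (-(((t - t₀) / T ^ θ) ^ 2)) with hG
  have hS0 : 0 ≤ S0 a' (β / L) N := by
    unfold S0
    exact Finset.sum_nonneg fun m _ => mul_nonneg (sq_nonneg _) (Real.rpow_nonneg (by positivity) _)
  have hpl : Continuous fun t : ℝ => pl (1 / 2 + β / L) (t + π * u / L) := by
    unfold pl
    fun_prop
  have hAc : Continuous (Aa a' N) := by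
    unfold Aa
    refine continuous_finsetSum _ fun n hn => ?_
    have hn0 : (0 : ℝ) < n := by
      have := (Finset.mem_Icc.1 hn).1
      exact_mod_cast this
    refine continuous_const.mul ?_
    exact (continuous_neg).const_cpow (Or.inl (by exact_mod_cast hn0.ne'))
  have hGc : Continuous G := by
    have h6 : Continuous fun t : ℝ => Aa a' N (pl (1 / 2 + β / L) (t + π * u / L)) :=
      hAc.comp hpl
    simp only [hG]
    exact (h6.norm.pow 2).mul (by fun_prop)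
  have hThc : Continuous (Th (2 * π * u / L) (β / L)) := continuous_Th hRH hb
  have hI : (∫ t in (t₀ - X)..(t₀ + X),
        sg * (Th (2 * π * u / L) (β / L) t - ρ * π) *
          ‖Apa a T η κ i0 i1 K (pl (1 / 2 + β / L) (t + π * u / L))‖ ^ 2 *
          Real.exp (-(((t - t₀) / T ^ θ) ^ 2))) =
      sg * ((∫ t in (t₀ - X)..(t₀ + X), Th (2 * π * u / L) (β / L) t * G t) -
        ρ * π * ∫ t in (t₀ - X)..(t₀ + X), G t) := by
    have e1 := intervalIntegral.integral_sub (μ := volume) (a := t₀ - X) (b := t₀ + X)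
      (f := fun t => Th (2 * π * u / L) (β / L) t * G t) (g := fun t => ρ * π * G t)
      ((hThc.mul hGc).intervalIntegrable _ _) ((continuous_const.mul hGc).intervalIntegrable _ _)
    rw [← intervalIntegral.integral_const_mul (ρ * π), ← e1,
      ← intervalIntegral.integral_const_mul]
    refine intervalIntegral.integral_congr fun t _ => ?_
    simp only [hG]
    rw [Apa_eq hT hη hκ.le]
    ring
  have hsg1 : |sg| = 1 := by
    rcases hsg with h | h <;> simp [h]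
  rw [hI]
  have hG1 : (∫ t in (t₀ - X)..(t₀ + X), Th (2 * π * u / L) (β / L) t * G t) =
      ∫ t in (t₀ - X)..(t₀ + X), Th (2 * π * u / L) (β / L) t *
            (‖Aa a' N (pl (1 / 2 + β / L) (t + π * u / L))‖ ^ 2 *
              Real.exp (-(((t - t₀) / T ^ θ) ^ 2))) := rfl
  have hG2 : (∫ t in (t₀ - X)..(t₀ + X), G t) =
      ∫ t in (t₀ - X)..(t₀ + X), ‖Aa a' N (pl (1 / 2 + β / L) (t + π * u / L))‖ ^ 2 *
              Real.exp (-(((t - t₀) / T ^ θ) ^ 2)) := rfl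
  rw [← hG1] at h4
  rw [← hG2] at h5
  generalize (∫ t in (t₀ - X)..(t₀ + X), Th (2 * π * u / L) (β / L) t * G t) = J1 at *
  generalize (∫ t in (t₀ - X)..(t₀ + X), G t) = J2 at *
  generalize S0 a' (β / L) N = s0 at *
  generalize S1 a' (2 * π * u / L) (β / L) N = s1 at *
  have hTθ : 0 < T ^ θ := Real.rpow_pos_of_pos hT0 _
  have hsq : 0 < Real.sqrt π := Real.sqrt_pos.2 Real.pi_pos
  have e1 : sg * (J1 - ρ * π * J2) = sg * (J1 - T ^ θ * Real.sqrt π * (π * u * s0 + s1)) -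
      sg * (ρ * π) * (J2 - T ^ θ * Real.sqrt π * s0) +
      T ^ θ * Real.sqrt π * (sg * s1 + π * (sg * (u - ρ)) * s0) := by ring
  have e2 : sg * (J1 - T ^ θ * Real.sqrt π * (π * u * s0 + s1)) ≤
      c * Real.sqrt π / 4 * T ^ θ * (1 + s0) := by
    refine (le_abs_self _).trans ?_
    rw [abs_mul, hsg1, one_mul]
    exact h4
  have e3 : -(sg * (ρ * π) * (J2 - T ^ θ * Real.sqrt π * s0)) ≤
      c * Real.sqrt π / 4 * T ^ θ := by
    refine (neg_le_abs _).trans ?_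
    rw [abs_mul, abs_mul, hsg1, one_mul, abs_mul, abs_of_pos Real.pi_pos]
    have h6 : |ρ| * π * |J2 - T ^ θ * Real.sqrt π * s0| ≤
        (|ρ| * π + 1) * (c * Real.sqrt π / (4 * (|ρ| * π + 1)) * T ^ θ) := by
      refine mul_le_mul (by linarith) h5 (abs_nonneg _) (by positivity)
    refine h6.trans (le_of_eq ?_)
    have : 0 < |ρ| * π + 1 := by positivity
    field_simp
  have e4 : T ^ θ * Real.sqrt π * (sg * s1 + π * (sg * (u - ρ)) * s0) ≤
      T ^ θ * Real.sqrt π * (-(c * (1 + s0))) :=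
    mul_le_mul_of_nonneg_left h3 (by positivity)
  rw [e1]
  have e5 : 0 ≤ T ^ θ * Real.sqrt π * c * s0 := by positivity
  nlinarith [e2, e3, e4, e5]

end Pool.Agent.MP_67227b_nt.Al
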