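import Pool.Agent.MP_67227b_nt.Al.AlGf

set_option autoImplicit false

open Filter Topology Set MeasureTheory Complex
open scoped Real ArithmeticFunction ContDiff

namespace Pool.Agent.MP_67227b_nt.Al

open Pool.Agent.Lib.ZetaCount_helper33 Pool.Agent.MP_67227b_nt Pool.Agent.MP_67227b_nt.Mo
open Pool.Agent.MP_67227b_nt.Sg Pool.Agent.MP_67227b_nt.Pp

private lemma int_cube {u : ℝ} (hu : 0 < u) :
    ∫ y in (0 : ℝ)..(1 / u), u * (1 - u * y) ^ 3 = 1 / 4 := by
  have hd : ∀ y ∈ uIcc (0:ℝ) (1 / u), HasDerivAt (fun y : ℝ => -(1 - u * y) ^ 4 / 4)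
      (u * (1 - u * y) ^ 3) y := by
    intro y _
    have h1 : HasDerivAt (fun y : ℝ => 1 - u * y) (-u) y := by
      simpa using ((hasDerivAt_id y).const_mul u).const_sub 1
    have h2 := ((h1.pow 4).neg).div_const 4
    refine h2.congr_deriv ?_
    norm_num
    ring
  rw [intervalIntegral.integral_eq_sub_of_hasDerivAt hd
    ((by fun_prop : Continuous fun y : ℝ => u * (1 - u * y) ^ 3).intervalIntegrable _ _)]
  have : u * (1 / u) = 1 := by field_simp
  rw [this]
  norm_num

private lemma int_rpow {u κ p : ℝ} (hκ : 0 < κ) (hp : 0 ≤ p) :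
    ∫ y in (0 : ℝ)..κ, u * (1 - y / κ) ^ p = u * κ / (p + 1) := by
  have hp1 : p + 1 ≠ 0 := by linarith
  have hd : ∀ y ∈ uIcc (0:ℝ) κ, HasDerivAt (fun y : ℝ => -(u * κ / (p + 1)) * (1 - y / κ) ^ (p + 1))
      (u * (1 - y / κ) ^ p) y := by
    intro y _
    have h1 : HasDerivAt (fun y : ℝ => 1 - y / κ) (-(1 / κ)) y := by
      simpa using ((hasDerivAt_id y).div_const κ).const_sub 1
    have h2 := (h1.rpow_const (p := p + 1) (Or.inr (by linarith))).const_mul (-(u * κ / (p + 1)))
    refine h2.congr_deriv ?_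
    rw [add_sub_cancel_right]
    field_simp
  rw [intervalIntegral.integral_eq_sub_of_hasDerivAt hd]
  · rw [div_self hκ.ne', sub_self, Real.zero_rpow hp1]
    simp
  · apply Continuous.intervalIntegrable
    exact continuous_const.mul ((by fun_prop : Continuous fun y : ℝ => 1 - y / κ).rpow_const
      (fun _ => Or.inr hp))

/-- MODULE Q1. The numerical inequality for constant weights. Choose `κ < θ₀` with `g < Gf (uκ)`
(`Gf` is continuous at `uθ₀ > 0`). Let `s = uκ`.
If `s ≥ 1`: `q = 2s`, `min κ (1/u) = 1/u`; with `v = uy` the integral is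
`∫_0^1 (1-v)(1-v/s)^{2s} dv ≥ ∫_0^1 (1-v)^3 dv = 1/4`, since `(1-v/s)^s ≥ 1-v` (Bernoulli,
`one_add_mul_self_le_rpow_one_add`), so the right side is at least `2 √(2s)/4 = √(s/2) ≥ Gf s`.
If `s < 1`: `q = 1+s`, `min κ (1/u) = κ`; with `y = κw` the integral is
`s ∫_0^1 (1-sw)(1-w)^{1+s} dw ≥ s ∫_0^1 (1-w)^{1+2s} dw = s/(2+2s)`, since `(1-w)^s ≤ 1-sw`
(`Real.rpow_one_add_le_one_add_mul_self`), so the right side is at least `s/√(1+s) ≥ Gf s`. -/
theorem gain_num {u θ₀ g : ℝ} (hu : 0 < u) (hθ₀ : 0 < θ₀) (hg : g < Gf (u * θ₀)) :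
    ∃ κ q : ℝ, 0 < κ ∧ κ < θ₀ ∧ 0 < q ∧
      g < 2 * Real.sqrt q *
        ∫ y in (0 : ℝ)..(min κ (1 / u)), u * (1 - u * y) * (1 - y / κ) ^ q := by
  have hG : ContinuousAt Gf (u * θ₀) :=
    continuousOn_Gf.continuousAt (Ici_mem_nhds (by positivity))
  have hc : ContinuousAt (fun k : ℝ => Gf (u * k)) θ₀ :=
    ContinuousAt.comp (f := fun k : ℝ => u * k) (g := Gf) hG (by fun_prop)
  have h1 : ∀ᶠ k in 𝓝 θ₀, g < Gf (u * k) := hc.eventually (lt_mem_nhds hg)
  have h3 : ∀ᶠ k in 𝓝 θ₀, 0 < k := lt_mem_nhds hθ₀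
  have h4 : ∀ᶠ k in 𝓝[<] θ₀, k ∈ Iio θ₀ := self_mem_nhdsWithin
  obtain ⟨κ, hκ⟩ := (((h1.and h3).filter_mono nhdsWithin_le_nhds).and h4).exists
  obtain ⟨⟨hκg, hκ0⟩, hκθ⟩ := hκ
  have hκθ' : κ < θ₀ := hκθ
  have hcont : ∀ q : ℝ, 0 < q → Continuous fun y : ℝ => u * (1 - u * y) * (1 - y / κ) ^ q := by
    intro q hq
    exact (by fun_prop : Continuous fun y : ℝ => u * (1 - u * y)).mul
      ((by fun_prop : Continuous fun y : ℝ => 1 - y / κ).rpow_const (fun _ => Or.inr hq.le))
  set s : ℝ := u * κ with hs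
  have hs0 : 0 < s := by positivity
  rcases le_or_gt 1 s with hs1 | hs1
  · refine ⟨κ, 2 * s, hκ0, hκθ', by positivity, ?_⟩
    have hmin : min κ (1 / u) = 1 / u := by
      apply min_eq_right
      rw [div_le_iff₀ hu]
      linarith
    rw [hmin]
    have hI : (1:ℝ) / 4 ≤ ∫ y in (0 : ℝ)..(1 / u), u * (1 - u * y) * (1 - y / κ) ^ (2 * s) := by
      rw [← int_cube hu]
      apply intervalIntegral.integral_mono_on (by positivity)
      · exact (by fun_prop : Continuous fun y : ℝ => u * (1 - u * y) ^ 3).intervalIntegrable _ _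
      · exact (hcont _ (by positivity)).intervalIntegrable _ _
      · intro y hy
        have hy1 : u * y ≤ 1 := by
          have := hy.2
          rw [le_div_iff₀ hu] at this
          linarith
        have hyκ : y / κ ≤ 1 := by
          rw [div_le_one hκ0]
          by_contra hn
          push Not at hn
          nlinarith
        have hb : 1 - u * y ≤ (1 - y / κ) ^ s := by
          have := one_add_mul_self_le_rpow_one_add (s := -(y / κ)) (p := s) (by linarith) hs1
          have e1 : 1 + s * -(y / κ) = 1 - u * y := by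
            rw [hs]
            field_simp
            ring
          rw [e1] at this
          rwa [← sub_eq_add_neg] at this
        have hb2 : (1 - y / κ) ^ (2 * s) = ((1 - y / κ) ^ s) ^ 2 := by
          rw [← Real.rpow_natCast, ← Real.rpow_mul (by linarith)]
          congr 1
          push_cast
          ring
        rw [hb2]
        have hb3 : (1 - u * y) ^ 2 ≤ ((1 - y / κ) ^ s) ^ 2 := by
          have : 0 ≤ 1 - u * y := by linarith
          gcongr
        have h5 : 0 ≤ u * (1 - u * y) := mul_nonneg hu.le (by linarith)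
        calc u * (1 - u * y) ^ 3 = u * (1 - u * y) * (1 - u * y) ^ 2 := by ring
          _ ≤ u * (1 - u * y) * ((1 - y / κ) ^ s) ^ 2 := by gcongr
    have h6 : Real.sqrt (s / 2) ≤ 2 * Real.sqrt (2 * s) * (1 / 4) := by
      have : Real.sqrt (2 * s) = 2 * Real.sqrt (s / 2) := by
        rw [show 2 * s = 2 ^ 2 * (s / 2) by ring, Real.sqrt_mul (by norm_num),
          Real.sqrt_sq (by norm_num)]
      rw [this]
      linarith [Real.sqrt_nonneg (s / 2)]
    calc g < Gf s := hκg
      _ ≤ Real.sqrt (s / 2) := min_le_right _ _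
      _ ≤ 2 * Real.sqrt (2 * s) * (1 / 4) := h6
      _ ≤ _ := by gcongr
  · refine ⟨κ, 1 + s, hκ0, hκθ', by positivity, ?_⟩
    have hmin : min κ (1 / u) = κ := by
      apply min_eq_left
      rw [le_div_iff₀ hu]
      linarith
    rw [hmin]
    have hI : s / (2 + 2 * s) ≤ ∫ y in (0 : ℝ)..κ, u * (1 - u * y) * (1 - y / κ) ^ (1 + s) := by
      have e0 : s / (2 + 2 * s) = ∫ y in (0 : ℝ)..κ, u * (1 - y / κ) ^ (1 + 2 * s) := by
        rw [int_rpow hκ0 (by positivity), ← hs]
        congr 1
        ring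
      rw [e0]
      apply intervalIntegral.integral_mono_on hκ0.le
      · apply Continuous.intervalIntegrable
        exact continuous_const.mul ((by fun_prop : Continuous fun y : ℝ => 1 - y / κ).rpow_const
          (fun _ => Or.inr (by positivity)))
      · exact (hcont _ (by positivity)).intervalIntegrable _ _
      · intro y hy
        have hyκ : y / κ ≤ 1 := (div_le_one hκ0).2 hy.2
        have hb : (1 - y / κ) ^ s ≤ 1 - u * y := by
          have := _root_.rpow_one_add_le_one_add_mul_self (s := -(y / κ)) (p := s) (by linarith)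
            hs0.le hs1.le
          have e1 : 1 + s * -(y / κ) = 1 - u * y := by
            rw [hs]
            field_simp
            ring
          rw [e1] at this
          rwa [← sub_eq_add_neg] at this
        have h0 : 0 ≤ 1 - y / κ := by linarith
        have e2 : (1 - y / κ) ^ (1 + 2 * s) = (1 - y / κ) ^ s * (1 - y / κ) ^ (1 + s) := by
          rw [← Real.rpow_add_of_nonneg h0 hs0.le (by positivity)]
          congr 1
          ring
        rw [e2]
        have h7 : 0 ≤ (1 - y / κ) ^ (1 + s) := Real.rpow_nonneg h0 _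
        calc u * ((1 - y / κ) ^ s * (1 - y / κ) ^ (1 + s))
            ≤ u * ((1 - u * y) * (1 - y / κ) ^ (1 + s)) := by gcongr
          _ = u * (1 - u * y) * (1 - y / κ) ^ (1 + s) := by ring
    have h6 : s / Real.sqrt (1 + s) = 2 * Real.sqrt (1 + s) * (s / (2 + 2 * s)) := by
      have h8 : Real.sqrt (1 + s) ^ 2 = 1 + s := Real.sq_sqrt (by positivity)
      have h9 : 0 < Real.sqrt (1 + s) := Real.sqrt_pos.mpr (by positivity)
      rw [div_eq_iff h9.ne']
      have : 2 + 2 * s = 2 * Real.sqrt (1 + s) ^ 2 := by rw [h8]; ring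
      rw [this]
      field_simp
    calc g < Gf s := hκg
      _ ≤ s / Real.sqrt (1 + s) := min_le_left _ _
      _ = 2 * Real.sqrt (1 + s) * (s / (2 + 2 * s)) := h6
      _ ≤ _ := by gcongr

end Pool.Agent.MP_67227b_nt.Al
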