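import Pool.Agent.MP_67227b_nt.Repro
import Pool.Agent.MP_67227b_nt.Al.AlDefs

set_option autoImplicit false

open Filter Topology Set MeasureTheory Complex
open scoped Real ArithmeticFunction ContDiff

namespace Pool.Agent.MP_67227b_nt.Al

open Pool.Agent.Lib.ZetaCount_helper33 Pool.Agent.MP_67227b_nt Pool.Agent.MP_67227b_nt.Mo
open Pool.Agent.MP_67227b_nt.Sg Pool.Agent.MP_67227b_nt.Pp

/-- MODULE R1. Soft thresholding. -/
theorem soft_facts {σ : ℝ} (hσ : 0 < σ) : ∃ f : ℝ → ℝ, Continuous f ∧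
    (∀ z, |z| ≤ σ → f z = 0) ∧ (∀ z, σ < |z| → 0 < f z * z) ∧ (∀ z, |f z| = max (|z| - σ) 0) := by
  refine ⟨fun z => z - max (-σ) (min z σ), by fun_prop, ?_, ?_, ?_⟩
  · intro z hz
    have h := abs_le.1 hz
    simp only
    rw [min_eq_left h.2, max_eq_right h.1, sub_self]
  · intro z hz
    simp only
    rcases lt_or_ge 0 z with h0 | h0
    · rw [abs_of_pos h0] at hz
      rw [min_eq_right hz.le, max_eq_right (by linarith)]
      exact mul_pos (by linarith) h0
    · rw [abs_of_nonpos h0] at hz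
      rw [min_eq_left (by linarith), max_eq_left (by linarith)]
      exact mul_pos_of_neg_of_neg (by linarith) (by linarith)
  · intro z
    simp only
    rcases le_or_gt |z| σ with hz | hz
    · have h := abs_le.1 hz
      rw [min_eq_left h.2, max_eq_right h.1, sub_self, abs_zero, max_eq_right (by linarith)]
    · rcases lt_or_ge 0 z with h0 | h0
      · rw [abs_of_pos h0] at hz ⊢
        rw [min_eq_right hz.le, max_eq_right (by linarith), abs_of_pos (by linarith),
          max_eq_left (by linarith)]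
      · rw [abs_of_nonpos h0] at hz ⊢
        rw [min_eq_left (by linarith), max_eq_left (by linarith), abs_of_neg (by linarith),
          max_eq_left (by linarith)]
        ring

private theorem pb1_K_even (v : ℝ) : K |v| = K v := by
  unfold K
  rcases abs_choice v with h | h
  · rw [h]
  · rw [h, mul_neg, Real.sinc_neg]

private theorem pb1_half : (∫ v in Ioi (0 : ℝ), K v ^ 2) = 1 / 2 ∧
    IntegrableOn (fun v => K v ^ 2) (Ioi (0 : ℝ)) := by
  have h1 : ∫ v, K v ^ 2 = 1 := by simpa using integral_K_sq 0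
  have hint : Integrable fun v => K v ^ 2 := by
    by_contra h
    rw [integral_undef h] at h1
    norm_num at h1
  have h2 : (∫ v, K |v| ^ 2) = 2 * ∫ v in Ioi (0 : ℝ), K v ^ 2 :=
    integral_comp_abs (f := fun v => K v ^ 2)
  simp only [pb1_K_even] at h2
  rw [h1] at h2
  exact ⟨by linarith, hint.integrableOn⟩

/-- MODULE R2. `∫_0^Y (max (|sin πv| - σ) 0)²/v² dv → ∫_0^∞ sin²(πv)/v² dv = π²/2` as `σ → 0`,
`Y → ∞` (`integral_K_sq` in Repro.lean: `∫ sinc(πv)² dv = 1`, even function). -/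
theorem exists_near_sq {c : ℝ} (hc : c < π ^ 2 / 2) : ∃ (Y : ℕ) (σ : ℝ), 1 ≤ Y ∧ 0 < σ ∧ σ < 1 ∧
    c < ∫ v in (0 : ℝ)..Y, (max (|Real.sin (π * v)| - σ) 0) ^ 2 / v ^ 2 := by
  obtain ⟨h1, h2⟩ := pb1_half
  have h3 : Tendsto (fun Y : ℕ => ∫ v in (0 : ℝ)..Y, K v ^ 2) atTop (𝓝 (1 / 2)) := by
    rw [← h1]
    exact intervalIntegral_tendsto_integral_Ioi 0 h2 tendsto_natCast_atTop_atTop
  have hpi : (0 : ℝ) < π := Real.pi_pos
  have h4 : c / π ^ 2 < 1 / 2 := by
    rw [div_lt_iff₀ (by positivity)]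
    linarith
  obtain ⟨Y, hY, hY1⟩ := ((h3.eventually (lt_mem_nhds h4)).and (eventually_ge_atTop 1)).exists
  have h5 : c < ∫ v in (0 : ℝ)..Y, Real.sin (π * v) ^ 2 / v ^ 2 := by
    have h6 : (∫ v in (0 : ℝ)..Y, Real.sin (π * v) ^ 2 / v ^ 2) =
        ∫ v in (0 : ℝ)..Y, π ^ 2 * K v ^ 2 := by
      refine intervalIntegral.integral_congr_ae (Eventually.of_forall fun v hv => ?_)
      rw [uIoc_of_le (Nat.cast_nonneg Y)] at hv
      have hv0 : v ≠ 0 := hv.1.ne'
      unfold K
      rw [Real.sinc_of_ne_zero (mul_ne_zero hpi.ne' hv0)]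
      field_simp
    rw [h6, intervalIntegral.integral_const_mul]
    rw [div_lt_iff₀ (by positivity)] at hY
    linarith
  have hlim : Tendsto (fun σ : ℝ => ∫ v in (0 : ℝ)..Y,
      (max (|Real.sin (π * v)| - σ) 0) ^ 2 / v ^ 2) (𝓝[>] 0)
      (𝓝 (∫ v in (0 : ℝ)..Y, Real.sin (π * v) ^ 2 / v ^ 2)) := by
    refine intervalIntegral.tendsto_integral_filter_of_dominated_convergence (fun _ => π ^ 2)
      ?_ ?_ ?_ ?_
    · refine Eventually.of_forall fun σ => Measurable.aestronglyMeasurable ?_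
      fun_prop
    · filter_upwards [self_mem_nhdsWithin] with σ hσ
      refine Eventually.of_forall fun v hv => ?_
      rw [uIoc_of_le (Nat.cast_nonneg Y)] at hv
      have hv0 : 0 < v := hv.1
      have hσ0 : (0 : ℝ) < σ := hσ
      rw [Real.norm_eq_abs, abs_of_nonneg (by positivity), div_le_iff₀ (by positivity),
        ← mul_pow]
      refine pow_le_pow_left₀ (le_max_right _ _) ?_ 2
      refine max_le ?_ (by positivity)
      have h7 : |Real.sin (π * v)| ≤ |π * v| := Real.abs_sin_le_abs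
      rw [abs_of_pos (mul_pos hpi hv0)] at h7
      linarith
    · exact intervalIntegrable_const
    · refine Eventually.of_forall fun v _ => ?_
      have h8 : Tendsto (fun σ : ℝ => (max (|Real.sin (π * v)| - σ) 0) ^ 2 / v ^ 2) (𝓝 0)
          (𝓝 ((max (|Real.sin (π * v)| - 0) 0) ^ 2 / v ^ 2)) := by
        have : Continuous fun σ : ℝ => (max (|Real.sin (π * v)| - σ) 0) ^ 2 / v ^ 2 := by
          fun_prop
        exact this.tendsto 0
      rw [sub_zero, max_eq_left (abs_nonneg _), sq_abs] at h8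
      exact h8.mono_left nhdsWithin_le_nhds
  have h9 : ∀ᶠ σ : ℝ in 𝓝[>] 0, σ < 1 := by
    have : ∀ᶠ σ : ℝ in 𝓝 0, σ < 1 := gt_mem_nhds zero_lt_one
    exact this.filter_mono nhdsWithin_le_nhds
  obtain ⟨σ, ⟨hσ1, hσ2⟩, hσ3⟩ :=
    (((hlim.eventually (lt_mem_nhds h5)).and h9).and self_mem_nhdsWithin).exists
  exact ⟨Y, σ, hY1, hσ3, hσ2, hσ1⟩

end Pool.Agent.MP_67227b_nt.Al
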