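import Pool.Agent.MP_67227b_nt.Al.AlPb1

set_option autoImplicit false

open Filter Topology Set MeasureTheory Complex
open scoped Real ArithmeticFunction ContDiff

namespace Pool.Agent.MP_67227b_nt.Al

open Pool.Agent.Lib.ZetaCount_helper33 Pool.Agent.MP_67227b_nt Pool.Agent.MP_67227b_nt.Mo
open Pool.Agent.MP_67227b_nt.Sg Pool.Agent.MP_67227b_nt.Pp

/-- MODULE R3. The sine profile. Given `ϑ < √2`, choose `ε ∈ (0,1)`, `Y`, `σ` with
`(2/π) (1-ε) √((1-ε) I₁) > ϑ`, `I₁ = ∫_0^Y (max (|sin πv| - σ) 0)²/v² dv` (`exists_near_sq`;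
`(2/π) √(π²/2) = √2`). Let `V₁ = ∫_0^Y (max (|sin πv| - σ) 0)²/v dv`. For `s₀` large and
`uθ₀ ≥ s₀` choose `κ < θ₀` close to `θ₀`, `s = uκ`, `ρ² = (1-ε) κ/(u I₁)`, and
`H t = sg ρ f(sin(πut))/t` for `0 < t ≤ Y/u`, `H t = 0` otherwise (`f` from `soft_facts`;
continuous, as `f(sin)` vanishes near all zeros of the sine, in particular near `0` and `Y/u`).
Then (substitution `v = ut`) `∫ H² = (1-ε) κ < E := (1-ε/2) κ`, `∫ t H² = ρ² V₁ < V := ρ² V₁ + κ/u`, `X = Y/u ≤ εκ/4`, `κ - X - E ≥ εκ/4`, `V/(κ-X-E)² ≤ C/(ε² s) ≤ ε`, so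
`φ = 1 - V/(κ-X-E)² ∈ [1-ε, 1]`, and
`∫ 2 |H sin|/t φ ≥ 2 (1-ε) ρ u I₁ = 2 (1-ε) √((1-ε) I₁ s) > π ϑ √(uθ₀)`. -/
theorem sine_profile {ϑ : ℝ} (hϑ0 : 0 ≤ ϑ) (hϑ : ϑ < Real.sqrt 2) : ∃ s₀ : ℝ, 0 < s₀ ∧
    ∀ sg u θ₀ : ℝ, (sg = 1 ∨ sg = -1) → 0 < u → 0 < θ₀ → θ₀ ≤ 1 → s₀ ≤ u * θ₀ →
      ∃ (κ δ X E V : ℝ) (H : ℝ → ℝ), 0 < κ ∧ κ < θ₀ ∧ 0 < δ ∧ Prof sg u κ δ H ∧
        (∀ x, H x ≠ 0 → x ≤ X) ∧ ∫ t in (0 : ℝ)..κ, H t ^ 2 < E ∧
        ∫ t in (0 : ℝ)..κ, t * H t ^ 2 < V ∧ X + E < κ ∧ 0 ≤ V ∧ V ≤ (κ - X - E) ^ 2 ∧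
        π * (ϑ * Real.sqrt (u * θ₀)) <
          ∫ t in (0 : ℝ)..κ, 2 * |H t * Real.sin (π * u * t)| / t *
            (1 - V / (κ - X - E) ^ 2) := by
  have hpi := Real.pi_pos
  -- choice of `ε`
  have hcont : ContinuousAt (fun e : ℝ => Real.sqrt 2 * (1 - e) ^ 3) 0 := by fun_prop
  have hev : ∀ᶠ e : ℝ in 𝓝[>] (0 : ℝ), ϑ < Real.sqrt 2 * (1 - e) ^ 3 ∧ e < 1 := by
    refine ((hcont.tendsto.eventually_const_lt (u := ϑ) ?_).filter_mono
      nhdsWithin_le_nhds).and ((eventually_lt_nhds one_pos).filter_mono nhdsWithin_le_nhds)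
    simpa using hϑ
  obtain ⟨ε, ⟨hε1, hε2⟩, hε0'⟩ := (hev.and self_mem_nhdsWithin).exists
  have hε0 : 0 < ε := hε0'
  have h1ε : 0 < 1 - ε := by linarith
  obtain ⟨Y, σ, hY, hσ, hσ1, hI⟩ := exists_near_sq (c := (1 - ε) * π ^ 2 / 2)
    (by have : 0 < π ^ 2 := by positivity
        nlinarith only [hε0', this])
  set g : ℝ → ℝ := fun v => (max (|Real.sin (π * v)| - σ) 0) ^ 2 / v ^ 2 with hg
  set g₁ : ℝ → ℝ := fun v => (max (|Real.sin (π * v)| - σ) 0) ^ 2 / v with hg₁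
  set I₁ : ℝ := ∫ v in (0 : ℝ)..Y, g v with hI₁
  set V₁ : ℝ := ∫ v in (0 : ℝ)..Y, g₁ v with hV₁
  have hY0 : (0 : ℝ) < Y := by exact_mod_cast hY
  have hI0 : 0 < I₁ := lt_of_le_of_lt (by positivity) hI
  have hV0 : 0 ≤ V₁ := intervalIntegral.integral_nonneg hY0.le
    (fun v hv => div_nonneg (sq_nonneg _) hv.1)
  set B : ℝ := 16 * ((1 - ε) * V₁ / I₁ + 1) / ε ^ 3 with hB
  have hB0 : 0 < B := by positivity
  refine ⟨(4 * Y / ε + B) / (1 - ε), by positivity, ?_⟩
  intro sg u θ₀ hsg hu hθ₀ hθ1 hs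
  have hsg2 : sg * sg = 1 := by rcases hsg with h | h <;> rw [h] <;> norm_num
  have hsga : |sg| = 1 := by rcases hsg with h | h <;> rw [h] <;> norm_num
  set κ : ℝ := (1 - ε) * θ₀ with hκ
  have hκ0 : 0 < κ := by positivity
  have hs1 : 4 * Y / ε + B ≤ u * κ := by
    rw [div_le_iff₀ h1ε] at hs
    rw [hκ]; linarith only [hs]
  have hYε : 0 < 4 * Y / ε := by positivity
  have hsa : 4 * Y / ε ≤ u * κ := by linarith only [hB0, hs1]
  have hsb : B ≤ u * κ := by linarith only [hs1, hYε]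
  set X : ℝ := Y / u with hX
  have hX0 : 0 < X := by positivity
  have huX : u * X = Y := by rw [hX]; field_simp
  have hX4 : X ≤ ε * κ / 4 := by
    rw [hX, div_le_iff₀ hu]
    rw [div_le_iff₀ hε0] at hsa
    linarith only [hsa]
  set ρ : ℝ := Real.sqrt ((1 - ε) * κ / (u * I₁)) with hρ
  have hρ0 : 0 < ρ := Real.sqrt_pos.2 (by positivity)
  have hρ2 : ρ ^ 2 = (1 - ε) * κ / (u * I₁) := Real.sq_sqrt (by positivity)
  have hρI : ρ ^ 2 * (u * I₁) = (1 - ε) * κ := by rw [hρ2]; field_simp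
  set E : ℝ := (1 - ε / 2) * κ with hE
  set V : ℝ := ρ ^ 2 * V₁ + κ / u with hV
  have hVpos : 0 < V := by positivity
  have hV2 : V ≤ ε * (ε * κ / 4) ^ 2 := by
    have e1 : V = κ / u * ((1 - ε) * V₁ / I₁ + 1) := by
      rw [hV, hρ2]; field_simp
    have e2 : (1 - ε) * V₁ / I₁ + 1 = B * ε ^ 3 / 16 := by
      rw [hB]; field_simp
    rw [e1, e2]
    have : κ / u * (B * ε ^ 3 / 16) ≤ κ / u * ((u * κ) * ε ^ 3 / 16) := by
      gcongr
    refine this.trans (le_of_eq ?_)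
    field_simp
    ring
  set D : ℝ := κ - X - E with hD
  have hD1 : ε * κ / 4 ≤ D := by rw [hD, hE]; linarith only [hX4]
  have hεκ : 0 < ε * κ / 4 := by positivity
  have hD0 : 0 < D := by linarith only [hX0, hX4, hE]
  have hD2 : (ε * κ / 4) ^ 2 ≤ D ^ 2 := by gcongr
  have hVD : V ≤ ε * D ^ 2 := hV2.trans (mul_le_mul_of_nonneg_left hD2 hε0.le)
  set φ : ℝ := 1 - V / D ^ 2 with hφ
  have hφ1 : 1 - ε ≤ φ := by
    have : V / D ^ 2 ≤ ε := by rw [div_le_iff₀ (by positivity)]; exact hVD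
    linarith only [this]
  have hφ0 : 0 < φ := lt_of_lt_of_le h1ε hφ1
  -- the profile
  obtain ⟨f, hfc, hf0, hfp, hfa⟩ := soft_facts hσ
  set τ : ℝ := σ / (π * u) with hτ
  have hτ0 : 0 < τ := by positivity
  set H : ℝ → ℝ := fun t =>
    sg * ρ * f (Real.sin (π * u * max 0 (min t X))) / max t τ with hH
  have hHc : Continuous H := by
    rw [hH]
    refine Continuous.div ?_ (by fun_prop) ?_
    · exact continuous_const.mul (hfc.comp (by fun_prop))
    · intro x; exact (lt_of_lt_of_le hτ0 (le_max_right _ _)).ne'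
  have hf00 : f 0 = 0 := hf0 0 (by simpa using hσ.le)
  have hHneg : ∀ t, t < τ → H t = 0 := by
    intro t ht
    have hz : |Real.sin (π * u * max 0 (min t X))| ≤ σ := by
      have h1 : 0 ≤ max 0 (min t X) := le_max_left _ _
      have h2 : max 0 (min t X) ≤ τ := max_le hτ0.le ((min_le_left _ _).trans ht.le)
      have h3 : |Real.sin (π * u * max 0 (min t X))| ≤ |π * u * max 0 (min t X)| :=
        Real.abs_sin_le_abs
      refine h3.trans ?_
      rw [abs_of_nonneg (by positivity)]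
      calc π * u * max 0 (min t X) ≤ π * u * τ := by gcongr
        _ = σ := by rw [hτ]; field_simp
    simp only [hH]
    rw [hf0 _ hz]; simp
  have hHbig : ∀ t, X ≤ t → H t = 0 := by
    intro t ht
    have e : Real.sin (π * u * max 0 (min t X)) = 0 := by
      rw [min_eq_right ht, max_eq_right hX0.le, mul_assoc, huX, mul_comm]
      exact Real.sin_nat_mul_pi Y
    simp only [hH]
    rw [e, hf00]; simp
  have hHmid : ∀ t, τ ≤ t → t ≤ X → H t = sg * ρ * f (Real.sin (π * u * t)) / t := by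
    intro t h1 h2
    simp only [hH]
    rw [min_eq_left h2, max_eq_right (hτ0.le.trans h1), max_eq_left h1]
  have hHne : ∀ t, H t ≠ 0 → τ ≤ t ∧ t ≤ X := by
    intro t ht
    constructor
    · by_contra h; exact ht (hHneg t (not_le.1 h))
    · by_contra h; exact ht (hHbig t (not_le.1 h).le)
  have hHabs : ∀ t, 0 ≤ t → t ≤ X →
      |H t| = ρ * (max (|Real.sin (π * u * t)| - σ) 0) / t := by
    intro t h0 h1
    rcases lt_or_ge t τ with h | h
    · rw [hHneg t h, abs_zero]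
      have h3 : |Real.sin (π * u * t)| ≤ |π * u * t| := Real.abs_sin_le_abs
      rw [abs_of_nonneg (by positivity : 0 ≤ π * u * t)] at h3
      have h4 : π * u * t ≤ σ := by
        calc π * u * t ≤ π * u * τ := by gcongr
          _ = σ := by rw [hτ]; field_simp
      rw [max_eq_right (by linarith only [h3, h4])]; simp
    · rw [hHmid t h h1, abs_div, abs_mul, abs_mul, hsga, one_mul, abs_of_pos hρ0, hfa,
        abs_of_nonneg h0]
  have hHsq : ∀ t, 0 ≤ t → t ≤ X → H t ^ 2 = ρ ^ 2 * u ^ 2 * g (u * t) := by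
    intro t h0 h1
    rw [← sq_abs, hHabs t h0 h1]
    simp only [hg]
    rw [show π * (u * t) = π * u * t by ring]
    rcases h0.eq_or_lt with h | h
    · rw [← h]; simp
    · field_simp
  have hHt : ∀ t, 0 ≤ t → t ≤ X → t * H t ^ 2 = ρ ^ 2 * u * g₁ (u * t) := by
    intro t h0 h1
    rw [← sq_abs, hHabs t h0 h1]
    simp only [hg₁]
    rw [show π * (u * t) = π * u * t by ring]
    rcases h0.eq_or_lt with h | h
    · rw [← h]; simp
    · field_simp
  have hXκ : X < κ := by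
    have : ε * κ / 4 < κ := by nlinarith only [hX0, hX4, hε2, hκ0]
    linarith only [hX4, this]
  have hH2c : Continuous fun t => H t ^ 2 := hHc.pow 2
  have hHtc : Continuous fun t => t * H t ^ 2 := continuous_id.mul hH2c
  have hint1 : ∫ t in (0 : ℝ)..κ, H t ^ 2 = ρ ^ 2 * (u * I₁) := by
    rw [← intervalIntegral.integral_add_adjacent_intervals (b := X)
      (hH2c.intervalIntegrable _ _) (hH2c.intervalIntegrable _ _)]
    have e1 : ∫ t in (0 : ℝ)..X, H t ^ 2 = ρ ^ 2 * (u * I₁) := by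
      have e2 : ∫ t in (0 : ℝ)..X, H t ^ 2 = ∫ t in (0 : ℝ)..X, ρ ^ 2 * u ^ 2 * g (u * t) := by
        refine intervalIntegral.integral_congr fun t ht => ?_
        rw [uIcc_of_le hX0.le] at ht
        exact hHsq t ht.1 ht.2
      rw [e2, intervalIntegral.integral_const_mul, intervalIntegral.integral_comp_mul_left _ hu.ne',
        mul_zero, huX, smul_eq_mul]
      field_simp
      exact hI₁.symm
    have e3 : ∫ t in X..κ, H t ^ 2 = 0 := by
      have : ∫ t in X..κ, H t ^ 2 = ∫ t in X..κ, (0 : ℝ) := by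
        refine intervalIntegral.integral_congr fun t ht => ?_
        rw [uIcc_of_le hXκ.le] at ht
        simp [hHbig t ht.1]
      rw [this]; simp
    rw [e1, e3, add_zero]
  have hint2 : ∫ t in (0 : ℝ)..κ, t * H t ^ 2 = ρ ^ 2 * V₁ := by
    rw [← intervalIntegral.integral_add_adjacent_intervals (b := X)
      (hHtc.intervalIntegrable _ _) (hHtc.intervalIntegrable _ _)]
    have e1 : ∫ t in (0 : ℝ)..X, t * H t ^ 2 = ρ ^ 2 * V₁ := by
      have e2 : ∫ t in (0 : ℝ)..X, t * H t ^ 2 = ∫ t in (0 : ℝ)..X, ρ ^ 2 * u * g₁ (u * t) := by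
        refine intervalIntegral.integral_congr fun t ht => ?_
        rw [uIcc_of_le hX0.le] at ht
        exact hHt t ht.1 ht.2
      rw [e2, intervalIntegral.integral_const_mul, intervalIntegral.integral_comp_mul_left _ hu.ne',
        mul_zero, huX, smul_eq_mul]
      field_simp
      exact hV₁.symm
    have e3 : ∫ t in X..κ, t * H t ^ 2 = 0 := by
      have : ∫ t in X..κ, t * H t ^ 2 = ∫ t in X..κ, (0 : ℝ) := by
        refine intervalIntegral.integral_congr fun t ht => ?_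
        rw [uIcc_of_le hXκ.le] at ht
        simp [hHbig t ht.1]
      rw [this]; simp
    rw [e1, e3, add_zero]
  set δ : ℝ := min τ (min σ (κ - X)) with hδ
  have hδ0 : 0 < δ := lt_min hτ0 (lt_min hσ (by linarith only [hXκ]))
  have hδ1 : δ ≤ τ := min_le_left _ _
  have hδ2 : δ ≤ σ := (min_le_right _ _).trans (min_le_left _ _)
  have hδ3 : δ ≤ κ - X := (min_le_right _ _).trans (min_le_right _ _)
  have hsinne : ∀ t, H t ≠ 0 → σ < |Real.sin (π * u * t)| := by
    intro t ht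
    obtain ⟨h1, h2⟩ := hHne t ht
    by_contra h
    rw [hHmid t h1 h2, hf0 _ (not_lt.1 h)] at ht
    simp at ht
  refine ⟨κ, δ, X, E, V, H, hκ0, by rw [hκ]; nlinarith only [hε0', hθ₀], hδ0, ⟨hHc, ?_, ?_⟩, ?_, ?_, ?_, ?_,
    hVpos.le, ?_, ?_⟩
  · intro t ht
    obtain ⟨h1, h2⟩ := hHne t ht
    exact ⟨by linarith only [hδ1, h1], by linarith only [hδ3, h2]⟩
  · intro t ht
    obtain ⟨h1, h2⟩ := hHne t ht
    have h3 := hsinne t ht
    refine ⟨by linarith only [hδ2, h3], ?_⟩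
    have h4 := hfp _ h3
    rw [hHmid t h1 h2]
    have ht0 : 0 < t := lt_of_lt_of_le hτ0 h1
    have : sg * (sg * ρ * f (Real.sin (π * u * t)) / t) * Real.sin (π * u * t) =
        (sg * sg) * (ρ * (f (Real.sin (π * u * t)) * Real.sin (π * u * t)) / t) := by ring
    rw [this, hsg2, one_mul]
    positivity
  · intro t ht; exact (hHne t ht).2
  · rw [hint1, hρI, hE]
    nlinarith only [hX0, hX4]
  · rw [hint2, hV]
    have : 0 < κ / u := by positivity
    linarith only [this]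
  · linarith only [hX0, hX4, hE]
  · nlinarith only [hVD, hε2]
  · -- the lower bound
    have hGc : Continuous fun t => 2 * |H t * Real.sin (π * u * t)| / t * φ := by
      have : (fun t => 2 * |H t * Real.sin (π * u * t)| / t * φ) =
          fun t => 2 * |H t * Real.sin (π * u * t)| / max t τ * φ := by
        funext t
        by_cases ht : H t = 0
        · rw [ht]; simp
        · rw [max_eq_left (hHne t ht).1]
      rw [this]
      refine Continuous.mul (Continuous.div ?_ (by fun_prop) ?_) continuous_const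
      · exact continuous_const.mul (hHc.mul (by fun_prop)).abs
      · intro x; exact (lt_of_lt_of_le hτ0 (le_max_right _ _)).ne'
    have hlow : ∫ t in (0 : ℝ)..κ, (2 * φ / ρ) * H t ^ 2 ≤
        ∫ t in (0 : ℝ)..κ, 2 * |H t * Real.sin (π * u * t)| / t * φ := by
      have hc2 : Continuous fun t => (2 * φ / ρ) * H t ^ 2 := continuous_const.mul hH2c
      refine intervalIntegral.integral_mono_on hκ0.le (hc2.intervalIntegrable _ _)
        (hGc.intervalIntegrable _ _) ?_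
      intro t ht
      by_cases h0 : H t = 0
      · rw [h0]; simp
      · obtain ⟨h1, h2⟩ := hHne t h0
        have ht0 : 0 < t := lt_of_lt_of_le hτ0 h1
        have h3 := hHabs t ht0.le h2
        have h4 := hsinne t h0
        have h5 : max (|Real.sin (π * u * t)| - σ) 0 ≤ |Real.sin (π * u * t)| :=
          max_le (by linarith only [hσ]) (abs_nonneg _)
        have h6 : |H t| ≤ ρ * |Real.sin (π * u * t)| / t := by
          rw [h3]; gcongr
        rw [← sq_abs, abs_mul]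
        have h7 : |H t| / ρ ≤ |Real.sin (π * u * t)| / t := by
          rw [div_le_iff₀ hρ0]
          refine h6.trans (le_of_eq ?_)
          ring
        calc 2 * φ / ρ * |H t| ^ 2 = 2 * φ * |H t| * (|H t| / ρ) := by ring
          _ ≤ 2 * φ * |H t| * (|Real.sin (π * u * t)| / t) := by gcongr
          _ = _ := by ring
    rw [intervalIntegral.integral_const_mul, hint1] at hlow
    refine lt_of_lt_of_le ?_ hlow
    have e : 2 * φ / ρ * (ρ ^ 2 * (u * I₁)) = 2 * φ * (ρ * (u * I₁)) := by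
      field_simp
    rw [e]
    set R : ℝ := ρ * (u * I₁) with hR
    have hR0 : 0 < R := by positivity
    have hR2 : R ^ 2 = (1 - ε) * κ * (u * I₁) := by
      rw [hR, mul_pow, hρ2]; field_simp
    have hstep : π * (ϑ * Real.sqrt (u * θ₀)) < 2 * (1 - ε) * R := by
      refine lt_of_pow_lt_pow_left₀ 2 (by positivity) ?_
      have hsq : Real.sqrt (u * θ₀) ^ 2 = u * θ₀ := Real.sq_sqrt (by positivity)
      rw [mul_pow, mul_pow, hsq, mul_pow, hR2, hκ]
      have hϑ2 : ϑ ^ 2 < 2 * (1 - ε) ^ 6 := by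
        have h1 : ϑ ^ 2 < (Real.sqrt 2 * (1 - ε) ^ 3) ^ 2 := by gcongr
        rw [mul_pow, Real.sq_sqrt (by norm_num)] at h1
        calc ϑ ^ 2 < 2 * ((1 - ε) ^ 3) ^ 2 := h1
          _ = _ := by ring
      have h6 : (1 - ε) ^ 6 ≤ (1 - ε) ^ 5 :=
        pow_le_pow_of_le_one h1ε.le (by linarith only [hε0']) (by norm_num)
      have huθ : 0 < u * θ₀ := by positivity
      have hπ2 : 0 < π ^ 2 := by positivity
      calc π ^ 2 * (ϑ ^ 2 * (u * θ₀)) < π ^ 2 * ((2 * (1 - ε) ^ 6) * (u * θ₀)) := by gcongr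
        _ ≤ π ^ 2 * ((2 * (1 - ε) ^ 5) * (u * θ₀)) := by gcongr
        _ = 4 * (1 - ε) ^ 4 * (u * θ₀) * ((1 - ε) * π ^ 2 / 2) := by ring
        _ ≤ 4 * (1 - ε) ^ 4 * (u * θ₀) * I₁ := by gcongr
        _ = (2 * (1 - ε)) ^ 2 * ((1 - ε) * ((1 - ε) * θ₀) * (u * I₁)) := by ring
    refine hstep.trans_le ?_
    have : (1 - ε) * R ≤ φ * R := mul_le_mul_of_nonneg_right hφ1 hR0.le
    linarith only [this]

end Pool.Agent.MP_67227b_nt.Al
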