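import Pool.Agent.MP_67227b_nt.Al.AlDefs

set_option autoImplicit false

open Filter Topology Set MeasureTheory Complex
open scoped Real ArithmeticFunction ContDiff

namespace Pool.Agent.MP_67227b_nt.Al

open Pool.Agent.Lib.ZetaCount_helper33 Pool.Agent.MP_67227b_nt Pool.Agent.MP_67227b_nt.Mo
open Pool.Agent.MP_67227b_nt.Sg Pool.Agent.MP_67227b_nt.Pp

variable {a : ℕ → ℝ} {A B : ℝ} {c : ℕ → ℂ} {E : ℂ → ℂ}

private lemma L1cpow_nat {m : ℕ} (hm : 1 ≤ m) (z : ℂ) :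
    (m : ℂ) ^ z = Complex.exp ((Real.log m : ℂ) * z) := by
  have h : (m : ℂ) ≠ 0 := by
    have : m ≠ 0 := by omega
    exact_mod_cast this
  rw [Complex.cpow_def_of_ne_zero h, ← Complex.natCast_log]

private lemma L1log_gap {N m j : ℕ} (hm : 1 ≤ m) (hmN : m ≤ N) (hj : 1 ≤ j) (h : m ≠ j) :
    1 / (2 * (N : ℝ)) ≤ |Real.log m - Real.log j| := by
  have hN : (1 : ℝ) ≤ N := by exact_mod_cast hm.trans hmN
  have hm' : (m : ℝ) ≤ N := by exact_mod_cast hmN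
  have hm1 : (1 : ℝ) ≤ m := by exact_mod_cast hm
  by_cases hj2 : (j : ℝ) ≤ 2 * N
  · exact MomentBAux.log_sub_log hj hm hj2 (by linarith) (Ne.symm h)
  · push Not at hj2
    have h1 : Real.log m + 1 / 2 ≤ Real.log j := by
      have h2 : Real.log (2 * m) ≤ Real.log j :=
        Real.log_le_log (by positivity) (by linarith)
      rw [Real.log_mul (by norm_num) (by positivity)] at h2
      have h3 : (1 / 2 : ℝ) ≤ Real.log 2 := by
        have := Real.log_two_gt_d9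
        linarith
      linarith
    rw [abs_sub_comm, abs_of_nonneg (by linarith)]
    have : 1 / (2 * (N : ℝ)) ≤ 1 / 2 := by
      apply one_div_le_one_div_of_le (by norm_num)
      linarith
    linarith

/-- The term of the Dirichlet series. -/
private noncomputable def L1fj (c : ℕ → ℂ) (j : ℕ) (s : ℂ) : ℂ :=
  if j = 0 then 0 else c j * (j : ℂ) ^ (-s)

/-- The second Dirichlet polynomial. -/
private noncomputable def L1Bs (a : ℕ → ℝ) (v b : ℝ) (N : ℕ) (s : ℂ) : ℂ := Aa a N (1 + 2 * (b : ℂ) - s - (v : ℂ) * I)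

private lemma L1Bs_eq (a : ℕ → ℝ) (v b : ℝ) (N : ℕ) (s : ℂ) : L1Bs a v b N s = ∑ m ∈ Finset.Icc 1 N,
    (a m : ℂ) * (m : ℂ) ^ (-(1 + 2 * (b : ℂ)) + (v : ℂ) * I) *
      Complex.exp ((Real.log m : ℂ) * s) := by
  unfold L1Bs Aa
  apply Finset.sum_congr rfl
  intro m hm
  rw [Finset.mem_Icc] at hm
  rw [L1cpow_nat hm.1, L1cpow_nat hm.1, mul_assoc, ← Complex.exp_add]
  congr 2
  ring

private lemma L1coef_le (ha : ∀ n, |a n| ≤ A) (m : ℕ) : ‖(a m : ℂ)‖ ≤ A := by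
  rw [Complex.norm_real]
  exact ha m

private lemma L1norm_exp_log_pl {m : ℕ} (hm : 1 ≤ m) (σ t : ℝ) :
    ‖Complex.exp ((Real.log m : ℂ) * pl σ t)‖ = (m : ℝ) ^ σ := by
  have h : (0 : ℝ) < m := by exact_mod_cast hm
  rw [Complex.norm_exp, Complex.re_ofReal_mul, pl_re, Real.rpow_def_of_pos h]

private lemma L1norm_coef {v b : ℝ} (hb : 0 ≤ b) {m : ℕ} (hm : 1 ≤ m) :
    ‖(m : ℂ) ^ (-(1 + 2 * (b : ℂ)) + (v : ℂ) * I)‖ ≤ 1 := by
  have h : (1 : ℝ) ≤ m := by exact_mod_cast hm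
  rw [L1cpow_nat hm, Complex.norm_exp, Complex.re_ofReal_mul]
  have : (-(1 + 2 * (b : ℂ)) + (v : ℂ) * I).re = -(1 + 2 * b) := by simp
  rw [this]
  have h2 : 0 ≤ Real.log m := Real.log_nonneg h
  rw [Real.exp_le_one_iff]
  nlinarith

private lemma L1norm_Bs_le (hA : 0 ≤ A) (ha : ∀ n, |a n| ≤ A) {v b t : ℝ} (hb : 0 ≤ b) (N : ℕ) :
    ‖L1Bs a v b N (pl 4 t)‖ ≤ A * (N : ℝ) ^ 5 := by
  rw [L1Bs_eq]
  calc _ ≤ ∑ m ∈ Finset.Icc 1 N, A * (N : ℝ) ^ 4 := by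
        apply norm_sum_le_of_le
        intro m hm
        rw [Finset.mem_Icc] at hm
        rw [norm_mul, norm_mul, L1norm_exp_log_pl hm.1]
        have h1 := L1coef_le ha m
        have h2 := L1norm_coef (v := v) hb hm.1
        have h3 : (m : ℝ) ^ (4 : ℝ) ≤ (N : ℝ) ^ 4 := by
          have : (m : ℝ) ≤ N := by exact_mod_cast hm.2
          rw [show (4 : ℝ) = ((4 : ℕ) : ℝ) by norm_num, Real.rpow_natCast]
          gcongr
        calc _ ≤ A * 1 * (N : ℝ) ^ 4 := by gcongr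
          _ = _ := by ring
    _ = _ := by
        rw [Finset.sum_const, Nat.card_Icc]
        simp only [Nat.add_sub_cancel, nsmul_eq_mul]
        ring

private lemma L1fj_eq {j : ℕ} (hj : 1 ≤ j) (s : ℂ) :
    L1fj c j s = c j * Complex.exp (-(Real.log j : ℂ) * s) := by
  rw [L1fj, if_neg (by omega), L1cpow_nat hj]
  congr 2
  ring

private lemma L1norm_fj_le (hB : 0 ≤ B) (hc : ∀ j : ℕ, ‖c j‖ ≤ B * (j : ℝ) ^ 2) (j : ℕ) (t : ℝ) :
    ‖L1fj c j (pl 4 t)‖ ≤ B * (1 / (j : ℝ) ^ 2) := by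
  rcases Nat.eq_zero_or_pos j with rfl | hj
  · simp [L1fj]
  · have h0 : (0 : ℝ) < j := by exact_mod_cast hj
    rw [L1fj_eq hj, norm_mul, Complex.norm_exp]
    have h1 : (-(Real.log j : ℂ) * pl 4 t).re = -(4 * Real.log j) := by
      rw [← Complex.ofReal_neg, Complex.re_ofReal_mul, pl_re]
      ring
    rw [h1]
    have h2 : Real.exp (-(4 * Real.log j)) = 1 / (j : ℝ) ^ 4 := by
      rw [Real.exp_neg, one_div]
      congr 1
      rw [show (4 : ℝ) * Real.log j = ((4 : ℕ) : ℝ) * Real.log j by norm_num, ← Real.log_pow,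
        Real.exp_log (by positivity)]
    rw [h2]
    calc _ ≤ (B * (j : ℝ) ^ 2) * (1 / (j : ℝ) ^ 4) := by
          gcongr
          exact hc j
      _ = _ := by field_simp

private lemma L1continuous_pl (σ : ℝ) : Continuous fun t : ℝ => pl σ t := by
  unfold pl
  fun_prop

private lemma L1continuous_Wg (Δ b t₀ : ℝ) : Continuous fun t : ℝ => Wg Δ b t₀ (pl 4 t) := by
  unfold Wg
  have := L1continuous_pl 4
  fun_prop

private lemma L1continuous_fj (c : ℕ → ℂ) (j : ℕ) : Continuous fun t : ℝ => L1fj c j (pl 4 t) := by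
  rcases Nat.eq_zero_or_pos j with rfl | hj
  · simp only [L1fj, if_true]
    exact continuous_const
  · have : (fun t : ℝ => L1fj c j (pl 4 t)) = fun t => c j *
        Complex.exp (-(Real.log j : ℂ) * pl 4 t) := by
      ext t
      exact L1fj_eq hj _
    rw [this]
    have := L1continuous_pl 4
    fun_prop

private lemma L1continuous_Bs (a : ℕ → ℝ) (v b : ℝ) (N : ℕ) : Continuous fun t : ℝ => L1Bs a v b N (pl 4 t) := by
  simp only [L1Bs_eq]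
  have := L1continuous_pl 4
  fun_prop

private lemma L1integrable_gauss {Δ t₀ : ℝ} (hΔ : 0 < Δ) :
    Integrable fun t : ℝ => Real.exp (-((t - t₀) / Δ) ^ 2) := by
  have h1 : Integrable fun x : ℝ => Real.exp (-(1 / Δ ^ 2) * x ^ 2) :=
    integrable_exp_neg_mul_sq (by positivity)
  have h2 := h1.comp_sub_right t₀
  refine h2.congr (Eventually.of_forall fun t => ?_)
  simp only
  congr 1
  field_simp

private lemma L1integral_gauss {Δ t₀ : ℝ} (hΔ : 0 < Δ) :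
    ∫ t : ℝ, Real.exp (-((t - t₀) / Δ) ^ 2) = Δ * Real.sqrt π := by
  have h1 : (fun t : ℝ => Real.exp (-((t - t₀) / Δ) ^ 2)) =
      fun t : ℝ => (fun x : ℝ => Real.exp (-(1 / Δ ^ 2) * x ^ 2)) (t - t₀) := by
    ext t
    simp only
    congr 1
    field_simp
  rw [h1, integral_sub_right_eq_self (fun x : ℝ => Real.exp (-(1 / Δ ^ 2) * x ^ 2)) t₀,
    _root_.integral_gaussian]
  rw [div_div_eq_mul_div, div_one, mul_comm π, Real.sqrt_mul (by positivity),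
    Real.sqrt_sq hΔ.le]

/-- The summand of the integrand. -/
private noncomputable def L1gj (c : ℕ → ℂ) (a : ℕ → ℝ) (v b t₀ Δ : ℝ) (N j : ℕ) (t : ℝ) : ℂ :=
  L1fj c j (pl 4 t) * L1Bs a v b N (pl 4 t) * Wg Δ b t₀ (pl 4 t)

private lemma L1norm_gj_le (hA : 0 ≤ A) (ha : ∀ n, |a n| ≤ A) (hB : 0 ≤ B) (hc : ∀ j : ℕ, ‖c j‖ ≤ B * (j : ℝ) ^ 2) {v b t₀ Δ : ℝ} {N : ℕ}
    (hb : 0 ≤ b) (hb1 : b ≤ 1) (hΔ : 4 ≤ Δ) (j : ℕ) (t : ℝ) : ‖L1gj c a v b t₀ Δ N j t‖ ≤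
      (1 / (j : ℝ) ^ 2) * ((A * B) * (N : ℝ) ^ 5 * (Real.exp 1 * Real.exp (-((t - t₀) / Δ) ^ 2))) := by
  unfold L1gj
  rw [norm_mul, norm_mul]
  calc _ ≤ (B * (1 / (j : ℝ) ^ 2)) * (A * (N : ℝ) ^ 5) *
        (Real.exp 1 * Real.exp (-((t - t₀) / Δ) ^ 2)) := by
        gcongr
        · exact L1norm_fj_le hB hc _ _
        · exact L1norm_Bs_le hA ha hb N
        · exact Wg_norm_le hΔ hb hb1
    _ = _ := by ring

private lemma L1integrable_gj (hA : 0 ≤ A) (ha : ∀ n, |a n| ≤ A) (hB : 0 ≤ B) (hc : ∀ j : ℕ, ‖c j‖ ≤ B * (j : ℝ) ^ 2) {v b t₀ Δ : ℝ} {N : ℕ}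
    (hb : 0 ≤ b) (hb1 : b ≤ 1) (hΔ : 4 ≤ Δ) (j : ℕ) : Integrable (L1gj c a v b t₀ Δ N j) := by
  have h1 := ((L1integrable_gauss (Δ := Δ) (t₀ := t₀) (by linarith)).const_mul (Real.exp 1)).const_mul
    ((A * B) * (N : ℝ) ^ 5)
  have h2 := h1.const_mul (1 / (j : ℝ) ^ 2)
  refine h2.mono' ?_ (Eventually.of_forall fun t => L1norm_gj_le hA ha hB hc hb hb1 hΔ j t)
  apply Continuous.aestronglyMeasurable
  unfold L1gj
  exact ((L1continuous_fj c j).mul (L1continuous_Bs a v b N)).mul (L1continuous_Wg Δ b t₀)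

private lemma L1summable_inv_sq : Summable fun j : ℕ => 1 / (j : ℝ) ^ 2 :=
  Real.summable_one_div_nat_pow.mpr (by norm_num)

private lemma L1tsum_gj (hS : ∀ s : ℂ, 3 < s.re →
    HasSum (fun j : ℕ => if j = 0 then 0 else c j * (j : ℂ) ^ (-s)) (E s)) {v b t₀ Δ : ℝ} {N : ℕ} (t : ℝ) :
    ∑' j : ℕ, L1gj c a v b t₀ Δ N j t = Eint E a v b t₀ Δ N (pl 4 t) := by
  have h1 := hS (pl 4 t) (by rw [pl_re]; norm_num)
  have h2 := (h1.mul_right (L1Bs a v b N (pl 4 t))).mul_right (Wg Δ b t₀ (pl 4 t))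
  exact h2.tsum_eq

/-- The integral over the whole line. -/
private lemma L1hasSum_full (hA : 0 ≤ A) (ha : ∀ n, |a n| ≤ A) (hB : 0 ≤ B) (hc : ∀ j : ℕ, ‖c j‖ ≤ B * (j : ℝ) ^ 2) (hS : ∀ s : ℂ, 3 < s.re →
    HasSum (fun j : ℕ => if j = 0 then 0 else c j * (j : ℂ) ^ (-s)) (E s)) {v b t₀ Δ : ℝ} {N : ℕ}
    (hb : 0 ≤ b) (hb1 : b ≤ 1) (hΔ : 4 ≤ Δ) :
    HasSum (fun j : ℕ => ∫ t, L1gj c a v b t₀ Δ N j t) (∫ t, Eint E a v b t₀ Δ N (pl 4 t)) := by
  have h := hasSum_integral_of_summable_integral_norm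
    (fun j => L1integrable_gj (v := v) (t₀ := t₀) (N := N) hA ha hB hc hb hb1 hΔ j) ?_
  · simpa only [L1tsum_gj hS] using h
  · have hs : Summable fun j : ℕ => (1 / (j : ℝ) ^ 2) *
        ((A * B) * (N : ℝ) ^ 5 * (Real.exp 1 * (Δ * Real.sqrt π))) := L1summable_inv_sq.mul_right _
    refine Summable.of_nonneg_of_le (fun j => integral_nonneg fun t => norm_nonneg _) ?_ hs
    intro j
    have hi := ((L1integrable_gauss (Δ := Δ) (t₀ := t₀) (by linarith)).const_mul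
      (Real.exp 1)).const_mul ((A * B) * (N : ℝ) ^ 5)
    calc ∫ t, ‖L1gj c a v b t₀ Δ N j t‖ ≤ ∫ t, (1 / (j : ℝ) ^ 2) *
          ((A * B) * (N : ℝ) ^ 5 * (Real.exp 1 * Real.exp (-((t - t₀) / Δ) ^ 2))) :=
        integral_mono (L1integrable_gj hA ha hB hc hb hb1 hΔ j).norm (hi.const_mul _)
          (fun t => L1norm_gj_le hA ha hB hc hb hb1 hΔ j t)
      _ = _ := by
        rw [integral_const_mul, integral_const_mul, integral_const_mul,
          L1integral_gauss (by linarith)]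

/-- The term with indices `m`, `j`. -/
private noncomputable def L1tm2 (c : ℕ → ℂ) (a : ℕ → ℝ) (v b t₀ Δ : ℝ) (N j m : ℕ) : ℂ :=
  (a m : ℂ) * (m : ℂ) ^ (-(1 + 2 * (b : ℂ)) + (v : ℂ) * I) *
    c j * (((Δ * Real.sqrt π : ℝ) : ℂ) *
      Complex.exp (((Real.log m - Real.log j : ℝ) : ℂ) * pl (1 / 2 + b) t₀) *
        (Real.exp (-(Δ ^ 2 * (Real.log m - Real.log j) ^ 2 / 4)) : ℝ))

private lemma L1integral_gj {v b t₀ Δ : ℝ} {N j : ℕ} (hj : 1 ≤ j) (hΔ : 0 < Δ) (hb : 0 ≤ b) (hb1 : b ≤ 1)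
    (hΔ4 : 4 ≤ Δ) :
    ∫ t, L1gj c a v b t₀ Δ N j t = ∑ m ∈ Finset.Icc 1 N, L1tm2 c a v b t₀ Δ N j m := by
  have e : ∀ t, L1gj c a v b t₀ Δ N j t = ∑ m ∈ Finset.Icc 1 N,
      ((a m : ℂ) * (m : ℂ) ^ (-(1 + 2 * (b : ℂ)) + (v : ℂ) * I) *
        c j) * (Wg Δ b t₀ (pl 4 t) *
          Complex.exp (((Real.log m - Real.log j : ℝ) : ℂ) * pl 4 t)) := by
    intro t
    unfold L1gj
    rw [L1Bs_eq, L1fj_eq hj, Finset.mul_sum, Finset.sum_mul]
    apply Finset.sum_congr rfl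
    intro m _
    have : Complex.exp (((Real.log m - Real.log j : ℝ) : ℂ) * pl 4 t) =
        Complex.exp ((Real.log m : ℂ) * pl 4 t) * Complex.exp (-(Real.log j : ℂ) * pl 4 t) := by
      rw [← Complex.exp_add]
      congr 1
      push_cast
      ring
    rw [this]
    ring
  have hint : ∀ m ∈ Finset.Icc 1 N, Integrable fun t : ℝ =>
      ((a m : ℂ) * (m : ℂ) ^ (-(1 + 2 * (b : ℂ)) + (v : ℂ) * I) *
        c j) * (Wg Δ b t₀ (pl 4 t) *
          Complex.exp (((Real.log m - Real.log j : ℝ) : ℂ) * pl 4 t)) := by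
    intro m _
    apply Integrable.const_mul
    have h1 := ((L1integrable_gauss (Δ := Δ) (t₀ := t₀) hΔ).const_mul (Real.exp 1)).const_mul
      (Real.exp ((Real.log m - Real.log j) * 4))
    refine h1.mono' ?_ (Eventually.of_forall fun t => ?_)
    · apply Continuous.aestronglyMeasurable
      have h2 := L1continuous_Wg Δ b t₀
      have h3 := L1continuous_pl 4
      fun_prop
    · rw [norm_mul, Complex.norm_exp, Complex.re_ofReal_mul, pl_re, mul_comm]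
      gcongr
      exact Wg_norm_le hΔ4 hb hb1
  simp only [e]
  rw [integral_finsetSum _ hint]
  apply Finset.sum_congr rfl
  intro m _
  rw [integral_const_mul, gauss_int hΔ]
  unfold L1tm2
  push_cast
  ring

private lemma L1gj_zero {v b t₀ Δ : ℝ} {N : ℕ} : ∫ t, L1gj c a v b t₀ Δ N 0 t = 0 := by
  have : ∀ t, L1gj c a v b t₀ Δ N 0 t = 0 := by
    intro t
    simp [L1gj, L1fj]
  simp [this]

private lemma L1tm2_diag {v b t₀ Δ : ℝ} {N m : ℕ} :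
    L1tm2 c a v b t₀ Δ N m m = ((Δ * Real.sqrt π : ℝ) : ℂ) * (c m * (a m : ℂ) *
    (m : ℂ) ^ (-(1 + 2 * (b : ℂ)) + (v : ℂ) * I)) := by
  unfold L1tm2
  simp
  ring

private lemma L1tm2_off (hA : 0 ≤ A) (ha : ∀ n, |a n| ≤ A) (hB : 0 ≤ B) (hc : ∀ j : ℕ, ‖c j‖ ≤ B * (j : ℝ) ^ 2) {v b t₀ Δ : ℝ} {N m j : ℕ} (hm : m ∈ Finset.Icc 1 N) (hj : 1 ≤ j) (hne : m ≠ j)
    (hb : 0 ≤ b) (hb1 : b ≤ 1) (hΔ : 32 * (N : ℝ) ≤ Δ) :
    ‖L1tm2 c a v b t₀ Δ N j m‖ ≤ ((A * B) * (Δ * Real.sqrt π)) *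
      Real.exp (-(Δ ^ 2 / (32 * (N : ℝ) ^ 2))) * ((N : ℝ) ^ 6 * (1 / (j : ℝ) ^ 2)) := by
  rw [Finset.mem_Icc] at hm
  have hN : (1 : ℝ) ≤ N := by exact_mod_cast hm.1.trans hm.2
  have hmN : (m : ℝ) ≤ N := by exact_mod_cast hm.2
  have hm1 : (1 : ℝ) ≤ m := by exact_mod_cast hm.1
  have hj1 : (1 : ℝ) ≤ j := by exact_mod_cast hj
  have hΔ0 : 0 < Δ := by linarith
  set ℓ := Real.log m - Real.log j with hℓ
  have hgap := L1log_gap hm.1 hm.2 hj hne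
  rw [← hℓ] at hgap
  unfold L1tm2
  rw [← hℓ, norm_mul, norm_mul, norm_mul, norm_mul, norm_mul, Complex.norm_exp,
    Complex.re_ofReal_mul, pl_re, Complex.norm_real (Δ * Real.sqrt π),
    Complex.norm_real (Real.exp (-(Δ ^ 2 * ℓ ^ 2 / 4))), Real.norm_eq_abs,
    Real.norm_eq_abs, abs_of_nonneg (by positivity : 0 ≤ Δ * Real.sqrt π),
    abs_of_pos (Real.exp_pos _)]
  have hμ := L1coef_le ha m
  have hcf := hc j
  have hc' := L1norm_coef (v := v) hb hm.1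
  have hsplit : Real.exp (-(Δ ^ 2 * ℓ ^ 2 / 4)) ≤
      Real.exp (-(Δ ^ 2 / (32 * (N : ℝ) ^ 2))) * Real.exp (-(4 * |ℓ|)) := by
    rw [← Real.exp_add]
    apply Real.exp_le_exp.mpr
    have h1 : Δ ^ 2 / (32 * (N : ℝ) ^ 2) ≤ Δ ^ 2 * ℓ ^ 2 / 8 := by
      have h2 : (1 / (2 * (N : ℝ))) ^ 2 ≤ ℓ ^ 2 := by
        rw [← sq_abs ℓ]
        gcongr
      have h3 : Δ ^ 2 / (32 * (N : ℝ) ^ 2) = Δ ^ 2 * (1 / (2 * (N : ℝ))) ^ 2 / 8 := by
        field_simp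
        norm_num
      rw [h3]
      gcongr
    have h4 : 4 * |ℓ| ≤ Δ ^ 2 * ℓ ^ 2 / 8 := by
      have h5 : 32 ≤ Δ * |ℓ| * 2 := by
        calc (32 : ℝ) = (32 * N) * (1 / (2 * (N : ℝ))) * 2 := by field_simp
          _ ≤ Δ * |ℓ| * 2 := by gcongr
      have h6 : Δ ^ 2 * ℓ ^ 2 = (Δ * |ℓ|) * Δ * |ℓ| := by
        rw [← sq_abs ℓ]
        ring
      rw [h6]
      have h7 : 32 ≤ Δ := by linarith
      have h8 : (16 : ℝ) * 32 * |ℓ| ≤ (Δ * |ℓ|) * Δ * |ℓ| := by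
        gcongr
        linarith
      have := abs_nonneg ℓ
      linarith
    linarith
  have hfin : (j : ℝ) ^ 2 * (Real.exp (ℓ * (1 / 2 + b)) * Real.exp (-(4 * |ℓ|))) ≤
      (N : ℝ) ^ 6 * (1 / (j : ℝ) ^ 2) := by
    rw [← Real.exp_add]
    rcases lt_or_gt_of_ne hne with h | h
    · -- m < j
      have hlt : ℓ ≤ 0 := by
        have : Real.log m ≤ Real.log j := Real.log_le_log (by linarith) (by exact_mod_cast h.le)
        rw [hℓ]
        linarith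
      rw [abs_of_nonpos hlt]
      have h1 : Real.exp (ℓ * (1 / 2 + b) + -(4 * -ℓ)) ≤ Real.exp (4 * ℓ) := by
        apply Real.exp_le_exp.mpr
        nlinarith
      have h2 : Real.exp (4 * ℓ) = (m : ℝ) ^ 4 / (j : ℝ) ^ 4 := by
        rw [hℓ, mul_sub, Real.exp_sub]
        congr 1
        · rw [show (4 : ℝ) * Real.log m = ((4 : ℕ) : ℝ) * Real.log m by norm_num,
            ← Real.log_pow, Real.exp_log (by positivity)]
        · rw [show (4 : ℝ) * Real.log j = ((4 : ℕ) : ℝ) * Real.log j by norm_num,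
            ← Real.log_pow, Real.exp_log (by positivity)]
      calc (j : ℝ) ^ 2 * Real.exp (ℓ * (1 / 2 + b) + -(4 * -ℓ))
          ≤ (j : ℝ) ^ 2 * ((m : ℝ) ^ 4 / (j : ℝ) ^ 4) := by rw [← h2]; gcongr
        _ = (m : ℝ) ^ 4 * (1 / (j : ℝ) ^ 2) := by field_simp
        _ ≤ (N : ℝ) ^ 4 * (1 / (j : ℝ) ^ 2) := by gcongr
        _ ≤ (N : ℝ) ^ 6 * (1 / (j : ℝ) ^ 2) := by
          have := pow_le_pow_right₀ hN (show 4 ≤ 6 by norm_num)
          gcongr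
    · -- j < m
      have hlt : 0 ≤ ℓ := by
        have : Real.log j ≤ Real.log m := Real.log_le_log (by linarith) (by exact_mod_cast h.le)
        rw [hℓ]
        linarith
      rw [abs_of_nonneg hlt]
      have h1 : Real.exp (ℓ * (1 / 2 + b) + -(4 * ℓ)) ≤ 1 := by
        rw [Real.exp_le_one_iff]
        nlinarith
      have hjN : (j : ℝ) ≤ N := by
        have : (j : ℝ) ≤ m := by exact_mod_cast h.le
        linarith
      calc (j : ℝ) ^ 2 * Real.exp (ℓ * (1 / 2 + b) + -(4 * ℓ)) ≤ (j : ℝ) ^ 2 * 1 := by gcongr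
        _ = (j : ℝ) ^ 4 * (1 / (j : ℝ) ^ 2) := by field_simp
        _ ≤ (N : ℝ) ^ 4 * (1 / (j : ℝ) ^ 2) := by gcongr
        _ ≤ (N : ℝ) ^ 6 * (1 / (j : ℝ) ^ 2) := by
          have := pow_le_pow_right₀ hN (show 4 ≤ 6 by norm_num)
          gcongr
  calc _ ≤ A * 1 * (B * (j : ℝ) ^ 2) * (Δ * Real.sqrt π * Real.exp (ℓ * (1 / 2 + b)) *
        (Real.exp (-(Δ ^ 2 / (32 * (N : ℝ) ^ 2))) * Real.exp (-(4 * |ℓ|)))) := by gcongr
    _ = ((A * B) * (Δ * Real.sqrt π)) * Real.exp (-(Δ ^ 2 / (32 * (N : ℝ) ^ 2))) *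
        ((j : ℝ) ^ 2 * (Real.exp (ℓ * (1 / 2 + b)) * Real.exp (-(4 * |ℓ|)))) := by ring
    _ ≤ _ := by gcongr

/-- The tails of the Gaussian. -/
private lemma L1tail_gauss {Δ t₀ X : ℝ} (hΔ : 0 < Δ) (hX : 0 < X) {t : ℝ} (ht : X ≤ |t - t₀|) :
    Real.exp (-((t - t₀) / Δ) ^ 2) ≤ Real.exp (-(X ^ 2 / (2 * Δ ^ 2))) *
      Real.exp (-((t - t₀) / (2 * Δ)) ^ 2) := by
  rw [← Real.exp_add]
  apply Real.exp_le_exp.mpr
  have h1 : X ^ 2 ≤ (t - t₀) ^ 2 := by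
    rw [← sq_abs (t - t₀)]
    gcongr
  have h2 : ((t - t₀) / Δ) ^ 2 = (t - t₀) ^ 2 / Δ ^ 2 := by rw [div_pow]
  have h3 : ((t - t₀) / (2 * Δ)) ^ 2 = (t - t₀) ^ 2 / Δ ^ 2 / 4 := by
    rw [div_pow, mul_pow]
    field_simp
    norm_num
  have h4 : X ^ 2 / (2 * Δ ^ 2) = X ^ 2 / Δ ^ 2 / 2 := by field_simp
  have h5 : X ^ 2 / Δ ^ 2 ≤ (t - t₀) ^ 2 / Δ ^ 2 := by gcongr
  have h6 : 0 ≤ X ^ 2 / Δ ^ 2 := by positivity
  rw [h2, h3, h4]
  linarith

private lemma L1norm_Ph_le (hA : 0 ≤ A) (ha : ∀ n, |a n| ≤ A) (hB : 0 ≤ B) (hc : ∀ j : ℕ, ‖c j‖ ≤ B * (j : ℝ) ^ 2) (hS : ∀ s : ℂ, 3 < s.re →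
    HasSum (fun j : ℕ => if j = 0 then 0 else c j * (j : ℂ) ^ (-s)) (E s)) {v b t₀ Δ : ℝ} {N : ℕ}
    (hb : 0 ≤ b) (hb1 : b ≤ 1) (hΔ : 4 ≤ Δ) (t : ℝ) : ‖Eint E a v b t₀ Δ N (pl 4 t)‖ ≤
      (∑' j : ℕ, 1 / (j : ℝ) ^ 2) * ((A * B) * (N : ℝ) ^ 5 * (Real.exp 1 *
        Real.exp (-((t - t₀) / Δ) ^ 2))) := by
  rw [← L1tsum_gj hS]
  have hs : Summable fun j : ℕ => (1 / (j : ℝ) ^ 2) *
      ((A * B) * (N : ℝ) ^ 5 * (Real.exp 1 * Real.exp (-((t - t₀) / Δ) ^ 2))) :=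
    L1summable_inv_sq.mul_right _
  rw [← tsum_mul_right]
  exact tsum_of_norm_bounded hs.hasSum (fun j => L1norm_gj_le hA ha hB hc hb hb1 hΔ j t)

private lemma L1aesm_Ph (hS : ∀ s : ℂ, 3 < s.re →
    HasSum (fun j : ℕ => if j = 0 then 0 else c j * (j : ℂ) ^ (-s)) (E s)) {v b t₀ Δ : ℝ} {N : ℕ} :
    AEStronglyMeasurable (fun t : ℝ => Eint E a v b t₀ Δ N (pl 4 t)) volume := by
  have h : ∀ t, Tendsto (fun n : ℕ => ∑ j ∈ Finset.range n, L1gj c a v b t₀ Δ N j t) atTop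
      (𝓝 (Eint E a v b t₀ Δ N (pl 4 t))) := by
    intro t
    have h1 := hS (pl 4 t) (by rw [pl_re]; norm_num)
    have h2 := (h1.mul_right (L1Bs a v b N (pl 4 t))).mul_right (Wg Δ b t₀ (pl 4 t))
    exact h2.tendsto_sum_nat
  refine aestronglyMeasurable_of_tendsto_ae atTop (fun n => ?_) (Eventually.of_forall h)
  apply Continuous.aestronglyMeasurable
  apply continuous_finsetSum
  intro j _
  unfold L1gj
  exact ((L1continuous_fj c j).mul (L1continuous_Bs a v b N)).mul (L1continuous_Wg Δ b t₀)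

/-- MODULE L1. Evaluation on the line `Re s = 4` for a general Dirichlet series `E = ∑ c j j^{-s}` with
`‖c j‖ ≤ B j²`: copy of the proof of `Pp.right_line_a` (Pp/PpRight.lean, copy the private lemmas),
where `ca a α N` is replaced by `c`, `ca_bound` by the hypothesis on `c`, `ca_series` by the
hypothesis `HasSum`, and the factor `A²` by `A B`. -/
theorem right_gen : ∃ C : ℝ, 0 < C ∧ ∀ (E : ℂ → ℂ) (c : ℕ → ℂ) (a : ℕ → ℝ) (A B v b t₀ Δ X : ℝ)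
    (N : ℕ), (∀ n, |a n| ≤ A) → (∀ j : ℕ, ‖c j‖ ≤ B * (j : ℝ) ^ 2) →
    (∀ s : ℂ, 3 < s.re →
      HasSum (fun j : ℕ => if j = 0 then 0 else c j * (j : ℂ) ^ (-s)) (E s)) →
    1 ≤ N → 0 ≤ v → 0 < b → b ≤ 1 → 32 * (N : ℝ) ≤ Δ → 0 < X →
    ‖(∫ t in (t₀ - X)..(t₀ + X), Eint E a v b t₀ Δ N (pl 4 t)) -
        ((Δ * Real.sqrt π : ℝ) : ℂ) * Dg c a v b N‖ ≤
      C * (A * B) * (N : ℝ) ^ 12 * Δ * (Real.exp (-(Δ ^ 2 / (32 * (N : ℝ) ^ 2))) +
        Real.exp (-(X ^ 2 / (2 * Δ ^ 2)))) := by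
  set z2 : ℝ := ∑' j : ℕ, 1 / (j : ℝ) ^ 2 with hz2
  have hz0 : 0 ≤ z2 := tsum_nonneg fun j => by positivity
  refine ⟨z2 * Real.sqrt π + 2 * z2 * Real.exp 1 * Real.sqrt π + 1, by positivity, ?_⟩
  intro E c a A B v b t₀ Δ X N ha hc hS hN hα hb hb1 hΔN hX
  have hA : 0 ≤ A := (abs_nonneg _).trans (ha 0)
  have hB : 0 ≤ B := by
    have := (norm_nonneg _).trans (hc 1)
    simpa using this
  have hN1 : (1 : ℝ) ≤ N := by exact_mod_cast hN
  have hΔ4 : 4 ≤ Δ := by linarith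
  have hΔ0 : 0 < Δ := by linarith
  -- the full integral
  have hfull := L1hasSum_full (v := v) (t₀ := t₀) (N := N) hA ha hB hc hS hb.le hb1 hΔ4
  -- the diagonal
  have hdiag : HasSum (fun j : ℕ => if j ∈ Finset.Icc 1 N then L1tm2 c a v b t₀ Δ N j j else 0)
      (((Δ * Real.sqrt π : ℝ) : ℂ) * Dg c a v b N) := by
    have h1 : HasSum (fun j : ℕ => if j ∈ Finset.Icc 1 N then L1tm2 c a v b t₀ Δ N j j else 0)
        (∑ j ∈ Finset.Icc 1 N, if j ∈ Finset.Icc 1 N then L1tm2 c a v b t₀ Δ N j j else 0) :=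
      hasSum_sum_of_ne_finset_zero (fun j hj => if_neg hj)
    convert h1 using 1
    rw [Dg, Finset.mul_sum]
    apply Finset.sum_congr rfl
    intro m hm
    rw [if_pos hm, L1tm2_diag]
  have hsub := hfull.sub hdiag
  have hbound : ∀ j : ℕ, ‖(∫ t, L1gj c a v b t₀ Δ N j t) -
      (if j ∈ Finset.Icc 1 N then L1tm2 c a v b t₀ Δ N j j else 0)‖ ≤
      ((A * B) * (Δ * Real.sqrt π)) * Real.exp (-(Δ ^ 2 / (32 * (N : ℝ) ^ 2))) *
        ((N : ℝ) ^ 7) * (1 / (j : ℝ) ^ 2) := by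
    intro j
    rcases Nat.eq_zero_or_pos j with rfl | hj
    · rw [L1gj_zero, if_neg (by simp)]
      simp
    · rw [L1integral_gj hj hΔ0 hb.le hb1 hΔ4]
      have h2 : (∑ m ∈ Finset.Icc 1 N, L1tm2 c a v b t₀ Δ N j m) -
          (if j ∈ Finset.Icc 1 N then L1tm2 c a v b t₀ Δ N j j else 0) =
          ∑ m ∈ (Finset.Icc 1 N).erase j, L1tm2 c a v b t₀ Δ N j m := by
        by_cases hjm : j ∈ Finset.Icc 1 N
        · rw [if_pos hjm, ← Finset.add_sum_erase _ _ hjm]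
          ring
        · rw [if_neg hjm, Finset.erase_eq_of_notMem hjm, sub_zero]
      rw [h2]
      calc _ ≤ ∑ m ∈ (Finset.Icc 1 N).erase j, ((A * B) * (Δ * Real.sqrt π)) *
            Real.exp (-(Δ ^ 2 / (32 * (N : ℝ) ^ 2))) * ((N : ℝ) ^ 6 * (1 / (j : ℝ) ^ 2)) := by
            apply norm_sum_le_of_le
            intro m hm
            rw [Finset.mem_erase] at hm
            exact L1tm2_off hA ha hB hc hm.2 hj hm.1 hb.le hb1 hΔN
        _ ≤ ∑ m ∈ Finset.Icc 1 N, ((A * B) * (Δ * Real.sqrt π)) *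
            Real.exp (-(Δ ^ 2 / (32 * (N : ℝ) ^ 2))) * ((N : ℝ) ^ 6 * (1 / (j : ℝ) ^ 2)) := by
            apply Finset.sum_le_sum_of_subset_of_nonneg (Finset.erase_subset _ _)
            intro m _ _
            positivity
        _ = _ := by
            rw [Finset.sum_const, Nat.card_Icc]
            simp only [Nat.add_sub_cancel, nsmul_eq_mul]
            ring
  have hoff : ‖(∫ t, Eint E a v b t₀ Δ N (pl 4 t)) - ((Δ * Real.sqrt π : ℝ) : ℂ) * Dg c a v b N‖ ≤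
      ((A * B) * (Δ * Real.sqrt π)) * Real.exp (-(Δ ^ 2 / (32 * (N : ℝ) ^ 2))) * ((N : ℝ) ^ 7) * z2 := by
    rw [← hsub.tsum_eq]
    exact tsum_of_norm_bounded (L1summable_inv_sq.hasSum.mul_left _) hbound
  -- the tails
  have hPi : Integrable fun t : ℝ => Eint E a v b t₀ Δ N (pl 4 t) := by
    have h1 := (((L1integrable_gauss (Δ := Δ) (t₀ := t₀) hΔ0).const_mul (Real.exp 1)).const_mul
      ((A * B) * (N : ℝ) ^ 5)).const_mul z2
    exact h1.mono' (L1aesm_Ph hS) (Eventually.of_forall fun t => L1norm_Ph_le hA ha hB hc hS hb.le hb1 hΔ4 t)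
  have htail : ‖(∫ t in (t₀ - X)..(t₀ + X), Eint E a v b t₀ Δ N (pl 4 t)) -
      ∫ t, Eint E a v b t₀ Δ N (pl 4 t)‖ ≤
      z2 * ((A * B) * (N : ℝ) ^ 5 * (Real.exp 1 * (Real.exp (-(X ^ 2 / (2 * Δ ^ 2))) *
        (2 * Δ * Real.sqrt π)))) := by
    rw [intervalIntegral.integral_of_le (by linarith), norm_sub_rev,
      ← integral_add_compl (measurableSet_Ioc (a := t₀ - X) (b := t₀ + X)) hPi,
      add_sub_cancel_left]
    have hg := (((L1integrable_gauss (Δ := 2 * Δ) (t₀ := t₀) (by linarith)).const_mul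
      (Real.exp (-(X ^ 2 / (2 * Δ ^ 2))))).const_mul (Real.exp 1)).const_mul ((A * B) * (N : ℝ) ^ 5)
    have hg2 := hg.const_mul z2
    calc _ ≤ ∫ t in (Ioc (t₀ - X) (t₀ + X))ᶜ, z2 * ((A * B) * (N : ℝ) ^ 5 * (Real.exp 1 *
          (Real.exp (-(X ^ 2 / (2 * Δ ^ 2))) * Real.exp (-((t - t₀) / (2 * Δ)) ^ 2)))) := by
          apply norm_integral_le_of_norm_le hg2.integrableOn
          rw [ae_restrict_iff' measurableSet_Ioc.compl]
          refine Eventually.of_forall fun t ht => ?_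
          refine (L1norm_Ph_le hA ha hB hc hS hb.le hb1 hΔ4 t).trans ?_
          gcongr
          apply L1tail_gauss hΔ0 hX
          rw [mem_compl_iff, mem_Ioc, not_and_or, not_lt, not_le] at ht
          rcases ht with h | h
          · rw [abs_sub_comm]
            exact le_trans (by linarith) (le_abs_self _)
          · exact le_trans (by linarith) (le_abs_self _)
      _ ≤ ∫ t : ℝ, z2 * ((A * B) * (N : ℝ) ^ 5 * (Real.exp 1 *
          (Real.exp (-(X ^ 2 / (2 * Δ ^ 2))) * Real.exp (-((t - t₀) / (2 * Δ)) ^ 2)))) := by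
          apply setIntegral_le_integral hg2
          exact Eventually.of_forall fun t => by positivity
      _ = _ := by
          rw [integral_const_mul, integral_const_mul, integral_const_mul, integral_const_mul,
            L1integral_gauss (by linarith)]
  have hN7 : (N : ℝ) ^ 7 ≤ (N : ℝ) ^ 12 := pow_le_pow_right₀ hN1 (by norm_num)
  have hN5 : (N : ℝ) ^ 5 ≤ (N : ℝ) ^ 12 := pow_le_pow_right₀ hN1 (by norm_num)
  set E1 := Real.exp (-(Δ ^ 2 / (32 * (N : ℝ) ^ 2))) with hE1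
  set E2 := Real.exp (-(X ^ 2 / (2 * Δ ^ 2))) with hE2
  have hE10 : 0 < E1 := Real.exp_pos _
  have hE20 : 0 < E2 := Real.exp_pos _
  calc _ ≤ ‖(∫ t in (t₀ - X)..(t₀ + X), Eint E a v b t₀ Δ N (pl 4 t)) -
        ∫ t, Eint E a v b t₀ Δ N (pl 4 t)‖ +
        ‖(∫ t, Eint E a v b t₀ Δ N (pl 4 t)) - ((Δ * Real.sqrt π : ℝ) : ℂ) * Dg c a v b N‖ := by
        refine le_trans (le_of_eq ?_) (norm_add_le _ _)
        congr 1
        ring
    _ ≤ z2 * ((A * B) * (N : ℝ) ^ 12 * (Real.exp 1 * (E2 * (2 * Δ * Real.sqrt π)))) +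
        ((A * B) * (Δ * Real.sqrt π)) * E1 * ((N : ℝ) ^ 12) * z2 := by
        refine add_le_add (htail.trans ?_) (hoff.trans ?_)
        · gcongr
        · gcongr
    _ = (A * B) * (N : ℝ) ^ 12 * Δ * ((z2 * Real.sqrt π) * E1 + (2 * z2 * Real.exp 1 * Real.sqrt π) * E2) := by
        ring
    _ ≤ (A * B) * (N : ℝ) ^ 12 * Δ * ((z2 * Real.sqrt π + 2 * z2 * Real.exp 1 * Real.sqrt π + 1) * E1 +
        (z2 * Real.sqrt π + 2 * z2 * Real.exp 1 * Real.sqrt π + 1) * E2) := by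
        have q1 : 0 ≤ z2 * Real.sqrt π := by positivity
        have q2 : 0 ≤ 2 * z2 * Real.exp 1 * Real.sqrt π := by positivity
        gcongr
        · linarith
        · linarith
    _ = _ := by ring

end Pool.Agent.MP_67227b_nt.Al
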