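import Pool.Agent.MP_67227b_nt.Al.AlDefs

set_option autoImplicit false

open Filter Topology Set MeasureTheory Complex
open scoped Real ArithmeticFunction ContDiff

namespace Pool.Agent.MP_67227b_nt.Al

open Pool.Agent.Lib.ZetaCount_helper33 Pool.Agent.MP_67227b_nt Pool.Agent.MP_67227b_nt.Mo
open Pool.Agent.MP_67227b_nt.Sg Pool.Agent.MP_67227b_nt.Pp

/-- MODULE S1. Points with at most `m` in every interval of length `a`. Sort the points
`x_0 ≤ x_1 ≤ ...` (e.g. `Finset.equivFin` and `Tuple.sort`, or `S.sort`): `x_{i+m} - x_i > a`, else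
`[x_i, x_i + a]` contains the `m+1` points `x_i, ..., x_{i+m}`. So in each of the classes of
`i mod m` the distances exceed `a`; apply `Pp.sum_sep` to the image of each class (on a class
the ordinates are distinct) and add the `m` inequalities. -/
theorem sum_sepM {ι : Type*} {m : ℕ} {a α b t : ℝ} (S : Finset ι) (g : ι → ℝ) (hm : 1 ≤ m)
    (hb : 0 < b) (hα : 0 < α) (ha : α < a)
    (h : ∀ x : ℝ, {i | i ∈ S ∧ g i ∈ Icc x (x + a)}.ncard ≤ m) :
    ∑ i ∈ S, ∫ y in (0 : ℝ)..α, b / (b ^ 2 + (t + y - g i) ^ 2) ≤
      m * (π - (a - α) * (b / (b ^ 2 + a ^ 2))) := by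
  classical
  let e : Fin S.card ≃ S := S.equivFin.symm
  let σ : Equiv.Perm (Fin S.card) := Tuple.sort (fun i => g (e i))
  let x : Fin S.card → ι := fun i => (e (σ i) : ι)
  have hmono : Monotone (fun i => g (x i)) := Tuple.monotone_sort (fun i => g (e i))
  have hinj : Function.Injective x := Subtype.val_injective.comp (e.injective.comp σ.injective)
  have hmem : ∀ i, x i ∈ S := fun i => (e (σ i)).2
  have hsum : ∀ F : ι → ℝ, ∑ i ∈ S, F i = ∑ i : Fin S.card, F (x i) := by
    intro F
    rw [← Finset.sum_coe_sort S F]
    exact (Equiv.sum_comp (σ.trans e) (fun s : S => F s)).symm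
  have hgap : ∀ i j : Fin S.card, i.val + m ≤ j.val → g (x i) + a < g (x j) := by
    intro i j hij
    by_contra hn
    push Not at hn
    have hc := h (g (x i))
    have hsub : (((Finset.Icc i j).image x : Finset ι) : Set ι) ⊆
        {k | k ∈ S ∧ g k ∈ Icc (g (x i)) (g (x i) + a)} := by
      intro k hk
      rw [Finset.mem_coe, Finset.mem_image] at hk
      obtain ⟨l, hl, rfl⟩ := hk
      rw [Finset.mem_Icc] at hl
      exact ⟨hmem l, hmono hl.1, (hmono hl.2).trans hn⟩
    have hfin : {k | k ∈ S ∧ g k ∈ Icc (g (x i)) (g (x i) + a)}.Finite :=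
      S.finite_toSet.subset (fun k hk => hk.1)
    have h1 := Set.ncard_le_ncard hsub hfin
    rw [Set.ncard_coe_finset, Finset.card_image_of_injective _ hinj, Fin.card_Icc] at h1
    omega
  rw [hsum (fun i => ∫ y in (0 : ℝ)..α, b / (b ^ 2 + (t + y - g i) ^ 2)),
    ← Finset.sum_fiberwise_of_maps_to (s := Finset.univ) (t := Finset.range m)
      (g := fun i : Fin S.card => i.val % m)
      (fun i _ => Finset.mem_range.2 (Nat.mod_lt _ hm))]
  calc _ ≤ ∑ r ∈ Finset.range m, (π - (a - α) * (b / (b ^ 2 + a ^ 2))) := by
        refine Finset.sum_le_sum fun r _ => ?_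
        have hlt : ∀ i j : Fin S.card, i.val % m = r → j.val % m = r → i < j →
            a < g (x j) - g (x i) := by
          intro i j hi hj hij
          have h1 : i.val ≡ j.val [MOD m] := hi.trans hj.symm
          have h2 := hgap i j (Nat.ModEq.add_le_of_lt h1 hij)
          linarith
        have hinjon : Set.InjOn (fun i : Fin S.card => g (x i))
            ((Finset.univ.filter (fun i : Fin S.card => i.val % m = r) : Finset _) : Set _) := by
          intro i hi j hj hij
          simp only [Finset.coe_filter, Finset.mem_univ, true_and, mem_ofPred_eq] at hi hj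
          simp only at hij
          rcases lt_trichotomy i j with h1 | h1 | h1
          · have := hlt i j hi hj h1
            linarith
          · exact h1
          · have := hlt j i hj hi h1
            linarith
        rw [← Finset.sum_image (f := fun y => ∫ z in (0 : ℝ)..α, b / (b ^ 2 + (t + z - y) ^ 2))
          hinjon]
        refine Pp.sum_sep hb hα ha ?_
        intro y hy z hz hyz
        rw [Finset.mem_image] at hy hz
        obtain ⟨i, hi, rfl⟩ := hy
        obtain ⟨j, hj, rfl⟩ := hz
        simp only [Finset.mem_filter, Finset.mem_univ, true_and] at hi hj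
        rcases lt_trichotomy i j with h1 | h1 | h1
        · rw [abs_sub_comm]
          exact lt_of_lt_of_le (hlt i j hi hj h1) (le_abs_self _)
        · exact absurd (by rw [h1]) hyz
        · exact lt_of_lt_of_le (hlt j i hj hi h1) (le_abs_self _)
    _ = m * (π - (a - α) * (b / (b ^ 2 + a ^ 2))) := by
        rw [Finset.sum_const, Finset.card_range, nsmul_eq_mul]

end Pool.Agent.MP_67227b_nt.Al
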