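import Pool.Agent.MP_67227b_nt.Al.AlIdx
import Pool.Agent.MP_67227b_nt.Al.AlSum

set_option autoImplicit false

open Filter Topology Set MeasureTheory Complex
open scoped Real ArithmeticFunction ContDiff

namespace Pool.Agent.MP_67227b_nt.Al

open Pool.Agent.Lib.ZetaCount_helper33 Pool.Agent.MP_67227b_nt Pool.Agent.MP_67227b_nt.Mo
open Pool.Agent.MP_67227b_nt.Sg Pool.Agent.MP_67227b_nt.Pp

/-- MODULE S2. Copy of `Pp.Th_sep` (Pp/PpSep.lean): split a finite set of zeros into far and near
ones; the near ones are turned into a finite set of indices with `exists_idx`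
(`f o = ∫_0^α b/(b²+(t+η-o)²) dη`, `Sg.SG5_subst`), to which `sum_sepM` applies (`SepM`; the
set of indices in `J ∩ Icc x (x+a)` is finite by `goodFamily_zeta.fin`, so the `ncard` of the subset is
at most `m`), `a = 2π lam/L`, giving `m (π - 2c)`; `m ≥ 1`. For large `T` the window is in
`(0, ∞)`. -/
theorem Th_sepM (hRH : RiemannHypothesis) {m : ℕ} {lam u β : ℝ} (hm : 1 ≤ m) (hu : 0 < u)
    (hul : u < lam) (hβ : 0 < β) : ∃ c C R₀ : ℝ, 0 < c ∧ 0 < C ∧ 0 < R₀ ∧ ∀ R : ℝ, R₀ ≤ R →
      ∀ᶠ T : ℝ in atTop, ∀ t ∈ Icc (T / 2) (3 * T),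
        SepM m (Icc (t - R / Real.log T) (t + R / Real.log T)) (2 * π * lam / Real.log T) →
        Th (2 * π * u / Real.log T) (β / Real.log T) t ≤
          m * π - c + C * Far (Real.log T) R t := by
  classical
  have hlu : 0 < lam - u := by linarith
  have hlam : 0 < lam := by linarith
  have hpi : 0 < π := Real.pi_pos
  obtain ⟨c, hc⟩ : ∃ c : ℝ, c = π * (lam - u) * β / (β ^ 2 + (2 * π * lam) ^ 2) := ⟨_, rfl⟩
  have hc0 : 0 < c := by rw [hc]; positivity
  refine ⟨c, 8 * π * u * β, 4 * π * u, hc0, by positivity, by positivity, fun R hR => ?_⟩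
  have hR0 : 0 < R := lt_of_lt_of_le (by positivity) hR
  have hlog : Tendsto Real.log atTop atTop := Real.tendsto_log_atTop
  filter_upwards [hlog.eventually_ge_atTop β, hlog.eventually_ge_atTop (2 * π * u),
    hlog.eventually_ge_atTop R, eventually_gt_atTop 4] with T hT1 hT2 hT3 hT4 t ht hsep
  set L := Real.log T with hL
  have hL0 : 0 < L := lt_of_lt_of_le hβ hT1
  set b := β / L with hb
  set α := 2 * π * u / L with hα
  set a := 2 * π * lam / L with ha
  have hb0 : 0 < b := by positivity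
  have hb1 : b ≤ 1 := (div_le_one hL0).2 hT1
  have hα0 : 0 < α := by positivity
  have hα1 : α ≤ 1 := (div_le_one hL0).2 hT2
  have hαa : α < a := by
    rw [hα, ha]
    apply div_lt_div_of_pos_right _ hL0
    nlinarith [Real.pi_pos]
  have ha0 : 0 < a := hα0.trans hαa
  have hRL : R / L ≤ 1 := (div_le_one hL0).2 hT3
  have hwin : 0 < t - R / L := by
    have := ht.1
    linarith
  -- the finite set
  set g : Zer → ℝ := fun z => mu z / (1 + (t - ord z) ^ 2) with hg
  have hgs : Summable g := summable_zer hRH t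
  obtain ⟨δ, hδ0, hδ2⟩ : ∃ δ : ℝ, 0 < δ ∧ α * (3 / b * δ) ≤ c := by
    refine ⟨c / (α * (3 / b)), by positivity, le_of_eq ?_⟩
    have h1 : 0 < α * (3 / b) := by positivity
    calc α * (3 / b * (c / (α * (3 / b)))) = α * (3 / b) * (c / (α * (3 / b))) := by ring
      _ = c := by rw [mul_div_assoc', mul_div_cancel_left₀ _ h1.ne']
  obtain ⟨S, hS⟩ : ∃ S : Finset Zer, ∑' z, g z - ∑ z ∈ S, g z < δ := by
    have h0 : Tendsto (fun S : Finset Zer => ∑ z ∈ S, g z) atTop (𝓝 (∑' z, g z)) := by
      have := hgs.hasSum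
      rw [HasSum, SummationFilter.unconditional_filter] at this
      exact this
    have h1 : ∀ᶠ S in (atTop : Filter (Finset Zer)), ∑' z, g z - δ < ∑ z ∈ S, g z :=
      h0.eventually_const_lt (by linarith)
    obtain ⟨S, hS⟩ := h1.exists
    exact ⟨S, by linarith⟩
  have hfin := SG5_fin hRH hb0 hb1 hα0.le hα1 (t := t) S
  -- split
  rw [← Finset.sum_filter_add_sum_filter_not S (fun z => R / L < |t - ord z|)] at hfin
  set S2 := S.filter (fun z => R / L < |t - ord z|) with hS2
  set S1 := S.filter (fun z => ¬ R / L < |t - ord z|) with hS1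
  have hfar : ∀ z ∈ S2, R / L < |t - ord z| := fun z hz => (Finset.mem_filter.1 hz).2
  have hnear : ∀ z ∈ S1, ord z ∈ Icc (t - R / L) (t + R / L) := by
    intro z hz
    have h1 := not_lt.1 (Finset.mem_filter.1 hz).2
    rw [abs_le] at h1
    exact ⟨by linarith [h1.2], by linarith [h1.1]⟩
  have hsum2 : ∑ z ∈ S2, mu z * (∫ x in (ord z - α)..(ord z), SG5_P b t x) ≤
      8 * π * u * β * Far L R t := by
    have hf : ∀ z ∈ S2, mu z * (∫ x in (ord z - α)..(ord z), SG5_P b t x) ≤
        8 * π * u * β *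
          (if R / L < |t - ord z| then mu z / (L * (t - ord z)) ^ 2 else 0) := by
      intro z hz
      rw [if_pos (hfar z hz)]
      have h1 := hfar z hz
      have h2 : 2 * α < |t - ord z| := by
        refine lt_of_le_of_lt ?_ h1
        rw [hα, mul_div_assoc']
        apply div_le_div_of_nonneg_right _ hL0.le
        linarith
      refine (mul_le_mul_of_nonneg_left (C2b_far hb0 hα0.le h2) (mu_nonneg z)).trans
        (le_of_eq ?_)
      have h3 : t - ord z ≠ 0 := abs_pos.1 (by linarith)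
      rw [hα, hb]
      field_simp
      ring
    refine (Finset.sum_le_sum hf).trans ?_
    rw [← Finset.mul_sum]
    refine mul_le_mul_of_nonneg_left ?_ (by positivity)
    unfold Far
    refine (C2b_sum hRH hL0 hR0 t).sum_le_tsum S2 fun z _ => ?_
    split_ifs
    · exact div_nonneg (mu_nonneg z) (sq_nonneg _)
    · exact le_rfl
  have hmain : (a - α) * (b / (b ^ 2 + a ^ 2)) = 2 * c := by
    rw [ha, hα, hb, hc]
    field_simp
  have hsum1 : ∑ z ∈ S1, mu z * (∫ x in (ord z - α)..(ord z), SG5_P b t x) ≤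
      m * π - 2 * c := by
    obtain ⟨S', hS'J, hS'⟩ := exists_idx hwin S1 hnear
    have e1 : ∑ z ∈ S1, mu z * (∫ x in (ord z - α)..(ord z), SG5_P b t x) =
        ∑ j ∈ S', ∫ y in (0 : ℝ)..α, b / (b ^ 2 + (t + y - zetaOrdinate j) ^ 2) := by
      rw [← hS' fun o => ∫ y in (0 : ℝ)..α, b / (b ^ 2 + (t + y - o) ^ 2)]
      refine Finset.sum_congr rfl fun z _ => ?_
      rw [SG5_subst hb0]
    have h1 := sum_sepM (t := t) S' zetaOrdinate hm hb0 hα0 hαa (by
      intro x
      refine le_trans (Set.ncard_le_ncard ?_ ?_) (hsep x)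
      · rintro j ⟨hj, hj2⟩
        exact ⟨hS'J j hj, hj2⟩
      · exact (goodFamily_zeta.fin (t + R / L)).subset fun j hj => hj.1.2)
    rw [e1]
    refine h1.trans ?_
    rw [hmain]
    have hm1 : (1 : ℝ) ≤ m := by exact_mod_cast hm
    nlinarith
  have hlast : α * (3 / b * (∑' z, g z - ∑ z ∈ S, g z)) ≤ c := by
    refine le_trans ?_ hδ2
    apply mul_le_mul_of_nonneg_left _ hα0.le
    exact mul_le_mul_of_nonneg_left hS.le (by positivity)
  linarith

end Pool.Agent.MP_67227b_nt.Al
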