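import Pool.Agent.MP_67227b_nt.Al.AlMeas
import Pool.Agent.MP_67227b_nt.Al.AlThS
import Pool.Agent.MP_67227b_nt.Al.AlCov

set_option autoImplicit false

open Filter Topology Set MeasureTheory Complex
open scoped Real ArithmeticFunction ContDiff

namespace Pool.Agent.MP_67227b_nt.Al

open Pool.Agent.Lib.ZetaCount_helper33 Pool.Agent.MP_67227b_nt Pool.Agent.MP_67227b_nt.Mo
open Pool.Agent.MP_67227b_nt.Sg Pool.Agent.MP_67227b_nt.Pp

/-- From a gain to a positive proportion of tuples in windows. -/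
theorem pos_prop_of_gain (hRH : RiemannHypothesis) {m : ℕ} {lam u θ κ : ℝ} (hm : 1 ≤ m)
    (hu : 0 < u) (hul : u < lam) (hθ0 : 0 < θ) (hθ1 : θ ≤ 1) (hκ : 0 < κ) (hκθ : κ < θ)
    (hG : Gain (-1) u κ (-1 * (u - m))) :
    ∃ c : ℝ, 0 < c ∧ ∀ᶠ T : ℝ in atTop, c * (T ^ θ * Real.log T) ≤
      ((windowTuples m T (T ^ θ) lam).ncard : ℝ) := by
  have hlam0 : 0 < lam := hu.trans hul
  obtain ⟨β, c₃, hβ, hc₃, hE⟩ := meas_al hRH (Or.inr rfl) hu hκ hκθ hθ1 hG
  obtain ⟨cs, C, R₀, hcs, hC, hR₀, hS⟩ := Th_sepM hRH hm hu hul hβ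
  obtain ⟨C₂, hC₂, hF⟩ := Far_mean_w hRH (θ := θ / 2) (by linarith) (by linarith)
  set R := max (max R₀ 1) (4 * C * C₂ / (cs * c₃)) with hRdef
  have hRR₀ : R₀ ≤ R := (le_max_left _ _).trans (le_max_left _ _)
  have hR1 : 1 ≤ R := (le_max_right _ _).trans (le_max_left _ _)
  have hR2 : 4 * C * C₂ / (cs * c₃) ≤ R := le_max_right _ _
  have hR0 : 0 < R := by linarith
  obtain ⟨c', hc', hP⟩ := tuples_of_meas_w (m := m) (lam := lam) (R := R) (c := c₃ / 2)
    hlam0 hR0 (by linarith)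
  refine ⟨c' / 4, by positivity, ?_⟩
  have ev1 : ∀ᶠ T : ℝ in atTop, (16 : ℝ) ≤ T ^ (θ / 2) :=
    (tendsto_rpow_atTop (by linarith : 0 < θ / 2)).eventually_ge_atTop 16
  filter_upwards [hE, hF R hR1, hS R hRR₀, hP, ev1, eventually_gt_atTop 1] with T h1 h2 h3 h4 h16
    hT1
  have hT : 0 < T := by linarith
  have hH2 : T ^ θ = T ^ (θ / 2) * T ^ (θ / 2) := by
    rw [← Real.rpow_add hT, add_halves]
  have hHT : T ^ θ ≤ T := by
    calc T ^ θ ≤ T ^ (1 : ℝ) := Real.rpow_le_rpow_of_exponent_le hT1.le hθ1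
      _ = T := Real.rpow_one T
  set H : ℝ := T ^ θ with hH
  have hH16 : 16 * T ^ (θ / 2) ≤ H := by
    rw [hH2]
    gcongr
  have hH256 : 256 ≤ H := by linarith
  set A : ℝ := T - 3 / 8 * H with hA
  set W : ℝ := H / 4 with hW
  have hW0 : 0 ≤ W := by linarith
  have h1' := h1 A W (by linarith) (by linarith) (by linarith)
  have h2' := h2 A W (by linarith) (by linarith) (by linarith)
  have hsubI : Icc A (A + W) ⊆ Icc (T / 2) (3 * T) := Icc_subset_Icc (by linarith) (by linarith)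
  have h5 : c₃ / 2 * W ≤ volume.real {t ∈ Icc A (A + W) |
      ¬ SepM m (Icc (t - R / Real.log T) (t + R / Real.log T))
        (2 * π * lam / Real.log T)} := by
    have hMk := Far_markov_w hW0 (ε := cs / C) (by positivity) h2'.1 h2'.2
    have hsub : {t ∈ Icc A (A + W) |
        -1 * (Th (2 * π * u / Real.log T) (β / Real.log T) t - m * π) < 0} ⊆
        {t ∈ Icc A (A + W) | ¬ SepM m (Icc (t - R / Real.log T) (t + R / Real.log T))
          (2 * π * lam / Real.log T)} ∪
        {t ∈ Icc A (A + W) | cs / C ≤ Far (Real.log T) R t} := by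
      rintro t ⟨ht, hth⟩
      by_cases hsep : SepM m (Icc (t - R / Real.log T) (t + R / Real.log T))
          (2 * π * lam / Real.log T)
      · right
        refine ⟨ht, ?_⟩
        have h5 := h3 t (hsubI ht) hsep
        rw [div_le_iff₀ (by positivity)]
        linarith
      · left
        exact ⟨ht, hsep⟩
    have hfin : volume (Icc A (A + W)) ≠ ⊤ := by
      rw [Real.volume_Icc]
      exact ENNReal.ofReal_ne_top
    have h6 := (measureReal_mono hsub (measure_union_ne_top
      (measure_ne_top_of_subset (fun x hx => hx.1) hfin)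
      (measure_ne_top_of_subset (fun x hx => hx.1) hfin))).trans (measureReal_union_le _ _)
    have h7 : C₂ * W / R / (cs / C) ≤ c₃ / 2 * W := by
      rw [div_div, div_le_iff₀ (by positivity)]
      have h8 : 4 * C * C₂ ≤ R * (cs * c₃) := by
        rwa [div_le_iff₀ (by positivity)] at hR2
      have h9 : c₃ / 2 * W * (R * (cs / C)) = R * (cs * c₃) * W / (2 * C) := by
        field_simp
      rw [h9, le_div_iff₀ (by positivity)]
      nlinarith [mul_nonneg hC₂.le hC.le, mul_nonneg (mul_nonneg hC₂.le hC.le) hW0]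
    linarith
  have h6 := h4 H A W (by linarith) hW0 (by linarith) (by linarith) h5
  refine le_trans (le_of_eq ?_) h6
  rw [hW]
  ring

end Pool.Agent.MP_67227b_nt.Al
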