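import Pool.Agent.MP_67227b_nt.Al.AlDefs

set_option autoImplicit false

open Filter Topology Set MeasureTheory Complex
open scoped Real ArithmeticFunction ContDiff

namespace Pool.Agent.MP_67227b_nt.Al

open Pool.Agent.Lib.ZetaCount_helper33 Pool.Agent.MP_67227b_nt Pool.Agent.MP_67227b_nt.Mo
open Pool.Agent.MP_67227b_nt.Sg Pool.Agent.MP_67227b_nt.Pp

/-- MODULE H2a. `Th = ∫_0^α ∑_z mu z b/(b² + (t+y-γ)²) dy` (`Sg.hasSum_reF`), and
`b/(b²+x²) ≤ (L/β) max(1, β²)/(1 + (Lx)²)`, so `Re (xi'/xi) ≤ C L Mk L 1 (t+y) ≤ C' L Mk L 1 t`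
(`Pp.Mk_shift` with `k = 1`, `A = 2πu`); integrate over `[0, α]`, `α L = 2πu`. -/
theorem Th_le_Mk (hRH : RiemannHypothesis) {u β : ℝ} (hu : 0 < u) (hβ : 0 < β) :
    ∃ C : ℝ, 0 < C ∧ ∀ T : ℝ, 1 < T → ∀ t : ℝ,
      Th (2 * π * u / Real.log T) (β / Real.log T) t ≤ C * Mk (Real.log T) 1 t := by
  refine ⟨2 * π * u * ((β + 1 / β) * (2 + 2 * (2 * π * u) ^ 2)), by positivity,
    fun T hT t => ?_⟩
  have hL : 0 < Real.log T := Real.log_pos hT
  set L := Real.log T with hLdef
  have hα : 0 ≤ 2 * π * u / L := by positivity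
  have hb : 0 < β / L := by positivity
  have key : ∀ y ∈ Icc (0 : ℝ) (2 * π * u / L), (logDeriv xi (pl (1 / 2 + β / L) (t + y))).re ≤
      (β + 1 / β) * L * ((2 + 2 * (2 * π * u) ^ 2) * Mk L 1 t) := by
    intro y hy
    have h1 := hasSum_reF hRH hb (t + y)
    have h2 := (summable_Mk hRH hL one_pos (t + y)).hasSum.mul_left ((β + 1 / β) * L)
    have h3 : (logDeriv xi (pl (1 / 2 + β / L) (t + y))).re ≤
        (β + 1 / β) * L * Mk L 1 (t + y) := by
      refine hasSum_le (fun z => ?_) h1 h2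
      have hm := mu_nonneg z
      have e1 : (β + 1 / β) * L * (mu z / (1 + (L * (t + y - ord z) / 1) ^ 2)) =
          mu z * ((β + 1 / β) * L / (1 + (L * (t + y - ord z)) ^ 2)) := by
        rw [div_one]; ring
      rw [e1]
      refine mul_le_mul_of_nonneg_left ?_ hm
      set x := t + y - ord z with hx
      have e2 : β / L / ((β / L) ^ 2 + x ^ 2) = β * L / (β ^ 2 + (L * x) ^ 2) := by
        have : 0 < (β / L) ^ 2 + x ^ 2 := by positivity
        have : 0 < β ^ 2 + (L * x) ^ 2 := by positivity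
        field_simp
      rw [e2, div_le_div_iff₀ (by positivity) (by positivity)]
      have e3 : (β + 1 / β) * L * (β ^ 2 + (L * x) ^ 2) - β * L * (1 + (L * x) ^ 2) =
          L * (β ^ 3 + (L * x) ^ 2 / β) := by
        field_simp
        ring
      have e4 : 0 ≤ L * (β ^ 3 + (L * x) ^ 2 / β) := by positivity
      linarith
    have h4 := Mk_shift hRH (L := L) (k := 1) (A := 2 * π * u) (y := y) (t := t) hL le_rfl
      (by positivity) (by rw [abs_of_nonneg hy.1]; exact hy.2)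
    refine h3.trans ?_
    exact mul_le_mul_of_nonneg_left h4 (by positivity)
  have h5 : Th (2 * π * u / L) (β / L) t ≤ ∫ _y in (0 : ℝ)..(2 * π * u / L),
      (β + 1 / β) * L * ((2 + 2 * (2 * π * u) ^ 2) * Mk L 1 t) := by
    unfold Th
    exact intervalIntegral.integral_mono_on hα ((SG5_cont hRH hb t).intervalIntegrable _ _)
      intervalIntegrable_const key
  refine h5.trans (le_of_eq ?_)
  rw [intervalIntegral.integral_const, smul_eq_mul, sub_zero]
  field_simp

/-- `Th ≥ 0` (private lemma `C1_Th_nonneg` in Pp/PpArg.lean). -/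
theorem Th_nonneg (hRH : RiemannHypothesis) {α b : ℝ} (hα : 0 ≤ α) (hb : 0 < b) (t : ℝ) :
    0 ≤ Th α b t := by
  unfold Th
  apply intervalIntegral.integral_nonneg hα
  intro η _
  refine (hasSum_reF hRH hb (t + η)).nonneg ?_
  intro z
  have h1 : 0 ≤ mu z := mu_nonneg z
  positivity

end Pool.Agent.MP_67227b_nt.Al
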