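import Pool.Agent.MP_67227b_nt.Al.AlWt

set_option autoImplicit false

open Filter Topology Set MeasureTheory Complex
open scoped Real ArithmeticFunction ContDiff

namespace Pool.Agent.MP_67227b_nt.Al

open Pool.Agent.Lib.ZetaCount_helper33 Pool.Agent.MP_67227b_nt Pool.Agent.MP_67227b_nt.Mo
open Pool.Agent.MP_67227b_nt.Sg Pool.Agent.MP_67227b_nt.Pp

private theorem var_mean (P : Finset ℕ) (r l : ℕ → ℝ) (hr : ∀ p ∈ P, 0 ≤ r p) :
    ∑ s ∈ P.powerset, (∏ p ∈ s, r p) *
      ((∑ p ∈ s, l p) - ∑ p ∈ P, l p * (r p / (1 + r p))) = 0 := by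
  induction P using Finset.induction_on with
  | empty => simp
  | insert a P ha ih =>
    have ih' := ih (fun p hp => hr p (Finset.mem_insert_of_mem hp))
    have hra := hr a (Finset.mem_insert_self a P)
    have h1 : (1 + r a) ≠ 0 := by positivity
    rw [Finset.sum_powerset_insert ha, Finset.sum_insert ha]
    have h2 : ∀ s ∈ P.powerset, (∏ p ∈ insert a s, r p) *
        ((∑ p ∈ insert a s, l p) - (l a * (r a / (1 + r a)) + ∑ p ∈ P, l p * (r p / (1 + r p))))
        = r a * ((∏ p ∈ s, r p) * ((∑ p ∈ s, l p) - ∑ p ∈ P, l p * (r p / (1 + r p))))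
          + (r a * (l a / (1 + r a))) * (∏ p ∈ s, r p) := by
      intro s hs
      have has : a ∉ s := fun h => ha (Finset.mem_powerset.mp hs h)
      rw [Finset.prod_insert has, Finset.sum_insert has]
      field_simp
      ring
    have h3 : ∀ s ∈ P.powerset, (∏ p ∈ s, r p) *
        ((∑ p ∈ s, l p) - (l a * (r a / (1 + r a)) + ∑ p ∈ P, l p * (r p / (1 + r p))))
        = ((∏ p ∈ s, r p) * ((∑ p ∈ s, l p) - ∑ p ∈ P, l p * (r p / (1 + r p))))
          - (r a * (l a / (1 + r a))) * (∏ p ∈ s, r p) := by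
      intro s _
      ring
    rw [Finset.sum_congr rfl h2, Finset.sum_congr rfl h3, Finset.sum_add_distrib,
      Finset.sum_sub_distrib, ← Finset.mul_sum, ← Finset.mul_sum, ih']
    ring

private theorem prod_one_add (P : Finset ℕ) (r : ℕ → ℝ) :
    ∑ s ∈ P.powerset, (∏ p ∈ s, r p) = ∏ p ∈ P, (1 + r p) := by
  rw [Finset.prod_one_add]

/-- MODULE F6a. The second moment for the product measure: for a finite set `P` of primes, under the
measure with weights `w(n)/n` on the squarefree numbers with all prime factors in `P` (i.e. on the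
subsets of `P`), the function `log n` is a sum of independent variables, so with
`E = ∑_{p ∈ P} log p · (v p/p)/(1 + v p/p)`:
`∑_{s ⊆ P} (∏_{p ∈ s} v p/p) (∑_{p ∈ s} log p - E)² = ∏_{p ∈ P} (1 + v p/p) ·
∑_p (log p)² (v p/p)/(1 + v p/p)²`. Induction on `P` (general real numbers `r p = v p/p ≥ 0`,
`l p = log p`). -/
theorem var_powerset {P : Finset ℕ} {r l : ℕ → ℝ} (hr : ∀ p ∈ P, 0 ≤ r p) :
    ∑ s ∈ P.powerset, (∏ p ∈ s, r p) *
      ((∑ p ∈ s, l p) - ∑ p ∈ P, l p * (r p / (1 + r p))) ^ 2 =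
      (∏ p ∈ P, (1 + r p)) * ∑ p ∈ P, l p ^ 2 * (r p / (1 + r p) ^ 2) := by
  induction P using Finset.induction_on with
  | empty => simp
  | insert a P ha ih =>
    have ih' := ih (fun p hp => hr p (Finset.mem_insert_of_mem hp))
    have hm := var_mean P r l (fun p hp => hr p (Finset.mem_insert_of_mem hp))
    have hp1 := prod_one_add P r
    have hra := hr a (Finset.mem_insert_self a P)
    have h1 : (1 + r a) ≠ 0 := by positivity
    rw [Finset.sum_powerset_insert ha, Finset.sum_insert ha, Finset.sum_insert ha,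
      Finset.prod_insert ha]
    have h2 : ∀ s ∈ P.powerset, (∏ p ∈ insert a s, r p) *
        ((∑ p ∈ insert a s, l p) -
          (l a * (r a / (1 + r a)) + ∑ p ∈ P, l p * (r p / (1 + r p)))) ^ 2
        = r a * ((∏ p ∈ s, r p) *
            ((∑ p ∈ s, l p) - ∑ p ∈ P, l p * (r p / (1 + r p))) ^ 2)
          + (2 * r a * (l a / (1 + r a))) * ((∏ p ∈ s, r p) *
            ((∑ p ∈ s, l p) - ∑ p ∈ P, l p * (r p / (1 + r p))))
          + (r a * (l a / (1 + r a)) ^ 2) * (∏ p ∈ s, r p) := by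
      intro s hs
      have has : a ∉ s := fun h => ha (Finset.mem_powerset.mp hs h)
      rw [Finset.prod_insert has, Finset.sum_insert has]
      have h4 : l a + ∑ p ∈ s, l p -
          (l a * (r a / (1 + r a)) + ∑ p ∈ P, l p * (r p / (1 + r p)))
          = l a / (1 + r a) + ((∑ p ∈ s, l p) - ∑ p ∈ P, l p * (r p / (1 + r p))) := by
        field_simp
        ring
      rw [h4]
      ring
    have h3 : ∀ s ∈ P.powerset, (∏ p ∈ s, r p) *
        ((∑ p ∈ s, l p) -
          (l a * (r a / (1 + r a)) + ∑ p ∈ P, l p * (r p / (1 + r p)))) ^ 2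
        = ((∏ p ∈ s, r p) * ((∑ p ∈ s, l p) - ∑ p ∈ P, l p * (r p / (1 + r p))) ^ 2)
          - (2 * (l a * (r a / (1 + r a)))) * ((∏ p ∈ s, r p) *
            ((∑ p ∈ s, l p) - ∑ p ∈ P, l p * (r p / (1 + r p))))
          + (l a * (r a / (1 + r a))) ^ 2 * (∏ p ∈ s, r p) := by
      intro s _
      ring
    rw [Finset.sum_congr rfl h2, Finset.sum_congr rfl h3]
    simp only [Finset.sum_add_distrib, Finset.sum_sub_distrib, ← Finset.mul_sum]
    rw [ih', hm, hp1]
    field_simp
    ring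

end Pool.Agent.MP_67227b_nt.Al
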